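import Pool.Agent.SplTr.Wall

set_option autoImplicit false

/-!
# The parts give the theorem
-/

namespace Pool.Agent.SplTr

open Pool.Agent.SplLog Pool.Agent.SplLs Pool.Agent.SplDq
open scoped Classical

variable {S : Sys} {r r' : Rnd}

theorem cnt_mono {P Q : ℕ → ℕ → Prop} (h : ∀ t v, t < S.m → v ∈ S.K → P t v → Q t v) :
    S.cnt P ≤ S.cnt Q := by
  apply Finset.card_le_card
  intro q hq
  rw [Sys.mem_set] at hq ⊢
  exact ⟨hq.1, hq.2.1, h _ _ hq.1 hq.2.1 hq.2.2⟩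

theorem cnt_or (P Q : ℕ → ℕ → Prop) :
    S.cnt (fun t v => P t v ∨ Q t v) ≤ S.cnt P + S.cnt Q := by
  refine le_trans (Finset.card_le_card ?_) (Finset.card_union_le _ _)
  intro q hq
  rw [Finset.mem_union, Sys.mem_set, Sys.mem_set]
  rw [Sys.mem_set] at hq
  rcases hq.2.2 with h | h
  · exact Or.inl ⟨hq.1, hq.2.1, h⟩
  · exact Or.inr ⟨hq.1, hq.2.1, h⟩

theorem rd_lt (h : Rd S r) : r.t < S.m := h.kl.1.1

theorem rd_gK (h : Rd S r) : r.g ∈ S.K := h.kl.1.2.1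

/-- The time of the last kill and the key determine the time of the kill. -/
theorem rd_t_eq (h : Rd S r) (h' : Rd S r') (hs : r.s = r'.s) (hg : r.g = r'.g) : r.t = r'.t := by
  rcases Nat.lt_trichotomy r.t r'.t with h1 | h1 | h1
  · exfalso
    have h2 := h'.ne r.t (by rw [← hs]; exact h.st) h1 (by rw [← hg]; exact Sys.R_E h.kl.1)
    rw [← hg] at h2
    exact Sys.not_kp_kl h2.2.1 h.kl
  · exact h1
  · exfalso
    have h2 := h.ne r'.t (by rw [hs]; exact h'.st) h1 (by rw [hg]; exact Sys.R_E h'.kl.1)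
    rw [hg] at h2
    exact Sys.not_kp_kl h2.2.1 h'.kl

/-- If `F0` fails, then the last kill is near: kills on the right side. -/
theorem near_of_not_F0 (hS : Spl S) (h : Rd S r) (hF : ¬ F0 S r) (hk : S.Kl r.s r.g r.q) :
    NI S FM r.s r.g := by
  refine ⟨r.q, hk, Or.inl ?_⟩
  have hU : ¬ Seen S r.s r.g := fun h1 => h.gU (seen_mono h1 h.st.le)
  have h1 := (walls_R hS hk.1 hU).1
  unfold F0 at hF
  rw [h1] at hF
  have h2 := (Sys.kl_facts hk).2.1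
  unfold FM
  omega

/-- If `F0` fails, then the last kill is near: kills on the left side. -/
theorem near_of_not_F0' (hS : Spl S) (h : Rd S r) (hF : ¬ F0 S r) (hk : Kr S r.s r.g r.h)
    (hq : S.lam (r.s + 1) r.g = r.q) :
    NI S.mir FM r.s (S.top - r.g) := by
  have hg := rd_gK h
  have hh := kr_mem hk
  have hs : r.s < S.m := hk.1.1
  refine ⟨S.top - r.h, (kr_mir hg hh).2 hk, Or.inr (Or.inr ?_)⟩
  have hU : ¬ Seen S r.s r.g := fun h1 => h.gU (seen_mono h1 h.st.le)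
  have h1 := (walls_L hS hk.1 hU).1
  unfold F0 at hF
  rw [h1] at hF
  have h2 := (kr_facts hk).2.2.2.2.2.2
  have h3 := S.key _ hg
  have h4 := S.lam_lt (r.s + 1) (by omega) r.g hg
  have h5 := S.key _ (S.req r.s hs)
  have h6 : lw S r.s ≤ S.X r.s := zl_le S _ _
  rw [rw_mir hs, Sys.mir_rho hg, ← h2, hq]
  rw [hq] at h4
  unfold FM
  omega

/-- A pair has a round. -/
def HasRd (S : Sys) (P : Rnd → Prop) (t g : ℕ) : Prop := ∃ r, Rd S r ∧ P r ∧ r.t = t ∧ r.g = g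

theorem cnt_p2 (hS : Spl S) :
    S.cnt (HasRd S (fun r => ¬ F0 S r ∧ S.Kl r.s r.g r.q)) ≤ S.cnt (NI S FM) := by
  have hch : ∀ t g, ∃ r : Rnd, HasRd S (fun r => ¬ F0 S r ∧ S.Kl r.s r.g r.q) t g →
      Rd S r ∧ (¬ F0 S r ∧ S.Kl r.s r.g r.q) ∧ r.t = t ∧ r.g = g := by
    intro t g
    by_cases h : HasRd S (fun r => ¬ F0 S r ∧ S.Kl r.s r.g r.q) t g
    · obtain ⟨r, hr⟩ := h
      exact ⟨r, fun _ => hr⟩
    · exact ⟨⟨0, 0, 0, 0, 0, 0, 0⟩, fun h' => absurd h' h⟩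
  choose f hf using hch
  refine Sys.cnt_le_of_inj (S.set (NI S FM)) (fun t g => ((f t g).s, g)) ?_ ?_
  · intro t g _ hg h
    obtain ⟨h1, h2, h3, h4⟩ := hf t g h
    rw [Sys.mem_set]
    have h5 := near_of_not_F0 hS h1 h2.1 h2.2
    rw [h4] at h5
    exact ⟨h2.2.1.1, hg, h5⟩
  · intro t g t' g' _ _ h _ _ h' he
    obtain ⟨h1, h2, h3, h4⟩ := hf t g h
    obtain ⟨h1', h2', h3', h4'⟩ := hf t' g' h'
    simp only [Prod.mk.injEq] at he
    obtain ⟨e1, e2⟩ := he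
    refine ⟨?_, e2⟩
    rw [← h3, ← h3']
    exact rd_t_eq h1 h1' e1 (by rw [h4, h4', e2])

theorem cnt_p3 (hS : Spl S) :
    S.cnt (HasRd S (fun r => ¬ F0 S r ∧ Kr S r.s r.g r.h ∧ S.lam (r.s + 1) r.g = r.q)) ≤
      S.mir.cnt (NI S.mir FM) := by
  have hch : ∀ t g, ∃ r : Rnd,
      HasRd S (fun r => ¬ F0 S r ∧ Kr S r.s r.g r.h ∧ S.lam (r.s + 1) r.g = r.q) t g →
      Rd S r ∧ (¬ F0 S r ∧ Kr S r.s r.g r.h ∧ S.lam (r.s + 1) r.g = r.q) ∧ r.t = t ∧
        r.g = g := by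
    intro t g
    by_cases h : HasRd S (fun r => ¬ F0 S r ∧ Kr S r.s r.g r.h ∧ S.lam (r.s + 1) r.g = r.q) t g
    · obtain ⟨r, hr⟩ := h
      exact ⟨r, fun _ => hr⟩
    · exact ⟨⟨0, 0, 0, 0, 0, 0, 0⟩, fun h' => absurd h' h⟩
  choose f hf using hch
  refine Sys.cnt_le_of_inj (S.mir.set (NI S.mir FM)) (fun t g => ((f t g).s, S.top - g)) ?_ ?_
  · intro t g _ hg h
    obtain ⟨h1, h2, h3, h4⟩ := hf t g h
    rw [Sys.mem_set]
    have h5 := near_of_not_F0' hS h1 h2.1 h2.2.1 h2.2.2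
    rw [h4] at h5
    exact ⟨h2.2.1.1.1, Sys.mir_mem.2 ⟨g, hg, rfl⟩, h5⟩
  · intro t g t' g' _ hg h _ hg' h' he
    obtain ⟨h1, h2, h3, h4⟩ := hf t g h
    obtain ⟨h1', h2', h3', h4'⟩ := hf t' g' h'
    simp only [Prod.mk.injEq] at he
    obtain ⟨e1, e2⟩ := he
    have k1 := S.key g hg
    have k2 := S.key g' hg'
    have e3 : g = g' := by omega
    refine ⟨?_, e3⟩
    rw [← h3, ← h3']
    exact rd_t_eq h1 h1' e1 (by rw [h4, h4', e3])

/-- The sum of `1 / (k + 1)^2`. -/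
theorem sum_sq (n : ℕ) : ∑ k ∈ Finset.range n, (1 : ℚ) / ((k : ℚ) + 1) ^ 2 ≤ 2 := by
  have h : ∀ n : ℕ, ∑ k ∈ Finset.range (n + 1), (1 : ℚ) / ((k : ℚ) + 1) ^ 2 ≤
      2 - 1 / ((n : ℚ) + 1) := by
    intro n
    induction n with
    | zero => norm_num
    | succ n ih =>
      rw [Finset.sum_range_succ]
      have h1 : (1 : ℚ) / (((n + 1 : ℕ) : ℚ) + 1) ^ 2 ≤
          1 / ((n : ℚ) + 1) - 1 / (((n + 1 : ℕ) : ℚ) + 1) := by
        push_cast
        rw [div_sub_div _ _ (by positivity) (by positivity),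
          div_le_div_iff₀ (by positivity) (by positivity)]
        nlinarith [(Nat.cast_nonneg n : (0 : ℚ) ≤ n)]
      linarith
  rcases n with _ | n
  · simp
  · have h1 := h n
    have h2 : (0 : ℚ) ≤ 1 / ((n : ℚ) + 1) := by positivity
    linarith

/-- A finite set which is split by scales, each part covered by 24 classes. -/
theorem scales {A B : ℕ} (D : Finset Rnd) (sc : Rnd → ℕ)
    (h : ∀ k, A * (k + 1) ^ 2 * (D.filter (fun r => sc r = k)).card ≤ 24 * B) :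
    A * D.card ≤ 48 * B := by
  obtain ⟨n, hn⟩ : ∃ n, ∀ r ∈ D, sc r < n := by
    refine ⟨D.sup sc + 1, fun r hr => ?_⟩
    have := Finset.le_sup (f := sc) hr
    omega
  have h1 : D.card = ∑ k ∈ Finset.range n, (D.filter (fun r => sc r = k)).card :=
    Finset.card_eq_sum_card_fiberwise (fun r hr => Finset.mem_coe.2 (Finset.mem_range.2 (hn r hr)))
  have h2 : ∀ k : ℕ, (A : ℚ) * ((D.filter (fun r => sc r = k)).card : ℚ) ≤
      24 * B * (1 / ((k : ℚ) + 1) ^ 2) := by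
    intro k
    have h3 : ((A * (k + 1) ^ 2 * (D.filter (fun r => sc r = k)).card : ℕ) : ℚ) ≤
        ((24 * B : ℕ) : ℚ) := by exact_mod_cast h k
    push_cast at h3
    have h4 : (0 : ℚ) < ((k : ℚ) + 1) ^ 2 := by positivity
    rw [mul_one_div, le_div_iff₀ h4]
    linarith
  have h3 : (A : ℚ) * (D.card : ℚ) ≤ 48 * B := by
    rw [h1]
    push_cast
    rw [Finset.mul_sum]
    calc ∑ k ∈ Finset.range n, (A : ℚ) * ((D.filter (fun r => sc r = k)).card : ℚ)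
        ≤ ∑ k ∈ Finset.range n, 24 * B * (1 / ((k : ℚ) + 1) ^ 2) :=
          Finset.sum_le_sum (fun k _ => h2 k)
      _ = 24 * B * ∑ k ∈ Finset.range n, (1 : ℚ) / ((k : ℚ) + 1) ^ 2 := by
          rw [← Finset.mul_sum]
      _ ≤ 24 * B * 2 := mul_le_mul_of_nonneg_left (sum_sq n) (by positivity)
      _ = 48 * B := by ring
  exact_mod_cast h3

/-- Covered by 24 classes. -/
theorem cover_le {A B k : ℕ} {F : Finset Rnd} {P : Fin 24 → Finset Rnd}
    (h1 : ∀ r ∈ F, ∃ i, r ∈ P i) (h2 : ∀ i, A * (k + 1) ^ 2 * (P i).card ≤ B) :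
    A * (k + 1) ^ 2 * F.card ≤ 24 * B := by
  have h3 : F.card ≤ ∑ i, (P i).card := by
    refine le_trans (Finset.card_le_card ?_) (Finset.card_biUnion_le (s := Finset.univ) (t := P))
    intro r hr
    obtain ⟨i, hi⟩ := h1 r hr
    exact Finset.mem_biUnion.2 ⟨i, Finset.mem_univ _, hi⟩
  calc A * (k + 1) ^ 2 * F.card ≤ A * (k + 1) ^ 2 * ∑ i, (P i).card := Nat.mul_le_mul_left _ h3
    _ = ∑ i, A * (k + 1) ^ 2 * (P i).card := Finset.mul_sum _ _ _
    _ ≤ ∑ _i : Fin 24, B := Finset.sum_le_sum (fun i _ => h2 i)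
    _ = 24 * B := by simp

/-- Pairs with rounds in classes. -/
theorem cnt_far (P : Rnd → Prop) (sc : Rnd → ℕ) {A B : ℕ}
    (h : ∀ (k : ℕ) (F : Finset Rnd), (∀ r ∈ F, Rd S r ∧ P r ∧ sc r = k) →
      A * (k + 1) ^ 2 * F.card ≤ 24 * B) :
    A * S.cnt (HasRd S P) ≤ 48 * B := by
  have hch : ∀ t g, ∃ r : Rnd, HasRd S P t g → Rd S r ∧ P r ∧ r.t = t ∧ r.g = g := by
    intro t g
    by_cases h : HasRd S P t g
    · obtain ⟨r, hr⟩ := h
      exact ⟨r, fun _ => hr⟩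
    · exact ⟨⟨0, 0, 0, 0, 0, 0, 0⟩, fun h' => absurd h' h⟩
  choose f hf using hch
  set D : Finset Rnd := (S.set (HasRd S P)).image (fun q => f q.1 q.2) with hD
  have h1 : S.cnt (HasRd S P) = D.card := by
    rw [hD, Finset.card_image_of_injOn]
    · rfl
    · rintro ⟨t, g⟩ hq ⟨t', g'⟩ hq' he
      rw [Finset.mem_coe, Sys.mem_set] at hq hq'
      simp only at he
      obtain ⟨_, _, h3, h4⟩ := hf t g hq.2.2
      obtain ⟨_, _, h3', h4'⟩ := hf t' g' hq'.2.2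
      rw [he] at h3 h4
      have e1 : t = t' := h3.symm.trans h3'
      have e2 : g = g' := h4.symm.trans h4'
      rw [e1, e2]
  have h2 : ∀ r ∈ D, Rd S r ∧ P r := by
    intro r hr
    rw [hD, Finset.mem_image] at hr
    obtain ⟨q, hq, rfl⟩ := hr
    rw [Sys.mem_set] at hq
    obtain ⟨h3, h4, _⟩ := hf q.1 q.2 hq.2.2
    exact ⟨h3, h4⟩
  rw [h1]
  apply scales D sc
  intro k
  apply h k
  intro r hr
  rw [Finset.mem_filter] at hr
  exact ⟨(h2 r hr.1).1, (h2 r hr.1).2, hr.2⟩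

/-- One side. -/
theorem one_side (h2 : ClsS) (h2' : ClsF) (h3 : ClsCard) (h5 : NearLe) (A : ℕ) :
    ∃ C : ℕ, ∀ S : Sys, Good S →
      A * S.cnt (fun t g => ∃ r, Rd S r ∧ (Same S r ∨ Flip S r) ∧ r.t = t ∧ r.g = g) ≤
        99 * tch S + C * (S.top + irr S) := by
  obtain ⟨C1, hC1⟩ := h3 A
  obtain ⟨C2, hC2⟩ := h5 FM A
  refine ⟨3 * C2 + 96 * C1, fun S hS => ?_⟩
  have hN := hC2 S hS
  have hN' := hC2 S.mir (good_mir hS)
  rw [tch_mir, irr_mir, mir_top] at hN'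
  have e2 := cnt_p2 (S := S) hS.spl
  have e3 := cnt_p3 (S := S) hS.spl
  have e4 : A * S.cnt (HasRd S (fun r => F0 S r ∧ ¬ NI S FM r.t r.g ∧ Same S r)) ≤
      48 * (tch S + C1 * S.top) := by
    apply cnt_far _ (fun r => Nat.log 2 (r.g - r.p))
    intro k F hF
    obtain ⟨P, hP1, hP2⟩ := h2 S hS k F (fun r hr => by
      obtain ⟨a1, ⟨a2, a3, a4⟩, a5⟩ := hF r hr
      have a6 := (Sys.kl_facts a1.kl).2.1
      refine ⟨a1, a2, a3, a4, ?_, ?_⟩
      · rw [← a5]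
        exact Nat.pow_log_le_self 2 (by omega)
      · rw [← a5]
        exact Nat.lt_pow_succ_log_self (by norm_num) _)
    exact cover_le hP1 (fun i => hC1 S hS k (P i) (hP2 i))
  have e5 : A * S.cnt (HasRd S (fun r => F0 S r ∧ ¬ NI S FM r.t r.g ∧ Flip S r)) ≤
      48 * (tch S + C1 * S.top) := by
    apply cnt_far _ (fun r => Nat.log 2 (r.h - r.g))
    intro k F hF
    obtain ⟨P, hP1, hP2⟩ := h2' S hS k F (fun r hr => by
      obtain ⟨a1, ⟨a2, a3, a4⟩, a5⟩ := hF r hr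
      have a6 := S.lt_rho r.t (rd_lt a1).le r.g (rd_gK a1)
      rw [a1.hh] at a6
      refine ⟨a1, a2, a3, a4, ?_, ?_⟩
      · rw [← a5]
        exact Nat.pow_log_le_self 2 (by omega)
      · rw [← a5]
        exact Nat.lt_pow_succ_log_self (by norm_num) _)
    exact cover_le hP1 (fun i => hC1 S hS k (P i) (hP2 i))
  have e1 : S.cnt (fun t g => ∃ r, Rd S r ∧ (Same S r ∨ Flip S r) ∧ r.t = t ∧ r.g = g) ≤
      S.cnt (NI S FM) + (S.cnt (HasRd S (fun r => ¬ F0 S r ∧ S.Kl r.s r.g r.q)) +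
      (S.cnt (HasRd S (fun r => ¬ F0 S r ∧ Kr S r.s r.g r.h ∧ S.lam (r.s + 1) r.g = r.q)) +
      (S.cnt (HasRd S (fun r => F0 S r ∧ ¬ NI S FM r.t r.g ∧ Same S r)) +
      S.cnt (HasRd S (fun r => F0 S r ∧ ¬ NI S FM r.t r.g ∧ Flip S r))))) := by
    refine le_trans ?_ (Nat.add_le_add_left (Nat.add_le_add_left (Nat.add_le_add_left
      (cnt_or _ _) _) _) _)
    refine le_trans ?_ (Nat.add_le_add_left (Nat.add_le_add_left (cnt_or _ _) _) _)
    refine le_trans ?_ (Nat.add_le_add_left (cnt_or _ _) _)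
    refine le_trans ?_ (cnt_or _ _)
    apply cnt_mono
    rintro t g _ _ ⟨r, hr, hsf, rfl, rfl⟩
    by_cases c1 : NI S FM r.t r.g
    · exact Or.inl c1
    · right
      by_cases c2 : F0 S r
      · right
        right
        rcases hsf with c3 | c3
        · exact Or.inl ⟨r, hr, ⟨c2, c1, c3⟩, rfl, rfl⟩
        · exact Or.inr ⟨r, hr, ⟨c2, c1, c3⟩, rfl, rfl⟩
      · rcases hr.sk with c3 | c3
        · exact Or.inl ⟨r, hr, ⟨c2, c3.1⟩, rfl, rfl⟩
        · exact Or.inr (Or.inl ⟨r, hr, ⟨c2, c3.1, c3.2⟩, rfl, rfl⟩)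
  have e6 := Nat.mul_le_mul_left A e1
  have e7 := Nat.mul_le_mul_left A e2
  have e8 := Nat.mul_le_mul_left A e3
  have e9 : C1 * S.top ≤ C1 * (S.top + irr S) := Nat.mul_le_mul_left _ (Nat.le_add_right _ _)
  rw [Nat.mul_add, Nat.mul_add, Nat.mul_add, Nat.mul_add] at e6
  have e10 : (3 * C2 + 96 * C1) * (S.top + irr S) =
      3 * (C2 * (S.top + irr S)) + 96 * (C1 * (S.top + irr S)) := by ring
  rw [e10]
  omega

/-- **The assembly.** -/
theorem lin_of (h0 : ThetaLe) (h1 : HotLe) (h2 : ClsS) (h2' : ClsF) (h3 : ClsCard)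
    (h5 : NearLe) : Lin := by
  obtain ⟨C0, hC0⟩ := h0
  obtain ⟨C1, hC1⟩ := h1
  obtain ⟨C2, hC2⟩ := one_side h2 h2' h3 h5 2000
  refine ⟨2000 * C0 + 12000 * C1 + 18 * C2, fun S hS => ?_⟩
  have a0 := hC0 S hS
  have a1 := hC1 S hS
  have a2 := hC2 S hS
  have b1 := hC1 S.mir (good_mir hS)
  have b2 := hC2 S.mir (good_mir hS)
  rw [irr_mir, mir_top] at b1
  rw [tch_mir, irr_mir, mir_top] at b2
  set n := S.top + irr S with hn
  set N1 := S.cnt (fun t g => ∃ r, Rd S r ∧ (Same S r ∨ Flip S r) ∧ r.t = t ∧ r.g = g)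
  set N2 := S.mir.cnt (fun t g => ∃ r, Rd S.mir r ∧ (Same S.mir r ∨ Flip S.mir r) ∧
    r.t = t ∧ r.g = g)
  have e : (2000 * C0 + 12000 * C1 + 18 * C2) * n =
      2000 * (C0 * n) + 12000 * (C1 * n) + 18 * (C2 * n) := by ring
  rw [e]
  omega

end Pool.Agent.SplTr
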