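import Pool.Agent.SplTr.MirG

set_option autoImplicit false

/-!
# The keys on the left spine of an interval without requests: few of them are killed from outside

`[l, r)` is an interval of keys without requests before the time `t1`.  `Wd S t l w` is the part
of its left spine up to the key `w`; a key of it is visible (`dV`) if its left end was requested
before (or is `0`), otherwise it is hidden.
-/

namespace Pool.Agent.SplTr.Dm

open Pool.Agent.SplLog Pool.Agent.SplLs Pool.Agent.SplDq
open scoped Classical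

variable {S : Sys} {a b i j l q r s t u v w p g : ℕ}

/-- The left end of `v` is `0` or was requested before. -/
def dV (S : Sys) (t v : ℕ) : Prop := S.lam t v = 0 ∨ Seen S t (S.lam t v)

/-- The left spine of `[l, w]`. -/
noncomputable def dW (S : Sys) (t l w : ℕ) : Finset ℕ :=
  S.K.filter (fun v => l ≤ v ∧ v ≤ w ∧ S.lam t v < l)

/-- The hidden part of the left spine. -/
noncomputable def dH (S : Sys) (t l w : ℕ) : Finset ℕ :=
  (dW S t l w).filter (fun v => ¬ dV S t v)

/-- The visible part of the left spine. -/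
noncomputable def dU (S : Sys) (t l w : ℕ) : Finset ℕ :=
  (dW S t l w).filter (fun v => dV S t v)

theorem mem_dW : v ∈ dW S t l w ↔ v ∈ S.K ∧ l ≤ v ∧ v ≤ w ∧ S.lam t v < l := by
  simp only [dW, Finset.mem_filter]

theorem mem_dH : v ∈ dH S t l w ↔ (v ∈ S.K ∧ l ≤ v ∧ v ≤ w ∧ S.lam t v < l) ∧ ¬ dV S t v := by
  simp only [dH, Finset.mem_filter, mem_dW]

theorem mem_dU : v ∈ dU S t l w ↔ (v ∈ S.K ∧ l ≤ v ∧ v ≤ w ∧ S.lam t v < l) ∧ dV S t v := by
  simp only [dU, Finset.mem_filter, mem_dW]

theorem card_dW (S : Sys) (t l w : ℕ) : (dW S t l w).card = (dH S t l w).card + (dU S t l w).card := by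
  have := Finset.card_filter_add_card_filter_not (s := dW S t l w) (fun v => dV S t v)
  unfold dH dU
  omega

theorem seen_succ (h : Seen S (t + 1) v) : Seen S t v ∨ (t < S.m ∧ S.X t = v) := by
  obtain ⟨a, h1, h2, h3⟩ := h
  rcases Nat.lt_or_ge a t with h4 | h4
  · exact Or.inl ⟨a, h4, h2, h3⟩
  · have : a = t := by omega
    subst this
    exact Or.inr ⟨h2, h3⟩

theorem seen_X (ht : t < S.m) : Seen S (t + 1) (S.X t) := ⟨t, by omega, ht, rfl⟩

/-- The request itself was not requested before. -/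
theorem not_seen_X (hS : Spl S) (ht : t < S.m) : ¬ Seen S t (S.X t) := by
  rintro ⟨a, h1, h2, h3⟩
  have := hS.inj a t h2 ht h3
  omega

/-- The three possibilities for the left end of a node touched from the other side. -/
theorem L_lam (h : S.L t v) : S.lam (t + 1) v = S.lam t v ∨
    (S.lam t v ∈ S.K ∧ S.L t (S.lam t v) ∧ S.lam (t + 1) v = S.lam t (S.lam t v)) := by
  obtain ⟨ht, hv, hx, hl⟩ := h
  rcases S.left t ht v hv hx with h4 | ⟨_, h4, h5⟩ | ⟨_, p, _, h5, _, h6, h7, _⟩
  · omega
  · rcases h5 with h5 | ⟨c1, c2, c3, c4, c5⟩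
    · exact Or.inl h5
    · right
      have h8 := S.lam_lt t ht.le v hv
      exact ⟨c1, ⟨ht, c1, by omega, by omega⟩, c5⟩
  · exact Or.inl h7

/-- The ancestors of a touched node are touched. -/
theorem E_lam (h : S.E t v) (hl : S.lam t v ∈ S.K) : S.E t (S.lam t v) := by
  have h1 := Sys.E_lt h
  have h2 := Sys.E_mem h
  refine Sys.E_up h hl ?_ (S.lam_anc t h1.le v h2 hl)
  have h3 := S.lam_lt t h1.le v h2
  have h4 := S.lam_lt t h1.le _ hl
  omega

/-- **Z1.**  If the left end of a key without request is a key without request then there are no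
requested keys between them. -/
theorem no_seen_between (hS : Spl S) : ∀ t, t ≤ S.m → ∀ v ∈ S.K, ¬ Seen S t v → S.lam t v ∈ S.K →
    ¬ Seen S t (S.lam t v) → ∀ s, s < t → ¬ (S.lam t v < S.X s ∧ S.X s < v) := by
  intro t
  induction t with
  | zero =>
    intro _ v _ _ _ _ s hs
    omega
  | succ t ih =>
    intro ht v hv hnv hl hnl s hs hc
    have hnv' : ¬ Seen S t v := fun h => hnv (seen_mono h (Nat.le_succ t))
    have hnl' : ¬ Seen S t (S.lam (t + 1) v) := fun h => hnl (seen_mono h (Nat.le_succ t))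
    have htm : t < S.m := ht
    by_cases hE : S.E t v
    · have hloc : ∀ u, u < t → ¬ (S.X t < S.X u ∧ S.X u < v) ∧ ¬ (v < S.X u ∧ S.X u < S.X t) := by
        rcases hS.loc t v hE with h | h
        · exact absurd h hnv'
        · exact h
      rcases hE with hR | hL | hA
      · rcases R_cases hR with h | h | ⟨q, h1, h2, h3⟩
        · rw [h.1] at hnl
          exact hnl (seen_X htm)
        · rw [h.1] at hnl
          exact hnl (seen_X htm)
        · have h4 := h1.2.1
          rw [h2] at hc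
          rcases Nat.lt_or_ge s t with h5 | h5
          · exact (hloc s h5).1 ⟨by omega, hc.2⟩
          · have : s = t := by omega
            subst this
            omega
      · have h0 := hL.2.2.1
        rcases L_lam hL with h | ⟨h1, h2, h3⟩
        · rw [h] at hl hnl' hc
          rcases Nat.lt_or_ge s t with h5 | h5
          · exact ih (by omega) v hv hnv' hl hnl' s h5 hc
          · have : s = t := by omega
            subst this
            omega
        · rw [h3] at hl hnl' hc
          have h4 := E_lam (Sys.L_E h2) hl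
          rcases Nat.lt_or_ge s t with h5 | h5
          · rcases hS.loc t _ h4 with h6 | h6
            · exact hnl' h6
            · exact (h6 s h5).2 ⟨hc.1, by omega⟩
          · have : s = t := by omega
            subst this
            omega
      · exact hnv ⟨t, by omega, htm, hA.2.2.symm⟩
    · have h1 := Sys.untouched htm hv hE
      rw [h1.1] at hl hnl' hc
      rcases Nat.lt_or_ge s t with h5 | h5
      · exact ih (by omega) v hv hnv' hl hnl' s h5 hc
      · have : s = t := by omega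
        subst this
        exact hE (Sys.R_E ⟨htm, hv, hc.2, hc.1⟩)

/-- Visible nodes are above hidden ones. -/
theorem dV_up (hS : Spl S) (ht : t ≤ S.m) (hv : v ∈ S.K) (hw : w ∈ S.K) (hnw : ¬ Seen S t w)
    (hvw : v < w) (h : S.lam t w ≤ S.lam t v) (hV : dV S t v) : dV S t w := by
  by_contra hc
  have h1 : S.lam t w ≠ 0 := fun h => hc (Or.inl h)
  have h2 : ¬ Seen S t (S.lam t w) := fun h => hc (Or.inr h)
  have h3 : S.lam t w ∈ S.K := by
    rcases S.lam_mem t ht w hw with h4 | h4
    · exact absurd h4 h1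
    · exact h4
  have h5 := S.lam_lt t ht v hv
  rcases hV with h4 | h4
  · omega
  · obtain ⟨a, h6, h7, h8⟩ := h4
    apply no_seen_between hS t ht w hw hnw h3 h2 a h6
    rw [h8]
    refine ⟨?_, by omega⟩
    rcases Nat.eq_or_lt_of_le h with h9 | h9
    · exact absurd ⟨a, h6, h7, by omega⟩ h2
    · exact h9

theorem dW_anc (ht : t ≤ S.m) (hv : v ∈ dW S t l w) (hu : u ∈ dW S t l w) (hvu : v < u) :
    S.lam t u ≤ S.lam t v := by
  rw [mem_dW] at hv hu
  have h1 := S.lt_rho t ht u hu.1
  exact (Sys.sub ht hv.1 hu.1 (by omega) (by omega)).1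

/-- The external victim is the lowest node of the left spine whose left end is not above the
request. -/
theorem ext_min (hK : S.Kl t g p) (hp : p < l) (hv : v ∈ S.K) (hlv : l ≤ v)
    (h : S.lam t v ≤ S.X t) : g ≤ v := by
  have h1 := kl_R' hK
  have h2 := kl_rho hK
  have h3 := hK.2.1
  have h4 := kl_lt hK
  have h5 := R_lam hK.1
  rcases S.lamin t hK.1.1.le p h1.2.1 v hv (by omega) with h6 | h6 | h6
  · omega
  · omega
  · omega

theorem ext_unique {g' p' : ℕ} (hK : S.Kl t g p) (hp : p < l) (hK' : S.Kl t g' p') (hp' : p' < l)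
    (hg : l ≤ g) (hg' : l ≤ g') : g = g' := by
  have h1 := ext_min hK hp hK'.1.2.1 hg' (by have := R_lam hK'.1; omega)
  have h2 := ext_min hK' hp' hK.1.2.1 hg (by have := R_lam hK.1; omega)
  omega

/-- If some node of the left spine is touched or exposed then all visible ones are touched. -/
theorem vis_touched (hS : Spl S) (ht : t < S.m) (hx : S.X t < l)
    (hun : ∀ v, l ≤ v → v ≤ w → ¬ Seen S (t + 1) v) {v0 : ℕ} (h0 : v0 ∈ dW S t l w)
    (h0x : S.lam t v0 ≤ S.X t) (hv : v ∈ dU S t l w) : S.R t v := by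
  rw [mem_dU] at hv
  obtain ⟨⟨hv1, hv2, hv3, hv4⟩, hv5⟩ := hv
  rw [mem_dW] at h0
  have hX := (S.key _ (S.req t ht)).1
  refine ⟨ht, hv1, by omega, ?_⟩
  have hno : ∀ s, s < t → ¬ (S.X t < S.X s ∧ S.X s < v0) := by
    intro s hs
    have hns : ¬ Seen S t v0 := fun h => hun v0 h0.2.1 h0.2.2.1 (seen_mono h (Nat.le_succ t))
    rcases Nat.eq_or_lt_of_le h0x with h1 | h1
    · have h2 := no_seen_between hS t ht.le v0 h0.1 hns (by rw [h1]; exact S.req t ht)
        (by rw [h1]; exact not_seen_X hS ht) s hs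
      rwa [h1] at h2
    · have hR : S.R t v0 := ⟨ht, h0.1, by omega, h1⟩
      rcases hS.loc t v0 (Sys.R_E hR) with h2 | h2
      · exact absurd h2 hns
      · exact (h2 s hs).1
  rcases hv5 with h1 | ⟨s, h1, h2, h3⟩
  · omega
  · have h4 := hno s h1
    rcases Nat.lt_trichotomy (S.lam t v) (S.X t) with h5 | h5 | h5
    · exact h5
    · exact absurd ⟨s, h1, h2, by omega⟩ (not_seen_X hS ht)
    · exact absurd ⟨by omega, by omega⟩ h4

/-- The kept visible nodes. -/
noncomputable def dK (S : Sys) (t l w : ℕ) : Finset ℕ :=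
  (dU S t l w).filter (fun v => S.lam (t + 1) v = S.X t)

/-- **The survivors of a pass.** -/
theorem card_dK (hS : Spl S) (hT : ThrU S) (ht : t < S.m) (hx : S.X t < l)
    (hun : ∀ v, l ≤ v → v ≤ w → ¬ Seen S (t + 1) v)
    (hR : ∀ v ∈ dU S t l w, S.R t v)
    (hsame : ∀ v ∈ dU S t l w, ∀ u ∈ dU S t l w, S.lam t v = S.lam t u) :
    2 * (dK S t l w).card ≤ (dU S t l w).card + 2 ∧
      ((∃ g ∈ dU S t l w, ∃ p, S.Kl t g p ∧ p < l) →
        2 * (dK S t l w).card ≤ (dU S t l w).card) := by
  rcases (dU S t l w).eq_empty_or_nonempty with h0 | h0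
  · have h1 : dK S t l w = ∅ := by
      rw [dK, h0, Finset.filter_empty]
    rw [h1, h0]
    simp
  obtain ⟨a, ha, hamin⟩ : ∃ a ∈ dU S t l w, ∀ v ∈ dU S t l w, a ≤ v :=
    Finset.exists_min_image _ id h0
  obtain ⟨b, hb, hbmax⟩ : ∃ b ∈ dU S t l w, ∀ v ∈ dU S t l w, v ≤ b :=
    Finset.exists_max_image _ id h0
  have ha' := mem_dU.1 ha
  have hb' := mem_dU.1 hb
  obtain ⟨N, hN⟩ : ∃ N, N = (dU S t l w).filter (fun v => ¬ S.lam (t + 1) v = S.X t) := ⟨_, rfl⟩
  have hc : (dK S t l w).card + N.card = (dU S t l w).card := by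
    rw [hN]
    exact Finset.card_filter_add_card_filter_not _
  have hmem : ∀ {z v : ℕ}, v ∈ dU S t l w → v < z → z ≤ w → S.R t z → z ∈ dU S t l w := by
    intro z v hv hvz hzw hz
    have h1 := mem_dU.1 hv
    have h2 := (Sys.R_above (hR v hv) hz hvz).2
    have h3 := R_lam hz
    have h4 : l ≤ z := by omega
    rw [mem_dU]
    refine ⟨⟨hz.2.1, h4, hzw, by omega⟩, ?_⟩
    exact dV_up hS ht.le h1.1.1 hz.2.1
      (fun h => hun z h4 hzw (seen_mono h (Nat.le_succ t))) hvz h2 h1.2
  have hmid : ∀ v ∈ (dK S t l w).erase b, v ≠ a →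
      S.rho t v ∈ dU S t l w ∧ S.Kl t (S.rho t v) v := by
    intro v hv hva
    rw [Finset.mem_erase, dK, Finset.mem_filter] at hv
    obtain ⟨hvb, hv1, hv2⟩ := hv
    have h1 : a < v := lt_of_le_of_ne (hamin v hv1) (Ne.symm hva)
    have h2 : v < b := lt_of_le_of_ne (hbmax v hv1) hvb
    obtain ⟨z, hz1, hz2, hz3, hz4⟩ := exists_below (hR a ha) (hR v hv1) h1
    obtain ⟨hu1, hu2⟩ := R_up_le (hR v hv1) (hR b hb) h2
    have hv' := mem_dU.1 hv1
    have hzU : z ∈ dU S t l w := by
      rcases Nat.eq_or_lt_of_le hz2 with h3 | h3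
      · rw [← h3]
        exact ha
      · exact hmem ha h3 (by omega) hz1
    have hvu := R_rho (hR v hv1)
    have huU : S.rho t v ∈ dU S t l w := hmem hv1 hvu (by omega) hu1
    refine ⟨huU, ?_⟩
    have huS : ¬ Seen S t (S.rho t v) := by
      have h5 := (mem_dU.1 huU).1
      exact fun h => hun _ h5.2.1 h5.2.2.1 (seen_mono h (Nat.le_succ t))
    have h3 := hT t z (by rw [hz4]; exact huS) hz1 (by rw [hz4]; exact hR v hv1)
      (by rw [hz4]; exact hu1)
      (by rw [hz4]; exact hsame v hv1 z hzU) (by rw [hz4]; exact hsame _ huU z hzU)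
    rw [hz4] at h3
    rcases h3 with h3 | h3
    · have := h3.2.2
      have := R_gt hz1
      omega
    · exact h3
  have hinj : (((dK S t l w).erase b).erase a).card ≤ (N.erase a).card := by
    refine Finset.card_le_card_of_injOn (fun v => S.rho t v) ?_ ?_
    · intro v hv
      rw [Finset.mem_coe, Finset.mem_erase] at hv
      obtain ⟨h1, h2⟩ := hmid v hv.2 hv.1
      have h3 := kl_lt h2
      have h5 : v ∈ dU S t l w := by
        have := Finset.mem_of_mem_erase hv.2
        rw [dK, Finset.mem_filter] at this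
        exact this.1
      have h4 := hamin v h5
      rw [Finset.mem_coe, Finset.mem_erase, hN, Finset.mem_filter]
      refine ⟨by simp only; omega, h1, ?_⟩
      simp only
      rw [h2.2.2]
      have := h2.2.1
      omega
    · intro v hv v' hv' he
      rw [Finset.mem_coe, Finset.mem_erase] at hv hv'
      obtain ⟨h1, h2⟩ := hmid v hv.2 hv.1
      obtain ⟨h1', h2'⟩ := hmid v' hv'.2 hv'.1
      simp only at he
      rw [← he] at h2'
      exact kl_unique h2 h2'
  have e1 : (dK S t l w).card ≤ ((dK S t l w).erase b).card + 1 := by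
    have := Finset.pred_card_le_card_erase (s := dK S t l w) (a := b)
    omega
  have e2 : ((dK S t l w).erase b).card ≤ (((dK S t l w).erase b).erase a).card + 1 := by
    have := Finset.pred_card_le_card_erase (s := (dK S t l w).erase b) (a := a)
    omega
  have e3 : (N.erase a).card ≤ N.card := Finset.card_le_card (Finset.erase_subset _ _)
  refine ⟨by omega, ?_⟩
  rintro ⟨g, hg, p, hK, hp⟩
  have hga : g = a := by
    have h1 := hamin g hg
    have h2 := ext_min hK hp ha'.1.1 ha'.1.2.1 (by have := R_lam (hR a ha); omega)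
    omega
  subst hga
  have hgN : g ∈ N := by
    rw [hN, Finset.mem_filter]
    refine ⟨hg, ?_⟩
    rw [hK.2.2]
    have := hK.2.1
    omega
  have hgK : g ∉ (dK S t l w).erase b := by
    intro h
    rw [Finset.mem_erase, dK, Finset.mem_filter] at h
    rw [hK.2.2] at h
    have := hK.2.1
    omega
  have e4 : (N.erase g).card + 1 = N.card := Finset.card_erase_add_one hgN
  rw [Finset.erase_eq_of_notMem hgK] at hinj
  omega

/-- The external victims of a pass. -/
noncomputable def dX (S : Sys) (t l w : ℕ) : Finset ℕ :=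
  S.K.filter (fun v => l ≤ v ∧ v ≤ w ∧ ∃ p, S.Kl t v p ∧ p < l)

theorem mem_dX : v ∈ dX S t l w ↔ v ∈ S.K ∧ l ≤ v ∧ v ≤ w ∧ ∃ p, S.Kl t v p ∧ p < l := by
  simp only [dX, Finset.mem_filter]

theorem card_dX (S : Sys) (t l w : ℕ) : (dX S t l w).card ≤ 1 := by
  rw [Finset.card_le_one]
  intro g hg g' hg'
  rw [mem_dX] at hg hg'
  obtain ⟨h1, h2, h3, p, h4, h5⟩ := hg
  obtain ⟨h1', h2', h3', p', h4', h5'⟩ := hg'
  exact ext_unique h4 h5 h4' h5' h2 h2'

/-- The hidden nodes exposed by a pass. -/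
noncomputable def dA (S : Sys) (t l w : ℕ) : Finset ℕ :=
  (dH S t l w).filter (fun v => S.lam t v ≤ S.X t)

theorem R_of_W (ht : t < S.m) (hx : S.X t < l) (hv : v ∈ dW S t l w) (h : S.lam t v < S.X t) :
    S.R t v := by
  rw [mem_dW] at hv
  exact ⟨ht, hv.1, by omega, h⟩

/-- The left spine does not gain nodes in a pass from the left. -/
theorem dW_step (ht : t < S.m) (hx : S.X t < l) (hv : v ∈ dW S (t + 1) l w) :
    v ∈ dW S t l w := by
  rw [mem_dW] at hv ⊢
  refine ⟨hv.1, hv.2.1, hv.2.2.1, ?_⟩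
  by_cases h : S.R t v
  · have := R_lam h
    omega
  · have := not_R ht hv.1 (by omega) h
    omega

/-- A killer from outside is a key without request. -/
theorem ext_hidden (hS : Spl S) (hK : S.Kl t g p) (hg : ¬ Seen S (t + 1) g) :
    ¬ dV S (t + 1) g := by
  have hR := kl_R hK
  have ht := R_lt hR
  have h2 := hK.2.1
  have h3 := hK.2.2
  have h4 := (S.key _ (S.req t ht)).1
  have h6 := kl_lt hK
  rintro (h | h)
  · omega
  · rw [h3] at h
    rcases seen_succ h with h5 | h5
    · rcases hS.loc t g (Sys.R_E hR) with h7 | h7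
      · exact hg (seen_mono h7 (Nat.le_succ t))
      · obtain ⟨s, hs1, hs2, hs3⟩ := h5
        exact (h7 s hs1).1 ⟨by omega, by omega⟩
    · omega

theorem dH_step (ht : t < S.m) (hx : S.X t < l) (hR : ∀ v ∈ dU S t l w, S.R t v) :
    dH S (t + 1) l w ⊆ (dH S t l w \ dA S t l w) ∪ dX S t l w := by
  intro v hv
  have hv' := mem_dH.1 hv
  have hW : v ∈ dW S (t + 1) l w := by
    rw [mem_dW]
    exact hv'.1
  have hW' := dW_step ht hx hW
  have hX : ¬ S.lam (t + 1) v = S.X t := by
    intro h
    apply hv'.2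
    right
    rw [h]
    exact seen_X ht
  rw [Finset.mem_union, Finset.mem_sdiff]
  by_cases h : S.R t v
  · right
    rw [mem_dX]
    refine ⟨hv'.1.1, hv'.1.2.1, hv'.1.2.2.1, ?_⟩
    rcases R_cases h with h1 | h1 | ⟨q, h1, h2, h3⟩
    · exact absurd h1.1 hX
    · exact absurd h1.1 hX
    · exact ⟨q, h1, by have := hv'.1.2.2.2; omega⟩
  · left
    have h1 := not_R ht hv'.1.1 (by have := hv'.1.2.1; omega) h
    have hH : v ∈ dH S t l w := by
      rw [mem_dH]
      refine ⟨mem_dW.1 hW', ?_⟩
      intro h2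
      exact h (hR v (mem_dU.2 ⟨mem_dW.1 hW', h2⟩))
    refine ⟨hH, ?_⟩
    intro h2
    rw [dA, Finset.mem_filter] at h2
    omega

theorem dU_step (hS : Spl S) (ht : t < S.m) (hx : S.X t < l)
    (hun : ∀ v, l ≤ v → v ≤ w → ¬ Seen S (t + 1) v)
    (hR : ∀ v ∈ dU S t l w, S.R t v) :
    dU S (t + 1) l w ⊆ (dA S t l w \ dX S t l w) ∪ dK S t l w ∧
      ∀ v ∈ dU S (t + 1) l w, S.lam (t + 1) v = S.X t := by
  have key : ∀ v ∈ dU S (t + 1) l w, v ∈ (dA S t l w \ dX S t l w) ∪ dK S t l w ∧
      S.lam (t + 1) v = S.X t := by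
    intro v hv
    have hv' := mem_dU.1 hv
    have hW : v ∈ dW S (t + 1) l w := by
      rw [mem_dW]
      exact hv'.1
    have hW' := dW_step ht hx hW
    have hX : v ∉ dX S t l w := by
      intro h
      rw [mem_dX] at h
      obtain ⟨h1, h2, h3, p, h4, h5⟩ := h
      exact ext_hidden hS h4 (hun v h2 h3) hv'.2
    rw [Finset.mem_union, Finset.mem_sdiff]
    by_cases h : S.R t v
    · have hkeep : S.lam (t + 1) v = S.X t := by
        rcases R_cases h with h1 | h1 | ⟨q, h1, h2, h3⟩
        · exact h1.1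
        · exact h1.1
        · exfalso
          apply hX
          rw [mem_dX]
          exact ⟨hv'.1.1, hv'.1.2.1, hv'.1.2.2.1, q, h1, by have := hv'.1.2.2.2; omega⟩
      refine ⟨?_, hkeep⟩
      by_cases hV : dV S t v
      · right
        rw [dK, Finset.mem_filter, mem_dU]
        exact ⟨⟨mem_dW.1 hW', hV⟩, hkeep⟩
      · left
        refine ⟨?_, hX⟩
        rw [dA, Finset.mem_filter, mem_dH]
        exact ⟨⟨mem_dW.1 hW', hV⟩, (R_lam h).le⟩
    · have h1 := not_R ht hv'.1.1 (by have := hv'.1.2.1; omega) h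
      have hH : ¬ dV S t v := by
        intro h2
        exact h (hR v (mem_dU.2 ⟨mem_dW.1 hW', h2⟩))
      have h2 : S.lam t v = S.X t := by
        rcases hv'.2 with h3 | h3
        · exact absurd (Or.inl (by omega)) hH
        · rcases seen_succ h3 with h4 | h4
          · rw [h1.2.1] at h4
            exact absurd (Or.inr h4) hH
          · omega
      refine ⟨Or.inl ⟨?_, hX⟩, by omega⟩
      rw [dA, Finset.mem_filter, mem_dH]
      exact ⟨⟨mem_dW.1 hW', hH⟩, h2.le⟩
  exact ⟨fun v hv => (key v hv).1, fun v hv => (key v hv).2⟩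

private theorem pow_aux (j a k : ℕ) (h : k < 2 ^ j) : a + k < 2 ^ (j + a) := by
  rw [pow_add]
  have h1 : a + 1 ≤ 2 ^ a := Nat.lt_two_pow_self
  have h2 : 1 ≤ 2 ^ j := Nat.one_le_two_pow
  nlinarith

/-- **The step of the potential `h + L(v)`.** -/
theorem pass (hS : Spl S) (hT : ThrU S) (ht : t < S.m) (hx : S.X t < l)
    (hun : ∀ v, l ≤ v → v ≤ w → ¬ Seen S (t + 1) v)
    (hR : ∀ v ∈ dU S t l w, S.R t v)
    (hsame : ∀ v ∈ dU S t l w, ∀ u ∈ dU S t l w, S.lam t v = S.lam t u) (P : ℕ)
    (h : (dH S t l w).card + j ≤ P) (hj : (dU S t l w).card < 2 ^ j) :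
    (∃ j', (dH S (t + 1) l w).card + j' ≤ P ∧ (dU S (t + 1) l w).card < 2 ^ j') ∧
      2 * (dU S (t + 1) l w).card ≤ (dU S t l w).card + 2 * (dH S t l w).card + 2 := by
  obtain ⟨k1, k2⟩ := card_dK hS hT ht hx hun hR hsame
  have hk : (dK S t l w).card ≤ (dU S t l w).card := Finset.card_le_card (Finset.filter_subset _ _)
  have hA : dA S t l w ⊆ dH S t l w := Finset.filter_subset _ _
  have e1 : (dH S (t + 1) l w).card ≤ (dH S t l w \ dA S t l w).card + (dX S t l w).card :=
    (Finset.card_le_card (dH_step ht hx hR)).trans (Finset.card_union_le _ _)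
  have e2 : (dU S (t + 1) l w).card ≤ (dA S t l w \ dX S t l w).card + (dK S t l w).card :=
    (Finset.card_le_card (dU_step hS ht hx hun hR).1).trans (Finset.card_union_le _ _)
  have e3 : (dH S t l w \ dA S t l w).card + (dA S t l w).card = (dH S t l w).card :=
    Finset.card_sdiff_add_card_eq_card hA
  have e4 : (dA S t l w \ dX S t l w).card ≤ (dA S t l w).card :=
    Finset.card_le_card Finset.sdiff_subset
  have e5 : (dX S t l w).card ≤ 1 := card_dX S t l w
  refine ⟨?_, by omega⟩
  rcases (dX S t l w).eq_empty_or_nonempty with h0 | ⟨g, hg⟩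
  · rw [h0, Finset.card_empty] at e1
    refine ⟨j + (dA S t l w).card, by omega, ?_⟩
    have := pow_aux j (dA S t l w).card (dK S t l w).card (by omega)
    omega
  · have hg' := mem_dX.1 hg
    obtain ⟨g1, g2, g3, p, hK, hp⟩ := hg'
    have hRg := R_lam hK.1
    have hW : g ∈ dW S t l w := by
      rw [mem_dW]
      exact ⟨g1, g2, g3, by omega⟩
    by_cases hV : dV S t g
    · have hU : g ∈ dU S t l w := mem_dU.2 ⟨mem_dW.1 hW, hV⟩
      have h2 := k2 ⟨g, hU, p, hK, hp⟩
      have hA0 : dA S t l w = ∅ := by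
        rw [Finset.eq_empty_iff_forall_notMem]
        intro v hv
        rw [dA, Finset.mem_filter] at hv
        have hv' := mem_dH.1 hv.1
        have h3 := ext_min hK hp hv'.1.1 hv'.1.2.1 hv.2
        rcases Nat.eq_or_lt_of_le h3 with h4 | h4
        · rw [h4] at hV
          exact hv'.2 hV
        · have hvW : v ∈ dW S t l w := mem_dW.2 hv'.1
          exact hv'.2 (dV_up hS ht.le g1 hv'.1.1
            (fun h => hun v hv'.1.2.1 hv'.1.2.2.1 (seen_mono h (Nat.le_succ t))) h4
            (dW_anc ht.le hW hvW h4) hV)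
      have hA1 : (dA S t l w).card = 0 := by
        rw [hA0, Finset.card_empty]
      have h5 : 1 ≤ (dU S t l w).card := Finset.card_pos.2 ⟨g, hU⟩
      rcases Nat.eq_zero_or_pos j with h6 | h6
      · rw [h6, pow_zero] at hj
        omega
      · refine ⟨j - 1, by omega, ?_⟩
        have h7 : 2 ^ j = 2 * 2 ^ (j - 1) := by
          obtain ⟨i, rfl⟩ : ∃ i, j = i + 1 := ⟨j - 1, by omega⟩
          rw [pow_succ, Nat.add_sub_cancel]
          ring
        omega
    · have hgA : g ∈ dA S t l w := by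
        rw [dA, Finset.mem_filter, mem_dH]
        exact ⟨⟨mem_dW.1 hW, hV⟩, by omega⟩
      have h5 : 1 ≤ (dA S t l w).card := Finset.card_pos.2 ⟨g, hgA⟩
      have h6 : (dA S t l w \ dX S t l w).card + 1 ≤ (dA S t l w).card := by
        have : (dA S t l w \ dX S t l w) ⊆ (dA S t l w).erase g := by
          intro v hv
          rw [Finset.mem_sdiff] at hv
          rw [Finset.mem_erase]
          exact ⟨fun h => hv.2 (h ▸ hg), hv.1⟩
        have h7 := Finset.card_le_card this
        have h8 := Finset.card_erase_add_one hgA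
        omega
      refine ⟨j + ((dA S t l w).card - 1), by omega, ?_⟩
      have := pow_aux j ((dA S t l w).card - 1) (dK S t l w).card (by omega)
      omega

theorem dH_mono (huw : u ≤ w) : dH S t l u ⊆ dH S t l w := by
  intro v hv
  rw [mem_dH] at hv ⊢
  exact ⟨⟨hv.1.1, hv.1.2.1, by omega, hv.1.2.2.2⟩, hv.2⟩

theorem dU_mono (huw : u ≤ w) : dU S t l u ⊆ dU S t l w := by
  intro v hv
  rw [mem_dU] at hv ⊢
  exact ⟨⟨hv.1.1, hv.1.2.1, by omega, hv.1.2.2.2⟩, hv.2⟩

/-- If nothing is touched or exposed then nothing changes. -/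
theorem still
    (h : ∀ v ∈ S.K, l ≤ v → v ≤ w → S.lam (t + 1) v = S.lam t v ∧ (S.lam t v < l →
      S.lam t v ≠ S.X t)) :
    dH S (t + 1) l w = dH S t l w ∧ dU S (t + 1) l w = dU S t l w := by
  have key : ∀ v ∈ S.K, l ≤ v → v ≤ w → S.lam t v < l → (dV S (t + 1) v ↔ dV S t v) := by
    intro v hv h1 h2 h3
    obtain ⟨h4, h5⟩ := h v hv h1 h2
    unfold dV
    rw [h4]
    constructor
    · rintro (h6 | h6)
      · exact Or.inl h6
      · rcases seen_succ h6 with h7 | h7
        · exact Or.inr h7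
        · exact absurd h7.2.symm (h5 h3)
    · rintro (h6 | h6)
      · exact Or.inl h6
      · exact Or.inr (seen_mono h6 (Nat.le_succ t))
  constructor
  · ext v
    rw [mem_dH, mem_dH]
    constructor
    · rintro ⟨⟨h1, h2, h3, h4⟩, h5⟩
      rw [(h v h1 h2 h3).1] at h4
      exact ⟨⟨h1, h2, h3, h4⟩, fun h6 => h5 ((key v h1 h2 h3 h4).2 h6)⟩
    · rintro ⟨⟨h1, h2, h3, h4⟩, h5⟩
      refine ⟨⟨h1, h2, h3, ?_⟩, fun h6 => h5 ((key v h1 h2 h3 h4).1 h6)⟩
      rw [(h v h1 h2 h3).1]
      exact h4
  · ext v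
    rw [mem_dU, mem_dU]
    constructor
    · rintro ⟨⟨h1, h2, h3, h4⟩, h5⟩
      rw [(h v h1 h2 h3).1] at h4
      exact ⟨⟨h1, h2, h3, h4⟩, (key v h1 h2 h3 h4).1 h5⟩
    · rintro ⟨⟨h1, h2, h3, h4⟩, h5⟩
      refine ⟨⟨h1, h2, h3, ?_⟩, (key v h1 h2 h3 h4).2 h5⟩
      rw [(h v h1 h2 h3).1]
      exact h4

/-- The left end of a key without touches from the other side and without request moves up. -/
theorem lam_mono (hv : v ∈ S.K) (hst : s ≤ t) (ht : t ≤ S.m)
    (hL : ∀ u, s ≤ u → u < t → ¬ S.L u v) (hX : ∀ u, s ≤ u → u < t → S.X u ≠ v) :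
    S.lam s v ≤ S.lam t v := by
  induction t, hst using Nat.le_induction with
  | base => exact le_rfl
  | succ t hst ih =>
    have h1 := ih (by omega) (fun u h1 h2 => hL u h1 (by omega)) (fun u h1 h2 => hX u h1 (by omega))
    refine h1.trans ?_
    by_cases hE : S.E t v
    · rcases hE with h2 | h2 | h2
      · exact (Sys.R_mono h2).1.le
      · exact absurd h2 (hL t hst (by omega))
      · exact absurd h2.2.2.symm (hX t hst (by omega))
    · exact (Sys.untouched (show t < S.m by omega) hv hE).1.ge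

/-- Backward induction. -/
theorem back (hS : Spl S) (hT : ThrU S) {t1 P0 : ℕ} (ht1 : t1 ≤ S.m)
    (hun : ∀ s, s < t1 → S.X s < l ∨ r ≤ S.X s) (σ : ℕ → ℕ) :
    ∀ (n t : ℕ), t + n = t1 → ∀ (D : Finset ℕ) (w i j : ℕ), w < r →
      (∀ e ∈ D, l ≤ e ∧ e ≤ w ∧ t ≤ σ e ∧ σ e < t1 ∧ (∃ p, S.Kl (σ e) e p ∧ p < l) ∧
        ∀ u, t ≤ u → u < σ e → ¬ S.L u e) →
      (∀ v ∈ dU S t l w, ∀ u ∈ dU S t l w, S.lam t v = S.lam t u) →
      (dH S t l w).card + j ≤ P0 → (dU S t l w).card < 2 ^ j →
      (dU S t l w).card < 2 * (P0 + 1) + 2 ^ i → D.card ≤ 3 * P0 + 2 + i := by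
  intro n
  induction n with
  | zero =>
    intro t ht D w i j hw hD _ _ _ _
    have h1 : D = ∅ := by
      rw [Finset.eq_empty_iff_forall_notMem]
      intro e he
      obtain ⟨_, _, h1, h2, _⟩ := hD e he
      omega
    rw [h1, Finset.card_empty]
    omega
  | succ n ih =>
    intro t ht D w i j hw hD hsame hH hU hI
    rcases D.eq_empty_or_nonempty with h0 | h0
    · rw [h0, Finset.card_empty]
      omega
    obtain ⟨w1, hw1, hmax⟩ : ∃ w1 ∈ D, ∀ v ∈ D, v ≤ w1 := Finset.exists_max_image _ id h0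
    obtain ⟨d1, d2, d3, d4, ⟨p, hK, hp⟩, d6⟩ := hD w1 hw1
    have htm : t < S.m := by omega
    have hnoS : ∀ v, l ≤ v → v ≤ w1 → ¬ Seen S t1 v := by
      rintro v h1 h2 ⟨s, h3, h4, h5⟩
      have := hun s h3
      omega
    have hw1K : w1 ∈ S.K := hK.1.2.1
    have hXne : ∀ e, l ≤ e → e ≤ w1 → ∀ u, u < t1 → S.X u ≠ e := by
      intro e h1 h2 u h3 h4
      have := hun u h3
      omega
    have hDlam : ∀ e ∈ D, S.lam t e < l := by
      intro e he
      obtain ⟨b1, b2, b3, b4, ⟨p', hK', hp'⟩, b6⟩ := hD e he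
      have h1 := lam_mono hK'.1.2.1 b3 (by omega) b6
        (fun u _ h2 => hXne e b1 (hmax e he) u (by omega))
      have h2 := R_lam hK'.1
      have h3 := hK'.2.1
      omega
    have hw1l := hDlam w1 hw1
    have hnL : ¬ S.L t w1 := by
      rcases Nat.eq_or_lt_of_le d3 with h | h
      · intro h2
        rw [← h] at hK
        exact Sys.not_R_L hK.1 h2
      · exact d6 t le_rfl h
    have hH1 : (dH S t l w1).card ≤ (dH S t l w).card := Finset.card_le_card (dH_mono d2)
    have hU1 : (dU S t l w1).card ≤ (dU S t l w).card := Finset.card_le_card (dU_mono d2)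
    have hsame1 : ∀ v ∈ dU S t l w1, ∀ u ∈ dU S t l w1, S.lam t v = S.lam t u :=
      fun v hv u hu => hsame v (dU_mono d2 hv) u (dU_mono d2 hu)
    -- the case without changes
    have hstill : (∀ v ∈ S.K, l ≤ v → v ≤ w1 → S.lam (t + 1) v = S.lam t v ∧ (S.lam t v < l →
        S.lam t v ≠ S.X t)) → (∀ e ∈ D, σ e ≠ t) → D.card ≤ 3 * P0 + 2 + i := by
      intro h hσ
      obtain ⟨e1, e2⟩ := still h
      refine ih (t + 1) (by omega) D w1 i j (by omega) ?_ ?_ ?_ ?_ ?_
      · intro e he
        obtain ⟨b1, b2, b3, b4, b5, b6⟩ := hD e he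
        have := hσ e he
        exact ⟨b1, hmax e he, by omega, b4, b5, fun u h1 h2 => b6 u (by omega) h2⟩
      · rw [e2]
        intro v hv u hu
        have hv' := mem_dU.1 hv
        have hu' := mem_dU.1 hu
        rw [(h v hv'.1.1 hv'.1.2.1 hv'.1.2.2.1).1, (h u hu'.1.1 hu'.1.2.1 hu'.1.2.2.1).1]
        exact hsame1 v hv u hu
      · rw [e1]
        omega
      · rw [e2]
        omega
      · rw [e2]
        omega
    rcases hun t (by omega) with hx | hx
    · by_cases hex : ∃ v0 ∈ dW S t l w1, S.lam t v0 ≤ S.X t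
      · -- a pass
        obtain ⟨v0, hv0, hv0x⟩ := hex
        have hun' : ∀ v, l ≤ v → v ≤ w1 → ¬ Seen S (t + 1) v :=
          fun v h1 h2 h3 => hnoS v h1 h2 (seen_mono h3 (by omega))
        have hR : ∀ v ∈ dU S t l w1, S.R t v :=
          fun v hv => vis_touched hS htm hx hun' hv0 hv0x hv
        obtain ⟨⟨j', hj1, hj2⟩, hj3⟩ := pass (j := j) hS hT htm hx hun' hR hsame1 P0 (by omega)
          (by omega)
        have hsame2 := (dU_step hS htm hx hun' hR).2
        have hc : D.card ≤ (D.filter (fun e => σ e ≠ t)).card + 1 := by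
          have h1 := Finset.card_filter_add_card_filter_not (s := D) (fun e => σ e ≠ t)
          have h2 : D.filter (fun e => ¬ σ e ≠ t) ⊆ dX S t l w1 := by
            intro e he
            rw [Finset.mem_filter] at he
            obtain ⟨b1, b2, b3, b4, b5, b6⟩ := hD e he.1
            have h3 : σ e = t := not_not.1 he.2
            rw [h3] at b5
            rw [mem_dX]
            exact ⟨b5.choose_spec.1.1.2.1, b1, hmax e he.1, b5⟩
          have h3 := Finset.card_le_card h2
          have h4 := card_dX S t l w1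
          omega
        rcases Nat.eq_zero_or_pos i with hi | hi
        · have h1 : D ⊆ dW S t l w1 := by
            intro e he
            obtain ⟨b1, b2, b3, b4, ⟨p', hK', hp'⟩, b6⟩ := hD e he
            rw [mem_dW]
            exact ⟨hK'.1.2.1, b1, hmax e he, hDlam e he⟩
          have h2 := Finset.card_le_card h1
          rw [card_dW] at h2
          rw [hi, pow_zero] at hI
          omega
        · obtain ⟨i', rfl⟩ : ∃ i', i = i' + 1 := ⟨i - 1, by omega⟩
          have h1 := ih (t + 1) (by omega) (D.filter (fun e => σ e ≠ t)) w1 i' j' (by omega) ?_ ?_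
            hj1 hj2 ?_
          · omega
          · intro e he
            rw [Finset.mem_filter] at he
            obtain ⟨b1, b2, b3, b4, b5, b6⟩ := hD e he.1
            have := he.2
            exact ⟨b1, hmax e he.1, by omega, b4, b5, fun u h1 h2 => b6 u (by omega) h2⟩
          · intro v hv u hu
            rw [hsame2 v hv, hsame2 u hu]
          · rw [pow_succ] at hI
            omega
      · apply hstill
        · intro v hv h1 h2
          have h3 : ¬ S.R t v := by
            intro h4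
            apply hex
            refine ⟨v, ?_, (R_lam h4).le⟩
            rw [mem_dW]
            exact ⟨hv, h1, h2, by have := R_lam h4; omega⟩
          refine ⟨(not_R htm hv (by omega) h3).2.1, ?_⟩
          intro h4 h5
          apply hex
          exact ⟨v, mem_dW.2 ⟨hv, h1, h2, h4⟩, h5.le⟩
        · intro e he h1
          obtain ⟨b1, b2, b3, b4, ⟨p', hK', hp'⟩, b6⟩ := hD e he
          apply hex
          refine ⟨e, mem_dW.2 ⟨hK'.1.2.1, b1, hmax e he, hDlam e he⟩, ?_⟩
          rw [h1] at hK'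
          exact (R_lam hK'.1).le
    · apply hstill
      · intro v hv h1 h2
        have h3 : ¬ S.E t v := by
          intro h4
          have h5 := S.lt_rho t htm.le w1 hw1K
          rcases Sys.E_up h4 hw1K (by omega) (by omega) with h6 | h6 | h6
          · have := h6.2.2.1
            omega
          · exact hnL h6
          · have := h6.2.2
            omega
        exact ⟨(Sys.untouched htm hv h3).1, fun h4 => by omega⟩
      · intro e he h1
        obtain ⟨b1, b2, b3, b4, ⟨p', hK', hp'⟩, b6⟩ := hD e he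
        rw [h1] at hK'
        have := hK'.2.1
        omega

/-- **The dormant lemma.**  `[l, r)` has no requests before `t1`; `D` is a set of keys of `[l, r)`
which are killed from outside at the times `σ e`, `t0 ≤ σ e < t1`, and are not touched from the right
in `[t0, σ e)`; at the time `t0` the left spine of `[l, w]` has `h` hidden nodes and less than `2 ^ j`
visible ones, all with the same left end, `h + j ≤ P0`.  Then `D` has at most `4 P0 + 2` elements. -/
theorem dormant (hS : Spl S) (hT : ThrU S) {t0 t1 P0 : ℕ} (h01 : t0 ≤ t1) (ht1 : t1 ≤ S.m)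
    (hun : ∀ s, s < t1 → S.X s < l ∨ r ≤ S.X s) (σ : ℕ → ℕ) (D : Finset ℕ) (hw : w < r)
    (hD : ∀ e ∈ D, l ≤ e ∧ e ≤ w ∧ t0 ≤ σ e ∧ σ e < t1 ∧ (∃ p, S.Kl (σ e) e p ∧ p < l) ∧
      ∀ u, t0 ≤ u → u < σ e → ¬ S.L u e)
    (hsame : ∀ v ∈ dU S t0 l w, ∀ u ∈ dU S t0 l w, S.lam t0 v = S.lam t0 u)
    (hH : (dH S t0 l w).card + j ≤ P0) (hU : (dU S t0 l w).card < 2 ^ j) :
    D.card ≤ 4 * P0 + 2 := by
  have h := back hS hT ht1 hun σ (t1 - t0) t0 (by omega) D w j j hw hD hsame hH hU (by omega)
  omega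

end Pool.Agent.SplTr.Dm
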