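import Pool.Agent.SplTr.Dorm

set_option autoImplicit false

/-!
# The number of touches is bounded by three times the number of kills

On the right side of the search path: a touched node is a victim, a killer or is kept without
killing.  The last case is rare: an unseen node which was not left-visible becomes left-visible,
and loses left-visibility only as a victim; the unseen left-visible nodes kept without killing are
the lowest one, the highest one, or are next to a turn at a node which was requested before.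
-/

namespace Pool.Agent.SplTr.Th

open Pool.Agent.SplLog Pool.Agent.SplLs Pool.Agent.SplDq Pool.Agent.SplTr.Dm
open scoped Classical

variable {S : Sys} {a b i j l q r s t u v w p g : ℕ}

/-! ## Counting -/

theorem cnt_sum (S : Sys) (P : ℕ → ℕ → Prop) :
    S.cnt P = ∑ t ∈ Finset.range S.m, (S.K.filter (fun v => P t v)).card := by
  unfold Sys.cnt Sys.set
  rw [← Finset.card_sigma]
  refine Finset.card_bij (fun q _ => ⟨q.1, q.2⟩) ?_ ?_ ?_
  · rintro ⟨a, b⟩ h
    rw [Finset.mem_filter, Finset.mem_product] at h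
    rw [Finset.mem_sigma, Finset.mem_filter]
    exact ⟨h.1.1, h.1.2, h.2⟩
  · rintro ⟨a, b⟩ _ ⟨c, d⟩ _ h
    simp only [Sigma.mk.injEq, heq_eq_eq] at h
    rw [h.1, h.2]
  · rintro ⟨a, b⟩ h
    rw [Finset.mem_sigma, Finset.mem_filter] at h
    refine ⟨(a, b), ?_, rfl⟩
    rw [Finset.mem_filter, Finset.mem_product]
    exact ⟨⟨h.1, h.2.1⟩, h.2.2⟩

theorem cnt_sum' (S : Sys) (P : ℕ → ℕ → Prop) :
    S.cnt P = ∑ v ∈ S.K, ((Finset.range S.m).filter (fun t => P t v)).card := by
  unfold Sys.cnt Sys.set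
  rw [← Finset.card_sigma]
  refine Finset.card_bij (fun q _ => ⟨q.2, q.1⟩) ?_ ?_ ?_
  · rintro ⟨a, b⟩ h
    rw [Finset.mem_filter, Finset.mem_product] at h
    rw [Finset.mem_sigma, Finset.mem_filter]
    exact ⟨h.1.2, h.1.1, h.2⟩
  · rintro ⟨a, b⟩ _ ⟨c, d⟩ _ h
    simp only [Sigma.mk.injEq, heq_eq_eq] at h
    rw [h.1, h.2]
  · rintro ⟨a, b⟩ h
    rw [Finset.mem_sigma, Finset.mem_filter] at h
    refine ⟨(b, a), ?_, rfl⟩
    rw [Finset.mem_filter, Finset.mem_product]
    exact ⟨⟨h.2.1, h.1⟩, h.2.2⟩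

theorem cnt_or_le (S : Sys) {P Q R : ℕ → ℕ → Prop} (h : ∀ t v, P t v → Q t v ∨ R t v) :
    S.cnt P ≤ S.cnt Q + S.cnt R := by
  refine le_trans ?_ (Finset.card_union_le (S.set Q) (S.set R))
  apply Finset.card_le_card
  intro q hq
  rw [Sys.mem_set] at hq
  rw [Finset.mem_union, Sys.mem_set, Sys.mem_set]
  rcases h _ _ hq.2.2 with h1 | h1
  · exact Or.inl ⟨hq.1, hq.2.1, h1⟩
  · exact Or.inr ⟨hq.1, hq.2.1, h1⟩

/-- Changes of a Boolean sequence. -/
theorem up_down (f U D : ℕ → Prop) (hU : ∀ t, U t ↔ ¬ f t ∧ f (t + 1))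
    (hD : ∀ t, D t ↔ f t ∧ ¬ f (t + 1)) (m : ℕ) :
    ((Finset.range m).filter (fun t => U t)).card + (if f 0 then 1 else 0) =
      ((Finset.range m).filter (fun t => D t)).card + (if f m then 1 else 0) := by
  induction m with
  | zero => simp
  | succ m ih =>
    rw [Finset.range_add_one, Finset.filter_insert, Finset.filter_insert]
    have h1 : m ∉ (Finset.range m).filter (fun t => U t) := by simp
    have h2 : m ∉ (Finset.range m).filter (fun t => D t) := by simp
    have h5 := hU m
    have h6 := hD m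
    by_cases h3 : f m <;> by_cases h4 : f (m + 1) <;>
      simp only [h3, h4, not_true_eq_false, not_false_eq_true, and_true, and_false, and_self,
        iff_false, iff_true] at h5 h6 ⊢ <;>
      simp only [h3, h5, h6, if_true, if_false, Finset.card_insert_of_notMem h1,
        Finset.card_insert_of_notMem h2] at ih ⊢ <;> omega

theorem m_le (hS : Spl S) : S.m ≤ S.top := by
  have h1 : (Finset.range S.m).card ≤ (Finset.range S.top).card := by
    apply Finset.card_le_card_of_injOn S.X
    · intro t ht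
      rw [Finset.coe_range, Set.mem_Iio] at ht
      rw [Finset.mem_coe, Finset.mem_range]
      exact (S.key _ (S.req t ht)).2
    · intro t ht s hs h
      rw [Finset.coe_range, Set.mem_Iio] at ht hs
      exact hS.inj t s ht hs h
  rwa [Finset.card_range, Finset.card_range] at h1

theorem K_le (S : Sys) : S.K.card ≤ S.top := by
  have h1 : S.K.card ≤ (Finset.range S.top).card := by
    apply Finset.card_le_card
    intro v hv
    rw [Finset.mem_range]
    exact (S.key v hv).2
  rwa [Finset.card_range] at h1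

/-! ## Visibility is lost only by a kill -/

theorem dV_lost (hS : Spl S) (ht : t < S.m) (hv : v ∈ S.K) (h : dV S t v) (h' : ¬ dV S (t + 1) v) :
    ∃ p, S.Kl t v p := by
  by_cases hE : S.E t v
  · rcases hE with hR | hL | hA
    · rcases R_cases hR with h1 | h1 | ⟨q, h1, _, _⟩
      · exact absurd (Or.inr (by rw [h1.1]; exact seen_X ht)) h'
      · exact absurd (Or.inr (by rw [h1.1]; exact seen_X ht)) h'
      · exact ⟨q, h1⟩
    · exfalso
      apply h'
      rcases L_lam hL with h1 | ⟨h1, h2, h3⟩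
      · rw [dV, h1]
        rcases h with h | h
        · exact Or.inl h
        · exact Or.inr (seen_mono h (Nat.le_succ t))
      · rw [dV, h3]
        have hpos := (S.key _ h1).1
        rcases h with h | h
        · omega
        · rcases S.lam_mem t ht.le _ h1 with h4 | h4
          · exact Or.inl h4
          · right
            have h5 := E_lam (Sys.L_E h2) h4
            have h6 := S.lam_lt t ht.le _ h1
            have h7 := h2.2.2.1
            rcases hS.loc t _ h5 with h8 | h8
            · exact seen_mono h8 (Nat.le_succ t)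
            · obtain ⟨s, hs1, hs2, hs3⟩ := h
              exact absurd ⟨by omega, by omega⟩ (h8 s hs1).2
    · exfalso
      apply h'
      left
      rw [hA.2.2]
      exact (S.acc t ht).1
  · exfalso
    apply h'
    rw [dV, (Sys.untouched ht hv hE).1]
    rcases h with h | h
    · exact Or.inl h
    · exact Or.inr (seen_mono h (Nat.le_succ t))

theorem gain_le (hS : Spl S) :
    S.cnt (fun t v => ¬ dV S t v ∧ dV S (t + 1) v) ≤ S.K.card + S.NR := by
  have h1 : S.cnt (fun t v => ¬ dV S t v ∧ dV S (t + 1) v) ≤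
      S.K.card + S.cnt (fun t v => dV S t v ∧ ¬ dV S (t + 1) v) := by
    rw [cnt_sum', cnt_sum', Finset.card_eq_sum_ones, ← Finset.sum_add_distrib]
    apply Finset.sum_le_sum
    intro v _
    have h2 := up_down (fun t => dV S t v) (fun t => ¬ dV S t v ∧ dV S (t + 1) v)
      (fun t => dV S t v ∧ ¬ dV S (t + 1) v) (fun _ => Iff.rfl) (fun _ => Iff.rfl) S.m
    have h3 : (if dV S S.m v then 1 else 0) ≤ 1 := by split_ifs <;> omega
    omega
  have h2 : S.cnt (fun t v => dV S t v ∧ ¬ dV S (t + 1) v) ≤ S.NR := by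
    apply Finset.card_le_card
    intro q hq
    rw [Sys.mem_set] at hq ⊢
    exact ⟨hq.1, hq.2.1, dV_lost hS hq.1 hq.2.1 hq.2.2.1 hq.2.2.2⟩
  omega

/-! ## Old nodes kept without killing -/

/-- An unseen left-visible node kept without killing. -/
def Oo (S : Sys) (t v : ℕ) : Prop := S.Kp t v ∧ ¬ Seen S t v ∧ dV S t v ∧ ¬ ∃ g, S.Kl t g v

/-- A seen node touched at the request `t`. -/
def Ao (S : Sys) (t v : ℕ) : Prop := S.E t v ∧ Seen S t v

/-- The unseen left-visible nodes kept without killing. -/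
noncomputable def OO (S : Sys) (t : ℕ) : Finset ℕ := S.K.filter (fun v => Oo S t v)

/-- The seen nodes touched at the request `t`. -/
noncomputable def AA (S : Sys) (t : ℕ) : Finset ℕ := S.K.filter (fun v => Ao S t v)

/-- The unseen left-visible nodes touched at the request `t`. -/
noncomputable def Old (S : Sys) (t : ℕ) : Finset ℕ :=
  S.K.filter (fun v => S.R t v ∧ ¬ Seen S t v ∧ dV S t v)

theorem card_OO (hS : Spl S) (hT : ThrU S) (ht : t < S.m) :
    (OO S t).card ≤ 3 + 2 * (AA S t).card := by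
  obtain ⟨P5, hP5⟩ : ∃ P5, P5 = (OO S t).filter (fun v => Seen S t (S.rho t v)) := ⟨_, rfl⟩
  obtain ⟨P1, hP1⟩ : ∃ P1, P1 = (OO S t).filter (fun v => ∀ v' ∈ Old S t, v ≤ v') := ⟨_, rfl⟩
  obtain ⟨P2, hP2⟩ : ∃ P2, P2 = (OO S t).filter (fun v => ¬ S.R t (S.rho t v)) := ⟨_, rfl⟩
  obtain ⟨P3, hP3⟩ : ∃ P3, P3 = (OO S t).filter (fun v => ∃ y, S.R t y ∧ S.rho t y = v ∧
    S.lam t y ≠ S.lam t v ∧ (Seen S t y ∨ dV S t y)) := ⟨_, rfl⟩
  obtain ⟨P4, hP4⟩ : ∃ P4, P4 = (OO S t).filter (fun v => S.R t (S.rho t v) ∧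
    S.lam t (S.rho t v) ≠ S.lam t v) := ⟨_, rfl⟩
  have hOld : ∀ v ∈ OO S t, v ∈ Old S t := by
    intro v hv
    rw [OO, Finset.mem_filter, Oo] at hv
    rw [Old, Finset.mem_filter]
    exact ⟨hv.1, hv.2.1.1, hv.2.2.1, hv.2.2.2.1⟩
  have c1 : P1.card ≤ 1 := by
    rw [Finset.card_le_one]
    intro v hv v' hv'
    rw [hP1, Finset.mem_filter] at hv hv'
    have h1 := hv.2 v' (hOld v' hv'.1)
    have h2 := hv'.2 v (hOld v hv.1)
    omega
  have c2 : P2.card ≤ 1 := by
    rw [Finset.card_le_one]
    intro v hv v' hv'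
    rw [hP2, Finset.mem_filter] at hv hv'
    have k1 := hOld v hv.1
    have k2 := hOld v' hv'.1
    rw [Old, Finset.mem_filter] at k1 k2
    rcases Nat.lt_trichotomy v v' with h | h | h
    · exact absurd (R_up_le k1.2.1 k2.2.1 h).1 hv.2
    · exact h
    · exact absurd (R_up_le k2.2.1 k1.2.1 h).1 hv'.2
  have c5 : P5.card ≤ 1 := by
    rw [Finset.card_le_one]
    intro v hv v' hv'
    rw [hP5, Finset.mem_filter] at hv hv'
    have k1 := hOld v hv.1
    have k2 := hOld v' hv'.1
    rw [Old, Finset.mem_filter] at k1 k2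
    have key : ∀ {a b : ℕ}, S.R t a → S.R t b → ¬ Seen S t b → Seen S t (S.rho t a) → ¬ a < b := by
      intro a b ha hb hU hs hab
      have h1 := (R_up_le ha hb hab).1
      have h2 := (Sys.R_above ha hb hab).1
      have h3 := R_gt h1
      rcases Nat.eq_or_lt_of_le h2 with h4 | h4
      · rw [h4] at hs
        exact hU hs
      · obtain ⟨s, c1, c2, c3⟩ := hs
        rcases hS.loc t b (Sys.R_E hb) with h5 | h5
        · exact hU h5
        · exact (h5 s c1).1 ⟨by omega, by omega⟩
    rcases Nat.lt_trichotomy v v' with h | h | h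
    · exact absurd h (key k1.2.1 k2.2.1 k2.2.2.1 hv.2)
    · exact h
    · exact absurd h (key k2.2.1 k1.2.1 k1.2.2.1 hv'.2)
  have c4 : P4.card ≤ (AA S t).card := by
    apply Finset.card_le_card_of_injOn (fun v => S.lam t v)
    · intro v hv
      rw [Finset.mem_coe, hP4, Finset.mem_filter] at hv
      obtain ⟨h1, h2, h3⟩ := hv
      have k1 := hOld v h1
      rw [Old, Finset.mem_filter] at k1
      have h4 := (Sys.R_above k1.2.1 h2 (R_rho k1.2.1)).2
      rw [Finset.mem_coe, AA, Finset.mem_filter, Ao]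
      simp only
      rcases k1.2.2.2 with h5 | h5
      · omega
      · exact ⟨seen_mem h5, E_lam (Sys.R_E k1.2.1) (seen_mem h5), h5⟩
    · have key : ∀ v ∈ P4, ∀ v' ∈ P4, v < v' → S.lam t v' < S.lam t v := by
        intro v hv v' hv' hlt
        rw [hP4, Finset.mem_filter] at hv hv'
        have k1 := hOld v hv.1
        have k2 := hOld v' hv'.1
        rw [Old, Finset.mem_filter] at k1 k2
        have h4 := (Sys.R_above k1.2.1 hv.2.1 (R_rho k1.2.1)).2
        have h5 := (R_up_le k1.2.1 k2.2.1 hlt).2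
        have h6 := hv.2.2
        rcases Nat.eq_or_lt_of_le h5 with h7 | h7
        · rw [h7] at h4 h6
          omega
        · have := (Sys.R_above hv.2.1 k2.2.1 h7).2
          omega
      intro v hv v' hv' he
      simp only at he
      rw [Finset.mem_coe] at hv hv'
      rcases Nat.lt_trichotomy v v' with h | h | h
      · have := key v hv v' hv' h
        omega
      · exact h
      · have := key v' hv' v hv h
        omega
  have c3 : P3.card ≤ (AA S t).card := by
    have hch : ∀ v ∈ P3, ∃ y, S.R t y ∧ S.rho t y = v ∧ S.lam t y ≠ S.lam t v ∧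
        (Seen S t y ∨ dV S t y) := by
      intro v hv
      rw [hP3, Finset.mem_filter] at hv
      exact hv.2
    choose! y hy using hch
    have hR3 : ∀ v ∈ P3, S.R t v := by
      intro v hv
      rw [hP3, Finset.mem_filter] at hv
      have k1 := hOld v hv.1
      rw [Old, Finset.mem_filter] at k1
      exact k1.2.1
    have key : ∀ v ∈ P3, ∀ v' ∈ P3, v < v' → S.lam t (y v') < S.lam t (y v) := by
      intro v hv v' hv' hlt
      obtain ⟨a1, a2, a3, _⟩ := hy v hv
      obtain ⟨b1, b2, b3, _⟩ := hy v' hv'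
      have h1 := R_rho a1
      have h2 := (Sys.R_above a1 (hR3 v hv) (by omega)).2
      have h3 : v ≤ y v' := by
        by_contra h4
        have := (R_up_le b1 (hR3 v hv) (by omega)).2
        omega
      rcases Nat.eq_or_lt_of_le h3 with h4 | h4
      · rw [← h4]
        omega
      · have := (Sys.R_above (hR3 v hv) b1 h4).2
        omega
    apply Finset.card_le_card_of_injOn (fun v => if Seen S t (y v) then y v else S.lam t (y v))
    · intro v hv
      rw [Finset.mem_coe] at hv
      obtain ⟨a1, a2, a3, a4⟩ := hy v hv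
      rw [Finset.mem_coe, AA, Finset.mem_filter, Ao]
      simp only
      split_ifs with h5
      · exact ⟨a1.2.1, Sys.R_E a1, h5⟩
      · have h1 := R_rho a1
        have h2 := (Sys.R_above a1 (hR3 v hv) (by omega)).2
        rcases a4 with h6 | h6 | h6
        · exact absurd h6 h5
        · omega
        · exact ⟨seen_mem h6, E_lam (Sys.R_E a1) (seen_mem h6), h6⟩
    · intro v hv v' hv' he
      rw [Finset.mem_coe] at hv hv'
      obtain ⟨a1, a2, a3, a4⟩ := hy v hv
      obtain ⟨b1, b2, b3, b4⟩ := hy v' hv'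
      simp only at he
      have e1 := R_gt a1
      have e2 := R_gt b1
      have e3 := R_lam a1
      have e4 := R_lam b1
      split_ifs at he with h5 h6 h6
      · rw [he] at a2
        omega
      · omega
      · omega
      · rcases Nat.lt_trichotomy v v' with h | h | h
        · have := key v hv v' hv' h
          omega
        · exact h
        · have := key v' hv' v hv h
          omega
  have hsub : OO S t ⊆ P5 ∪ ((P1 ∪ P2) ∪ (P3 ∪ P4)) := by
    intro v hv
    rw [Finset.mem_union, Finset.mem_union, Finset.mem_union, Finset.mem_union]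
    by_cases h0 : v ∈ P5
    · exact Or.inl h0
    right
    by_cases h1 : v ∈ P1
    · exact Or.inl (Or.inl h1)
    by_cases h2 : v ∈ P2
    · exact Or.inl (Or.inr h2)
    by_cases h4 : v ∈ P4
    · exact Or.inr (Or.inr h4)
    right; left
    rw [hP5, Finset.mem_filter] at h0
    push Not at h0
    have k1 := hOld v hv
    rw [Old, Finset.mem_filter] at k1
    obtain ⟨kK, kR, kS, kV⟩ := k1
    rw [hP1, Finset.mem_filter] at h1
    rw [hP2, Finset.mem_filter] at h2
    rw [hP4, Finset.mem_filter] at h4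
    push Not at h1 h2 h4
    obtain ⟨v', hv', hlt⟩ := h1 hv
    have h5 := h2 hv
    have h6 := h4 hv h5
    rw [Old, Finset.mem_filter] at hv'
    obtain ⟨z, z1, z2, z3, z4⟩ := exists_below hv'.2.1 kR hlt
    have hzV : Seen S t z ∨ dV S t z := by
      by_cases h7 : Seen S t z
      · exact Or.inl h7
      · right
        rcases Nat.eq_or_lt_of_le z2 with h8 | h8
        · rw [← h8]
          exact hv'.2.2.2
        · exact dV_up hS ht.le hv'.1 z1.2.1 h7 h8 (Sys.R_above hv'.2.1 z1 h8).2 hv'.2.2.2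
    rw [hP3, Finset.mem_filter]
    refine ⟨hv, z, z1, z4, ?_, hzV⟩
    intro h7
    have hv'' := hv
    rw [OO, Finset.mem_filter, Oo] at hv''
    obtain ⟨_, o1, _, _, o4⟩ := hv''
    have h8 := hT t z (by rw [z4]; exact h0 hv) z1 (by rw [z4]; exact kR) (by rw [z4]; exact h5)
      (by rw [z4]; exact h7.symm) (by rw [z4]; omega)
    rw [z4] at h8
    rcases h8 with h8 | h8
    · exact Sys.not_kp_kl o1 h8
    · exact o4 ⟨_, h8⟩
  have e1 := Finset.card_le_card hsub
  have e5 := Finset.card_union_le P5 ((P1 ∪ P2) ∪ (P3 ∪ P4))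
  have e2 := Finset.card_union_le (P1 ∪ P2) (P3 ∪ P4)
  have e3 := Finset.card_union_le P1 P2
  have e4 := Finset.card_union_le P3 P4
  omega

theorem old_le (hS : Spl S) (hT : ThrU S) :
    S.cnt (Oo S) ≤ 3 * S.m + 2 * irr S := by
  have h0 : irr S = S.cnt (Ao S) := rfl
  rw [h0, cnt_sum, cnt_sum, Finset.mul_sum]
  have h1 : 3 * S.m = ∑ t ∈ Finset.range S.m, 3 := by
    rw [Finset.sum_const, Finset.card_range, smul_eq_mul, mul_comm]
  rw [h1, ← Finset.sum_add_distrib]
  apply Finset.sum_le_sum
  intro t ht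
  rw [Finset.mem_range] at ht
  exact card_OO hS hT ht

/-! ## The bound for the right side -/

theorem killer_le (S : Sys) : S.cnt (fun t v => ∃ g, S.Kl t g v) ≤ S.NR := by
  have hch : ∀ t v, (∃ g, S.Kl t g v) → ∃ g, S.Kl t g v := fun _ _ h => h
  choose! f hf using hch
  refine Sys.cnt_le_of_inj (S.set (fun t g => ∃ p, S.Kl t g p)) (fun t v => (t, f t v)) ?_ ?_
  · intro t v ht hv h
    rw [Sys.mem_set]
    have h1 := hf t v h
    exact ⟨ht, h1.1.2.1, v, h1⟩
  · intro t v t' v' ht hv h ht' hv' h' he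
    simp only [Prod.mk.injEq] at he
    obtain ⟨rfl, he⟩ := he
    have h1 := hf t v h
    have h2 := hf t v' h'
    rw [← he] at h2
    exact ⟨rfl, kl_unique h1 h2⟩

theorem R_count (hS : Spl S) (hT : ThrU S) :
    S.cnt S.R ≤ 3 * S.NR + 3 * irr S + 4 * S.top := by
  have h1 : S.cnt S.R ≤ S.NR + S.cnt S.Kp := by
    apply cnt_or_le
    intro t v h
    rcases Sys.kp_or_kl h with h | h
    · exact Or.inr h
    · exact Or.inl h
  have h2 : S.cnt S.Kp ≤ S.cnt (fun t v => ∃ g, S.Kl t g v) +
      S.cnt (fun t v => S.Kp t v ∧ ¬ ∃ g, S.Kl t g v) := by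
    apply cnt_or_le
    intro t v h
    by_cases h3 : ∃ g, S.Kl t g v
    · exact Or.inl h3
    · exact Or.inr ⟨h, h3⟩
  have h3 : S.cnt (fun t v => S.Kp t v ∧ ¬ ∃ g, S.Kl t g v) ≤ irr S +
      S.cnt (fun t v => (S.Kp t v ∧ ¬ Seen S t v) ∧ ¬ ∃ g, S.Kl t g v) := by
    apply cnt_or_le
    intro t v h
    by_cases h3 : Seen S t v
    · exact Or.inl ⟨Sys.R_E h.1.1, h3⟩
    · exact Or.inr ⟨⟨h.1, h3⟩, h.2⟩
  have h4 : S.cnt (fun t v => (S.Kp t v ∧ ¬ Seen S t v) ∧ ¬ ∃ g, S.Kl t g v) ≤
      S.cnt (fun t v => ¬ dV S t v ∧ dV S (t + 1) v) +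
      S.cnt (Oo S) := by
    apply cnt_or_le
    intro t v h
    by_cases h3 : dV S t v
    · exact Or.inr ⟨h.1.1, h.1.2, h3, h.2⟩
    · left
      refine ⟨h3, Or.inr ?_⟩
      rw [h.1.1.2]
      exact seen_X h.1.1.1.1
  have h5 := gain_le hS
  have h6 := old_le hS hT
  have h7 := killer_le S
  have h8 := m_le hS
  have h9 := K_le S
  omega

/-- **The number of touches.** -/
theorem theta_le : ThetaLe := by
  refine ⟨9, ?_⟩
  intro S hG
  have h1 := R_count hG.spl hG.thr
  have h2 := R_count (good_mir hG).spl (good_mir hG).thr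
  rw [irr_mir, mir_top] at h2
  have h3 : S.mir.cnt S.mir.R = S.cnt S.L := Sys.mir_cnt (fun _ _ hu => Sys.mir_R hu)
  rw [h3] at h2
  have h4 : tch S ≤ S.cnt S.R + S.cnt (fun t v => S.L t v ∨ S.Ac t v) := by
    apply cnt_or_le
    intro t v h
    exact h
  have h5 : S.cnt (fun t v => S.L t v ∨ S.Ac t v) ≤ S.cnt S.L + S.cnt S.Ac := by
    apply cnt_or_le
    intro t v h
    exact h
  have h6 : S.cnt S.Ac ≤ S.m := by
    have := Sys.cnt_le_of_inj (S := S) (P := S.Ac) (Finset.range S.m) (fun t _ => t) ?_ ?_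
    · rwa [Finset.card_range] at this
    · intro t v ht _ _
      exact Finset.mem_range.2 ht
    · intro t v t' v' _ _ h _ _ h' he
      subst he
      exact ⟨rfl, by rw [h.2.2, h'.2.2]⟩
  have h7 := m_le hG.spl
  omega

end Pool.Agent.SplTr.Th
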