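import Pool.Agent.SplTr.HotD
import Pool.Agent.SplTr.Theta

set_option autoImplicit false

/-!
# Base kills are rounds, with few exceptions
-/

namespace Pool.Agent.SplTr.Ht

open Pool.Agent.SplLog Pool.Agent.SplLs Pool.Agent.SplDq
open scoped Classical

variable {S : Sys} {a b i j l q r s t u v w x p g : ℕ}

theorem hb_rel {P : ℕ → ℕ → Prop} {α : Type} [Inhabited α] (T : Finset α)
    (r : ℕ → ℕ → α → Prop) (h1 : ∀ t v, P t v → ∃ x ∈ T, r t v x)
    (h2 : ∀ t v t' v' x, P t v → P t' v' → r t v x → r t' v' x → t = t' ∧ v = v') :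
    S.cnt P ≤ T.card := by
  refine Sys.cnt_le_of_inj T (fun t v => if h : ∃ x ∈ T, r t v x then h.choose else default) ?_ ?_
  · intro t v _ _ hP
    have h := h1 t v hP
    simp only [dif_pos h]
    exact h.choose_spec.1
  · intro t v t' v' _ _ hP _ _ hP' he
    have h := h1 t v hP
    have h' := h1 t' v' hP'
    simp only [dif_pos h, dif_pos h'] at he
    have a := h.choose_spec.2
    have b := h'.choose_spec.2
    rw [he] at a
    exact h2 _ _ _ _ _ hP hP' a b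

/-- `s` is the last kill of `g` (on either side) before `t`. -/
def LK (S : Sys) (s g t : ℕ) : Prop :=
  s < t ∧ ((∃ p, S.Kl s g p) ∨ ∃ w, Kr S s g w) ∧
    ∀ x, s < x → x < t → ¬ (∃ p, S.Kl x g p) ∧ ¬ ∃ w, Kr S x g w

/-- A kill of an unseen key. -/
def Un (S : Sys) (t g : ℕ) : Prop := (∃ p, S.Kl t g p) ∧ ¬ Seen S t g

theorem lk_lt {s' t' : ℕ} (h : LK S s' g t') (hk : ∃ p, S.Kl t g p) (htt : t < t') : t ≤ s' := by
  by_contra hc
  exact (h.2.2 t (by omega) htt).1 hk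

/-- The highest unseen node on the right side of the path. -/
theorem top_unique {g' : ℕ} (hS : Spl S) (h : S.R t g)
    (hr : S.rho t g = S.top ∨ Seen S t (S.rho t g)) (h' : S.R t g') (hg' : ¬ Seen S t g') :
    g' ≤ g := by
  by_contra hc
  have h1 := (Sys.R_above h h' (by omega)).1
  have h2 := (S.key g' h'.2.1).2
  have h3 := R_gt h
  have h4 := R_rho h
  rcases hr with h5 | h5
  · omega
  · obtain ⟨s, hs1, hs2, hs3⟩ := h5
    rcases hS.loc t g' (Sys.R_E h') with h6 | h6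
    · exact hg' h6
    · rcases Nat.eq_or_lt_of_le h1 with h7 | h7
      · exact hg' ⟨s, hs1, hs2, by omega⟩
      · exact (h6 s hs1).1 ⟨by omega, by omega⟩

/-- The lowest unseen node on the left side of the path. -/
theorem bot_unique {g' : ℕ} (hS : Spl S) (h : S.L t g)
    (hr : S.lam t g = 0 ∨ Seen S t (S.lam t g)) (h' : S.L t g') (hg' : ¬ Seen S t g') :
    g ≤ g' := by
  by_contra hc
  have h1 := (Sys.L_above h' h (by omega)).1
  have h2 := (S.key g' h'.2.1).1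
  have h3 := h.2.2.1
  have h4 := S.lam_lt t h.1.le g h.2.1
  rcases hr with h5 | h5
  · omega
  · obtain ⟨s, hs1, hs2, hs3⟩ := h5
    rcases hS.loc t g' (Sys.L_E h') with h6 | h6
    · exact hg' h6
    · rcases Nat.eq_or_lt_of_le h1 with h7 | h7
      · exact hg' ⟨s, hs1, hs2, by omega⟩
      · exact (h6 s hs1).2 ⟨by omega, by omega⟩

/-- E1: the victim was requested before. -/
theorem hb_e1 : S.cnt (fun t g => (∃ p, S.Kl t g p) ∧ Seen S t g) ≤ irr S := by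
  apply Finset.card_le_card
  intro q hq
  rw [Sys.mem_set] at hq ⊢
  obtain ⟨h1, h2, ⟨p, h3⟩, h4⟩ := hq
  exact ⟨h1, h2, Sys.R_E h3.1, h4⟩

/-- E3: top kills. -/
theorem hb_e3 (hS : Spl S) :
    S.cnt (fun t g => Un S t g ∧ (S.rho t g = S.top ∨ Seen S t (S.rho t g))) ≤ S.m := by
  have := hb_rel (S := S) (P := fun t g => Un S t g ∧ (S.rho t g = S.top ∨
    Seen S t (S.rho t g))) (Finset.range S.m) (fun t _ x => x = t) ?_ ?_
  · rwa [Finset.card_range] at this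
  · rintro t v ⟨⟨⟨p, h1⟩, _⟩, _⟩
    exact ⟨t, Finset.mem_range.2 h1.1.1, rfl⟩
  · rintro t v t' v' x ⟨⟨⟨p, h1⟩, h2⟩, h3⟩ ⟨⟨⟨p', h1'⟩, h2'⟩, h3'⟩ rfl h4
    subst h4
    have a := top_unique hS h1.1 h3 h1'.1 h2'
    have b := top_unique hS h1'.1 h3' h1.1 h2
    exact ⟨rfl, by omega⟩

/-- E4: no kill of the key before. -/
theorem hb_e4 : S.cnt (fun t g => Un S t g ∧ ∀ s, ¬ LK S s g t) ≤ S.K.card := by
  refine hb_rel S.K (fun _ v x => x = v) ?_ ?_
  · rintro t v ⟨⟨⟨p, h1⟩, _⟩, _⟩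
    exact ⟨v, h1.1.2.1, rfl⟩
  · rintro t v t' v' x ⟨⟨h1, h2⟩, h3⟩ ⟨⟨h1', h2'⟩, h3'⟩ rfl h4
    subst h4
    have key : ∀ {t t' : ℕ}, (∃ p, S.Kl t x p) → (∀ s, ¬ LK S s x t') → ¬ t < t' := by
      intro t t' h1 h3 hlt
      obtain ⟨s, hs1, hs2, hs3⟩ := Sys.exists_prev (t := t')
        (P := fun y => (∃ p, S.Kl y x p) ∨ ∃ w, Kr S y x w) ⟨t, hlt, Or.inl h1⟩
      exact h3 s ⟨hs1, hs2, fun y hy1 hy2 => not_or.1 (hs3 y hy1 hy2)⟩
    have a := key h1 h3'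
    have b := key h1' h3
    exact ⟨by omega, rfl⟩

/-- E5: a touch from the other side since the last kill. -/
theorem hb_e5 (hS : Spl S) :
    S.cnt (fun t g => Un S t g ∧ ∃ s, LK S s g t ∧ ∃ x, s < x ∧ x < t ∧ S.L x g) ≤ S.m := by
  have := hb_rel (S := S) (P := fun t g => Un S t g ∧ ∃ s, LK S s g t ∧ ∃ x, s < x ∧ x < t ∧
    S.L x g) (Finset.range S.m) (fun t g y => ∃ s x, LK S s g t ∧ s < x ∧ x < y ∧ y ≤ t ∧
      S.R y g ∧ (S.rho y g = S.top ∨ Seen S y (S.rho y g))) ?_ ?_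
  · rwa [Finset.card_range] at this
  · rintro t g ⟨⟨⟨p, hk⟩, hu⟩, s, hs, x0, hx1, hx2, hx3⟩
    obtain ⟨x, hx4, hx5, hx6⟩ := Sys.exists_prev (t := t) (P := fun y => S.L y g) ⟨x0, hx2, hx3⟩
    have hsx : s < x := by
      by_contra hc
      exact hx6 x0 (by omega) hx2 hx3
    -- the first touch after `x`
    have hex : ∃ y, x < y ∧ S.R y g := ⟨t, hx4, hk.1⟩
    obtain ⟨hy1, hy2⟩ := Nat.find_spec hex
    have hy3 : Nat.find hex ≤ t := Nat.find_min' hex ⟨hx4, hk.1⟩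
    have hNE : S.NE g (x + 1) (Nat.find hex) := by
      intro z hz1 hz2 hz3
      rcases hz3 with h | h | h
      · exact Nat.find_min hex hz2 ⟨by omega, h⟩
      · exact hx6 z (by omega) (by omega) h
      · exact hu ⟨z, by omega, h.1, h.2.2.symm⟩
    have hm : Nat.find hex < S.m := hy2.1
    have hr := (Sys.NE_const hk.1.2.1 (show x + 1 ≤ Nat.find hex from hy1) hm.le hNE).2
    have hkeep : S.rho (x + 1) g = S.X x := by
      rcases LC hx5 with h | h | ⟨w, h⟩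
      · exact h.1
      · exact h.1
      · exact absurd ⟨w, h.1⟩ (hs.2.2 x hsx hx4).2
    refine ⟨Nat.find hex, Finset.mem_range.2 hm, s, x, hs, hsx, hy1, hy3, hy2, Or.inr ?_⟩
    rw [hr, hkeep]
    exact ⟨x, hy1, hx5.1, rfl⟩
  · rintro t g t' g' y ⟨⟨hk, hu⟩, _⟩ ⟨⟨hk', hu'⟩, _⟩ ⟨s, x, h1, h2, h3, h4, h5, h6⟩
      ⟨s', x', h1', h2', h3', h4', h5', h6'⟩
    have c1 : ¬ Seen S y g := fun h => hu (seen_mono h h4)
    have c2 : ¬ Seen S y g' := fun h => hu' (seen_mono h h4')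
    have a := top_unique hS h5 h6 h5' c2
    have b := top_unique hS h5' h6' h5 c1
    have hgg : g = g' := by omega
    subst hgg
    refine ⟨?_, rfl⟩
    rcases Nat.lt_trichotomy t t' with h | h | h
    · have := lk_lt h1' hk h
      omega
    · exact h
    · have := lk_lt h1 hk' h
      omega

/-- E6: a touch of the old node since the last kill. -/
theorem hb_e6 : S.cnt (fun t g => Un S t g ∧ ¬ Hot S t g ∧ ∃ s, LK S s g t ∧
    (∀ x, s < x → x < t → ¬ S.L x g) ∧ ∃ x, s < x ∧ x < t ∧ S.R x g ∧ Dm.dV S x g) ≤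
    S.cnt (Th.Oo S) := by
  refine hb_rel (S.set (Th.Oo S)) (fun t g z => z.2 = g ∧ ∃ s, LK S s g t ∧ s < z.1 ∧ z.1 < t)
    ?_ ?_
  · rintro t g ⟨⟨hk, hu⟩, hnh, s, hs, hL, x, hx1, hx2, hx3, hx4⟩
    refine ⟨(x, g), ?_, rfl, s, hs, hx1, hx2⟩
    rw [Sys.mem_set]
    refine ⟨hx3.1, hx3.2.1, ?_, fun h => hu (seen_mono h hx2.le), hx4, ?_⟩
    · rcases Sys.kp_or_kl hx3 with h | h
      · exact h
      · exact absurd h (hs.2.2 x hx1 hx2).1
    · intro h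
      apply hnh
      exact ⟨x, hx2, h, fun y hy1 hy2 => ⟨hL y (by omega) hy2, (hs.2.2 y (by omega) hy2).1⟩⟩
  · rintro t g t' g' z ⟨⟨hk, hu⟩, _⟩ ⟨⟨hk', hu'⟩, _⟩ ⟨h0, s, h1, h2, h3⟩ ⟨h0', s', h1', h2', h3'⟩
    have hgg : g = g' := by omega
    subst hgg
    refine ⟨?_, rfl⟩
    rcases Nat.lt_trichotomy t t' with h | h | h
    · have := lk_lt h1' hk h
      omega
    · exact h
    · have := lk_lt h1 hk' h
      omega

/-- E7: the last kill is a top kill on the other side. -/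
theorem hb_e7 (hS : Spl S) :
    S.cnt (fun t g => Un S t g ∧ ∃ s, LK S s g t ∧ (∃ w, Kr S s g w) ∧
      (S.lam s g = 0 ∨ Seen S s (S.lam s g))) ≤ S.m := by
  have := hb_rel (S := S) (P := fun t g => Un S t g ∧ ∃ s, LK S s g t ∧ (∃ w, Kr S s g w) ∧
      (S.lam s g = 0 ∨ Seen S s (S.lam s g))) (Finset.range S.m) (fun t g s => LK S s g t ∧
      (∃ w, Kr S s g w) ∧ (S.lam s g = 0 ∨ Seen S s (S.lam s g))) ?_ ?_
  · rwa [Finset.card_range] at this
  · rintro t g ⟨_, s, h1, ⟨w, h2⟩, h3⟩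
    exact ⟨s, Finset.mem_range.2 h2.1.1, h1, ⟨w, h2⟩, h3⟩
  · rintro t g t' g' s ⟨⟨hk, hu⟩, _⟩ ⟨⟨hk', hu'⟩, _⟩ ⟨h1, ⟨w, h2⟩, h3⟩ ⟨h1', ⟨w', h2'⟩, h3'⟩
    have c1 : ¬ Seen S s g := fun h => hu (seen_mono h h1.1.le)
    have c2 : ¬ Seen S s g' := fun h => hu' (seen_mono h h1'.1.le)
    have a := bot_unique hS h2.1 h3 h2'.1 c2
    have b := bot_unique hS h2'.1 h3' h2.1 c1
    have hgg : g = g' := by omega
    subst hgg
    refine ⟨?_, rfl⟩
    rcases Nat.lt_trichotomy t t' with h | h | h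
    · have := lk_lt h1' hk h
      have := h1.1
      omega
    · exact h
    · have := lk_lt h1 hk' h
      have := h1'.1
      omega

/-- E8: the last kill of the key. -/
theorem hb_e8 : S.cnt (fun t g => Un S t g ∧ ∀ u, t < u → S.NE g (t + 1) u →
    ¬ S.R u g ∧ ¬ S.L u g) ≤ S.K.card := by
  refine hb_rel S.K (fun _ v x => x = v) ?_ ?_
  · rintro t v ⟨⟨⟨p, h1⟩, _⟩, _⟩
    exact ⟨v, h1.1.2.1, rfl⟩
  · rintro t v t' v' x ⟨⟨h1, h2⟩, h3⟩ ⟨⟨h1', h2'⟩, h3'⟩ rfl h4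
    subst h4
    have key : ∀ {t t' : ℕ}, (∀ u, t < u → S.NE x (t + 1) u → ¬ S.R u x ∧ ¬ S.L u x) →
        (∃ p, S.Kl t' x p) → ¬ Seen S t' x → ¬ t < t' := by
      rintro t t' h3 ⟨p, hp⟩ hu hlt
      have hex : ∃ u, t < u ∧ S.E u x := ⟨t', hlt, Sys.R_E hp.1⟩
      obtain ⟨hy1, hy2⟩ := Nat.find_spec hex
      have hy3 : Nat.find hex ≤ t' := Nat.find_min' hex ⟨hlt, Sys.R_E hp.1⟩
      have hNE : S.NE x (t + 1) (Nat.find hex) :=
        fun z hz1 hz2 hz3 => Nat.find_min hex hz2 ⟨by omega, hz3⟩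
      obtain ⟨k1, k2⟩ := h3 _ hy1 hNE
      rcases hy2 with h | h | h
      · exact k1 h
      · exact k2 h
      · rcases Nat.eq_or_lt_of_le hy3 with h4 | h4
        · rw [h4] at h
          exact Sys.not_R_Ac hp.1 h
        · exact hu ⟨_, h4, h.1, h.2.2.symm⟩
    have a := key h3 h1' h2'
    have b := key h3' h1 h2
    exact ⟨by omega, rfl⟩

/-! ## The round -/

theorem dV_persist (hS : Spl S) (hg : g ∈ S.K) (hab : a ≤ b) (hb : b ≤ S.m)
    (h : Dm.dV S a g) (hk : ∀ x, a ≤ x → x < b → ¬ ∃ p, S.Kl x g p) : Dm.dV S b g := by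
  induction b, hab using Nat.le_induction with
  | base => exact h
  | succ b hab ih =>
    have h1 := ih (by omega) (fun x h1 h2 => hk x h1 (by omega))
    by_contra hc
    exact hk b hab (by omega) (Th.dV_lost hS (by omega) hg h1 hc)

theorem round (hS : Spl S) (hk : S.Kl t g p) (hnh : ¬ Hot S t g) (hu : ¬ Seen S t g)
    (hr1 : S.rho t g ≠ S.top) (hr2 : ¬ Seen S t (S.rho t g)) (hs : LK S s g t)
    (hL : ∀ x, s < x → x < t → ¬ S.L x g) (hO : ∀ x, s < x → x < t → S.R x g → ¬ Dm.dV S x g)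
    (hE7 : (∃ w, Kr S s g w) → ¬ (S.lam s g = 0 ∨ Seen S s (S.lam s g))) :
    ∃ r, Rd S r ∧ r.t = t ∧ r.g = g := by
  have hg : g ∈ S.K := hk.1.2.1
  have htm : t < S.m := hk.1.1
  have hst : s < t := hs.1
  have husK : ¬ Seen S s g := fun h => hu (seen_mono h hst.le)
  have hR : ∀ x, s < x → x < t → S.E x g → S.R x g := by
    rintro x h1 h2 (h | h | h)
    · exact h
    · exact absurd h (hL x h1 h2)
    · exact absurd ⟨x, h2, h.1, h.2.2.symm⟩ hu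
  have hkp : ∀ x, s < x → x < t → S.R x g → S.Kp x g ∧ S.rho (x + 1) g = S.rho x g := by
    intro x h1 h2 h3
    rcases R_cases h3 with h | h | ⟨q, h, _⟩
    · exact ⟨⟨h3, h.1⟩, h.2⟩
    · exfalso
      apply hnh
      exact ⟨x, h2, ⟨_, h.2.1⟩, fun y hy1 hy2 => ⟨hL y (by omega) hy2,
        (hs.2.2 y (by omega) hy2).1⟩⟩
    · exact absurd ⟨q, h⟩ (hs.2.2 x h1 h2).1
  have hrho : ∀ x, s < x → x ≤ t → S.rho x g = S.rho (s + 1) g := by
    intro x h1 h2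
    induction x, (show s + 1 ≤ x from h1) using Nat.le_induction with
    | base => rfl
    | succ x h3 ih =>
      have h4 := ih (by omega) (by omega)
      by_cases hE : S.E x g
      · rw [(hkp x (by omega) (by omega) (hR x (by omega) (by omega) hE)).2, h4]
      · rw [(Sys.untouched (by omega) hg hE).2, h4]
  -- visibility is kept
  have hper : ∀ y x, s < y → y ≤ x → x < t → Dm.dV S y g → ¬ S.R x g := by
    intro y x h1 h2 h3 h4 h5
    exact hO x (by omega) h3 h5 (dV_persist hS hg h2 (by omega) h4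
      (fun z hz1 hz2 => (hs.2.2 z (by omega) (by omega)).1))
  have hone : ∀ y x, s < y → y < x → x < t → S.R y g → ¬ S.R x g := by
    intro y x h1 h2 h3 h4
    refine hper (y + 1) x (by omega) h2 h3 (Or.inr ?_)
    rw [(hkp y h1 (by omega) h4).1.2]
    exact seen_X h4.1 (Nat.lt_succ_self y)
  have hlam : ∀ x, s < x → x ≤ t → (∀ y, s < y → y < x → ¬ S.R y g) →
      S.lam x g = S.lam (s + 1) g := by
    intro x h1 h2 h3
    refine (Sys.NE_const hg (show s + 1 ≤ x from h1) (by omega) ?_).1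
    intro y h4 h5 h6
    exact h3 y (by omega) h5 (hR y (by omega) (by omega) h6)
  -- `q`
  have hsm : s < S.m := by omega
  have hq : S.lam (s + 1) g ≠ 0 ∧ ¬ Seen S (s + 1) (S.lam (s + 1) g) := by
    rcases hs.2.1 with ⟨p', h1⟩ | ⟨w, h1⟩
    · have h2 := h1.2.1
      rw [h1.2.2]
      refine ⟨by omega, ?_⟩
      intro h3
      rcases (seen_succ hsm).1 h3 with h4 | h4
      · have h5 := kl_lt h1
        obtain ⟨y, hy1, hy2, hy3⟩ := h4
        rcases hS.loc s g (Sys.R_E h1.1) with h6 | h6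
        · exact husK h6
        · exact (h6 y hy1).1 ⟨by omega, by omega⟩
      · omega
    · have h2 := (kr_facts h1).2.2.2.2.2.2
      have h3 := not_or.1 (hE7 ⟨w, h1⟩)
      rw [h2]
      refine ⟨h3.1, ?_⟩
      intro h4
      rcases (seen_succ hsm).1 h4 with h5 | h5
      · exact h3.2 h5
      · have h6 := S.lam_lt s hsm.le g hg
        have h7 := h1.1.2.2.1
        omega
  -- the release
  have hex : ∃ x, s < x ∧ S.lam (s + 1) g ≤ S.X x ∧ S.X x < g := by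
    by_cases h : ∃ x, s < x ∧ x < t ∧ S.R x g
    · obtain ⟨x, h1, h2, h3⟩ := h
      have h4 := hlam x h1 h2.le (fun y h5 h6 h7 => hone y x h5 h6 h2 h7 h3)
      have h5 := R_gt h3
      have h6 := R_lam h3
      exact ⟨x, h1, by omega, h5⟩
    · have h4 := hlam t hst le_rfl (fun y h5 h6 h7 => h ⟨y, h5, h6, h7⟩)
      have h5 := R_gt hk.1
      have h6 := R_lam hk.1
      exact ⟨t, hst, by omega, h5⟩
  obtain ⟨f1, f2, f3⟩ := Nat.find_spec hex
  have hft : Nat.find hex ≤ t := by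
    by_cases h : ∃ x, s < x ∧ x < t ∧ S.R x g
    · obtain ⟨x, h1, h2, h3⟩ := h
      have h4 := hlam x h1 h2.le (fun y h5 h6 h7 => hone y x h5 h6 h2 h7 h3)
      have h5 := R_gt h3
      have h6 := R_lam h3
      have := Nat.find_min' hex ⟨h1, by omega, h5⟩
      omega
    · have h4 := hlam t hst le_rfl (fun y h5 h6 h7 => h ⟨y, h5, h6, h7⟩)
      have h5 := R_gt hk.1
      have h6 := R_lam hk.1
      exact Nat.find_min' hex ⟨hst, by omega, h5⟩
  refine ⟨⟨t, g, p, S.rho t g, s, S.lam (s + 1) g, Nat.find hex⟩, ?_, rfl, rfl⟩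
  constructor
  · exact hk
  · rfl
  · exact hu
  · rintro ⟨y, hy1, hy2, hy3⟩
    have h1 := kl_lt hk
    have h2 := hk.2.1
    rcases hS.loc t g (Sys.R_E hk.1) with h3 | h3
    · exact hu h3
    · simp only at hy3
      exact (h3 y hy1).1 ⟨by omega, by omega⟩
  · show S.rho t g < S.top
    exact lt_of_le_of_ne (S.rho_le_top htm.le hg) hr1
  · exact hr2
  · exact hst
  · show (S.Kl s g (S.lam (s + 1) g) ∧ S.rho (s + 1) g = S.rho t g) ∨
      (Kr S s g (S.rho t g) ∧ S.lam (s + 1) g = S.lam (s + 1) g)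
    rw [hrho t hst le_rfl]
    rcases hs.2.1 with ⟨p', h1⟩ | ⟨w, h1⟩
    · left
      refine ⟨?_, rfl⟩
      rw [h1.2.2]
      exact h1
    · right
      refine ⟨?_, rfl⟩
      rw [h1.2.2]
      exact h1
  · exact Nat.pos_of_ne_zero hq.1
  · exact hq.2
  · intro x h1 h2 h3
    simp only at h1 h2 h3 ⊢
    have h4 := hR x h1 h2 h3
    have h5 := hlam x h1 h2.le (fun y h5 h6 h7 => hone y x h5 h6 h2 h7 h4)
    have h6 := R_gt h4
    have h7 := R_lam h4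
    have h8 : Nat.find hex ≤ x := Nat.find_min' hex ⟨h1, by omega, h6⟩
    refine ⟨?_, (hkp x h1 h2 h4).1, ?_⟩
    · by_contra hc
      have h9 : Nat.find hex < x := by omega
      have h10 := hlam (Nat.find hex) f1 (by omega)
        (fun y h5 h6 h7 => hone y x h5 (by omega) h2 h7 h4)
      have h11 : ¬ S.R (Nat.find hex) g := fun h => hone _ x f1 h9 h2 h h4
      have h12 : S.lam (Nat.find hex) g = S.X (Nat.find hex) := by
        by_contra h13
        exact h11 ⟨by omega, hg, f3, by omega⟩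
      refine hper (Nat.find hex + 1) x (by omega) (by omega) h2 (Or.inr ?_) h4
      rw [(not_R (by omega) hg f3 h11).2.1, h12]
      exact seen_X (by omega) (Nat.lt_succ_self _)
    · rw [(hkp x h1 h2 h4).2, hrho x h1 h2.le, hrho t hst le_rfl]
  · exact f1
  · exact hft
  · exact f2
  · exact f3
  · intro x h1 h2 h3
    exact Nat.find_min hex h2 ⟨h1, h3.1, h3.2⟩

/-- **Base kills are rounds.** -/
theorem hotB : HotB := by
  refine ⟨9, ?_⟩
  intro S hG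
  have hS := hG.spl
  have e1 := hb_e1 (S := S)
  have e3 := hb_e3 hS
  have e4 := hb_e4 (S := S)
  have e5 := hb_e5 hS
  have e6 := hb_e6 (S := S)
  have e7 := hb_e7 hS
  have e8 := hb_e8 (S := S)
  have e9 := Th.old_le hS hG.thr
  have k1 := Th.m_le hS
  have k2 := Th.K_le S
  obtain ⟨D, hD⟩ : ∃ D : ℕ → ℕ → Prop, D = fun t g => ∃ r, Rd S r ∧ (Same S r ∨ Flip S r) ∧
    r.t = t ∧ r.g = g := ⟨_, rfl⟩
  obtain ⟨P1, hP1⟩ : ∃ P : ℕ → ℕ → Prop, P = fun t g => (∃ p, S.Kl t g p) ∧ Seen S t g := ⟨_, rfl⟩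
  obtain ⟨P3, hP3⟩ : ∃ P : ℕ → ℕ → Prop, P = fun t g => Un S t g ∧ (S.rho t g = S.top ∨
    Seen S t (S.rho t g)) := ⟨_, rfl⟩
  obtain ⟨P4, hP4⟩ : ∃ P : ℕ → ℕ → Prop, P = fun t g => Un S t g ∧ ∀ s, ¬ LK S s g t := ⟨_, rfl⟩
  obtain ⟨P5, hP5⟩ : ∃ P : ℕ → ℕ → Prop, P = fun t g => Un S t g ∧ ∃ s, LK S s g t ∧
    ∃ x, s < x ∧ x < t ∧ S.L x g := ⟨_, rfl⟩
  obtain ⟨P6, hP6⟩ : ∃ P : ℕ → ℕ → Prop, P = fun t g => Un S t g ∧ ¬ Hot S t g ∧ ∃ s, LK S s g t ∧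
    (∀ x, s < x → x < t → ¬ S.L x g) ∧ ∃ x, s < x ∧ x < t ∧ S.R x g ∧ Dm.dV S x g := ⟨_, rfl⟩
  obtain ⟨P7, hP7⟩ : ∃ P : ℕ → ℕ → Prop, P = fun t g => Un S t g ∧ ∃ s, LK S s g t ∧
    (∃ w, Kr S s g w) ∧ (S.lam s g = 0 ∨ Seen S s (S.lam s g)) := ⟨_, rfl⟩
  obtain ⟨P8, hP8⟩ : ∃ P : ℕ → ℕ → Prop, P = fun t g => Un S t g ∧ ∀ u, t < u →
    S.NE g (t + 1) u → ¬ S.R u g ∧ ¬ S.L u g := ⟨_, rfl⟩
  rw [← hP1] at e1
  rw [← hP3] at e3
  rw [← hP4] at e4
  rw [← hP5] at e5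
  rw [← hP6] at e6
  rw [← hP7] at e7
  rw [← hP8] at e8
  rw [← hD]
  have key : ∀ t v, Base S t v → D t v ∨ (P1 t v ∨ (P3 t v ∨ (P4 t v ∨ (P5 t v ∨ (P6 t v ∨
      (P7 t v ∨ P8 t v)))))) := by
    rintro t g ⟨⟨p, hk⟩, hnh⟩
    by_contra hc
    simp only [not_or] at hc
    obtain ⟨c0, c1, c3, c4, c5, c6, c7, c8⟩ := hc
    rw [hP1] at c1
    rw [hP3] at c3
    rw [hP4] at c4
    rw [hP5] at c5
    rw [hP6] at c6
    rw [hP7] at c7
    rw [hP8] at c8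
    have hu : ¬ Seen S t g := fun h => c1 ⟨⟨p, hk⟩, h⟩
    have hUn : Un S t g := ⟨⟨p, hk⟩, hu⟩
    have h3 := not_or.1 (fun h => c3 ⟨hUn, h⟩)
    have h4 : ∃ s, LK S s g t := by
      by_contra h
      push Not at h
      exact c4 ⟨hUn, h⟩
    obtain ⟨s, hs⟩ := h4
    have hL : ∀ x, s < x → x < t → ¬ S.L x g :=
      fun x h1 h2 h3 => c5 ⟨hUn, s, hs, x, h1, h2, h3⟩
    obtain ⟨r, hr1, hr2, hr3⟩ := round hS hk hnh hu h3.1 h3.2 hs hL
      (fun x h1 h2 h3 h4 => c6 ⟨hUn, hnh, s, hs, hL, x, h1, h2, h3, h4⟩)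
      (fun h1 h2 => c7 ⟨hUn, s, hs, h1, h2⟩)
    apply c0
    rw [hD]
    refine ⟨r, hr1, ?_, hr2, hr3⟩
    by_contra hc
    simp only [not_or] at hc
    apply c8
    refine ⟨hUn, fun u hu1 hu2 => ⟨fun h => hc.1 ?_, fun h => hc.2 ?_⟩⟩
    · exact ⟨u, by rw [hr2]; exact hu1, by rw [hr3]; exact h, by rw [hr2, hr3]; exact hu2⟩
    · exact ⟨u, by rw [hr2]; exact hu1, by rw [hr3]; exact h, by rw [hr2, hr3]; exact hu2⟩
  have f0 := Th.cnt_or_le S key
  have f1 := Th.cnt_or_le S (P := fun t v => P1 t v ∨ (P3 t v ∨ (P4 t v ∨ (P5 t v ∨ (P6 t v ∨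
      (P7 t v ∨ P8 t v)))))) (fun t v h => h)
  have f3 := Th.cnt_or_le S (P := fun t v => P3 t v ∨ (P4 t v ∨ (P5 t v ∨ (P6 t v ∨
      (P7 t v ∨ P8 t v))))) (fun t v h => h)
  have f4 := Th.cnt_or_le S (P := fun t v => P4 t v ∨ (P5 t v ∨ (P6 t v ∨
      (P7 t v ∨ P8 t v)))) (fun t v h => h)
  have f5 := Th.cnt_or_le S (P := fun t v => P5 t v ∨ (P6 t v ∨ (P7 t v ∨ P8 t v)))
    (fun t v h => h)
  have f6 := Th.cnt_or_le S (P := fun t v => P6 t v ∨ (P7 t v ∨ P8 t v)) (fun t v h => h)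
  have f7 := Th.cnt_or_le S (P := fun t v => P7 t v ∨ P8 t v) (fun t v h => h)
  omega

end Pool.Agent.SplTr.Ht
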