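import Pool.Agent.SplTr.Wall

set_option autoImplicit false

/-!
# Old nodes

A node of the right side of the path is old if it is left-visible before the request.
-/

namespace Pool.Agent.SplTr

open Pool.Agent.SplLog Pool.Agent.SplLs Pool.Agent.SplDq
open scoped Classical

variable {S : Sys} {s t u v w g p q y a b : ℕ}

/-- Old nodes: touched from the left, unseen and left-visible. -/
def Old (S : Sys) (t v : ℕ) : Prop := S.R t v ∧ ¬ Seen S t v ∧ LV S t v

/-- The seen touched nodes. -/
noncomputable def sn (S : Sys) (t : ℕ) : Finset ℕ := S.K.filter (fun v => S.E t v ∧ Seen S t v)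

/-- Below an unseen node there are unseen nodes only. -/
theorem unseen_below (hS : Spl S) (hv : S.R t v) (hw : S.R t w) (hvw : v ≤ w)
    (hU : ¬ Seen S t w) : ¬ Seen S t v :=
  loc_R hS hw hU (R_gt hv).le hvw

/-- The nodes above an old node are old (if they are unseen). -/
theorem old_up (hS : Spl S) (hv : Old S t v) (hw : S.R t w) (hvw : v ≤ w)
    (hU : ¬ Seen S t w) : Old S t w := by
  refine ⟨hw, hU, ?_⟩
  have h1 := (walls_touch hS (Sys.R_E hv.1) hv.2.1).1
  have h2 := (walls_touch hS (Sys.R_E hw) hU).1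
  have h3 := hv.2.2
  unfold LV at h3 ⊢
  rcases Nat.eq_or_lt_of_le hvw with h | h
  · rw [← h]
    exact h3
  · have := (Sys.R_above hv.1 hw h).2
    omega

/-- A node with the same left end as an old node is old. -/
theorem old_of_lam (hS : Spl S) (hv : Old S t v) (hw : S.R t w) (hU : ¬ Seen S t w)
    (h : S.lam t w = S.lam t v) : Old S t w := by
  refine ⟨hw, hU, ?_⟩
  have h1 := (walls_touch hS (Sys.R_E hv.1) hv.2.1).1
  have h2 := (walls_touch hS (Sys.R_E hw) hU).1
  have h3 := hv.2.2
  unfold LV at h3 ⊢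
  omega

/-- If an old node has a nonzero left end, then this is a seen touched node. -/
theorem old_lam (hS : Spl S) (hv : Old S t v) (h : S.lam t v ≠ 0) :
    S.lam t v ∈ sn S t ∧ S.L t (S.lam t v) := by
  have hvK := R_mem hv.1
  have h1 : S.lam t v ∈ S.K := by
    rcases S.lam_mem t hv.1.1.le v hvK with h2 | h2
    · exact absurd h2 h
    · exact h2
  have h2 : Seen S t (S.lam t v) := by
    rcases (lv_iff hS hv.1.1.le hvK hv.2.1).1 hv.2.2 with h3 | h3
    · exact absurd h3 h
    · exact h3
  have h3 := E_lam (Sys.R_E hv.1) h1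
  have h4 := R_lam hv.1
  refine ⟨Finset.mem_filter.2 ⟨h1, h3, h2⟩, hv.1.1, h1, h4, (Sys.E_int h3).2⟩

/-- The left ends at turns between old nodes are different. -/
theorem turn_inj {y' : ℕ} (hy : S.R t y) (hw : S.R t (S.rho t y))
    (hl : S.lam t (S.rho t y) ≠ S.lam t y) (hy' : S.R t y') (hw' : S.R t (S.rho t y'))
    (hl' : S.lam t (S.rho t y') ≠ S.lam t y') (he : S.lam t y = S.lam t y') : y = y' := by
  have key : ∀ {a b : ℕ}, S.R t a → S.R t (S.rho t a) → S.lam t (S.rho t a) ≠ S.lam t a →
      S.R t b → a < b → S.lam t b < S.lam t a := by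
    intro a b ha hra hla hb hab
    have h1 := (Sys.R_above ha hb hab).1
    have h2 := (Sys.R_above ha hra (R_rho ha)).2
    rcases Nat.eq_or_lt_of_le h1 with h3 | h3
    · rw [← h3]
      omega
    · have := (Sys.R_above hra hb h3).2
      omega
  rcases Nat.lt_trichotomy y y' with h | h | h
  · have := key hy hw hl hy' h
    omega
  · exact h
  · have := key hy' hw' hl' hy h
    omega

/-- **(1.1)** Old nodes which are neither killed nor killers. -/
theorem old_free (hS : Spl S) (hT : ThrU S) (_ht : t < S.m) :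
    (S.K.filter (fun v => S.R t v ∧ ¬ Seen S t v ∧ LV S t v ∧ (¬ ∃ p, S.Kl t v p) ∧
      ¬ S.Kl t (S.rho t v) v)).card ≤
    2 + 2 * (S.K.filter (fun v => S.E t v ∧ Seen S t v)).card := by
  set F := S.K.filter (fun v => S.R t v ∧ ¬ Seen S t v ∧ LV S t v ∧ (¬ ∃ p, S.Kl t v p) ∧
      ¬ S.Kl t (S.rho t v) v) with hF
  set A := S.K.filter (fun v => S.L t v ∧ Seen S t v) with hA
  set B := S.K.filter (fun v => S.R t v ∧ Seen S t v) with hB
  have hAB : A.card + B.card ≤ (S.K.filter (fun v => S.E t v ∧ Seen S t v)).card := by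
    rw [← Finset.card_union_of_disjoint]
    · apply Finset.card_le_card
      intro v hv
      rw [Finset.mem_union, hA, hB, Finset.mem_filter, Finset.mem_filter] at hv
      rw [Finset.mem_filter]
      rcases hv with ⟨h1, h2, h3⟩ | ⟨h1, h2, h3⟩
      · exact ⟨h1, Sys.L_E h2, h3⟩
      · exact ⟨h1, Sys.R_E h2, h3⟩
    · rw [Finset.disjoint_left]
      intro v hv hv'
      rw [hA, Finset.mem_filter] at hv
      rw [hB, Finset.mem_filter] at hv'
      exact Sys.not_R_L hv'.2.1 hv.2.1
  have memF : ∀ v ∈ F, Old S t v ∧ (¬ ∃ p, S.Kl t v p) ∧ ¬ S.Kl t (S.rho t v) v := by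
    intro v hv
    rw [hF, Finset.mem_filter] at hv
    obtain ⟨_, h1, h2, h3, h4, h5⟩ := hv
    exact ⟨⟨h1, h2, h3⟩, h4, h5⟩
  set F1 := F.filter (fun v => ¬ ∃ y, Old S t y ∧ S.rho t y = v) with hF1
  set F2 := F.filter (fun v => S.rho t v ∉ S.K) with hF2
  set F3 := F.filter (fun v => S.rho t v ∈ B) with hF3
  set F4 := F.filter (fun v => ∃ y, Old S t y ∧ S.rho t y = v ∧ S.lam t v ≠ S.lam t y) with hF4
  set F5 := F.filter (fun v => Old S t (S.rho t v) ∧ S.lam t (S.rho t v) ≠ S.lam t v) with hF5
  have h0 : F ⊆ F1 ∪ (F2 ∪ (F3 ∪ (F4 ∪ F5))) := by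
    intro v hv
    obtain ⟨h1, h2, h3⟩ := memF v hv
    simp only [Finset.mem_union]
    by_cases c1 : ∃ y, Old S t y ∧ S.rho t y = v
    · by_cases c2 : S.rho t v ∈ S.K
      · have hR := R_up h1.1 c2
        by_cases c3 : Seen S t (S.rho t v)
        · right; right; left
          exact Finset.mem_filter.2 ⟨hv, Finset.mem_filter.2 ⟨c2, hR, c3⟩⟩
        · have hO := old_up hS h1 hR (R_rho h1.1).le c3
          obtain ⟨y, hy, hyv⟩ := c1
          by_cases c4 : S.lam t v = S.lam t y
          · by_cases c5 : S.lam t (S.rho t v) = S.lam t v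
            · exfalso
              have h4 := hT t y (by rw [hyv]; exact c3) hy.1 (by rw [hyv]; exact h1.1)
                (by rw [hyv]; exact hR)
                (by rw [hyv]; exact c4) (by rw [hyv]; exact c5.trans c4)
              rw [hyv] at h4
              rcases h4 with h4 | h4
              · exact h2 ⟨y, h4⟩
              · exact h3 h4
            · right; right; right; right
              rw [hF5, Finset.mem_filter]
              exact ⟨hv, hO, c5⟩
          · right; right; right; left
            rw [hF4, Finset.mem_filter]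
            exact ⟨hv, y, hy, hyv, c4⟩
      · right; left
        rw [hF2, Finset.mem_filter]
        exact ⟨hv, c2⟩
    · left
      rw [hF1, Finset.mem_filter]
      exact ⟨hv, c1⟩
  have h1 : F1.card ≤ 1 := by
    rw [Finset.card_le_one]
    have key : ∀ a ∈ F1, ∀ b ∈ F1, ¬ a < b := by
      intro a ha b hb hab
      rw [hF1, Finset.mem_filter] at ha hb
      obtain ⟨z, hz1, hz2, hz3, hz4⟩ := exists_below (memF a ha.1).1.1 (memF b hb.1).1.1 hab
      apply hb.2
      have hU := unseen_below hS hz1 (memF b hb.1).1.1 hz3.le (memF b hb.1).1.2.1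
      exact ⟨z, old_up hS (memF a ha.1).1 hz1 hz2 hU, hz4⟩
    intro a ha b hb
    rcases Nat.lt_trichotomy a b with h | h | h
    · exact absurd h (key a ha b hb)
    · exact h
    · exact absurd h (key b hb a ha)
  have h2 : F2.card ≤ 1 := by
    rw [Finset.card_le_one]
    have key : ∀ a ∈ F2, ∀ b ∈ F2, ¬ a < b := by
      intro a ha b hb hab
      rw [hF2, Finset.mem_filter] at ha hb
      have h1 := (memF a ha.1).1.1
      have h2 := (memF b hb.1).1.1
      have h3 := (Sys.R_above h1 h2 hab).1
      rcases S.rho_mem t h1.1.le a h1.2.1 with h4 | h4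
      · have := (S.key b h2.2.1).2
        omega
      · exact ha.2 h4
    intro a ha b hb
    rcases Nat.lt_trichotomy a b with h | h | h
    · exact absurd h (key a ha b hb)
    · exact h
    · exact absurd h (key b hb a ha)
  have h3 : F3.card ≤ B.card := by
    refine Finset.card_le_card_of_injOn (fun v => S.rho t v) ?_ ?_
    · intro v hv
      rw [Finset.mem_coe, hF3, Finset.mem_filter] at hv
      exact hv.2
    · intro a ha b hb hab
      rw [Finset.mem_coe, hF3, Finset.mem_filter] at ha hb
      simp only at hab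
      have h1 := (memF a ha.1).1.1
      have h2 := (memF b hb.1).1.1
      have h3 := R_rho h1
      have h4 := R_rho h2
      rcases Nat.lt_trichotomy a b with h | h | h
      · have := (Sys.R_above h1 h2 h).1
        omega
      · exact h
      · have := (Sys.R_above h2 h1 h).1
        omega
  have h4 : F4.card ≤ A.card := by
    have hch : ∀ v ∈ F4, ∃ y, Old S t y ∧ S.rho t y = v ∧ S.lam t v ≠ S.lam t y ∧ S.R t v := by
      intro v hv
      rw [hF4, Finset.mem_filter] at hv
      obtain ⟨h1, y, h2, h3, h4⟩ := hv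
      exact ⟨y, h2, h3, h4, (memF v h1).1.1⟩
    choose! f hf using hch
    refine Finset.card_le_card_of_injOn (fun v => S.lam t (f v)) ?_ ?_
    · intro v hv
      obtain ⟨h1, h2, h3, h4⟩ := hf v hv
      have h8 := R_rho h1.1
      have h5 := (Sys.R_above h1.1 h4 (by omega)).2
      have h6 := old_lam hS h1 (by omega)
      have h7 := Finset.mem_filter.1 h6.1
      rw [Finset.mem_coe, hA, Finset.mem_filter]
      exact ⟨h7.1, h6.2, h7.2.2⟩
    · intro v hv w hw he
      obtain ⟨h1, h2, h3, h4⟩ := hf v hv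
      obtain ⟨g1, g2, g3, g4⟩ := hf w hw
      simp only at he
      have h5 := turn_inj h1.1 (by rw [h2]; exact h4) (by rw [h2]; exact h3) g1.1
        (by rw [g2]; exact g4) (by rw [g2]; exact g3) he
      rw [← h2, ← g2, h5]
  have h5 : F5.card ≤ A.card := by
    refine Finset.card_le_card_of_injOn (fun v => S.lam t v) ?_ ?_
    · intro v hv
      rw [Finset.mem_coe, hF5, Finset.mem_filter] at hv
      obtain ⟨h1, h2, h3⟩ := hv
      have h4 := (memF v h1).1
      have h5 := (Sys.R_above h4.1 h2.1 (R_rho h4.1)).2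
      have h6 := old_lam hS h4 (by omega)
      have h7 := Finset.mem_filter.1 h6.1
      rw [Finset.mem_coe, hA, Finset.mem_filter]
      exact ⟨h7.1, h6.2, h7.2.2⟩
    · intro v hv w hw he
      rw [Finset.mem_coe, hF5, Finset.mem_filter] at hv hw
      simp only at he
      exact turn_inj (memF v hv.1).1.1 hv.2.1.1 hv.2.2 (memF w hw.1).1.1 hw.2.1.1 hw.2.2 he
  have h6 := Finset.card_le_card h0
  have c1 := Finset.card_union_le F1 (F2 ∪ (F3 ∪ (F4 ∪ F5)))
  have c2 := Finset.card_union_le F2 (F3 ∪ (F4 ∪ F5))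
  have c3 := Finset.card_union_le F3 (F4 ∪ F5)
  have c4 := Finset.card_union_le F4 F5
  omega

/-- The three possibilities for a key touched from the right: it is killed; it is a killer;
neither. -/
theorem LC (h : S.L t v) :
    (S.rho (t + 1) v = S.X t ∧ S.lam (t + 1) v = S.lam t v) ∨
    (S.rho (t + 1) v = S.X t ∧ Kr S t (S.lam t v) v ∧
      S.lam (t + 1) v = S.lam t (S.lam t v)) ∨
    (∃ w, Kr S t v w ∧ S.lam (t + 1) v = S.lam t v) := by
  have h0 := h
  obtain ⟨ht, hv, hx, hl⟩ := h
  rcases S.left t ht v hv hx with h4 | ⟨_, h4, h5⟩ | ⟨_, p, _, h5, _, h6, h7, _⟩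
  · omega
  · rcases h5 with h5 | ⟨c1, c2, c3, c4, c5⟩
    · exact Or.inl ⟨h4, h5⟩
    · right; left
      have h6 := S.lam_lt t ht.le v hv
      exact ⟨h4, ⟨⟨ht, c1, by omega, by omega⟩, hx, c3⟩, c5⟩
  · right; right
    exact ⟨p, ⟨h0, h5, h6⟩, h7⟩

/-- A left-visible key stays left-visible if it is not killed by a smaller key. -/
theorem lv_keep (hS : Spl S) (ht : t < S.m) (hv : v ∈ S.K) (hU : ¬ Seen S (t + 1) v)
    (h : LV S t v) (hk : ¬ ∃ p, S.Kl t v p) : LV S (t + 1) v := by
  have hU' : ¬ Seen S t v := fun h => hU (seen_mono h (Nat.le_succ t))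
  have h1 : zl S t v ≤ zl S (t + 1) v := zl_mono (Nat.le_succ t)
  unfold LV at h ⊢
  by_cases hE : S.E t v
  · rcases hE with hR | hL | hA
    · rw [(walls_R hS hR hU').1]
      rcases Sys.kp_or_kl hR with c | c
      · exact c.2.le
      · exact absurd c hk
    · rcases L_lam hL with c | ⟨c1, c2, c3⟩
      · omega
      · have := S.lam_lt t ht.le _ c1
        omega
    · exact absurd (by rw [hA.2.2]; exact seen_X ht (Nat.lt_succ_self t)) hU
  · rw [(Sys.untouched ht hv hE).1]
    omega

/-- A killed key is hidden. -/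
theorem lv_kill (hS : Spl S) (h : S.Kl t g p) (hU : ¬ Seen S t g) : ¬ LV S (t + 1) g := by
  unfold LV
  rw [(walls_R hS h.1 hU).1, h.2.2]
  have := h.2.1
  omega

/-- How a hidden key becomes left-visible. -/
theorem lv_gain (hS : Spl S) (ht : t < S.m) (hv : v ∈ S.K) (hU : ¬ Seen S (t + 1) v)
    (h : ¬ LV S t v) (h' : LV S (t + 1) v) :
    (S.R t v ∧ S.lam (t + 1) v = S.X t) ∨ (¬ S.E t v ∧ S.lam t v = S.X t) ∨
    (Kr S t (S.lam t v) v ∧ LV S t (S.lam t v) ∧ S.lam (t + 1) v = S.lam t (S.lam t v)) := by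
  have hU' : ¬ Seen S t v := fun h => hU (seen_mono h (Nat.le_succ t))
  by_cases hE : S.E t v
  · rcases hE with hR | hL | hA
    · left
      rcases Sys.kp_or_kl hR with c | ⟨p, c⟩
      · exact ⟨hR, c.2⟩
      · exact absurd h' (lv_kill hS c hU')
    · right; right
      have h1 := walls_L hS hL hU'
      have h2 := walls_touch hS (Sys.L_E hL) hU'
      rcases LC hL with c | c | ⟨w, c⟩
      · exfalso
        apply h
        unfold LV at h' ⊢
        omega
      · refine ⟨c.2.1, ?_, c.2.2⟩
        rcases lv_or ht.le hv with c2 | ⟨c2, c3, c4⟩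
        · exact absurd c2 h
        · have h3 := walls_touch hS (Sys.L_E c.2.1.1) c4
          unfold LV at h' ⊢
          omega
      · exfalso
        apply h
        unfold LV at h' ⊢
        omega
    · exact absurd (by rw [hA.2.2]; exact seen_X ht (Nat.lt_succ_self t)) hU
  · right; left
    refine ⟨hE, ?_⟩
    have h1 := (Sys.untouched ht hv hE).1
    have h2 := S.lam_lt t ht.le v hv
    have h3 := S.lt_rho t ht.le v hv
    rw [Sys.E_iff ht hv] at hE
    unfold LV at h h'
    rw [h1, zl_succ ht] at h'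
    split_ifs at h' with h4
    · omega
    · omega

end Pool.Agent.SplTr
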