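import Pool.Agent.SplTr.CWin

set_option autoImplicit false

/-!
# P3: counting lemmas: min, not main, isolated, right-near
-/

namespace Pool.Agent.SplTr

-- MODULE xa
/-- a spaced set in an interval -/
theorem sp_card (A : Finset ℕ) (g a b : ℕ) (h : ∀ x ∈ A, a ≤ x ∧ x < b)
    (hs : ∀ x ∈ A, ∀ y ∈ A, x < y → x + 2 ^ g ≤ y) : A.card * 2 ^ g ≤ (b - a) + 2 ^ g := by
  have hp : 0 < 2 ^ g := Nat.two_pow_pos g
  have h1 : A.card ≤ (Finset.range ((b - a) / 2 ^ g + 1)).card := by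
    apply Finset.card_le_card_of_injOn (fun x => (x - a) / 2 ^ g)
    · intro x hx
      have h2 := h x hx
      simp only [Finset.coe_range, Set.mem_Iio]
      have : (x - a) / 2 ^ g ≤ (b - a) / 2 ^ g := Nat.div_le_div_right (by omega)
      omega
    · have key : ∀ x ∈ A, ∀ y ∈ A, x < y → (x - a) / 2 ^ g ≠ (y - a) / 2 ^ g := by
        intro x hx y hy hxy he
        have h2 := hs x hx y hy hxy
        have h3 := h x hx
        have h4 := h y hy
        have h5 := Nat.div_add_mod (x - a) (2 ^ g)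
        have h6 := Nat.div_add_mod (y - a) (2 ^ g)
        have h7 := Nat.mod_lt (y - a) hp
        rw [he] at h5
        omega
      intro x hx y hy he
      rcases lt_trichotomy x y with h' | h' | h'
      · exact absurd he (key x hx y hy h')
      · exact h'
      · exact absurd he.symm (key y hy x hx h')
  rw [Finset.card_range] at h1
  calc A.card * 2 ^ g ≤ ((b - a) / 2 ^ g + 1) * 2 ^ g := Nat.mul_le_mul_right _ h1
    _ = (b - a) / 2 ^ g * 2 ^ g + 2 ^ g := by ring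
    _ ≤ (b - a) + 2 ^ g := Nat.add_le_add_right (Nat.div_mul_le_self _ _) _

private theorem xa_mul (c top D : ℕ) : top / 2 ^ (D - (c + 2)) * 2 ^ D ≤ 2 ^ (c + 2) * top := by
  have h1 : 2 ^ D ≤ 2 ^ (D - (c + 2)) * 2 ^ (c + 2) := by
    rw [← pow_add]
    exact Nat.pow_le_pow_right (by norm_num) (by omega)
  calc top / 2 ^ (D - (c + 2)) * 2 ^ D
      ≤ top / 2 ^ (D - (c + 2)) * (2 ^ (D - (c + 2)) * 2 ^ (c + 2)) := Nat.mul_le_mul_left _ h1
    _ = top / 2 ^ (D - (c + 2)) * 2 ^ (D - (c + 2)) * 2 ^ (c + 2) := by ring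
    _ ≤ top * 2 ^ (c + 2) := Nat.mul_le_mul_right _ (Nat.div_mul_le_self _ _)
    _ = 2 ^ (c + 2) * top := by ring

theorem keysum (c top a : ℕ) (ht : 0 < top) : 2 ^ a * ∑ D ∈ Finset.Icc a (Nat.log 2 top),
    (top / 2 ^ (D - (c + 2)) + 1) ≤ 2 ^ (c + 4) * top := by
  rcases Nat.lt_or_ge (Nat.log 2 top) a with hL | hL
  · rw [Finset.Icc_eq_empty (by omega), Finset.sum_empty]
    omega
  · obtain ⟨n, hn⟩ := Nat.exists_eq_add_of_le hL
    have e1 : Finset.Icc a (Nat.log 2 top) = (Finset.range (n + 1)).image (fun i => a + i) := by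
      ext x
      simp only [Finset.mem_Icc, Finset.mem_image, Finset.mem_range]
      constructor
      · intro hx
        exact ⟨x - a, by omega, by omega⟩
      · rintro ⟨i, hi, rfl⟩
        omega
    rw [e1, Finset.sum_image (by intro x _ y _ hxy; simpa using hxy), Finset.sum_add_distrib, mul_add]
    have h1 : 2 ^ a * ∑ i ∈ Finset.range (n + 1), top / 2 ^ (a + i - (c + 2)) ≤ 2 ^ (c + 3) * top := by
      rw [Finset.mul_sum]
      calc ∑ i ∈ Finset.range (n + 1), 2 ^ a * (top / 2 ^ (a + i - (c + 2)))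
          ≤ ∑ i ∈ Finset.range (n + 1), (2 ^ (c + 2) * top) / 2 ^ i := by
            apply Finset.sum_le_sum
            intro i _
            rw [Nat.le_div_iff_mul_le (Nat.two_pow_pos i)]
            calc 2 ^ a * (top / 2 ^ (a + i - (c + 2))) * 2 ^ i
                = top / 2 ^ (a + i - (c + 2)) * 2 ^ (a + i) := by rw [pow_add]; ring
              _ ≤ 2 ^ (c + 2) * top := xa_mul c top (a + i)
        _ ≤ (2 ^ (c + 2) * top) * 2 / (2 - 1) := Nat.geom_sum_le (le_refl 2) _ _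
        _ = 2 ^ (c + 3) * top := by rw [Nat.div_one, pow_succ 2 (c + 2)]; ring
    have h2 : 2 ^ a * ∑ i ∈ Finset.range (n + 1), 1 ≤ top := by
      rw [Finset.sum_const, Finset.card_range, smul_eq_mul, mul_one]
      calc 2 ^ a * (n + 1) ≤ 2 ^ a * 2 ^ n := Nat.mul_le_mul_left _ (Nat.lt_two_pow_self)
        _ = 2 ^ (Nat.log 2 top) := by rw [hn, pow_add]
        _ ≤ top := Nat.pow_log_le_self 2 (by omega)
    have h3 : top ≤ 2 ^ (c + 3) * top := Nat.le_mul_of_pos_left _ (Nat.two_pow_pos _)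
    have h4 : 2 ^ (c + 4) * top = 2 ^ (c + 3) * top + 2 ^ (c + 3) * top := by rw [pow_succ 2 (c + 3)]; ring
    omega
-- END xa

namespace Fam

variable {k c top : ℕ} (Q : Fam k c top)

/-- the windows `(D, v)` of rounds of level at least `a` -/
def Wn (a : ℕ) : Finset (ℕ × (ℕ × ℕ)) :=
  (Q.F.filter (fun x => a ≤ Q.Dx x)).image (fun x => (Q.Dx x, Q.ky (Q.Dx x) x))

-- MODULE xb
private theorem xb_key (B : Finset (ℕ × (ℕ × ℕ)))
    (hB : ∀ b ∈ B, ∃ x ∈ Q.F, Q.z x + 2 ^ b.1 ≤ x ∧ Q.ky b.1 x = b.2) (D : ℕ) :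
    (B.filter (fun b => b.1 = D)).card ≤ top / 2 ^ (D - (c + 2)) + 1 := by
  refine le_trans (Finset.card_le_card_of_injOn (fun b => b.2) ?_ ?_) (Q.keys D)
  · intro b hb
    have hb' := Finset.mem_coe.1 hb
    rw [Finset.mem_filter] at hb'
    obtain ⟨x, hx, h1, h2⟩ := hB b hb'.1
    rw [hb'.2] at h1 h2
    rw [Finset.mem_coe, Finset.mem_image]
    refine ⟨x, Finset.mem_filter.2 ⟨hx, h1⟩, ?_⟩
    exact h2
  · intro b hb b' hb' he
    have h1 := (Finset.mem_filter.1 (Finset.mem_coe.1 hb)).2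
    have h2 := (Finset.mem_filter.1 (Finset.mem_coe.1 hb')).2
    exact Prod.ext (h1.trans h2.symm) he

theorem Wn_card (a : ℕ) : 2 ^ a * (Q.Wn a).card ≤ 2 ^ (c + 4) * top := by
  rcases Nat.eq_zero_or_pos top with ht | ht
  · have he : Q.Wn a = ∅ := by
      unfold Wn
      rw [Finset.image_eq_empty, Finset.filter_eq_empty_iff]
      intro x hx
      have h1 := Q.xw x hx
      have h2 := Q.wt x hx
      omega
    rw [he, Finset.card_empty]
    omega
  · have hB : ∀ b ∈ Q.Wn a, ∃ x ∈ Q.F, Q.z x + 2 ^ b.1 ≤ x ∧ Q.ky b.1 x = b.2 := by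
      intro b hb
      unfold Wn at hb
      rw [Finset.mem_image] at hb
      obtain ⟨x, hx, rfl⟩ := hb
      rw [Finset.mem_filter] at hx
      exact ⟨x, hx.1, (Dx_spec hx.1).1, rfl⟩
    have hm : ∀ b ∈ Q.Wn a, b.1 ∈ Finset.Icc a (Nat.log 2 top) := by
      intro b hb
      unfold Wn at hb
      rw [Finset.mem_image] at hb
      obtain ⟨x, hx, rfl⟩ := hb
      rw [Finset.mem_filter] at hx
      rw [Finset.mem_Icc]
      exact ⟨hx.2, Nat.le_log_of_pow_le (by norm_num) (two_Dx_le hx.1)⟩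
    have h1 : (Q.Wn a).card ≤ ∑ D ∈ Finset.Icc a (Nat.log 2 top), (top / 2 ^ (D - (c + 2)) + 1) := by
      rw [Finset.card_eq_sum_card_fiberwise (f := Prod.fst) (t := Finset.Icc a (Nat.log 2 top)) hm]
      exact Finset.sum_le_sum fun D _ => Q.xb_key (Q.Wn a) hB D
    exact le_trans (Nat.mul_le_mul_left _ h1) (keysum c top a ht)

private theorem xb_Ef {x y : ℕ} (he : (Q.Dx x, Q.ky (Q.Dx x) x) = (Q.Dx y, Q.ky (Q.Dx y) y)) :
    Q.Ef x = Q.Ef y := by
  rw [Prod.mk.injEq] at he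
  unfold Ef
  rw [he.2, he.1]

theorem minc (a : ℕ) : (Q.F.filter (fun x => Q.ef x = 0 ∧ a ≤ Q.Dx x)).card ≤ (Q.Wn a).card := by
  apply Finset.card_le_card_of_injOn (fun x => (Q.Dx x, Q.ky (Q.Dx x) x))
  · intro x hx
    have hx' := Finset.mem_filter.1 (Finset.mem_coe.1 hx)
    exact Finset.mem_coe.2 (Finset.mem_image.2 ⟨x, Finset.mem_filter.2 ⟨hx'.1, hx'.2.2⟩, rfl⟩)
  · have key : ∀ x ∈ Q.F, ∀ y, Q.ef y = 0 → x < y → (Q.Dx x, Q.ky (Q.Dx x) x) ≠ (Q.Dx y, Q.ky (Q.Dx y) y) := by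
      intro x hx y hy hxy he
      have h1 : Q.Ef x = Q.Ef y := Q.xb_Ef he
      have h2 := mem_Ef hx
      rw [h1] at h2
      exact (ef_max h2 hxy).2 hy
    intro x hx y hy he
    have hx' := Finset.mem_filter.1 (Finset.mem_coe.1 hx)
    have hy' := Finset.mem_filter.1 (Finset.mem_coe.1 hy)
    rcases lt_trichotomy x y with h' | h' | h'
    · exact absurd he (key x hx'.1 y hy'.2.1 h')
    · exact h'
    · exact absurd he.symm (key y hy'.1 x hx'.2.1 h')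
-- END xb

-- MODULE xc
/-- not main -/
theorem nmain (g : ℕ) : 2 ^ g * ((Q.Ng g).filter (fun x => ¬ g + c0 < Q.Dx x)).card ≤
    2 ^ (c + 11) * top := by
  set A := (Q.Ng g).filter (fun x => ¬ g + c0 < Q.Dx x) with hA
  set f : ℕ → ℕ × (ℕ × ℕ) := fun x => (Q.Dx x, Q.ky (Q.Dx x) x) with hf
  have hAF : ∀ x ∈ A, x ∈ Q.F := fun x hx => Ng_F (Finset.mem_filter.1 hx).1
  have hAN : ∀ x ∈ A, x ∈ Q.Ng g := fun x hx => (Finset.mem_filter.1 hx).1
  -- the fibres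
  have hfib : ∀ b ∈ A.image f, (A.filter (fun x => f x = b)).card * 2 ^ g ≤ 2 ^ (b.1 + 2) := by
    intro b hb
    obtain ⟨x0, hx0, hb0⟩ := Finset.mem_image.1 hb
    have hD : Q.Dx x0 = b.1 := by rw [← hb0]
    have hmem : ∀ x ∈ A.filter (fun x => f x = b), x ∈ Q.Ef x0 ∧ Q.Ef x = Q.Ef x0 ∧ Q.Dx x = b.1 := by
      intro x hx
      have hx' := Finset.mem_filter.1 hx
      have h1 : Q.Ef x = Q.Ef x0 := Q.xb_Ef (hx'.2.trans hb0.symm)
      have h2 := mem_Ef (hAF x hx'.1)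
      rw [h1] at h2
      exact ⟨h2, h1, by rw [← hx'.2]⟩
    have hgD : g ≤ b.1 := by rw [← hD]; exact Ng_Dx (hAN x0 hx0)
    have hu : Q.u (Q.Dx x0) ≤ 2 ^ b.1 := by rw [hD]; exact u_le
    have h3 := sp_card (A.filter (fun x => f x = b)) g (Q.z x0 + 2 ^ b.1 - Q.u (Q.Dx x0))
      (Q.z x0 + Q.u (Q.Dx x0) + 2 ^ (b.1 + 1)) (by
        intro x hx
        obtain ⟨h1, h2, h4⟩ := hmem x hx
        have h5 := Dx_spec (hAF x (Finset.mem_filter.1 hx).1)
        rw [h4] at h5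
        have h6 := z_lt_add (mem_Ef (hAF x0 hx0)) h1
        have h7 := z_lt_add h1 (mem_Ef (hAF x0 hx0))
        omega) (by
        intro x hx y hy hxy
        obtain ⟨h1, h2, -⟩ := hmem y hy
        have h3 := (hmem x hx).1
        rw [← h2] at h3
        exact Ng_space (hAN y (Finset.mem_filter.1 hy).1) h3 hxy)
    refine le_trans h3 ?_
    have h4 : 2 ^ g ≤ 2 ^ b.1 := Nat.pow_le_pow_right (by norm_num) hgD
    have h5 : 2 ^ (b.1 + 1) = 2 * 2 ^ b.1 := by rw [pow_succ]; ring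
    have h6 : 2 ^ (b.1 + 2) = 4 * 2 ^ b.1 := by rw [pow_add]; ring
    omega
  have h1 : 2 ^ g * A.card ≤ ∑ b ∈ A.image f, 2 ^ (b.1 + 2) := by
    rw [Finset.card_eq_sum_card_image f A, mul_comm, Finset.sum_mul]
    exact Finset.sum_le_sum hfib
  refine le_trans h1 ?_
  set T := (Finset.Icc g (g + c0)).filter (fun D => 2 ^ D ≤ top) with hT
  have hmaps : ∀ b ∈ A.image f, b.1 ∈ T := by
    intro b hb
    obtain ⟨x, hx, rfl⟩ := Finset.mem_image.1 hb
    have h2 := Finset.mem_filter.1 hx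
    exact Finset.mem_filter.2 ⟨Finset.mem_Icc.2 ⟨Ng_Dx h2.1, not_lt.1 h2.2⟩, two_Dx_le (hAF x hx)⟩
  have hB : ∀ b ∈ A.image f, ∃ x ∈ Q.F, Q.z x + 2 ^ b.1 ≤ x ∧ Q.ky b.1 x = b.2 := by
    intro b hb
    obtain ⟨x, hx, rfl⟩ := Finset.mem_image.1 hb
    exact ⟨x, hAF x hx, (Dx_spec (hAF x hx)).1, rfl⟩
  rw [← Finset.sum_fiberwise_of_maps_to hmaps]
  have h2 : ∀ D ∈ T, ∑ b ∈ (A.image f).filter (fun b => b.1 = D), 2 ^ (b.1 + 2) ≤ 2 ^ (c + 5) * top := by
    intro D hD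
    have h3 : ∑ b ∈ (A.image f).filter (fun b => b.1 = D), 2 ^ (b.1 + 2)
        = ((A.image f).filter (fun b => b.1 = D)).card * 2 ^ (D + 2) := by
      rw [Finset.sum_const_nat]
      intro b hb
      rw [(Finset.mem_filter.1 hb).2]
    rw [h3]
    calc ((A.image f).filter (fun b => b.1 = D)).card * 2 ^ (D + 2)
        ≤ (top / 2 ^ (D - (c + 2)) + 1) * 2 ^ (D + 2) := Nat.mul_le_mul_right _ (Q.xb_key _ hB D)
      _ = 4 * (top / 2 ^ (D - (c + 2)) * 2 ^ D + 2 ^ D) := by rw [pow_add 2 D 2]; ring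
      _ ≤ 4 * (2 ^ (c + 2) * top + top) :=
          Nat.mul_le_mul_left _ (Nat.add_le_add (xa_mul c top D) (Finset.mem_filter.1 hD).2)
      _ ≤ 4 * (2 ^ (c + 2) * top + 2 ^ (c + 2) * top) := by
          have : top ≤ 2 ^ (c + 2) * top := Nat.le_mul_of_pos_left _ (Nat.two_pow_pos _)
          omega
      _ = 2 ^ (c + 5) * top := by rw [pow_add 2 c 2, pow_add 2 c 5]; ring
  refine le_trans (Finset.sum_le_sum h2) ?_
  rw [Finset.sum_const, smul_eq_mul]
  have h4 : T.card ≤ 2 ^ 6 := by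
    refine le_trans (Finset.card_filter_le _ _) ?_
    rw [Nat.card_Icc]
    have : c0 = 40 := rfl
    omega
  calc T.card * (2 ^ (c + 5) * top) ≤ 2 ^ 6 * (2 ^ (c + 5) * top) := Nat.mul_le_mul_right _ h4
    _ = 2 ^ (c + 11) * top := by rw [pow_add 2 c 5, pow_add 2 c 11]; ring
-- END xc

open scoped Classical

-- MODULE xd
private theorem xd_psi {g x : ℕ} (hx : x ∈ Q.Ng g) : ∃ p, p ∈ Q.Ef x ∧ p < x ∧ Q.mc g x ≤ p + 2 ^ (g - 1) ∧
    p < Q.mc g x ∧ (∀ y ∈ Q.Ef x, y < p → y + 2 ^ (g - 1) < Q.mc g x) ∧ Q.Dx p = Q.Dx x ∧ Q.Ef p = Q.Ef x := by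
  have hxF := Ng_F hx
  have hne : Q.ef x ≠ 0 := (Finset.mem_filter.1 hx).2.1
  obtain ⟨he1, he2⟩ := ef_mem hne
  obtain ⟨hm1, hm2, hm3, hm4⟩ := mc_spec hx
  have hS : ((Q.Ef x).filter (fun y => Q.mc g x ≤ y + 2 ^ (g - 1))).Nonempty :=
    ⟨Q.ef x, Finset.mem_filter.2 ⟨he1, hm2⟩⟩
  obtain ⟨p, hp, hmin⟩ := Finset.exists_min_image _ (fun y : ℕ => y) hS
  obtain ⟨hp1, hp2⟩ := Finset.mem_filter.1 hp
  have hpe : p ≤ Q.ef x := hmin _ (Finset.mem_filter.2 ⟨he1, hm2⟩)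
  have hpx : p < x := lt_of_le_of_lt hpe he2
  have hD : Q.Dx p = Q.Dx x := le_antisymm (Dx_mono hp1 (mem_Ef hxF) hpx) (D_le_Dx hp1)
  refine ⟨p, hp1, hpx, hp2, by omega, ?_, hD, Ef_eq hp1 hD⟩
  intro y hy hyp
  by_contra hc
  have := hmin y (Finset.mem_filter.2 ⟨hy, by omega⟩)
  omega

/-- left-isolated -/
theorem cLI (g : ℕ) : ((Q.Mg g).filter (fun x => Q.LI g x)).card ≤
    (∑ R ∈ Finset.Icc (g + c0) (Nat.log 2 top), (Q.Ng R).card) + (Q.Wn g).card := by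
  set A := (Q.Mg g).filter (fun x => Q.LI g x) with hA
  have hAM : ∀ x ∈ A, x ∈ Q.Mg g := fun x hx => (Finset.mem_filter.1 hx).1
  have hAN : ∀ x ∈ A, x ∈ Q.Ng g := fun x hx => Mg_Ng (hAM x hx)
  have hAF : ∀ x ∈ A, x ∈ Q.F := fun x hx => Ng_F (hAN x hx)
  have hps : ∀ x, ∃ p, x ∈ A → (p ∈ Q.Ef x ∧ p < x ∧ Q.mc g x ≤ p + 2 ^ (g - 1) ∧ p < Q.mc g x ∧
      (∀ y ∈ Q.Ef x, y < p → y + 2 ^ (g - 1) < Q.mc g x) ∧ Q.Dx p = Q.Dx x ∧ Q.Ef p = Q.Ef x) := by
    intro x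
    by_cases hx : x ∈ A
    · obtain ⟨p, h⟩ := Q.xd_psi (hAN x hx)
      exact ⟨p, fun _ => h⟩
    · exact ⟨0, fun h => absurd h hx⟩
  choose ps hps using hps
  -- the same representative and the same window: the same round
  have huniq : ∀ x ∈ A, ∀ y ∈ A, Q.Ef x = Q.Ef y → ps x = ps y → x = y := by
    intro x hx y hy hE hp
    obtain ⟨-, -, h3, h4, -⟩ := hps x hx
    obtain ⟨-, -, h5, h6, -⟩ := hps y hy
    rw [← hp] at h5 h6
    have hm : Q.mc g x = Q.mc g y := by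
      obtain ⟨a, ha⟩ := mc_dvd (Q := Q) g x
      obtain ⟨b, hb⟩ := mc_dvd (Q := Q) g y
      have hpos : 0 < 2 ^ (g - 1) := Nat.two_pow_pos _
      rw [ha, hb]
      congr 1
      rw [ha] at h3 h4
      rw [hb] at h5 h6
      by_contra hne
      rcases Nat.lt_or_gt_of_ne hne with h | h
      · have : 2 ^ (g - 1) * (a + 1) ≤ 2 ^ (g - 1) * b := Nat.mul_le_mul_left _ h
        rw [mul_add, mul_one] at this
        omega
      · have : 2 ^ (g - 1) * (b + 1) ≤ 2 ^ (g - 1) * a := Nat.mul_le_mul_left _ h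
        rw [mul_add, mul_one] at this
        omega
    exact cell_uniq (hAN x hx) (hAN y hy) (by rw [hE]; exact mem_Ef (hAF y hy))
      (by rw [← hE]; exact mem_Ef (hAF x hx)) hm
  have hsplit : A.card = (A.filter (fun x => Q.ef (ps x) ≠ 0)).card + (A.filter (fun x => ¬ Q.ef (ps x) ≠ 0)).card :=
    (Finset.card_filter_add_card_filter_not _).symm
  rw [hsplit]
  apply Nat.add_le_add
  · refine le_trans ?_ (Finset.card_biUnion_le)
    apply Finset.card_le_card_of_injOn ps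
    · intro x hx
      obtain ⟨hxA, hne⟩ := Finset.mem_filter.1 (Finset.mem_coe.1 hx)
      obtain ⟨h1, h2, h3, h4, h5, h6, h7⟩ := hps x hxA
      have h8 := ef_mem hne
      rw [h7] at h8
      have h9 := h5 _ h8.1 h8.2
      have h10 := (Finset.mem_filter.1 hxA).2 _ h8.1 h9
      rw [Finset.mem_coe, Finset.mem_biUnion]
      have hpF : ps x ∈ Q.F := (mem_En.1 h1).1
      have hle : 2 ^ (g + c0) ≤ ps x - Q.ef (ps x) := by omega
      refine ⟨Q.gf (ps x), Finset.mem_Icc.2 ⟨?_, ?_⟩, Finset.mem_filter.2 ⟨hpF, hne, rfl⟩⟩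
      · unfold gf
        exact Nat.le_log_of_pow_le (by norm_num) hle
      · unfold gf
        apply Nat.log_mono_right
        have ha := Q.xw _ hpF
        have hb := Q.wt _ hpF
        omega
    · intro x hx y hy he
      have hxA := (Finset.mem_filter.1 (Finset.mem_coe.1 hx)).1
      have hyA := (Finset.mem_filter.1 (Finset.mem_coe.1 hy)).1
      have h1 := (hps x hxA).2.2.2.2.2.2
      have h2 := (hps y hyA).2.2.2.2.2.2
      have he' : ps x = ps y := he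
      exact huniq x hxA y hyA (by rw [← h1, ← h2, he']) he'
  · apply Finset.card_le_card_of_injOn (fun x => (Q.Dx x, Q.ky (Q.Dx x) x))
    · intro x hx
      have hxA := (Finset.mem_filter.1 (Finset.mem_coe.1 hx)).1
      refine Finset.mem_coe.2 (Finset.mem_image.2 ⟨x, Finset.mem_filter.2 ⟨hAF x hxA, Ng_Dx (hAN x hxA)⟩, rfl⟩)
    · intro x hx y hy he
      obtain ⟨hxA, hex⟩ := Finset.mem_filter.1 (Finset.mem_coe.1 hx)
      obtain ⟨hyA, hey⟩ := Finset.mem_filter.1 (Finset.mem_coe.1 hy)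
      rw [not_not] at hex hey
      have hE : Q.Ef x = Q.Ef y := Q.xb_Ef he
      have h1 := hps x hxA
      have h2 := hps y hyA
      apply huniq x hxA y hyA hE
      rcases lt_trichotomy (ps x) (ps y) with h' | h' | h'
      · exact absurd hey (ef_max (by rw [h2.2.2.2.2.2.2, ← hE]; exact h1.1) h').2
      · exact h'
      · exact absurd hex (ef_max (by rw [h1.2.2.2.2.2.2, hE]; exact h2.1) h').2
-- END xd

-- MODULE xe
/-- right-isolated -/
theorem cRI (g : ℕ) : ((Q.Mg g).filter (fun x => Q.RI g x)).card ≤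
    4 * (∑ R ∈ Finset.Icc (g + c0) (Nat.log 2 top), (Q.Ng R).card) + 4 * (Q.Wn g).card := by
  set A := (Q.Mg g).filter (fun x => Q.RI g x) with hA
  have hAM : ∀ x ∈ A, x ∈ Q.Mg g := fun x hx => (Finset.mem_filter.1 hx).1
  have hAN : ∀ x ∈ A, x ∈ Q.Ng g := fun x hx => Mg_Ng (hAM x hx)
  have hAF : ∀ x ∈ A, x ∈ Q.F := fun x hx => Ng_F (hAN x hx)
  have hsp : ∀ x ∈ A, ∀ y ∈ A, Q.Ef x = Q.Ef y → x < y → x + 2 ^ g ≤ y := by
    intro x hx y hy hE hxy
    exact Ng_space (hAN y hy) (by rw [← hE]; exact mem_Ef (hAF x hx)) hxy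
  have hpg : 2 ^ (g + 1) = 2 * 2 ^ g := by rw [pow_succ]; ring
  have hp0 : 0 < 2 ^ g := Nat.two_pow_pos g
  have hsplit := (Finset.card_filter_add_card_filter_not (s := A)
    (fun x => ∃ y ∈ Q.Ef x, Q.Dx y = Q.Dx x ∧ Q.mc g x + 2 ^ (g + 1) ≤ y)).symm
  rw [hsplit]
  apply Nat.add_le_add
  · set A1 := A.filter (fun x => ∃ y ∈ Q.Ef x, Q.Dx y = Q.Dx x ∧ Q.mc g x + 2 ^ (g + 1) ≤ y) with hA1
    have hps : ∀ x, ∃ p, x ∈ A1 → (p ∈ Q.F ∧ Q.Ef p = Q.Ef x ∧ Q.ef p ≠ 0 ∧ x ≤ Q.ef p ∧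
        Q.ef p < x + 2 ^ (g + 1) ∧ Q.ef p + 2 ^ (g + c0) ≤ p) := by
      intro x
      by_cases hx : x ∈ A1
      · obtain ⟨hxA, y, hy, hyD, hyl⟩ := Finset.mem_filter.1 hx
        have hS : ((Q.Ef x).filter (fun y => Q.Dx y = Q.Dx x ∧ Q.mc g x + 2 ^ (g + 1) ≤ y)).Nonempty :=
          ⟨y, Finset.mem_filter.2 ⟨hy, hyD, hyl⟩⟩
        obtain ⟨p, hp, hmin⟩ := Finset.exists_min_image _ (fun y : ℕ => y) hS
        obtain ⟨hp1, hp2, hp3⟩ := Finset.mem_filter.1 hp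
        have hE : Q.Ef p = Q.Ef x := Ef_eq hp1 hp2
        obtain ⟨hm1, hm2, hm3, hm4⟩ := mc_spec (hAN x hxA)
        have hxp : x < p := by omega
        have h1 := ef_max (x := p) (y := x) (by rw [hE]; exact mem_Ef (hAF x hxA)) hxp
        have h2 := ef_mem h1.2
        rw [hE] at h2
        have h3 : Q.ef p < Q.mc g x + 2 ^ (g + 1) := by
          by_contra hc
          have h4 : Q.Dx (Q.ef p) = Q.Dx x :=
            le_antisymm (le_trans (Dx_mono h2.1 hp1 h2.2) (le_of_eq hp2)) (D_le_Dx h2.1)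
          have h5 := hmin _ (Finset.mem_filter.2 ⟨h2.1, h4, not_lt.1 hc⟩)
          have h6 := h2.2
          omega
        have h7 := (Finset.mem_filter.1 hxA).2 p hp1 hp3
        exact ⟨p, fun _ => ⟨(mem_En.1 hp1).1, hE, h1.2, h1.1, by omega, by omega⟩⟩
      · exact ⟨0, fun h => absurd h hx⟩
    choose ps hps using hps
    have hfib : ∀ b ∈ A1.image ps, (A1.filter (fun x => ps x = b)).card ≤ 4 := by
      intro b hb
      have h3 := sp_card (A1.filter (fun x => ps x = b)) g (Q.ef b + 1 - 2 ^ (g + 1)) (Q.ef b + 1) (by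
        intro x hx
        obtain ⟨hx1, hx2⟩ := Finset.mem_filter.1 hx
        have h4 := hps x hx1
        rw [hx2] at h4
        omega) (by
        intro x hx y hy hxy
        obtain ⟨hx1, hx2⟩ := Finset.mem_filter.1 hx
        obtain ⟨hy1, hy2⟩ := Finset.mem_filter.1 hy
        have h4 := (hps x hx1).2.1
        have h5 := (hps y hy1).2.1
        rw [hx2] at h4
        rw [hy2] at h5
        exact hsp x (Finset.mem_filter.1 hx1).1 y (Finset.mem_filter.1 hy1).1 (h4.symm.trans h5) hxy)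
      have h4 : (A1.filter (fun x => ps x = b)).card * 2 ^ g ≤ 4 * 2 ^ g := by omega
      exact Nat.le_of_mul_le_mul_right h4 hp0
    have h1 := Finset.card_le_mul_card_image (f := ps) A1 4 hfib
    refine le_trans h1 (Nat.mul_le_mul_left _ (le_trans (Finset.card_le_card ?_) Finset.card_biUnion_le))
    intro p hp
    obtain ⟨x, hx, rfl⟩ := Finset.mem_image.1 hp
    obtain ⟨h2, h3, h4, h5, h6, h7⟩ := hps x hx
    rw [Finset.mem_biUnion]
    refine ⟨Q.gf (ps x), Finset.mem_Icc.2 ⟨?_, ?_⟩, Finset.mem_filter.2 ⟨h2, h4, rfl⟩⟩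
    · unfold gf
      exact Nat.le_log_of_pow_le (by norm_num) (by omega)
    · unfold gf
      apply Nat.log_mono_right
      have ha := Q.xw _ h2
      have hb := Q.wt _ h2
      omega
  · set A2 := A.filter (fun x => ¬ ∃ y ∈ Q.Ef x, Q.Dx y = Q.Dx x ∧ Q.mc g x + 2 ^ (g + 1) ≤ y) with hA2
    set f : ℕ → ℕ × (ℕ × ℕ) := fun x => (Q.Dx x, Q.ky (Q.Dx x) x) with hf
    have hfib : ∀ b ∈ A2.image f, (A2.filter (fun x => f x = b)).card ≤ 4 := by
      intro b hb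
      obtain ⟨x0, hx0, hmin⟩ := Finset.exists_min_image (A2.filter (fun x => f x = b)) (fun x : ℕ => x) (by
        obtain ⟨x, hx, hxb⟩ := Finset.mem_image.1 hb
        exact ⟨x, Finset.mem_filter.2 ⟨hx, hxb⟩⟩)
      obtain ⟨hx0A, hx0b⟩ := Finset.mem_filter.1 hx0
      have h3 := sp_card (A2.filter (fun x => f x = b)) g x0 (x0 + 2 ^ (g + 1)) (by
        intro x hx
        obtain ⟨hx1, hx2⟩ := Finset.mem_filter.1 hx
        refine ⟨hmin x hx, ?_⟩
        have hfe : f x = f x0 := hx2.trans hx0b.symm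
        have hE : Q.Ef x = Q.Ef x0 := Q.xb_Ef hfe
        have hD : Q.Dx x = Q.Dx x0 := congrArg Prod.fst hfe
        by_contra hc
        obtain ⟨hx0A1, hno⟩ := Finset.mem_filter.1 hx0A
        apply hno
        obtain ⟨hm1, hm2, hm3, hm4⟩ := mc_spec (hAN x0 hx0A1)
        refine ⟨x, ?_, hD, by omega⟩
        rw [← hE]
        exact mem_Ef (hAF x (Finset.mem_filter.1 hx1).1)) (by
        intro x hx y hy hxy
        obtain ⟨hx1, hx2⟩ := Finset.mem_filter.1 hx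
        obtain ⟨hy1, hy2⟩ := Finset.mem_filter.1 hy
        exact hsp x (Finset.mem_filter.1 hx1).1 y (Finset.mem_filter.1 hy1).1 (Q.xb_Ef (hx2.trans hy2.symm)) hxy)
      have h4 : (A2.filter (fun x => f x = b)).card * 2 ^ g ≤ 4 * 2 ^ g := by omega
      exact Nat.le_of_mul_le_mul_right h4 hp0
    have h1 := Finset.card_le_mul_card_image (f := f) A2 4 hfib
    refine le_trans h1 (Nat.mul_le_mul_left _ (Finset.card_le_card ?_))
    intro b hb
    obtain ⟨x, hx, rfl⟩ := Finset.mem_image.1 hb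
    have hxA := (Finset.mem_filter.1 hx).1
    exact Finset.mem_image.2 ⟨x, Finset.mem_filter.2 ⟨hAF x hxA, Ng_Dx (hAN x hxA)⟩, rfl⟩
-- END xe

-- MODULE xf
/-- right-near -/
theorem cRN (g : ℕ) : 2 ^ g * ((Q.Mg g).filter (fun x => Q.RN g x)).card ≤
    2 ^ (c + c0 + 10) * top := by
  set A := (Q.Mg g).filter (fun x => Q.RN g x) with hA
  have hAM : ∀ x ∈ A, x ∈ Q.Mg g := fun x hx => (Finset.mem_filter.1 hx).1
  have hAN : ∀ x ∈ A, x ∈ Q.Ng g := fun x hx => Mg_Ng (hAM x hx)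
  have hAF : ∀ x ∈ A, x ∈ Q.F := fun x hx => Ng_F (hAN x hx)
  have hp0 : 0 < 2 ^ g := Nat.two_pow_pos g
  have hu : Q.u g ≤ 2 ^ g := u_le
  have hupos : 0 < Q.u g := u_pos
  have hD : ∀ x ∈ A, g + c0 < Q.Dx x := fun x hx => (Finset.mem_filter.1 (hAM x hx)).2
  have hRN : ∀ x ∈ A, Q.w x < x + 2 ^ (g + c0 + 2) := fun x hx => (Finset.mem_filter.1 hx).2
  have hdiv : ∀ a b : ℕ, a / Q.u g = b / Q.u g → a < b + Q.u g := by
    intro a b h
    have h1 := Nat.div_add_mod a (Q.u g)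
    have h2 := Nat.div_add_mod b (Q.u g)
    have h3 := Nat.mod_lt a hupos
    rw [h] at h1
    omega
  -- the same key of level g and the same level: the same window
  have hwin : ∀ x ∈ A, ∀ y ∈ A, Q.ky g x = Q.ky g y → Q.Dx x = Q.Dx y → Q.Ef x = Q.Ef y := by
    intro x hx y hy hk hDx
    apply Q.xb_Ef
    rw [hDx]
    congr 1
    have hgD : g ≤ Q.Dx y := Ng_Dx (hAN y hy)
    have hdvd : Q.u g ∣ Q.u (Q.Dx y) := by
      unfold u
      exact pow_dvd_pow 2 (by omega)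
    obtain ⟨r, hr⟩ := hdvd
    unfold ky at hk ⊢
    rw [Prod.mk.injEq] at hk ⊢
    rw [hr, ← Nat.div_div_eq_div_mul, ← Nat.div_div_eq_div_mul, ← Nat.div_div_eq_div_mul,
      ← Nat.div_div_eq_div_mul, hk.1, hk.2]
    exact ⟨rfl, rfl⟩
  have hlen : ∀ v D, (A.filter (fun x => Q.ky g x = v ∧ Q.Dx x = D)).card ≤ 2 ^ (c0 + 3) := by
    intro v D
    rcases Finset.eq_empty_or_nonempty (A.filter (fun x => Q.ky g x = v ∧ Q.Dx x = D)) with he | ⟨x0, hx0⟩
    · rw [he, Finset.card_empty]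
      exact Nat.zero_le _
    · obtain ⟨hx0A, hx0v, hx0D⟩ := Finset.mem_filter.1 hx0
      have h3 := sp_card (A.filter (fun x => Q.ky g x = v ∧ Q.Dx x = D)) g
        (Q.w x0 - Q.u g - 2 ^ (g + c0 + 2)) (Q.w x0 + Q.u g) (by
          intro x hx
          obtain ⟨hx1, hx2, hx3⟩ := Finset.mem_filter.1 hx
          have h4 := congrArg Prod.snd (hx2.trans hx0v.symm)
          have h5 := hdiv _ _ h4
          have h6 := hdiv _ _ h4.symm
          have h7 := hRN x hx1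
          have h8 : x < Q.w x := Q.xw x (hAF x hx1)
          omega) (by
          intro x hx y hy hxy
          obtain ⟨hx1, hx2, hx3⟩ := Finset.mem_filter.1 hx
          obtain ⟨hy1, hy2, hy3⟩ := Finset.mem_filter.1 hy
          have hE := hwin x hx1 y hy1 (hx2.trans hy2.symm) (hx3.trans hy3.symm)
          exact Ng_space (hAN y hy1) (by rw [← hE]; exact mem_Ef (hAF x hx1)) hxy)
      have h4 : 2 ^ (g + c0 + 2) = 4 * (2 ^ c0 * 2 ^ g) := by rw [pow_add, pow_add]; ring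
      have h5 : 2 ^ (c0 + 3) = 8 * 2 ^ c0 := by rw [pow_add]; ring
      have h6 : 2 ^ g ≤ 2 ^ c0 * 2 ^ g := Nat.le_mul_of_pos_left _ (Nat.two_pow_pos _)
      have h7 : (A.filter (fun x => Q.ky g x = v ∧ Q.Dx x = D)).card * 2 ^ g ≤ 8 * 2 ^ c0 * 2 ^ g := by
        rw [mul_assoc]
        omega
      rw [h5]
      exact Nat.le_of_mul_le_mul_right h7 hp0
  have hfib : ∀ v ∈ A.image (Q.ky g), (A.filter (fun x => Q.ky g x = v)).card ≤ 3 * 2 ^ (c0 + 3) := by
    intro v hv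
    obtain ⟨x0, hx0, hmin⟩ := Finset.exists_min_image (A.filter (fun x => Q.ky g x = v)) (fun x => Q.Dx x) (by
      obtain ⟨x, hx, hxb⟩ := Finset.mem_image.1 hv
      exact ⟨x, Finset.mem_filter.2 ⟨hx, hxb⟩⟩)
    obtain ⟨hx0A, hx0v⟩ := Finset.mem_filter.1 hx0
    have hmaps : ∀ x ∈ A.filter (fun x => Q.ky g x = v), Q.Dx x ∈ Finset.Icc (Q.Dx x0) (Q.Dx x0 + 2) := by
      intro x hx
      rw [Finset.mem_Icc]
      refine ⟨hmin x hx, ?_⟩
      obtain ⟨hx1, hx2⟩ := Finset.mem_filter.1 hx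
      have h4 := hx2.trans hx0v.symm
      have h5 := hdiv _ _ (congrArg Prod.snd h4)
      have h6 := hdiv _ _ (congrArg Prod.fst h4.symm)
      have h7 := hRN x0 hx0A
      have h8 : x < Q.w x := Q.xw x (hAF x hx1)
      have h9 := Dx_spec (hAF x hx1)
      have h10 := Dx_spec (hAF x0 hx0A)
      have h11 := hD x0 hx0A
      have h12 : 2 ^ (g + c0 + 2) ≤ 2 * 2 ^ Q.Dx x0 := by
        calc 2 ^ (g + c0 + 2) = 2 * 2 ^ (g + c0 + 1) := by rw [pow_succ 2 (g + c0 + 1)]; ring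
          _ ≤ 2 * 2 ^ Q.Dx x0 := Nat.mul_le_mul_left _ (Nat.pow_le_pow_right (by norm_num) h11)
      have h13 : 2 * 2 ^ g ≤ 2 ^ Q.Dx x0 := by
        calc 2 * 2 ^ g = 2 ^ (g + 1) := by rw [pow_succ]; ring
          _ ≤ 2 ^ Q.Dx x0 := Nat.pow_le_pow_right (by norm_num) (by omega)
      have h14 : 2 ^ (Q.Dx x0 + 1) = 2 * 2 ^ Q.Dx x0 := by rw [pow_succ]; ring
      have h15 : 2 ^ (Q.Dx x0 + 3) = 8 * 2 ^ Q.Dx x0 := by rw [pow_add]; ring
      have h16 : 2 ^ Q.Dx x < 2 ^ (Q.Dx x0 + 3) := by omega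
      have h17 := (Nat.pow_lt_pow_iff_right (by norm_num : 1 < 2)).1 h16
      omega
    rw [Finset.card_eq_sum_card_fiberwise hmaps]
    calc ∑ D ∈ Finset.Icc (Q.Dx x0) (Q.Dx x0 + 2), ((A.filter (fun x => Q.ky g x = v)).filter (fun x => Q.Dx x = D)).card
        ≤ ∑ D ∈ Finset.Icc (Q.Dx x0) (Q.Dx x0 + 2), 2 ^ (c0 + 3) := by
          apply Finset.sum_le_sum
          intro D _
          rw [Finset.filter_filter]
          exact hlen v D
      _ = 3 * 2 ^ (c0 + 3) := by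
          rw [Finset.sum_const, smul_eq_mul, Nat.card_Icc]
          congr 1
          omega
  have h1 := Finset.card_le_mul_card_image (f := Q.ky g) A _ hfib
  have h2 : (A.image (Q.ky g)).card ≤ top / 2 ^ (g - (c + 2)) + 1 := by
    refine le_trans (Finset.card_le_card ?_) (Q.keys g)
    intro b hb
    obtain ⟨x, hx, rfl⟩ := Finset.mem_image.1 hb
    refine Finset.mem_image.2 ⟨x, Finset.mem_filter.2 ⟨hAF x hx, ?_⟩, rfl⟩
    have h3 := (Dx_spec (hAF x hx)).1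
    have h4 : 2 ^ g ≤ 2 ^ Q.Dx x := Nat.pow_le_pow_right (by norm_num) (Ng_Dx (hAN x hx))
    show Q.z x + 2 ^ g ≤ x
    omega
  rcases Finset.eq_empty_or_nonempty A with he | ⟨x0, hx0⟩
  · rw [he, Finset.card_empty, mul_zero]
    exact Nat.zero_le _
  · have h3 : 2 ^ g ≤ top :=
      le_trans (Nat.pow_le_pow_right (by norm_num) (Ng_Dx (hAN x0 hx0))) (two_Dx_le (hAF x0 hx0))
    have h4 : top ≤ 2 ^ (c + 2) * top := Nat.le_mul_of_pos_left _ (Nat.two_pow_pos _)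
    calc 2 ^ g * A.card ≤ 2 ^ g * (3 * 2 ^ (c0 + 3) * (top / 2 ^ (g - (c + 2)) + 1)) :=
          Nat.mul_le_mul_left _ (le_trans h1 (Nat.mul_le_mul_left _ h2))
      _ = 3 * 2 ^ (c0 + 3) * (top / 2 ^ (g - (c + 2)) * 2 ^ g + 2 ^ g) := by ring
      _ ≤ 3 * 2 ^ (c0 + 3) * (2 ^ (c + 2) * top + 2 ^ (c + 2) * top) :=
          Nat.mul_le_mul_left _ (Nat.add_le_add (xa_mul c top g) (le_trans h3 h4))
      _ = 192 * (2 ^ c0 * 2 ^ c * top) := by rw [pow_add 2 c0 3, pow_add 2 c 2]; ring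
      _ ≤ 1024 * (2 ^ c0 * 2 ^ c * top) := Nat.mul_le_mul_right _ (by norm_num)
      _ = 2 ^ (c + c0 + 10) * top := by rw [pow_add 2 (c + c0) 10, pow_add 2 c c0]; ring
-- END xf

end Fam

end Pool.Agent.SplTr
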