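import Pool.Agent.SplTr.Sep
import Pool.Agent.SplLs.Fin
import Pool.Agent.SplLs.Pre

set_option autoImplicit false

/-!
# Separable permutations: from splitting systems to splay trees
-/

namespace Pool.Agent.SplTr

open BinaryTree Pool.Agent.MP_c42954_lc.Scan Pool.Agent.SplLog Pool.Agent.SplPat Pool.Agent.SplLs
open Pool.Agent.SplDq
open scoped Classical

/-- The list avoids the patterns 2413 and 3142. -/
def SepL (X : List ℕ) : Prop := ∀ i j k l : Fin X.length, i < j → j < k → k < l →
  ¬ (X.get k < X.get i ∧ X.get i < X.get l ∧ X.get l < X.get j) ∧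
  ¬ (X.get j < X.get l ∧ X.get l < X.get i ∧ X.get i < X.get k)

theorem sep_run_le (hLin : Lin) : ∃ C : ℕ, ∀ (T : BinaryTree ℕ) (X : ℕ → ℕ) (m : ℕ), IsBST T →
    (∀ t, t < m → X t ∈ inorder T) → (∀ v ∈ inorder T, 1 ≤ v ∧ v ≤ (inorder T).length) →
    (∀ s t, s < m → t < m → X s = X t → s = t) → (∀ v ∈ inorder T, ∃ t, t < m ∧ X t = v) →
    (∀ i j k l, i < j → j < k → k < l → l < m → ¬ (X k < X i ∧ X i < X l ∧ X l < X j)) →
    (∀ i j k l, i < j → j < k → k < l → l < m → ¬ (X j < X l ∧ X l < X i ∧ X i < X k)) →
    ∑ t ∈ Finset.range m, depth (X t) (tr T X t) ≤ C * (m + (inorder T).length) := by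
  obtain ⟨C, hC⟩ := hLin
  refine ⟨21 * C, ?_⟩
  intro T X m hb hX hA hinj honto hav1 hav2
  have hB : Bd 0 ((inorder T).length + 1) T := by
    intro v hv
    have h1 := hA v hv
    exact ⟨by omega, by omega⟩
  set S := sysOf T X m ((inorder T).length + 1) hb hX hB with hS
  have hT : Thr S := thr_sys hb hX hB
  have hT' : Thr S.mir := thr_mir hb hX hB
  have hpw : (inorder T).Pairwise (· < ·) := hb
  have hnd : (inorder T).Nodup := hpw.imp (fun {a b} hab => Nat.ne_of_lt hab)
  have hcard : S.K.card = (inorder T).length := List.toFinset_card_of_nodup hnd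
  have hfull : ∀ v, 0 < v → v < S.top → v ∈ S.K := by
    have h1 : S.K ⊆ Finset.Icc 1 (inorder T).length := by
      intro v hv
      rw [Finset.mem_Icc]
      exact hA v (List.mem_toFinset.1 hv)
    have h2 : S.K = Finset.Icc 1 (inorder T).length := by
      apply Finset.eq_of_subset_of_card_le h1
      rw [hcard, Nat.card_Icc]
      omega
    intro v h3 h4
    rw [h2, Finset.mem_Icc]
    have h5 : S.top = (inorder T).length + 1 := rfl
    omega
  have hP : Sep S :=
    ⟨hfull, hinj, fun v hv => honto v (List.mem_toFinset.1 hv), hav1, hav2⟩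
  have h1 := hC S ⟨spl_of_sep hP, thrU_of hT, thrU_of hT'⟩
  have h2 := irr_sep hP hT hT'
  have h4 : ∑ t ∈ Finset.range m, depth (X t) (tr T X t) ≤ tch S := by
    unfold tch
    rw [sum_cnt]
    apply Finset.sum_le_sum
    intro t ht
    rw [Finset.mem_range] at ht
    refine (depth_le hb hX hB ht).trans (Finset.card_le_card ?_)
    intro v hv
    rw [Finset.mem_filter] at hv ⊢
    exact ⟨hv.1, hv.2.2⟩
  have h5 : S.m = m := rfl
  have h6 : S.top = (inorder T).length + 1 := rfl
  rw [h5] at h2
  rw [h6] at h1
  rcases Nat.eq_zero_or_pos m with h7 | h7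
  · subst h7
    simp
  · calc ∑ t ∈ Finset.range m, depth (X t) (tr T X t) ≤ tch S := h4
      _ ≤ C * ((inorder T).length + 1 + irr S) := h1
      _ ≤ C * (21 * (m + (inorder T).length)) := Nat.mul_le_mul_left _ (by omega)
      _ = 21 * C * (m + (inorder T).length) := by ring

/-- **Separable permutations are linear** (if the number of touches of splitting systems is
linear). -/
theorem separable (hLin : Lin) : ∃ C : ℕ, ∀ (T : BinaryTree ℕ) (X : List ℕ), IsBST T →
    X.Perm (inorder T) → SepL X → splayCost X T ≤ C * (inorder T).length := by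
  obtain ⟨C, hC⟩ := sep_run_le hLin
  refine ⟨2 * C + 1, fun T X hb hperm hsep => ?_⟩
  have hX : ∀ x ∈ X, x ∈ inorder T := fun x hx => hperm.mem_iff.1 hx
  have hX2 : ∀ v ∈ inorder T, v ∈ X := fun v hv => hperm.mem_iff.2 hv
  have hXl : X.length = (inorder T).length := hperm.length_eq
  have hpw0 : (inorder T).Pairwise (· < ·) := hb
  have hnd0 : (inorder T).Nodup := hpw0.imp (fun {a b} hab => Nat.ne_of_lt hab)
  have hXnd : X.Nodup := hperm.nodup_iff.2 hnd0
  set K := inorder T with hK
  set n := K.length with hnd
  set f : ℕ → ℕ := fun v => 1 + REL_rank K v with hf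
  set X' := X.map f with hX'
  set T' := mapT f T with hT'
  have hlen : X'.length = X.length := List.length_map _
  have hfl : ∀ a ∈ K, ∀ b, a < b → f a < f b := by
    intro a ha b hab
    have := REL_rank_lt K ha hab
    simp only [hf]
    omega
  have hb' : IsBST T' := by
    have h1 : (K.map f).Pairwise (· < ·) := by
      rw [List.pairwise_map]
      have hpw : K.Pairwise (· < ·) := hb
      refine List.Pairwise.imp_of_mem (fun {a b} ha hb' hab => ?_) hpw
      exact hfl a ha b hab
    unfold IsBST
    rw [hT', mapT_inorder]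
    exact h1
  have hmem' : ∀ x ∈ X', x ∈ inorder T' := by
    intro x hx
    rw [hX', List.mem_map] at hx
    obtain ⟨y, hy, rfl⟩ := hx
    rw [hT', mapT_inorder]
    exact List.mem_map_of_mem (hX y hy)
  have hcost : splayCost X' T' = splayCost X T :=
    REL_cost (fun x hx a ha => ⟨fun h => hfl _ hx _ h, fun h => hfl _ ha _ h⟩) X T hb rfl hX
  have hlen' : (inorder T').length = n := by
    rw [hT', mapT_inorder, List.length_map]
  have hrng : ∀ v ∈ inorder T', 1 ≤ v ∧ v ≤ (inorder T').length := by
    intro v hv
    rw [hlen']
    rw [hT', mapT_inorder, List.mem_map] at hv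
    obtain ⟨y, hy, rfl⟩ := hv
    have h1 := REL_rank_len K hy
    simp only [hf]
    omega
  have hget : ∀ a (ha : a < X.length), X'.getD a 0 = f (X.get ⟨a, ha⟩) := by
    intro a ha
    rw [List.getD_eq_getElem _ 0 (by rw [List.length_map]; exact ha), List.getElem_map]
    rfl
  have hmono : ∀ a b, f a < f b → a < b := by
    intro a b hab
    by_contra hc
    have := REL_rank_mono K (not_lt.mp hc)
    simp only [hf] at hab
    omega
  have hfinj : ∀ a ∈ K, ∀ b ∈ K, f a = f b → a = b := by
    intro a ha b hb1 hab
    rcases Nat.lt_trichotomy a b with h | h | h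
    · have := hfl a ha b h
      omega
    · exact h
    · have := hfl b hb1 a h
      omega
  have hinj' : ∀ s t, s < X'.length → t < X'.length → X'.getD s 0 = X'.getD t 0 → s = t := by
    intro s t hs ht he
    rw [hlen] at hs ht
    rw [hget s hs, hget t ht] at he
    have h1 := hfinj _ (hX _ (List.get_mem _ _)) _ (hX _ (List.get_mem _ _)) he
    have h2 := hXnd.injective_get h1
    exact congrArg Fin.val h2
  have honto' : ∀ v ∈ inorder T', ∃ t, t < X'.length ∧ X'.getD t 0 = v := by
    intro v hv
    rw [hT', mapT_inorder, List.mem_map] at hv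
    obtain ⟨y, hy, rfl⟩ := hv
    obtain ⟨⟨a, ha⟩, h1⟩ := List.mem_iff_get.1 (hX2 y hy)
    refine ⟨a, by rw [hlen]; exact ha, ?_⟩
    rw [hget a ha, h1]
  have hav1' : ∀ i j k l, i < j → j < k → k < l → l < X'.length →
      ¬ (X'.getD k 0 < X'.getD i 0 ∧ X'.getD i 0 < X'.getD l 0 ∧
        X'.getD l 0 < X'.getD j 0) := by
    intro i j k l hij hjk hkl hl
    rw [hlen] at hl
    have hi : i < X.length := by omega
    have hj : j < X.length := by omega
    have hk : k < X.length := by omega
    rw [hget i hi, hget j hj, hget k hk, hget l hl]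
    rintro ⟨h3, h4, h5⟩
    exact (hsep ⟨i, hi⟩ ⟨j, hj⟩ ⟨k, hk⟩ ⟨l, hl⟩ hij hjk hkl).1
      ⟨hmono _ _ h3, hmono _ _ h4, hmono _ _ h5⟩
  have hav2' : ∀ i j k l, i < j → j < k → k < l → l < X'.length →
      ¬ (X'.getD j 0 < X'.getD l 0 ∧ X'.getD l 0 < X'.getD i 0 ∧
        X'.getD i 0 < X'.getD k 0) := by
    intro i j k l hij hjk hkl hl
    rw [hlen] at hl
    have hi : i < X.length := by omega
    have hj : j < X.length := by omega
    have hk : k < X.length := by omega
    rw [hget i hi, hget j hj, hget k hk, hget l hl]
    rintro ⟨h3, h4, h5⟩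
    exact (hsep ⟨i, hi⟩ ⟨j, hj⟩ ⟨k, hk⟩ ⟨l, hl⟩ hij hjk hkl).2
      ⟨hmono _ _ h3, hmono _ _ h4, hmono _ _ h5⟩
  have h5 := hC T' (fun i => X'.getD i 0) X'.length hb' (getD_mem hmem') hrng hinj' honto'
    hav1' hav2'
  have h6 := cost_eq X' T'
  rw [hcost] at h6
  rw [h6, hlen]
  rw [hlen, hlen'] at h5
  rw [hXl] at h5 ⊢
  calc n + ∑ t ∈ Finset.range n, depth (X'.getD t 0) (tr T' (fun s => X'.getD s 0) t)
      ≤ n + C * (n + n) := Nat.add_le_add le_rfl h5
    _ = (2 * C + 1) * n := by ring

/-! ### Preorders and postorders -/

theorem get3_sublist {X : List ℕ} {i j k : Fin X.length} (hij : i < j) (hjk : j < k) :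
    List.Sublist [X.get i, X.get j, X.get k] X := by
  have h := List.map_getElem_sublist (l := X) (is := [i, j, k])
    (by simp [hij, hjk, hij.trans hjk])
  simpa using h

theorem preorder_sep {t : BinaryTree ℕ} (hb : IsBST t) : SepL (preorder t) := by
  intro i j k l hij hjk hkl
  constructor
  · rintro ⟨h1, h2, h3⟩
    exact preorder_sub hb (get3_sublist hij hjk) h1 (h2.trans h3)
  · rintro ⟨h1, h2, h3⟩
    exact preorder_sub hb (get3_sublist (hij.trans hjk) hkl) h2 h3

theorem preorder_perm : ∀ t : BinaryTree ℕ, (preorder t).Perm (inorder t)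
  | .nil => List.Perm.refl _
  | .node a l r => by
      simp only [preorder, inorder]
      refine List.Perm.trans ?_ (List.perm_middle (a := a)).symm
      exact List.Perm.cons a ((preorder_perm l).append (preorder_perm r))

/-- The keys of a tree in postorder: left subtree, right subtree, root. -/
def postorder : BinaryTree ℕ → List ℕ
  | .nil => []
  | .node a l r => postorder l ++ (postorder r ++ [a])

theorem postorder_perm : ∀ t : BinaryTree ℕ, (postorder t).Perm (inorder t)
  | .nil => List.Perm.refl _
  | .node a l r => by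
      simp only [postorder, inorder]
      refine (postorder_perm l).append ?_
      refine List.Perm.trans (List.perm_append_comm) ?_
      exact List.Perm.cons a (postorder_perm r)

theorem mem_postorder {v : ℕ} {t : BinaryTree ℕ} : v ∈ postorder t ↔ v ∈ inorder t :=
  (postorder_perm t).mem_iff

/-- No `x, y, z` in this order with `y < z < x`. -/
theorem postorder_sub : ∀ {t : BinaryTree ℕ}, IsBST t → ∀ {x y z : ℕ},
    List.Sublist [x, y, z] (postorder t) → y < z → ¬ z < x
  | .nil, _, x, y, z, h => by simp [postorder] at h
  | .node a l r, hb, x, y, z, h => by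
      obtain ⟨h1, h2, h3, h4⟩ := bst_node.1 hb
      intro hyz hzx
      have hl : ∀ v ∈ postorder l, v < a := fun v hv => h3 v (mem_postorder.1 hv)
      have hr : ∀ v ∈ postorder r, a < v := fun v hv => h4 v (mem_postorder.1 hv)
      rw [postorder, List.sublist_append_iff] at h
      obtain ⟨p, q, hpq, hp, hq⟩ := h
      rw [List.sublist_append_iff] at hq
      obtain ⟨q1, q2, hq12, hq1, hq2⟩ := hq
      have hq2' : q2 = [] ∨ q2 = [a] := by
        have := List.sublist_singleton.1 hq2
        exact this
      rcases p with _ | ⟨p1, _ | ⟨p2, _ | ⟨p3, p⟩⟩⟩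
      · -- everything in `q`
        simp only [List.nil_append] at hpq
        subst hpq
        rcases hq2' with rfl | rfl
        · rw [List.append_nil] at hq12
          subst hq12
          exact postorder_sub h2 hq1 hyz hzx
        · rcases q1 with _ | ⟨c1, _ | ⟨c2, _ | ⟨c3, q1⟩⟩⟩
          · simp at hq12
          · simp at hq12
          · simp only [List.cons_append, List.nil_append, List.cons.injEq] at hq12
            obtain ⟨rfl, rfl, rfl, _⟩ := hq12
            have := hr y (hq1.subset (by simp))
            omega
          · simp at hq12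
      · simp only [List.cons_append, List.nil_append, List.cons.injEq] at hpq
        obtain ⟨rfl, rfl⟩ := hpq
        have hxa := hl x (hp.subset (by simp))
        have hyr : y ∈ postorder r ∨ y = a := by
          have : y ∈ q1 ++ q2 := by
            rw [← hq12]
            simp
          rw [List.mem_append] at this
          rcases this with h | h
          · exact Or.inl (hq1.subset h)
          · rcases hq2' with rfl | rfl
            · simp at h
            · right
              simpa using h
        rcases hyr with h | h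
        · have := hr y h
          omega
        · omega
      · simp only [List.cons_append, List.nil_append, List.cons.injEq] at hpq
        obtain ⟨rfl, rfl, rfl⟩ := hpq
        have hxa := hl x (hp.subset (by simp))
        have hzr : z ∈ postorder r ∨ z = a := by
          have : z ∈ q1 ++ q2 := by
            rw [← hq12]
            simp
          rw [List.mem_append] at this
          rcases this with h | h
          · exact Or.inl (hq1.subset h)
          · rcases hq2' with rfl | rfl
            · simp at h
            · right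
              simpa using h
        rcases hzr with h | h
        · have := hr z h
          omega
        · omega
      · simp only [List.cons_append, List.cons.injEq] at hpq
        obtain ⟨rfl, rfl, rfl, hpq⟩ := hpq
        have : p = [] := by
          have := congrArg List.length hpq
          simp only [List.length_nil, List.length_append] at this
          exact List.length_eq_zero_iff.1 (by omega)
        subst this
        exact postorder_sub h1 hp hyz hzx

theorem postorder_sep {t : BinaryTree ℕ} (hb : IsBST t) : SepL (postorder t) := by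
  intro i j k l hij hjk hkl
  constructor
  · rintro ⟨h1, h2, h3⟩
    exact postorder_sub hb (get3_sublist hjk hkl) (h1.trans h2) h3
  · rintro ⟨h1, h2, h3⟩
    exact postorder_sub hb (get3_sublist hij (hjk.trans hkl)) h1 h2

end Pool.Agent.SplTr
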