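import Pool.Agent.SplTr.HotD
import Pool.Agent.SplTr.HotB

set_option autoImplicit false

/-!
# The hot lemma, (1.2) and (1.3)

`v` is hot at the time `t` if it made a kill on the right side after its last touch on the left
side and after its last kill (as a victim) on the right side.
-/

namespace Pool.Agent.SplTr.Ht

open Pool.Agent.SplLog Pool.Agent.SplLs Pool.Agent.SplDq Pool.Agent.SplTr
open scoped Classical

variable {S : Sys} {s t u v w g p q y a b x : ℕ}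

theorem not_hot_zero : ¬ Hot S 0 g := by
  rintro ⟨u, hu, _⟩
  omega

theorem hot_kill (h : S.Kl t w g) : Hot S (t + 1) g :=
  ⟨t, Nat.lt_succ_self t, ⟨w, h⟩, fun x h1 h2 => by omega⟩

theorem hot_up (h : ¬ Hot S t g) (h' : Hot S (t + 1) g) : ∃ w, S.Kl t w g := by
  obtain ⟨u, hu, hw, hx⟩ := h'
  rcases Nat.lt_succ_iff_lt_or_eq.1 hu with h1 | h1
  · exact absurd ⟨u, h1, hw, fun x h2 h3 => hx x h2 (by omega)⟩ h
  · rw [h1] at hw
    exact hw

theorem hot_down (h : ∃ p, S.Kl t g p) : ¬ Hot S (t + 1) g := by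
  rintro ⟨u, hu, ⟨w, hw⟩, hx⟩
  rcases Nat.lt_succ_iff_lt_or_eq.1 hu with h1 | h1
  · exact (hx t h1 (Nat.lt_succ_self t)).2 h
  · obtain ⟨p, hp⟩ := h
    rw [h1] at hw
    exact Sys.not_kp_kl (Sys.kl_facts hw).1 hp

/-- The number of kills with a hot victim is at most the number of kills with a killer which is not
hot. -/
theorem hot_le (S : Sys) :
    S.cnt (fun t g => (∃ p, S.Kl t g p) ∧ Hot S t g) ≤
      S.cnt (fun t v => (∃ w, S.Kl t w v) ∧ ¬ Hot S t v) := by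
  rw [Th.cnt_sum', Th.cnt_sum']
  apply Finset.sum_le_sum
  intro v _
  obtain ⟨U, hU⟩ : ∃ U : ℕ → Prop, ∀ t, U t ↔ ¬ Hot S t v ∧ Hot S (t + 1) v := ⟨_, fun _ => Iff.rfl⟩
  obtain ⟨D, hD⟩ : ∃ D : ℕ → Prop, ∀ t, D t ↔ Hot S t v ∧ ¬ Hot S (t + 1) v := ⟨_, fun _ => Iff.rfl⟩
  obtain ⟨f, hf⟩ : ∃ f : ℕ → Prop, ∀ t, f t ↔ Hot S t v := ⟨_, fun _ => Iff.rfl⟩
  have h := Th.up_down f U D (fun t => by rw [hU, hf, hf]) (fun t => by rw [hD, hf, hf]) S.m
  have h0 : ¬ f 0 := by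
    rw [hf]
    exact not_hot_zero
  have h1 : ((Finset.range S.m).filter (fun t => (∃ p, S.Kl t v p) ∧ Hot S t v)).card ≤
      ((Finset.range S.m).filter (fun t => D t)).card := by
    apply Finset.card_le_card
    intro t ht
    rw [Finset.mem_filter] at ht ⊢
    exact ⟨ht.1, (hD t).2 ⟨ht.2.2, hot_down ht.2.1⟩⟩
  have h2 : ((Finset.range S.m).filter (fun t => U t)).card ≤
      ((Finset.range S.m).filter (fun t => (∃ w, S.Kl t w v) ∧ ¬ Hot S t v)).card := by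
    apply Finset.card_le_card
    intro t ht
    rw [Finset.mem_filter] at ht ⊢
    have h3 := (hU t).1 ht.2
    exact ⟨ht.1, hot_up h3.1 h3.2, h3.1⟩
  rw [if_neg h0] at h
  convert h1.trans ((show _ ≤ _ by omega).trans h2)

/-- From killers to victims. -/
theorem killer_victim (S : Sys) (P : ℕ → ℕ → Prop) :
    S.cnt (fun t v => (∃ w, S.Kl t w v) ∧ P t v) ≤ S.cnt (fun t g => ∃ p, S.Kl t g p ∧ P t p) := by
  refine Sys.cnt_le_of_inj (S.set (fun t g => ∃ p, S.Kl t g p ∧ P t p))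
    (fun t v => (t, S.rho t v)) ?_ ?_
  · rintro t v ht hv ⟨⟨w, hw⟩, hP⟩
    rw [Sys.mem_set]
    have h1 : S.rho t v = w := kl_rho hw
    rw [h1]
    exact ⟨ht, hw.1.2.1, v, hw, hP⟩
  · rintro t v t' v' ht hv ⟨⟨w, hw⟩, hP⟩ ht' hv' ⟨⟨w', hw'⟩, hP'⟩ he
    simp only [Prod.mk.injEq] at he
    obtain ⟨h1, h2⟩ := he
    subst h1
    refine ⟨rfl, ?_⟩
    have h3 : S.rho t v = w := kl_rho hw
    have h4 : S.rho t v' = w' := kl_rho hw'
    have h5 : w = w' := by omega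
    subst h5
    exact hw.2.2.symm.trans hw'.2.2

/-! ## The position of a hot victim -/

/-- A hot unseen key is left-visible. -/
theorem hot_lv (hS : Spl S) (ht : t ≤ S.m) (hU : ¬ Seen S t g) (h : Hot S t g) : LV S t g := by
  obtain ⟨u, hu, ⟨w, hw⟩, hx⟩ := h
  have hK := (Sys.kl_facts hw).1
  have hg : g ∈ S.K := hK.1.2.1
  have key : ∀ n, u + 1 + n ≤ t → LV S (u + 1 + n) g := by
    intro n
    induction n with
    | zero =>
      intro _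
      unfold LV
      rw [Nat.add_zero, hK.2, (walls_R hS hK.1 (fun h => hU (seen_mono h (by omega)))).1]
    | succ n ih =>
      intro h1
      have h2 := ih (by omega)
      have h3 := lv_keep hS (t := u + 1 + n) (by omega) hg
        (fun h => hU (seen_mono h (by omega))) h2 (hx _ (by omega) (by omega)).2
      exact h3
  have := key (t - (u + 1)) (by omega)
  rwa [show u + 1 + (t - (u + 1)) = t by omega] at this

/-- The last touch of a hot victim before the kill. -/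
theorem hot_last (hS : Spl S) (hk : S.Kl t g p) (hU : ¬ Seen S t g) (h : Hot S t g) :
    ∃ t', t' < t ∧ S.R t' g ∧ (¬ ∃ q, S.Kl t' g q) ∧ S.NE g (t' + 1) t ∧ S.NE p (t' + 1) t ∧
      S.lam (t' + 1) g = S.X t' ∧ S.lam (t' + 1) p = S.X t' ∧ S.rho (t' + 1) p = g ∧
      (¬ LV S t' g → ∃ w, S.Kl t' w g) := by
  have ht : t < S.m := hk.1.1
  obtain ⟨u, hu, ⟨w, hw⟩, hx⟩ := h
  have hKu := (Sys.kl_facts hw).1
  have hg : g ∈ S.K := hKu.1.2.1
  obtain ⟨t', h1, h2, h3⟩ := Sys.exists_prev (P := fun x => u ≤ x ∧ S.R x g) ⟨u, hu, le_rfl, hKu.1⟩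
  obtain ⟨h2, hR⟩ := h2
  have hnk : ¬ ∃ q, S.Kl t' g q := by
    rcases Nat.eq_or_lt_of_le h2 with h4 | h4
    · rintro ⟨q, hq⟩
      rw [← h4] at hq
      exact Sys.not_kp_kl hKu hq
    · exact (hx t' h4 h1).2
  have hNE : S.NE g (t' + 1) t := by
    intro x hx1 hx2 hE
    rcases hE with hE | hE | hE
    · exact h3 x (by omega) hx2 ⟨by omega, hE⟩
    · exact (hx x (by omega) hx2).1 hE
    · exact hU ⟨x, hx2, by omega, hE.2.2.symm⟩
  have hl : S.lam (t' + 1) g = S.X t' := by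
    rcases Sys.kp_or_kl hR with c | c
    · exact c.2
    · exact absurd c hnk
  have hc := Sys.NE_const hg (show t' + 1 ≤ t by omega) ht.le hNE
  have hkf := Sys.kl_facts hk
  have hp : p ∈ S.K := hkf.1.1.2.1
  have hlp := S.lam_lt t ht.le p hp
  have hgr := S.lt_rho t ht.le g hg
  have hNp : S.NE p (t' + 1) t := Sys.stamp ht.le hp hg (by omega) (by omega) hNE
  have hc' := Sys.NE_const hp (show t' + 1 ≤ t by omega) ht.le hNp
  refine ⟨t', h1, hR, hnk, hNE, hNp, hl, by omega, by omega, ?_⟩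
  intro hLV
  rcases Nat.eq_or_lt_of_le h2 with h4 | h4
  · rw [← h4]
    exact ⟨w, hw⟩
  · exfalso
    apply hLV
    exact hot_lv hS hR.1.le (fun h => hU (seen_mono h (by omega)))
      ⟨u, h4, ⟨w, hw⟩, fun x hx1 hx2 => hx x hx1 (by omega)⟩

/-- `(t, g)` is determined by `(t', g)`. -/
theorem last_unique {t1 t2 g t' : ℕ} (h1 : t' < t1) (h2 : t' < t2) (hR1 : S.R t1 g)
    (hR2 : S.R t2 g) (hN1 : S.NE g (t' + 1) t1) (hN2 : S.NE g (t' + 1) t2) : t1 = t2 := by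
  rcases Nat.lt_trichotomy t1 t2 with h | h | h
  · exact absurd (Sys.R_E hR1) (hN2 t1 (by omega) h)
  · exact h
  · exact absurd (Sys.R_E hR2) (hN1 t2 (by omega) h)

/-- The kills of (1.3): the victim is hot, the killer is not. -/
def Bk (S : Sys) (t g : ℕ) : Prop := ∃ p, S.Kl t g p ∧ Hot S t g ∧ ¬ Hot S t p

/-- Data of an unseen kill of (1.3). -/
def Dt (S : Sys) (t g p t' : ℕ) : Prop :=
  S.Kl t g p ∧ ¬ Seen S t g ∧ t' < t ∧ S.R t' g ∧ S.NE g (t' + 1) t ∧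
    S.lam (t' + 1) p = S.X t' ∧ S.rho (t' + 1) p = g

/-- The four kinds of the kills of (1.3). -/
theorem bk_cases (hS : Spl S) (h : Bk S t g) (hU : ¬ Seen S t g) :
    ∃ p t', Dt S t g p t' ∧
      ((S.lam t' p = S.X t' ∧ S.rho t' p = g) ∨
        (S.R t' p ∧ ¬ Seen S t' p ∧ LV S t' p ∧ (¬ ∃ q, S.Kl t' p q) ∧
          ¬ S.Kl t' (S.rho t' p) p ∧ S.rho t' p = g) ∨
        (S.R t' p ∧ ¬ LV S t' p ∧ LV S t' g ∧ S.rho t' p = g) ∨
        (∃ w, S.Kl t' w g ∧ (Seen S t' w ∨ Base S t' w))) := by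
  obtain ⟨p, hk, hh, hnp⟩ := h
  obtain ⟨t', h1, hR, hnk, hNE, hNp, hl, hlp, hrp, hkil⟩ := hot_last hS hk hU hh
  have hp : p ∈ S.K := (kl_R' hk).2.1
  have hpg : p < g := kl_lt hk
  have hlam := S.lam_lt (t' + 1) hR.1 p hp
  refine ⟨p, t', ⟨hk, hU, h1, hR, hNE, hlp, hrp⟩, ?_⟩
  have hUg : ¬ Seen S t' g := fun h => hU (seen_mono h h1.le)
  by_cases hRp : S.R t' p
  · have hUp : ¬ Seen S t' p := unseen_below hS hRp hR hpg.le hUg
    have hnpk : ¬ ∃ q, S.Kl t' p q := by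
      rintro ⟨q, hq⟩
      have h5 := hq.2.1
      have h6 := hq.2.2
      omega
    have hnpr : ∀ w, ¬ S.Kl t' w p := by
      intro w hw
      apply hnp
      refine ⟨t', h1, ⟨w, hw⟩, ?_⟩
      intro x hx1 hx2
      refine ⟨fun h => hNp x (by omega) hx2 (Sys.L_E h), ?_⟩
      rintro ⟨q, hq⟩
      exact hNp x (by omega) hx2 (Sys.R_E hq.1)
    have hrp' : S.rho t' p = g := by
      rcases R_cases hRp with c | c | ⟨q, c, _⟩
      · omega
      · exact absurd c.2.1 (hnpr _)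
      · exact absurd ⟨q, c⟩ hnpk
    by_cases hLp : LV S t' p
    · right; left
      exact ⟨hRp, hUp, hLp, hnpk, hnpr _, hrp'⟩
    · by_cases hLg : LV S t' g
      · right; right; left
        exact ⟨hRp, hLp, hLg, hrp'⟩
      · right; right; right
        obtain ⟨w, hw⟩ := hkil hLg
        refine ⟨w, hw, ?_⟩
        by_cases hUw : Seen S t' w
        · exact Or.inl hUw
        · right
          refine ⟨⟨g, hw⟩, ?_⟩
          intro hhw
          have h5 := hot_lv hS hR.1.le hUw hhw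
          apply hLg
          exact (old_of_lam hS ⟨hw.1, hUw, h5⟩ hR hUg (kl_lam hw)).2.2
  · left
    have h5 := not_R hR.1 hp (by omega) hRp
    exact ⟨by omega, by omega⟩

/-- The first kind. -/
theorem cnt_A (S : Sys) :
    S.cnt (fun t g => ∃ p t', Dt S t g p t' ∧ S.lam t' p = S.X t' ∧ S.rho t' p = g) ≤ S.m := by
  have hch : ∀ t g, (∃ p t', Dt S t g p t' ∧ S.lam t' p = S.X t' ∧ S.rho t' p = g) →
      ∃ t' p, Dt S t g p t' ∧ S.lam t' p = S.X t' ∧ S.rho t' p = g := by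
    rintro t g ⟨p, t', h⟩
    exact ⟨t', p, h⟩
  choose! f hf using hch
  rw [show S.m = (Finset.range S.m).card from (Finset.card_range _).symm]
  refine Sys.cnt_le_of_inj _ f ?_ ?_
  · intro t v ht hv hP
    obtain ⟨p, ⟨_, _, h1, _⟩, _⟩ := hf t v hP
    rw [Finset.mem_range]
    omega
  · intro t g t1 g1 ht hg hP ht1 hg1 hP1 he
    obtain ⟨p, ⟨c1, c2, c3, c4, c5, c6, c7⟩, c8, c9⟩ := hf t g hP
    obtain ⟨p1, ⟨d1, d2, d3, d4, d5, d6, d7⟩, d8, d9⟩ := hf t1 g1 hP1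
    rw [← he] at d3 d4 d5 d6 d7 d8 d9
    have hp : p ∈ S.K := (kl_R' c1).2.1
    have hp1 : p1 ∈ S.K := (kl_R' d1).2.1
    have hpg := kl_lt c1
    have hpg1 := kl_lt d1
    have key : ∀ (y : ℕ) (p p1 g g1 : ℕ), y < S.m → p ∈ S.K → p1 ∈ S.K → S.R y g → S.R y g1 →
        S.lam y p = S.X y → S.lam y p1 = S.X y → S.rho y p = g → S.rho y p1 = g1 →
        ¬ p < p1 := by
      intro y p p1 g g1 hy hp hp1 hR hR1 e1 e2 e3 e4 hlt
      have l1 := S.lam_lt y hy.le p hp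
      have l2 := S.lam_lt y hy.le p1 hp1
      have l3 := S.lt_rho y hy.le p hp
      have l4 := hR.2.2.2
      have l5 := hR.2.2.1
      have l6 := S.lt_rho y hy.le g hR.2.1
      rcases S.lamin y hy.le p hp p1 hp1 hlt with c | c | c
      · omega
      · have h7 : g < p1 := by
          rcases Nat.eq_or_lt_of_le (show g ≤ p1 by omega) with h | h
          · rw [h] at l4
            omega
          · exact h
        rcases S.lamin y hy.le g hR.2.1 p1 hp1 h7 with d | d | d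
        · omega
        · omega
        · omega
      · omega
    have hy : f t g < S.m := c4.1
    have hpp : p = p1 := by
      rcases Nat.lt_trichotomy p p1 with h | h | h
      · exact absurd h (key (f t g) p p1 g g1 hy hp hp1 c4 d4 c8 d8 c9 d9)
      · exact h
      · exact absurd h (key (f t g) p1 p g1 g hy hp1 hp d4 c4 d8 c8 d9 c9)
    have hgg : g = g1 := by
      rw [← c9, ← d9, hpp]
    subst hgg
    exact ⟨last_unique c3 d3 c1.1 d1.1 c5 d5, rfl⟩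

/-- The second kind. -/
theorem cnt_B2 (hS : Spl S) (hT : ThrU S) :
    S.cnt (fun t g => ∃ p t', Dt S t g p t' ∧ S.R t' p ∧ ¬ Seen S t' p ∧ LV S t' p ∧
      (¬ ∃ q, S.Kl t' p q) ∧ ¬ S.Kl t' (S.rho t' p) p ∧ S.rho t' p = g) ≤
    2 * S.m + 2 * irr S := by
  have hch : ∀ t g, (∃ p t', Dt S t g p t' ∧ S.R t' p ∧ ¬ Seen S t' p ∧ LV S t' p ∧
      (¬ ∃ q, S.Kl t' p q) ∧ ¬ S.Kl t' (S.rho t' p) p ∧ S.rho t' p = g) →
      ∃ z : ℕ × ℕ, Dt S t g z.2 z.1 ∧ S.R z.1 z.2 ∧ ¬ Seen S z.1 z.2 ∧ LV S z.1 z.2 ∧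
      (¬ ∃ q, S.Kl z.1 z.2 q) ∧ ¬ S.Kl z.1 (S.rho z.1 z.2) z.2 ∧ S.rho z.1 z.2 = g := by
    rintro t g ⟨p, t', h⟩
    exact ⟨(t', p), h⟩
  choose! f hf using hch
  set Q : ℕ → ℕ → Prop := fun t v => S.R t v ∧ ¬ Seen S t v ∧ LV S t v ∧ (¬ ∃ p, S.Kl t v p) ∧
      ¬ S.Kl t (S.rho t v) v with hQ
  have h1 : S.cnt (fun t g => ∃ p t', Dt S t g p t' ∧ S.R t' p ∧ ¬ Seen S t' p ∧ LV S t' p ∧
      (¬ ∃ q, S.Kl t' p q) ∧ ¬ S.Kl t' (S.rho t' p) p ∧ S.rho t' p = g) ≤ (S.set Q).card := by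
    refine Sys.cnt_le_of_inj _ f ?_ ?_
    · intro t g ht hg hP
      obtain ⟨c1, c2, c3, c4, c5, c6, c7⟩ := hf t g hP
      rw [Sys.mem_set]
      exact ⟨c2.1, c2.2.1, c2, c3, c4, c5, c6⟩
    · intro t g t1 g1 ht hg hP ht1 hg1 hP1 he
      obtain ⟨c1, c2, c3, c4, c5, c6, c7⟩ := hf t g hP
      obtain ⟨d1, d2, d3, d4, d5, d6, d7⟩ := hf t1 g1 hP1
      rw [← he] at d1 d7
      have hgg : g = g1 := by rw [← c7, ← d7]
      subst hgg
      obtain ⟨a1, a2, a3, a4, a5, a6, a7⟩ := c1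
      obtain ⟨b1, b2, b3, b4, b5, b6, b7⟩ := d1
      exact ⟨last_unique a3 b3 a1.1 b1.1 a5 b5, rfl⟩
  have h2 : (S.set Q).card = S.cnt Q := rfl
  have h3 : S.cnt Q ≤ 2 * S.m + 2 * irr S := by
    have e1 := Th.cnt_sum S Q
    have e2 : irr S = _ := Th.cnt_sum S (fun t v => S.E t v ∧ Seen S t v)
    have e3 : 2 * S.m = ∑ t ∈ Finset.range S.m, 2 := by
      rw [Finset.sum_const, Finset.card_range, smul_eq_mul, mul_comm]
    rw [e1, e2, Finset.mul_sum, e3, ← Finset.sum_add_distrib]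
    apply Finset.sum_le_sum
    intro t ht
    have h4 := old_free hS hT (Finset.mem_range.1 ht)
    refine le_trans (le_of_eq ?_) (h4.trans (le_of_eq ?_))
    · congr!
    · congr!
  omega

/-- The third kind. -/
theorem cnt_B3 (hS : Spl S) :
    S.cnt (fun t g => ∃ p t', Dt S t g p t' ∧ S.R t' p ∧ ¬ LV S t' p ∧ LV S t' g ∧
      S.rho t' p = g) ≤ S.m := by
  have hch : ∀ t g, (∃ p t', Dt S t g p t' ∧ S.R t' p ∧ ¬ LV S t' p ∧ LV S t' g ∧
      S.rho t' p = g) →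
      ∃ t' p, Dt S t g p t' ∧ S.R t' p ∧ ¬ LV S t' p ∧ LV S t' g ∧ S.rho t' p = g := by
    rintro t g ⟨p, t', h⟩
    exact ⟨t', p, h⟩
  choose! f hf using hch
  rw [show S.m = (Finset.range S.m).card from (Finset.card_range _).symm]
  refine Sys.cnt_le_of_inj _ f ?_ ?_
  · intro t v ht hv hP
    obtain ⟨p, ⟨_, _, h1, _⟩, _⟩ := hf t v hP
    rw [Finset.mem_range]
    omega
  · intro t g t1 g1 ht hg hP ht1 hg1 hP1 he
    obtain ⟨p, ⟨c1, c2, c3, c4, c5, c6, c7⟩, c8, c9, c10, c11⟩ := hf t g hP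
    obtain ⟨p1, ⟨d1, d2, d3, d4, d5, d6, d7⟩, d8, d9, d10, d11⟩ := hf t1 g1 hP1
    rw [← he] at d3 d4 d5 d6 d7 d8 d9 d10 d11
    have key : ∀ (y : ℕ) (p p1 g g1 : ℕ), S.R y g → S.R y g1 → ¬ Seen S y g → ¬ Seen S y g1 →
        S.R y p → S.R y p1 → LV S y g → ¬ LV S y p1 → S.rho y p = g → S.rho y p1 = g1 →
        ¬ p < p1 := by
      intro y p p1 g g1 hR hR1 hU hU1 hp hp1 e1 e2 e3 e4 hlt
      have l1 := (Sys.R_above hp hp1 hlt).1
      have l2 := R_rho hp1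
      exact e2 (old_up hS ⟨hR, hU, e1⟩ hp1 (by omega)
        (unseen_below hS hp1 hR1 (by omega) hU1)).2.2
    have hUg : ¬ Seen S (f t g) g := fun h => c2 (seen_mono h c3.le)
    have hUg1 : ¬ Seen S (f t g) g1 := fun h => d2 (seen_mono h d3.le)
    have hpp : p = p1 := by
      rcases Nat.lt_trichotomy p p1 with h | h | h
      · exact absurd h (key (f t g) p p1 g g1 c4 d4 hUg hUg1 c8 d8 c10 d9 c11 d11)
      · exact h
      · exact absurd h (key (f t g) p1 p g1 g d4 c4 hUg1 hUg d8 c8 d10 c9 d11 c11)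
    have hgg : g = g1 := by
      rw [← c11, ← d11, hpp]
    subst hgg
    exact ⟨last_unique c3 d3 c1.1 d1.1 c5 d5, rfl⟩

/-- The fourth kind. -/
theorem cnt_B4 (S : Sys) (P : ℕ → ℕ → Prop) :
    S.cnt (fun t g => ∃ p t', Dt S t g p t' ∧ ∃ w, S.Kl t' w g ∧ P t' w) ≤ S.cnt P := by
  have hch : ∀ t g, (∃ p t', Dt S t g p t' ∧ ∃ w, S.Kl t' w g ∧ P t' w) →
      ∃ z : ℕ × ℕ, (∃ p, Dt S t g p z.1) ∧ S.Kl z.1 z.2 g ∧ P z.1 z.2 := by
    rintro t g ⟨p, t', h, w, h1, h2⟩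
    exact ⟨(t', w), ⟨p, h⟩, h1, h2⟩
  choose! f hf using hch
  refine Sys.cnt_le_of_inj (S.set P) f ?_ ?_
  · intro t g ht hg hP
    obtain ⟨c1, c2, c3⟩ := hf t g hP
    rw [Sys.mem_set]
    exact ⟨c2.1.1, c2.1.2.1, c3⟩
  · intro t g t1 g1 ht hg hP ht1 hg1 hP1 he
    obtain ⟨⟨p, c1⟩, c2, c3⟩ := hf t g hP
    obtain ⟨⟨p1, d1⟩, d2, d3⟩ := hf t1 g1 hP1
    rw [← he] at d1 d2
    have hgg : g = g1 := c2.2.2.symm.trans d2.2.2
    subst hgg
    obtain ⟨a1, a2, a3, a4, a5, a6, a7⟩ := c1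
    obtain ⟨b1, b2, b3, b4, b5, b6, b7⟩ := d1
    exact ⟨last_unique a3 b3 a1.1 b1.1 a5 b5, rfl⟩

/-- **(1.3)** -/
theorem bk_le (hS : Spl S) (hT : ThrU S) :
    S.cnt (Bk S) ≤ S.cnt (Base S) + 4 * S.m + 4 * irr S := by
  have h0 : S.cnt (Bk S) ≤ S.cnt (fun t g => S.E t g ∧ Seen S t g) +
      S.cnt (fun t g => Bk S t g ∧ ¬ Seen S t g) := by
    refine Th.cnt_or_le S ?_
    intro t g h
    by_cases hU : Seen S t g
    · left
      obtain ⟨p, h1, _⟩ := h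
      exact ⟨Sys.R_E h1.1, hU⟩
    · exact Or.inr ⟨h, hU⟩
  set A1 : ℕ → ℕ → Prop := fun t g => ∃ p t', Dt S t g p t' ∧ S.lam t' p = S.X t' ∧
    S.rho t' p = g with hA1
  set A2 : ℕ → ℕ → Prop := fun t g => ∃ p t', Dt S t g p t' ∧ S.R t' p ∧ ¬ Seen S t' p ∧
    LV S t' p ∧ (¬ ∃ q, S.Kl t' p q) ∧ ¬ S.Kl t' (S.rho t' p) p ∧ S.rho t' p = g with hA2
  set A3 : ℕ → ℕ → Prop := fun t g => ∃ p t', Dt S t g p t' ∧ S.R t' p ∧ ¬ LV S t' p ∧
    LV S t' g ∧ S.rho t' p = g with hA3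
  set A4 : ℕ → ℕ → Prop := fun t g => ∃ p t', Dt S t g p t' ∧ ∃ w, S.Kl t' w g ∧
    (S.E t' w ∧ Seen S t' w) with hA4
  set A5 : ℕ → ℕ → Prop := fun t g => ∃ p t', Dt S t g p t' ∧ ∃ w, S.Kl t' w g ∧
    Base S t' w with hA5
  have h1 : S.cnt (fun t g => Bk S t g ∧ ¬ Seen S t g) ≤ S.cnt A1 +
      S.cnt (fun t g => A2 t g ∨ A3 t g ∨ A4 t g ∨ A5 t g) := by
    refine Th.cnt_or_le S ?_
    rintro t g ⟨h, hU⟩
    obtain ⟨p, t', hD, c | c | c | ⟨w, c1, c2 | c2⟩⟩ := bk_cases hS h hU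
    · exact Or.inl ⟨p, t', hD, c⟩
    · exact Or.inr (Or.inl ⟨p, t', hD, c⟩)
    · exact Or.inr (Or.inr (Or.inl ⟨p, t', hD, c⟩))
    · exact Or.inr (Or.inr (Or.inr (Or.inl ⟨p, t', hD, w, c1, Sys.R_E c1.1, c2⟩)))
    · exact Or.inr (Or.inr (Or.inr (Or.inr ⟨p, t', hD, w, c1, c2⟩)))
  have h2 : S.cnt (fun t g => A2 t g ∨ A3 t g ∨ A4 t g ∨ A5 t g) ≤ S.cnt A2 +
      S.cnt (fun t g => A3 t g ∨ A4 t g ∨ A5 t g) := Th.cnt_or_le S (fun _ _ h => h)
  have h3 : S.cnt (fun t g => A3 t g ∨ A4 t g ∨ A5 t g) ≤ S.cnt A3 +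
      S.cnt (fun t g => A4 t g ∨ A5 t g) := Th.cnt_or_le S (fun _ _ h => h)
  have h4 : S.cnt (fun t g => A4 t g ∨ A5 t g) ≤ S.cnt A4 + S.cnt A5 :=
    Th.cnt_or_le S (fun _ _ h => h)
  have k1 : S.cnt A1 ≤ S.m := cnt_A S
  have k2 : S.cnt A2 ≤ 2 * S.m + 2 * irr S := cnt_B2 hS hT
  have k3 : S.cnt A3 ≤ S.m := cnt_B3 hS
  have k4 : S.cnt A4 ≤ irr S := cnt_B4 S (fun t w => S.E t w ∧ Seen S t w)
  have k5 : S.cnt A5 ≤ S.cnt (Base S) := cnt_B4 S (Base S)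
  have k6 : S.cnt (fun t g => S.E t g ∧ Seen S t g) = irr S := rfl
  omega

/-- **(1.2) and (1.3)** -/
theorem hot_base (hG : Good S) : S.NR ≤ 3 * S.cnt (Base S) + 4 * (S.top + irr S) := by
  have hm := Th.m_le hG.spl
  have h1 : S.NR ≤ S.cnt (Base S) + S.cnt (fun t g => (∃ p, S.Kl t g p) ∧ Hot S t g) := by
    unfold Sys.NR
    refine Th.cnt_or_le S ?_
    intro t g h
    by_cases hh : Hot S t g
    · exact Or.inr ⟨h, hh⟩
    · exact Or.inl ⟨h, hh⟩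
  have h2 := hot_le S
  have h3 := killer_victim S (fun t v => ¬ Hot S t v)
  have h4 : S.cnt (fun t g => ∃ p, S.Kl t g p ∧ ¬ Hot S t p) ≤ S.cnt (Base S) + S.cnt (Bk S) := by
    refine Th.cnt_or_le S ?_
    rintro t g ⟨p, h5, h6⟩
    by_cases hh : Hot S t g
    · exact Or.inr ⟨p, h5, hh, h6⟩
    · exact Or.inl ⟨⟨p, h5⟩, hh⟩
  have h5 := bk_le hG.spl hG.thr
  omega

/-- **Part 1.** -/
theorem hotLe : HotLe := by
  obtain ⟨C, hC⟩ := hotB
  refine ⟨3 * C + 4, ?_⟩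
  intro S hG
  have h1 := hot_base hG
  have h2 := hC S hG
  have h3 : (3 * C + 4) * (S.top + irr S) = 3 * (C * (S.top + irr S)) + 4 * (S.top + irr S) := by
    ring
  omega

end Pool.Agent.SplTr.Ht
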