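import Pool.Agent.SplTr.MirG

set_option autoImplicit false

/-!
# Uncut intervals of keys

`U = [a, b)` is an interval of keys (`1 ≤ a`, `b ≤ top`), the request `X t` is not in `U`.

* `VU S a b t v`: `v` lies on the left spine of the tree of `U` (`lam t v < a`);
* `WU S a b t v`: `v` lies on the right spine of the tree of `U` (`b ≤ rho t v`);
* `SU`: one of them; `Rt`: both of them (`v` is the root of the tree of `U`);
* `Unc S a b s t`: no request in `[a, b)` in the time interval `[s, t)`.

A left pass (`X t < a`) removes elements of the left spine and never adds one, a right pass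
(`b ≤ X t`) adds at most the new root.  `SU` only shrinks.  The root moves left only by a left pass
and to its killer, it moves right only by a right pass and to its killer.
-/

namespace Pool.Agent.SplTr

open Pool.Agent.SplLog Pool.Agent.SplLs Pool.Agent.SplDq
open scoped Classical

variable {S : Sys} {a b s t u v w x y g p q h : ℕ}

/-- Left spine of `[a, b)`. -/
def VU (S : Sys) (a b t v : ℕ) : Prop := v ∈ S.K ∧ a ≤ v ∧ v < b ∧ S.lam t v < a

/-- Right spine of `[a, b)`. -/
def WU (S : Sys) (a b t v : ℕ) : Prop := v ∈ S.K ∧ a ≤ v ∧ v < b ∧ b ≤ S.rho t v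

/-- Both spines of `[a, b)`. -/
def SU (S : Sys) (a b t v : ℕ) : Prop := VU S a b t v ∨ WU S a b t v

/-- The root of `[a, b)`. -/
def Rt (S : Sys) (a b t v : ℕ) : Prop :=
  v ∈ S.K ∧ a ≤ v ∧ v < b ∧ S.lam t v < a ∧ b ≤ S.rho t v

/-- No request in `[a, b)` at the times of `[s, t)`. -/
def Unc (S : Sys) (a b s t : ℕ) : Prop := ∀ u, s ≤ u → u < t → ¬ (a ≤ S.X u ∧ S.X u < b)

theorem Rt.VU (h : Rt S a b t v) : VU S a b t v := ⟨h.1, h.2.1, h.2.2.1, h.2.2.2.1⟩

theorem Rt.WU (h : Rt S a b t v) : WU S a b t v := ⟨h.1, h.2.1, h.2.2.1, h.2.2.2.2⟩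

theorem Rt.SU (h : Rt S a b t v) : SU S a b t v := Or.inl h.VU

theorem Unc.mono {s' t' : ℕ} (h : Unc S a b s t) (h1 : s ≤ s') (h2 : t' ≤ t) :
    Unc S a b s' t' := fun u hu1 hu2 => h u (by omega) (by omega)

theorem Unc.sub {a' b' : ℕ} (h : Unc S a b s t) (h1 : a ≤ a') (h2 : b' ≤ b) :
    Unc S a' b' s t := fun u hu1 hu2 hX => h u hu1 hu2 (by omega)

/-! ### One step -/

/-- On the right of the request both ends move to the right. -/
theorem step_right (ht : t < S.m) (hv : v ∈ S.K) (hx : S.X t < v) :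
    S.lam t v ≤ S.lam (t + 1) v ∧ S.rho t v ≤ S.rho (t + 1) v := by
  by_cases h : S.R t v
  · have := Sys.R_mono h
    omega
  · have := not_R ht hv hx h
    omega

/-- On the left of the request both ends move to the left. -/
theorem step_left (ht : t < S.m) (hv : v ∈ S.K) (hx : v < S.X t) :
    S.lam (t + 1) v ≤ S.lam t v ∧ S.rho (t + 1) v ≤ S.rho t v := by
  by_cases h : S.L t v
  · have := Sys.L_mono h
    omega
  · have h2 : ¬ S.E t v := by
      rintro (h3 | h3 | h3)
      · have := h3.2.2.1
        omega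
      · exact h h3
      · have := h3.2.2
        omega
    have := Sys.untouched ht hv h2
    omega

/-- The three possibilities for a touched node on the left side: it is kept and no killer, it is a
killer, it is killed. -/
theorem L_cases (h : S.L t v) :
    (S.rho (t + 1) v = S.X t ∧ S.lam (t + 1) v = S.lam t v) ∨
    (S.rho (t + 1) v = S.X t ∧ Kr S t (S.lam t v) v ∧ S.lam (t + 1) v = S.lam t (S.lam t v)) ∨
    (∃ q, Kr S t v q ∧ S.rho (t + 1) v = q ∧ S.lam (t + 1) v = S.lam t v) := by
  obtain ⟨ht, hv, hx, hl⟩ := h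
  rcases S.left t ht v hv hx with h4 | ⟨_, h4, h5⟩ | ⟨_, p, c1, h5, c3, h6, h7, _⟩
  · omega
  · rcases h5 with h5 | ⟨c1, c2, c3, c4, c5⟩
    · exact Or.inl ⟨h4, h5⟩
    · right; left
      have h8 := S.lam_lt t ht.le v hv
      exact ⟨h4, ⟨⟨ht, c1, by omega, by omega⟩, hx, c3⟩, c5⟩
  · right; right
    exact ⟨p, ⟨⟨ht, hv, hx, hl⟩, h5, h6⟩, h6, h7⟩

/-- A left pass adds nothing to the left spine. -/
theorem VU_left (ht : t < S.m) (hX : S.X t < a) (h : VU S a b (t + 1) v) : VU S a b t v := by
  obtain ⟨h1, h2, h3, h4⟩ := h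
  have := step_right ht h1 (by omega)
  exact ⟨h1, h2, h3, by omega⟩

/-- A right pass adds nothing to the right spine. -/
theorem WU_right (ht : t < S.m) (hX : b ≤ S.X t) (h : WU S a b (t + 1) v) : WU S a b t v := by
  obtain ⟨h1, h2, h3, h4⟩ := h
  have := step_left ht h1 (by omega)
  exact ⟨h1, h2, h3, by omega⟩

/-- A left pass keeps the right spine. -/
theorem WU_keep (ht : t < S.m) (hX : S.X t < a) (h : WU S a b t v) : WU S a b (t + 1) v := by
  obtain ⟨h1, h2, h3, h4⟩ := h
  have := step_right ht h1 (by omega)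
  exact ⟨h1, h2, h3, by omega⟩

/-- A right pass keeps the left spine. -/
theorem VU_keep (ht : t < S.m) (hX : b ≤ S.X t) (h : VU S a b t v) : VU S a b (t + 1) v := by
  obtain ⟨h1, h2, h3, h4⟩ := h
  have := step_left ht h1 (by omega)
  exact ⟨h1, h2, h3, by omega⟩

/-- A left pass adds to the right spine at most the new root, killer of the old root. -/
theorem WU_left (ht : t < S.m) (hX : S.X t < a) (h : WU S a b (t + 1) v) :
    WU S a b t v ∨ (Rt S a b (t + 1) v ∧ S.Kl t (S.rho t v) v ∧ Rt S a b t (S.rho t v) ∧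
      v < S.rho t v ∧ S.lam t v < a) := by
  obtain ⟨h1, h2, h3, h4⟩ := h
  by_cases h5 : b ≤ S.rho t v
  · exact Or.inl ⟨h1, h2, h3, h5⟩
  · right
    push Not at h5
    by_cases hR : S.R t v
    · have h9 := R_lam hR
      have h10 := R_rho hR
      rcases R_cases hR with ⟨_, h6⟩ | ⟨h6, h7, h8⟩ | ⟨q, h6, h7, h8⟩
      · omega
      · have h11 := kl_lam h7
        have h12 := kl_R h7
        refine ⟨⟨h1, h2, h3, by omega, h4⟩, h7, ⟨R_mem h12, by omega, h5, by omega, by omega⟩,
          h10, by omega⟩
      · omega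
    · have := not_R ht h1 (by omega) hR
      omega

/-- A right pass adds to the left spine at most the new root, killer of the old root. -/
theorem VU_right (ht : t < S.m) (hX : b ≤ S.X t) (h : VU S a b (t + 1) v) :
    VU S a b t v ∨ (Rt S a b (t + 1) v ∧ Kr S t (S.lam t v) v ∧ Rt S a b t (S.lam t v) ∧
      S.lam t v < v ∧ b ≤ S.rho t v) := by
  obtain ⟨h1, h2, h3, h4⟩ := h
  by_cases h5 : S.lam t v < a
  · exact Or.inl ⟨h1, h2, h3, h5⟩
  · right
    push Not at h5
    have h10 := S.lam_lt t ht.le v h1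
    by_cases hL : S.L t v
    · have h9 := hL.2.2.2
      rcases L_cases hL with ⟨_, h6⟩ | ⟨h6, h7, h8⟩ | ⟨q, h6, h7, h8⟩
      · omega
      · have h11 := (kr_facts h7).2.2.2.1
        refine ⟨⟨h1, h2, h3, h4, by omega⟩, h7, ⟨h7.1.2.1, h5, by omega, by omega, by omega⟩,
          h10, by omega⟩
      · omega
    · have h2' : ¬ S.E t v := by
        rintro (h3' | h3' | h3')
        · have := h3'.2.2.1
          omega
        · exact hL h3'
        · have := h3'.2.2
          omega
      have := Sys.untouched ht h1 h2'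
      omega

/-- The spines only shrink: one step. -/
theorem SU_step (ht : t < S.m) (hX : ¬ (a ≤ S.X t ∧ S.X t < b))
    (h : SU S a b (t + 1) v) : SU S a b t v := by
  rcases Nat.lt_or_ge (S.X t) a with h1 | h1
  · rcases h with h | h
    · exact Or.inl (VU_left ht h1 h)
    · rcases WU_left ht h1 h with h2 | ⟨_, h2, h3, h4, h5⟩
      · exact Or.inr h2
      · exact Or.inl ⟨h.1, h.2.1, h.2.2.1, h5⟩
  · have h1' : b ≤ S.X t := by omega
    rcases h with h | h
    · rcases VU_right ht h1' h with h2 | ⟨_, h2, h3, h4, h5⟩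
      · exact Or.inl h2
      · exact Or.inr ⟨h.1, h.2.1, h.2.2.1, h5⟩
    · exact Or.inr (WU_right ht h1' h)

/-- **The spines of an uncut interval only shrink.** -/
theorem SU_mono (hst : s ≤ t) (ht : t ≤ S.m)
    (hU : Unc S a b s t) (h : SU S a b t v) : SU S a b s v := by
  induction t, hst using Nat.le_induction with
  | base => exact h
  | succ t hst ih =>
    exact ih (by omega) (hU.mono le_rfl (by omega))
      (SU_step (by omega) (hU t hst (by omega)) h)

/-! ### The root -/

theorem Rt_unique (ht : t ≤ S.m) (h : Rt S a b t v) (h' : Rt S a b t w) : v = w := by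
  obtain ⟨h1, h2, h3, h4, h5⟩ := h
  obtain ⟨g1, g2, g3, g4, g5⟩ := h'
  rcases lt_trichotomy v w with h6 | h6 | h6
  · rcases S.lamin t ht v h1 w g1 h6 with h7 | h7 | h7 <;> omega
  · exact h6
  · rcases S.lamin t ht w g1 v h1 h6 with h7 | h7 | h7 <;> omega

/-- The root exists. -/
theorem exists_Rt (ha : 1 ≤ a) (hb : b ≤ S.top) (ht : t ≤ S.m) (hv : v ∈ S.K) (h1 : a ≤ v)
    (h2 : v < b) : ∃ r, Rt S a b t r := by
  -- first a node of the left spine
  set T := S.K.filter (fun w => a ≤ w ∧ w < b) with hT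
  have hne : T.Nonempty := ⟨v, Finset.mem_filter.2 ⟨hv, h1, h2⟩⟩
  obtain ⟨z, hz, hmin⟩ := Finset.exists_min_image T (S.lam t) hne
  obtain ⟨hz1, hz2, hz3⟩ := Finset.mem_filter.1 hz
  have hza : S.lam t z < a := by
    by_contra hc
    push Not at hc
    have h3 := lam_mem_of_le ht hz1 hc ha
    have h4 := S.lam_lt t ht z hz1
    have h5 := S.lam_lt t ht _ h3
    have h6 := hmin (S.lam t z) (Finset.mem_filter.2 ⟨h3, hc, by omega⟩)
    omega
  set T' := T.filter (fun w => S.lam t w < a) with hT'
  have hne' : T'.Nonempty := ⟨z, Finset.mem_filter.2 ⟨hz, hza⟩⟩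
  obtain ⟨r, hr, hmax⟩ := Finset.exists_max_image T' (S.rho t) hne'
  obtain ⟨hr0, hr4⟩ := Finset.mem_filter.1 hr
  obtain ⟨hr1, hr2, hr3⟩ := Finset.mem_filter.1 hr0
  refine ⟨r, hr1, hr2, hr3, hr4, ?_⟩
  by_contra hc
  push Not at hc
  have h3 := rho_mem_of_lt ht hr1 hc hb
  have h4 := S.lt_rho t ht r hr1
  have h5 := S.rho_anc t ht r hr1 h3
  have h6 := S.lt_rho t ht _ h3
  have h7 := Sys.sub ht hr1 h3 h5 (by omega)
  have h8 := hmax (S.rho t r) (Finset.mem_filter.2 ⟨Finset.mem_filter.2 ⟨h3, by omega, hc⟩,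
    by omega⟩)
  omega

/-- The root in a left pass: it stays or moves to its killer. -/
theorem Rt_left (ht : t < S.m) (hX : S.X t < a) (h : Rt S a b t v) :
    Rt S a b (t + 1) v ∨ ∃ p, a ≤ p ∧ p < v ∧ S.Kl t v p ∧ Rt S a b (t + 1) p := by
  obtain ⟨h1, h2, h3, h4, h5⟩ := h
  have h6 := step_right ht h1 (by omega)
  by_cases hR : S.R t v
  · rcases R_cases hR with ⟨h7, h8⟩ | ⟨h7, h8, h9⟩ | ⟨q, h7, h8, h9⟩
    · exact Or.inl ⟨h1, h2, h3, by omega, by omega⟩
    · exact Or.inl ⟨h1, h2, h3, by omega, by omega⟩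
    · rcases Nat.lt_or_ge q a with h10 | h10
      · exact Or.inl ⟨h1, h2, h3, by omega, by omega⟩
      · right
        have h11 := Sys.kl_facts h7
        refine ⟨q, h10, h11.2.1, h7, R_mem (kl_R' h7), h10, by omega, ?_, ?_⟩
        · have := h11.1.2
          omega
        · omega
  · have := not_R ht h1 (by omega) hR
    exact Or.inl ⟨h1, h2, h3, by omega, by omega⟩

/-- The root in a right pass: it stays or moves to its killer. -/
theorem Rt_right (ht : t < S.m) (hX : b ≤ S.X t) (h : Rt S a b t v) :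
    Rt S a b (t + 1) v ∨ ∃ w, w < b ∧ v < w ∧ Kr S t v w ∧ Rt S a b (t + 1) w := by
  obtain ⟨h1, h2, h3, h4, h5⟩ := h
  have h6 := step_left ht h1 (by omega)
  by_cases hL : S.L t v
  · rcases L_cases hL with ⟨h7, h8⟩ | ⟨h7, h8, h9⟩ | ⟨q, h7, h8, h9⟩
    · exact Or.inl ⟨h1, h2, h3, by omega, by omega⟩
    · exact Or.inl ⟨h1, h2, h3, by omega, by omega⟩
    · rcases Nat.lt_or_ge q b with h10 | h10
      · right
        have h11 := kr_facts h7
        refine ⟨q, h10, h11.2.2.1, h7, h11.1.2.1, by omega, h10, ?_, ?_⟩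
        · omega
        · have := h11.2.1
          omega
      · exact Or.inl ⟨h1, h2, h3, by omega, by omega⟩
  · have h2' : ¬ S.E t v := by
      rintro (h3' | h3' | h3')
      · have := h3'.2.2.1
        omega
      · exact hL h3'
      · have := h3'.2.2
        omega
    have := Sys.untouched ht h1 h2'
    exact Or.inl ⟨h1, h2, h3, by omega, by omega⟩

/-- In a left pass the elements of the left spine above a touched one are touched. -/
theorem VU_touch (hR : S.R t v) (h : VU S a b t w) (hX : S.X t < a)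
    (hs : S.lam t w ≤ S.lam t v) : S.R t w :=
  ⟨hR.1, h.1, by have := h.2.1; omega, by have := R_lam hR; omega⟩

/-- The left spine: the larger element is the ancestor. -/
theorem VU_anc (ht : t ≤ S.m) (h : VU S a b t v) (h' : VU S a b t w) (hvw : v < w) :
    S.rho t v ≤ w ∧ S.lam t w ≤ S.lam t v := by
  obtain ⟨h1, h2, h3, h4⟩ := h
  obtain ⟨g1, g2, g3, g4⟩ := h'
  have e1 := S.lt_rho t ht v h1
  have e2 := S.lam_lt t ht w g1
  rcases S.lamin t ht v h1 w g1 hvw with h7 | h7 | h7 <;> omega

/-- The right spine: the smaller element is the ancestor. -/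
theorem WU_anc (ht : t ≤ S.m) (h : WU S a b t v) (h' : WU S a b t w) (hvw : v < w) :
    v ≤ S.lam t w ∧ S.rho t w ≤ S.rho t v := by
  obtain ⟨h1, h2, h3, h4⟩ := h
  obtain ⟨g1, g2, g3, g4⟩ := h'
  have e1 := S.lt_rho t ht v h1
  have e2 := S.lam_lt t ht w g1
  rcases S.lamin t ht v h1 w g1 hvw with h7 | h7 | h7 <;> omega

/-- The elements of the left spine are at most the root, those of the right spine at least. -/
theorem VU_le_Rt (ht : t ≤ S.m) (h : VU S a b t v) (h' : Rt S a b t w) : v ≤ w := by
  by_contra hc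
  push Not at hc
  have := VU_anc ht h'.VU h hc
  have := h'.2.2.2.2
  have := h.2.2.1
  omega

theorem Rt_le_WU (ht : t ≤ S.m) (h : WU S a b t v) (h' : Rt S a b t w) : w ≤ v := by
  by_contra hc
  push Not at hc
  have := WU_anc ht h h'.WU hc
  have := h'.2.2.2.1
  have := h.2.1
  omega

/-- **The passing lemma.**  The root moves from `x` at time `s` to `y > x` at time `t`.  Every
`h ∈ (x, y)` in the spines at time `t` (or killed before) which is in the spines at time `t` is
touched on the left side (by a right pass) in between. -/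
theorem passing (ha : 1 ≤ a) (hb : b ≤ S.top) (hst : s ≤ t) (ht : t ≤ S.m)
    (hU : Unc S a b s t) (hx : Rt S a b s x) (hy : Rt S a b t y) (h1 : x < h) (h2 : h < y)
    (hh : SU S a b t h) : ∃ u, s ≤ u ∧ u < t ∧ S.L u h := by
  -- the last time at which the root is at most `h`
  induction t, hst using Nat.le_induction generalizing y with
  | base =>
    have := Rt_unique ht hx hy
    omega
  | succ t hst ih =>
    have hXt := hU t hst (by omega)
    obtain ⟨r, hr⟩ := exists_Rt (S := S) ha hb (show t ≤ S.m by omega) hx.1 hx.2.1 hx.2.2.1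
    have hht := SU_step (by omega) hXt hh
    rcases lt_trichotomy r h with h3 | h3 | h3
    · -- the root jumps over `h`: impossible
      exfalso
      rcases Nat.lt_or_ge (S.X t) a with h4 | h4
      · rcases Rt_left (by omega) h4 hr with h5 | ⟨p, h5, h6, h7, h8⟩
        · have := Rt_unique ht h5 hy
          omega
        · have := Rt_unique ht h8 hy
          omega
      · rcases Rt_right (by omega) (by omega) hr with h5 | ⟨w, h5, h6, h7, h8⟩
        · have := Rt_unique ht h5 hy
          omega
        · have h9 := Rt_unique ht h8 hy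
          subst h9
          -- `h` lies between `r = lam t w` and `w`
          have h10 := kr_facts h7
          rcases hht with h11 | h11
          · have := VU_le_Rt (by omega) h11 hr
            omega
          · have h12 : WU S a b t w := ⟨h10.1.2.1, by have := hr.2.1; omega, h5, by
              have := hr.2.2.2.2
              omega⟩
            have := WU_anc (by omega) h11 h12 h2
            omega
    · -- the root is `h`
      subst h3
      rcases Nat.lt_or_ge (S.X t) a with h4 | h4
      · exfalso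
        rcases Rt_left (by omega) h4 hr with h5 | ⟨p, h5, h6, h7, h8⟩
        · have := Rt_unique ht h5 hy
          omega
        · have := Rt_unique ht h8 hy
          omega
      · rcases Rt_right (by omega) (by omega) hr with h5 | ⟨w, h5, h6, h7, h8⟩
        · exfalso
          have := Rt_unique ht h5 hy
          omega
        · exact ⟨t, hst, by omega, h7.1⟩
    · obtain ⟨u, hu1, hu2, hu3⟩ := ih (by omega) (hU.mono le_rfl (by omega)) hr h3 hht
      exact ⟨u, hu1, by omega, hu3⟩

end Pool.Agent.SplTr
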