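import Pool.Agent.SplTr.Rap
import Pool.Agent.SplTr.Unc

set_option autoImplicit false

/-!
# Two rounds which are alive at a common time: the linked case

`r.g < r'.g` and `r'.q < r.g`.
-/

namespace Pool.Agent.SplTr

open Pool.Agent.SplLog Pool.Agent.SplLs Pool.Agent.SplDq
open scoped Classical

variable {S : Sys} {s t u v w g h p q a b τ : ℕ} {r r' : Rnd}

/-- The subtree of `g` lies in the subtree of `g'`. -/
theorem lk_sub (hr : Rd S r) (hr' : Rd S r') (h1 : Alv r τ) (h2 : Alv r' τ) (hlt : r.g < r'.g)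
    (hq : r'.q < r.g) : r'.q ≤ r.q ∧ r.h ≤ r'.g := by
  have a1 := hr.lam_alv h1
  have a2 := hr'.lam_alv h2
  have hm := hr.alv_m h1
  have h3 := hr.gh
  rcases S.lamin τ hm.le r.g hr.gK r'.g hr'.gK hlt with h4 | h4 | h4 <;> omega

/-- **(L1)** -/
theorem lk_rel (hr : Rd S r) (hr' : Rd S r') (h1 : Alv r τ) (h2 : Alv r' τ) (hlt : r.g < r'.g)
    (hq : r'.q < r.g) : r'.rel ≤ r.rel := by
  by_contra hc
  push Not at hc
  have h3 := lk_sub hr hr' h1 h2 hlt hq
  have h4 := hr.rq
  have h5 := hr.rg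
  exact hr'.nr r.rel (by have := h1.2; have := h2.1; omega) hc (by omega)

/-- At the request `s'` the root of `[g, g']` is `g'`. -/
theorem lk_root (hr' : Rd S r') (hlt : r.g < r'.g) (hq : r'.q < r.g) :
    S.lam r'.s r'.g < r.g := by
  rcases hr'.sk with h1 | h1
  · have h2 := Sys.kl_facts h1.1
    have h3 := R_lam h1.1.1
    have h4 := h1.1.2.1
    omega
  · have h2 := (kr_facts h1.1).2.2.2.2.2.2
    have h3 := h1.2
    omega

/-- **(L2)** -/
theorem lk_bs (hr : Rd S r) (hr' : Rd S r') (h1 : Alv r τ) (h2 : Alv r' τ) (hlt : r.g < r'.g)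
    (hq : r'.q < r.g) : bt S r ≤ r'.s := by
  rcases bt_spec S r with h3 | ⟨u, h3, h4, h5⟩
  · omega
  · by_contra hc
    have h6 : r'.s ≤ u := by omega
    have h7 := h4.2.2.1
    have h8 := h4.2.2.2
    rcases Nat.eq_or_lt_of_le h6 with h9 | h9
    · -- the same request
      subst h9
      have h10 := lk_root hr' hlt hq
      rcases hr'.sk with h11 | h11
      · have := h11.1.2.1
        omega
      · have := Sys.L_above h4 h11.1.1 hlt
        omega
    · have h10 : Alv r' u := ⟨h9, by have := h1.1; have := h2.2; omega⟩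
      have h11 := hr'.lam_alv h10
      have h12 := hr'.alv_m h10
      have h13 := Sys.sub (S := S) h12.le hr.gK hr'.gK (by omega) (by have := hr'.gh; omega)
      rcases S.lamin u h12.le r.g hr.gK r'.g hr'.gK hlt with h4' | h4' | h4'
      · omega
      · exact hr'.nr u h9 (by have := h1.1; have := h2.2; omega) (by omega)
      · omega

/-- `[g, g']` is uncut before the common time. -/
theorem lk_unc (hS : Spl S) (hr : Rd S r) (hr' : Rd S r') (h2 : Alv r' τ)
    (hlt : r.g < r'.g) (hq : r'.q < r.g) : Unc S r.g (r'.g + 1) 0 τ := by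
  intro u _ hu hX
  exact hr'.uns hS h2 (w := S.X u) (by omega) (by omega) ⟨u, hu, by have := hr'.alv_m h2; omega, rfl⟩

/-- the root just before `s'` -/
theorem lk_root' (hr : Rd S r) (hr' : Rd S r') (hlt : r.g < r'.g) (hq : r'.q < r.g) :
    Rt S r.g (r'.g + 1) r'.s r'.g :=
  ⟨hr'.gK, by omega, by omega, lk_root hr' hlt hq, S.lt_rho _ hr'.sm.le _ hr'.gK⟩

/-- the root just before the last right touch of `g` -/
theorem lk_rootb (hS : Spl S) (hr : Rd S r) (hr' : Rd S r') (h1 : Alv r τ) (h2 : Alv r' τ)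
    (hlt : r.g < r'.g) (hq : r'.q < r.g) (hu : u ≤ r.s) (hL : S.L u r.g) :
    Rt S r.g (r'.g + 1) u r.g := by
  have h3 := lk_unc hS hr hr' h2 hlt hq u (by omega) (by have := h1.1; omega)
  have h4 := hL.2.2.1
  have h5 := hL.2.2.2
  exact ⟨hr.gK, le_rfl, by omega, S.lam_lt _ hL.1.le _ hr.gK, by omega⟩

/-- When the root of an uncut interval moves to its largest key `y` then `y` is right-touched. -/
theorem root_touch (ha : 1 ≤ a) (hb : b ≤ S.top) (hst : s ≤ t) (ht : t ≤ S.m)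
    (hU : Unc S a b s t) {x y : ℕ} (hyb : y + 1 = b) (hx : Rt S a b s x) (hy : Rt S a b t y)
    (h1 : x < y) : ∃ u, s ≤ u ∧ u < t ∧ S.L u y := by
  induction t, hst using Nat.le_induction with
  | base =>
    have := Rt_unique ht hx hy
    omega
  | succ t hst ih =>
    have hXt := hU t hst (by omega)
    obtain ⟨z, hz⟩ := exists_Rt (S := S) ha hb (show t ≤ S.m by omega) hx.1 hx.2.1 hx.2.2.1
    by_cases h3 : z = y
    · subst h3
      obtain ⟨u, hu1, hu2, hu3⟩ := ih (by omega) (hU.mono le_rfl (by omega)) hz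
      exact ⟨u, hu1, by omega, hu3⟩
    · rcases Nat.lt_or_ge (S.X t) a with h4 | h4
      · rcases Rt_left (by omega) h4 hz with h5 | ⟨p, h5, h6, h7, h8⟩
        · exact absurd (Rt_unique ht h5 hy) h3
        · have h9 := Rt_unique ht h8 hy
          have h10 := hz.2.2.1
          omega
      · rcases Rt_right (by omega) (by omega) hz with h5 | ⟨w, h5, h6, h7, h8⟩
        · exact absurd (Rt_unique ht h5 hy) h3
        · have h9 := Rt_unique ht h8 hy
          subst h9
          exact ⟨t, hst, by omega, (kr_facts h7).1⟩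

/-- **(L3)** -/
theorem lk_bb (hS : Spl S) (hr : Rd S r) (hr' : Rd S r') (h1 : Alv r τ) (h2 : Alv r' τ)
    (hlt : r.g < r'.g) (hq : r'.q < r.g) : bt S r ≤ bt S r' := by
  have h3 := lk_bs hr hr' h1 h2 hlt hq
  rcases bt_spec S r with h4 | ⟨u, h4, h5, h6⟩
  · omega
  · have h7 := S.key _ hr.gK
    have h8 := S.key _ hr'.gK
    have h9 := hr'.sm
    have h10 : Unc S r.g (r'.g + 1) u r'.s :=
      (lk_unc hS hr hr' h2 hlt hq).mono (Nat.zero_le _) (by have := h2.1; omega)
    obtain ⟨x, hx1, hx2, hx3⟩ := root_touch (S := S) (by omega) (by omega)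
      (show u ≤ r'.s by omega) (by omega) h10 rfl (lk_rootb hS hr hr' h1 h2 hlt hq h4 h5)
      (lk_root' hr hr' hlt hq) hlt
    have := le_bt (r := r') (S := S) hx2.le hx3
    omega

/-- **(L6)** the sweep. -/
theorem lk_sweep (hS : Spl S) (hr : Rd S r) (hr' : Rd S r') (h1 : Alv r τ) (h2 : Alv r' τ)
    (hlt : r.g < r'.g) (hq : r'.q < r.g) (hb : 0 < bt S r) (hh1 : r.g < h) (hh2 : h < r'.g)
    (hh : SU S r.g (r'.g + 1) r'.s h) : ∃ u, bt S r ≤ u + 1 ∧ u < r'.s ∧ S.L u h := by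
  have h3 := lk_bs hr hr' h1 h2 hlt hq
  rcases bt_spec S r with h4 | ⟨u, h4, h5, h6⟩
  · omega
  · have h7 := S.key _ hr.gK
    have h8 := S.key _ hr'.gK
    have h9 := hr'.sm
    have h10 : Unc S r.g (r'.g + 1) u r'.s :=
      (lk_unc hS hr hr' h2 hlt hq).mono (Nat.zero_le _) (by have := h2.1; omega)
    obtain ⟨x, hx1, hx2, hx3⟩ := passing (S := S) (by omega) (by omega)
      (show u ≤ r'.s by omega) (by omega) h10 (lk_rootb hS hr hr' h1 h2 hlt hq h4 h5)
      (lk_root' hr hr' hlt hq) hh1 hh2 hh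
    exact ⟨x, by omega, hx2, hx3⟩

/-- **(L6)**, form for the instance: `h` is right-touched at a later time `v` at which `[g, g']`
is uncut. -/
theorem lk_sweep' (hS : Spl S) (hr : Rd S r) (hr' : Rd S r') (h1 : Alv r τ) (h2 : Alv r' τ)
    (hlt : r.g < r'.g) (hq : r'.q < r.g) (hb : 0 < bt S r) (hh1 : r.g < h) (hh2 : h < r'.g)
    (hv : r'.s ≤ v) (hU : Unc S r.g (r'.g + 1) r'.s (v + 1)) (hL : S.L v h) :
    ∃ u, bt S r ≤ u + 1 ∧ u < r'.s ∧ S.L u h := by
  have h3 := hU v hv (by omega)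
  have h4 := hL.2.2.1
  have h5 := hL.2.2.2
  have h6 : SU S r.g (r'.g + 1) v h := Or.inr ⟨hL.2.1, by omega, by omega, by omega⟩
  exact lk_sweep hS hr hr' h1 h2 hlt hq hb hh1 hh2
    (SU_mono hv hL.1.le (hU.mono le_rfl (by omega)) h6)

end Pool.Agent.SplTr
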