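import Pool.Agent.SplTr.Wall

set_option autoImplicit false

/-!
# Basic facts on one round
-/

namespace Pool.Agent.SplTr

open Pool.Agent.SplLog Pool.Agent.SplLs Pool.Agent.SplDq
open scoped Classical

variable {S : Sys} {s t u v w g p q a b τ : ℕ} {r r' : Rnd}

namespace Rd

theorem tm (h : Rd S r) : r.t < S.m := kl_R h.kl |>.1

theorem gK (h : Rd S r) : r.g ∈ S.K := kl_R h.kl |>.2.1

theorem pK (h : Rd S r) : r.p ∈ S.K := kl_R' h.kl |>.2.1

theorem pg (h : Rd S r) : r.p < r.g := kl_lt h.kl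

theorem Xp (h : Rd S r) : S.X r.t < r.p := h.kl.2.1

theorem gh (h : Rd S r) : r.g < r.h := by
  rw [← h.hh]
  exact S.lt_rho r.t h.tm.le r.g h.gK

theorem hK (h : Rd S r) : r.h ∈ S.K := by
  have h1 := h.hh
  have h2 := h.ht
  rcases S.rho_mem r.t h.tm.le r.g h.gK with h3 | h3
  · omega
  · rwa [h1] at h3

theorem relm (h : Rd S r) : r.rel < S.m := by
  have := h.rt
  have := h.tm
  omega

theorem sm (h : Rd S r) : r.s < S.m := by
  have := h.st
  have := h.tm
  omega

/-- just after `s` -/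
theorem lam_s (h : Rd S r) : S.lam (r.s + 1) r.g = r.q := by
  rcases h.sk with h1 | h1
  · exact h1.1.2.2
  · exact h1.2

theorem rho_s (h : Rd S r) : S.rho (r.s + 1) r.g = r.h := by
  rcases h.sk with h1 | h1
  · exact h1.2
  · exact h1.1.2.2

theorem qg (h : Rd S r) : r.q < r.g := by
  rw [← h.lam_s]
  exact S.lam_lt _ (by have := h.sm; omega) _ h.gK

theorem qK (h : Rd S r) : r.q ∈ S.K := by
  have h1 := h.q0
  rcases S.lam_mem (r.s + 1) (by have := h.sm; omega) r.g h.gK with h2 | h2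
  · rw [h.lam_s] at h2
    omega
  · rwa [h.lam_s] at h2

/-- no event of `g` after `s` and before `rel` -/
theorem ne_rel (h : Rd S r) : S.NE r.g (r.s + 1) r.rel := by
  intro u h1 h2 h3
  have h4 := h.rt
  have := (h.ne u (by omega) (by omega) h3).1
  omega

theorem lam_alv (h : Rd S r) (hτ : Alv r τ) : S.lam τ r.g = r.q ∧ S.rho τ r.g = r.h := by
  obtain ⟨h1, h2⟩ := hτ
  have h3 := h.relm
  have h4 := Sys.NE_const (S := S) h.gK (show r.s + 1 ≤ τ by omega) (by omega)
    (h.ne_rel.mono le_rfl h2)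
  rw [h4.1, h4.2, h.lam_s, h.rho_s]
  exact ⟨rfl, rfl⟩

theorem alv_m (h : Rd S r) (hτ : Alv r τ) : τ < S.m := by
  have := hτ.2
  have := h.relm
  omega

/-- the upper end after `s` is `h` -/
theorem rho_aft (h : Rd S r) (h1 : r.s < u) (h2 : u ≤ r.t) : S.rho u r.g = r.h := by
  have h3 := h.tm
  rcases Nat.lt_or_ge r.rel u with h4 | h4
  · by_cases hE : S.E r.rel r.g
    · have h5 := h.ne r.rel h.rs (by omega) hE
      have h6 : S.NE r.g (r.rel + 1) u := by
        intro x hx1 hx2 hx3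
        have := (h.ne x (by have := h.rs; omega) (by omega) hx3).1
        omega
      rw [(Sys.NE_const (S := S) h.gK (show r.rel + 1 ≤ u by omega) (by omega) h6).2]
      exact h5.2.2
    · have h6 : S.NE r.g (r.s + 1) u := by
        intro x hx1 hx2 hx3
        have := (h.ne x (by omega) (by omega) hx3).1
        subst this
        exact hE hx3
      rw [(Sys.NE_const (S := S) h.gK (show r.s + 1 ≤ u by omega) (by omega) h6).2]
      exact h.rho_s
  · exact (h.lam_alv ⟨h1, h4⟩).2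

/-- no seen key in `[q, g]` while the round is alive -/
theorem uns (h : Rd S r) (hS : Spl S) (hτ : Alv r τ) (h1 : r.q ≤ w) (h2 : w ≤ r.g) :
    ¬ Seen S τ w := by
  obtain ⟨hs, hr⟩ := hτ
  intro hw
  have hgs : ¬ Seen S τ r.g := fun hx => h.gU (seen_mono hx (by have := h.rt; omega))
  rcases Nat.eq_or_lt_of_le h2 with h3 | h3
  · subst h3
    exact hgs hw
  · obtain ⟨x, hx1, hx2, hx3⟩ := hw
    rcases Nat.lt_or_ge r.s x with h4 | h4
    · exact h.nr x h4 (by omega) (by rw [hx3]; exact ⟨h1, h3⟩)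
    · have h5 : Seen S (r.s + 1) w := ⟨x, by omega, hx2, hx3⟩
      rcases Nat.eq_or_lt_of_le h1 with h6 | h6
      · subst h6
        exact h.qU h5
      · have hg1 : ¬ Seen S (r.s + 1) r.g := fun hx => h.gU (seen_mono hx (by have := h.st; omega))
        have hsm := h.sm
        have hl := h.lam_s
        refine zone_lam hS (r.s + 1) (by omega) r.g h.gK hg1 ?_ ?_ w ?_ h3.le h5
        · rw [hl]
          exact h.qK
        · rw [hl]
          exact h.qU
        · rw [hl]
          exact h6.le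

/-- no request in `[q, g]` before `rel`, after the zone came to be: no request at all -/
theorem req_ne (h : Rd S r) (hS : Spl S) (hu : u < r.rel) (h1 : r.q ≤ S.X u) (h2 : S.X u ≤ r.g) :
    False := by
  have h3 := h.rs
  exact h.uns hS (τ := r.rel) ⟨h3, le_rfl⟩ h1 h2 ⟨u, hu, by have := h.relm; omega, rfl⟩

/-- the request `s` is not in `[q, h]` -/
theorem Xs (h : Rd S r) : S.X r.s < r.q ∨ r.h < S.X r.s := by
  rcases h.sk with h1 | h1
  · exact Or.inl h1.1.2.1
  · exact Or.inr h1.1.2.1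

end Rd

theorem bt_spec (S : Sys) (r : Rnd) :
    bt S r = 0 ∨ ∃ u, u ≤ r.s ∧ S.L u r.g ∧ bt S r = u + 1 := by
  have h : bt S r ∈ {b | b = 0 ∨ ∃ u, u ≤ r.s ∧ S.L u r.g ∧ b = u + 1} := by
    apply Nat.sSup_mem ⟨0, Or.inl rfl⟩
    refine ⟨r.s + 1, ?_⟩
    rintro w (h | ⟨u, h1, h2, h3⟩)
    · omega
    · omega
  exact h

theorem le_bt (h1 : u ≤ r.s) (h2 : S.L u r.g) : u + 1 ≤ bt S r := by
  apply le_csSup
  · refine ⟨r.s + 1, ?_⟩
    rintro w (h | ⟨u, h1, h2, h3⟩)
    · omega
    · omega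
  · exact Or.inr ⟨u, h1, h2, rfl⟩

theorem bt_le (S : Sys) (r : Rnd) : bt S r ≤ r.s + 1 := by
  rcases bt_spec S r with h | ⟨u, h1, h2, h3⟩
  · omega
  · omega

end Pool.Agent.SplTr
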