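import Pool.Agent.SplTr.Defs

set_option autoImplicit false

/-!
# Frozen keys and the alternation lemma

After a kill `(p, g; h)` on the right side every key of `(p, h)` is frozen until the next request
in the open interval `(p, h)`.  Alternating kills over two places `mu < mu'` cost one touch for
every pair.
-/

namespace Pool.Agent.SplTr

open Pool.Agent.SplLog Pool.Agent.SplLs Pool.Agent.SplDq
open scoped Classical

variable {S : Sys}

/-- **FROZEN.** After the kill `(p, g; h)` at `t` the keys of `(p, h)` are untouched until there is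
a request in `(p, h)`. -/
theorem frozen {t t' g p v : ℕ} (h : S.Kl t g p) (hv : v ∈ S.K) (h1 : p < v)
    (h2 : v < S.rho t g) (ht : t < t') (ht' : t' ≤ S.m)
    (hq : ∀ s, t < s → s < t' → ¬ (p < S.X s ∧ S.X s < S.rho t g)) :
    S.NE v (t + 1) t' ∧ p ≤ S.lam t' v ∧ S.rho t' v ≤ S.rho t g := by
  induction t' with
  | zero => omega
  | succ n ih =>
    rcases Nat.lt_or_ge t n with h3 | h3
    · obtain ⟨i1, i2, i3⟩ := ih h3 (by omega) (fun s a b => hq s a (by omega))
      have hn : ¬ S.E n v := by
        intro hE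
        have := Sys.E_int hE
        exact hq n h3 (by omega) ⟨by omega, by omega⟩
      obtain ⟨e1, e2⟩ := Sys.untouched (S := S) (by omega) hv hn
      refine ⟨?_, by omega, by omega⟩
      intro u hu1 hu2
      rcases Nat.lt_or_ge u n with h4 | h4
      · exact i1 u hu1 h4
      · have : u = n := by omega
        rw [this]
        exact hn
    · have hn : n = t := by omega
      subst hn
      obtain ⟨k1, k2, k3, k4, k5, k6⟩ := Sys.kl_facts h
      have hp : p ∈ S.K := k1.1.2.1
      refine ⟨fun u hu1 hu2 => by omega, ?_⟩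
      rcases S.lamin (n + 1) ht' p hp v hv h1 with ⟨c1, c2, c3⟩ | ⟨c1, c2, c3⟩ | c1
      · exact ⟨c2, by omega⟩
      · omega
      · have := S.lam_lt (n + 1) ht' v hv
        omega

/-- The node above a touched node is touched. -/
theorem E_rho {t g : ℕ} (h : S.E t g) (hK : S.rho t g ∈ S.K) : S.E t (S.rho t g) := by
  have hg := Sys.E_mem h
  have ht := Sys.E_lt h
  have h1 := S.rho_anc t ht.le g hg hK
  have h2 := S.lt_rho t ht.le g hg
  have h3 := S.lt_rho t ht.le _ hK
  exact Sys.E_up h hK h1 (by omega)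

/-- An untouched key above a touched key. -/
theorem lam_ge_of_touched {t u w : ℕ} (hu : S.E t u) (hw : w ∈ S.K) (huw : u < w)
    (hn : ¬ S.E t w) : u ≤ S.lam t w := by
  have ht := Sys.E_lt hu
  rcases S.lamin t ht.le u (Sys.E_mem hu) w hw huw with ⟨c1, c2, c3⟩ | ⟨c1, c2, c3⟩ | c1
  · exact c2
  · have h2 := S.lt_rho t ht.le w hw
    exact absurd (Sys.E_up hu hw c1 (by omega)) hn
  · have h2 := S.lt_rho t ht.le u (Sys.E_mem hu)
    omega

/-- An untouched key below a touched key. -/
theorem rho_le_of_touched {t u w : ℕ} (hu : S.E t u) (hw : w ∈ S.K) (huw : w < u)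
    (hn : ¬ S.E t w) : S.rho t w ≤ u := by
  have ht := Sys.E_lt hu
  rcases S.lamin t ht.le w hw u (Sys.E_mem hu) huw with ⟨c1, c2, c3⟩ | ⟨c1, c2, c3⟩ | c1
  · have h2 := S.lam_lt t ht.le w hw
    exact absurd (Sys.E_up hu hw (by omega) c1) hn
  · exact c2
  · have h2 := S.lam_lt t ht.le u (Sys.E_mem hu)
    omega

/-- Two kills over the same place with a small left wall: the keys killed first lie below. -/
theorem alt_rho_le {al aj pl gl pj gj c mu H : ℕ} (hal : S.Kl al gl pl) (haj : S.Kl aj gj pj)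
    (o1 : al < aj) (a1 : c ≤ pl) (a2 : pl < mu) (a4 : mu ≤ gj) (x2 : S.X aj < c)
    (hH : S.rho al gl ≤ H)
    (w1 : ∀ s, al < s → s < aj → S.X s < c ∨ H ≤ S.X s) : S.rho al gl ≤ gj := by
  by_contra h
  push Not at h
  have hE : S.E aj gj := Sys.R_E haj.1
  have := (frozen hal (Sys.E_mem hE) (by omega) h (t' := aj + 1) (by omega)
    (by have := Sys.E_lt hE; omega) (by
      intro s s1 s2 s3
      rcases Nat.lt_or_ge s aj with s4 | s4
      · rcases w1 s s1 s4 with s5 | s5 <;> omega
      · have : s = aj := by omega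
        subst this
        omega)).1
  exact this aj (by omega) (by omega) hE

/-- **ALTERNATION LEMMA**, for one pair: kills over `mu` at `al < aj`, kills over `mu'` at
`bl < bK`, `al < bl ≤ aj < bK`.  Then `gj` is touched in `[al, bl]`. -/
theorem alt_pair {al bl aj bK pl gl pj gj pl' gl' pK gK c mu c' mu' : ℕ}
    (hal : S.Kl al gl pl) (haj : S.Kl aj gj pj) (hbl : S.Kl bl gl' pl') (hbK : S.Kl bK gK pK)
    (o1 : al < bl) (o2 : bl ≤ aj) (o3 : aj < bK)
    (a1 : c ≤ pl) (a2 : pl < mu) (a3 : mu ≤ gl) (a5 : c ≤ pj) (a6 : pj < mu) (a7 : mu ≤ gj)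
    (b0 : mu ≤ c') (b1 : c' ≤ pl') (b2 : pl' < mu') (b3 : mu' ≤ gl') (b4 : c' ≤ pK)
    (b5 : pK < mu') (b6 : mu' ≤ gK)
    (x2 : S.X aj < c) (x4 : S.X bK < c)
    (w1 : ∀ s, s < bK → S.X bK < S.X s → S.rho al gl ≤ S.X s)
    (w2 : ∀ s, s < bK → S.X bK < S.X s → S.rho aj gj ≤ S.X s)
    (w3 : ∀ s, s < bK → S.X bK < S.X s → S.rho bl gl' ≤ S.X s)
    (w4 : ∀ s, s < bK → S.X bK < S.X s → S.rho bK gK ≤ S.X s) :
    ∃ u, al ≤ u ∧ u ≤ bl ∧ S.E u gj := by
  by_contra hcon
  push Not at hcon
  have hEaj : S.E aj gj := Sys.R_E haj.1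
  have hw : gj ∈ S.K := Sys.E_mem hEaj
  have hbKm : bK < S.m := hbK.1.1
  have hq1 : S.rho al gl ≤ gj := by
    refine alt_rho_le hal haj (by omega) a1 a2 a7 x2 (le_refl _) ?_
    intro s s1 s2
    rcases Nat.lt_or_ge (S.X s) c with s3 | s3
    · exact Or.inl s3
    · exact Or.inr (w1 s (by omega) (by omega))
  have halE : S.E al gl := Sys.R_E hal.1
  have hlt : gl < S.rho al gl := S.lt_rho al hal.1.1.le gl hal.1.2.1
  have hne : gj ≠ S.rho al gl := by
    intro he
    exact hcon al (le_refl _) (by omega) (by rw [he]; exact E_rho halE (by rw [← he]; exact hw))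
  have hhK : S.rho al gl ∈ S.K := by
    rcases S.rho_mem al hal.1.1.le gl hal.1.2.1 with h | h
    · have := (S.key gj hw).2
      omega
    · exact h
  have hlam : S.rho al gl ≤ S.lam al gj :=
    lam_ge_of_touched (E_rho halE hhK) hw (by omega) (hcon al (le_refl _) (by omega))
  have hNE : S.NE gj al (bl + 1) := fun u h1 h2 => hcon u h1 (by omega)
  have hc := Sys.NE_const hw (by omega) (by omega) hNE
  have hEbK : S.E bK pK := Sys.R_E (kl_R' hbK)
  have hpK : pK ∈ S.K := Sys.E_mem hEbK
  have hq2 : S.rho aj gj ≤ pK := by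
    by_contra h
    push Not at h
    have := (frozen haj hpK (by omega) h (t' := bK + 1) (by omega) (by omega) (by
      intro s s1 s2 s3
      rcases Nat.lt_or_ge s bK with s4 | s4
      · have := w2 s s4 (by omega)
        omega
      · have : s = bK := by omega
        subst this
        omega)).1
    exact this bK (by omega) (by omega) hEbK
  have hgl' : gl' < S.rho bl gl' := S.lt_rho bl hbl.1.1.le gl' hbl.1.2.1
  have hq3 : pK ≤ pl' := by
    by_contra h
    push Not at h
    have := (frozen hbl hpK h (by omega) (t' := bK + 1) (by omega) (by omega) (by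
      intro s s1 s2 s3
      rcases Nat.lt_or_ge s bK with s4 | s4
      · have := w3 s s4 (by omega)
        omega
      · have : s = bK := by omega
        subst this
        omega)).1
    exact this bK (by omega) (by omega) hEbK
  have hgj : gj < S.rho aj gj := S.lt_rho aj haj.1.1.le gj haj.1.2.1
  have hrho : S.rho bl gj ≤ pl' :=
    rho_le_of_touched (Sys.R_E (kl_R' hbl)) hw (by omega) (hcon bl (by omega) (le_refl _))
  have hab : bl < aj := by
    rcases Nat.lt_or_ge bl aj with h | h
    · exact h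
    · have : bl = aj := by omega
      exact absurd hEaj (hcon aj (by omega) (by omega))
  obtain ⟨e1, e2⟩ := Sys.untouched (S := S) (t := bl) (by omega) hw (hcon bl (by omega) (le_refl _))
  have hex : ∃ u, bl < u ∧ S.E u gj := ⟨aj, hab, hEaj⟩
  obtain ⟨f1, f2⟩ := Nat.find_spec hex
  have f3 : Nat.find hex ≤ aj := Nat.find_min' hex ⟨hab, hEaj⟩
  have f4 : S.NE gj (bl + 1) (Nat.find hex) := by
    intro u h1 h2 h3
    exact Nat.find_min hex h2 ⟨by omega, h3⟩
  have hc2 := Sys.NE_const hw (by omega) (by omega) f4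
  have hint := Sys.E_int f2
  have hgK : gK < S.rho bK gK := S.lt_rho bK hbKm.le gK hbK.1.2.1
  rcases lt_or_eq_of_le f3 with h | h
  · have := w4 (Nat.find hex) (by omega) (by omega)
    omega
  · rw [h] at hint
    rw [h] at hc2
    omega

/-- The last killer over `mu'` lies above all kills over `mu`. -/
theorem alt_le_killer {aj bK pj gj pK gK c mu : ℕ}
    (haj : S.Kl aj gj pj) (hbK : S.Kl bK gK pK) (o3 : aj < bK)
    (a5 : c ≤ pj) (a6 : pj < mu) (b4 : mu ≤ pK) (x4 : S.X bK < c)
    (w2 : ∀ s, s < bK → S.X bK < S.X s → S.rho aj gj ≤ S.X s) : S.rho aj gj ≤ pK := by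
  have hEbK : S.E bK pK := Sys.R_E (kl_R' hbK)
  have hbKm : bK < S.m := hbK.1.1
  by_contra h
  push Not at h
  have := (frozen haj (Sys.E_mem hEbK) (by omega) h (t' := bK + 1) (by omega) (by omega) (by
    intro s s1 s2 s3
    rcases Nat.lt_or_ge s bK with s4 | s4
    · have := w2 s s4 (by omega)
      omega
    · have : s = bK := by omega
      subst this
      omega)).1
  exact this bK (by omega) (by omega) hEbK

/-- **ALTERNATION LEMMA**, counting form: `K` alternations over `mu < mu'` with left wall below `c`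
need `K (K - 1) / 4` touches of keys in `[mu, mu')`. -/
theorem alt_count {K : ℕ} {a b g p g' p' : ℕ → ℕ} {c mu c' mu' : ℕ}
    (ha : ∀ j, j < K → S.Kl (a j) (g j) (p j)) (hb : ∀ j, j < K → S.Kl (b j) (g' j) (p' j))
    (o1 : ∀ j, j < K → a j < b j) (o2 : ∀ j, j + 1 < K → b j ≤ a (j + 1))
    (s1 : ∀ j, j < K → c ≤ p j ∧ p j < mu ∧ mu ≤ g j) (b0 : mu ≤ c')
    (s2 : ∀ j, j < K → c' ≤ p' j ∧ p' j < mu' ∧ mu' ≤ g' j)
    (x1 : ∀ j, j < K → S.X (a j) < c) (x2 : ∀ j, j < K → S.X (b j) < c)
    (w1 : ∀ j, j < K → ∀ s, s < b (K - 1) → S.X (b (K - 1)) < S.X s →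
      S.rho (a j) (g j) ≤ S.X s)
    (w2 : ∀ j, j < K → ∀ s, s < b (K - 1) → S.X (b (K - 1)) < S.X s →
      S.rho (b j) (g' j) ≤ S.X s) :
    K * (K - 1) ≤ 4 * S.cnt (fun t v => S.E t v ∧ a 0 ≤ t ∧ t < b (K - 1) ∧ mu ≤ v ∧ v < mu') := by
  have ma : ∀ l j, l ≤ j → j < K → a l ≤ a j := by
    intro l j hlj
    induction j, hlj using Nat.le_induction with
    | base => intro _; exact le_refl _
    | succ j hj ih =>
      intro h
      have h1 := ih (by omega)
      have h2 := o1 j (by omega)
      have h3 := o2 j h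
      omega
  have mb : ∀ l j, l < j → j < K → b l ≤ a j := by
    intro l j h1 h2
    have h3 := o2 l (by omega)
    have h4 := ma (l + 1) j (by omega) h2
    omega
  have mlast : ∀ j, j < K → a j < b (K - 1) := by
    intro j hj
    have h1 := ma j (K - 1) (by omega) (by omega)
    have h2 := o1 (K - 1) (by omega)
    omega
  have hgl : ∀ l j, l < j → j < K → g l < g j := by
    intro l j h1 h2
    have h3 := ha l (by omega)
    have h4 := alt_rho_le (H := S.rho (a l) (g l)) h3 (ha j h2)
      (by have := mb l j h1 h2; have := o1 l (by omega); omega) (s1 l (by omega)).1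
      (s1 l (by omega)).2.1 (s1 j h2).2.2 (x1 j h2) (le_refl _) (by
        intro s q1 q2
        rcases Nat.lt_or_ge (S.X s) c with q3 | q3
        · exact Or.inl q3
        · have q4 := mlast j h2
          have q5 := x2 (K - 1) (by omega)
          exact Or.inr (w1 l (by omega) s (by omega) (by omega)))
    have h5 := S.lt_rho (a l) h3.1.1.le (g l) h3.1.2.1
    omega
  have hgmu : ∀ j, j < K → g j < mu' := by
    intro j hj
    have h3 := ha j hj
    have h5 := S.lt_rho (a j) h3.1.1.le (g j) h3.1.2.1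
    have h6 := alt_le_killer h3 (hb (K - 1) (by omega)) (mlast j hj) (s1 j hj).1
      (s1 j hj).2.1 (by have := (s2 (K - 1) (by omega)).1; omega) (x2 (K - 1) (by omega))
      (w1 j hj)
    have h7 := (s2 (K - 1) (by omega)).2.1
    omega
  have hex : ∀ j l, l < j → j < K → ∃ u, a l ≤ u ∧ u ≤ b l ∧ S.E u (g j) := by
    intro j l h1 h2
    exact alt_pair (ha l (by omega)) (ha j h2) (hb l (by omega)) (hb (K - 1) (by omega))
      (o1 l (by omega)) (mb l j h1 h2) (mlast j h2) (s1 l (by omega)).1 (s1 l (by omega)).2.1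
      (s1 l (by omega)).2.2 (s1 j h2).1 (s1 j h2).2.1 (s1 j h2).2.2 b0 (s2 l (by omega)).1
      (s2 l (by omega)).2.1 (s2 l (by omega)).2.2 (s2 (K - 1) (by omega)).1
      (s2 (K - 1) (by omega)).2.1 (s2 (K - 1) (by omega)).2.2 (x1 j h2) (x2 (K - 1) (by omega))
      (w1 l (by omega)) (w1 j h2) (w2 l (by omega)) (w2 (K - 1) (by omega))
  choose! τ ht using hex
  let P : Finset (Σ _ : ℕ, ℕ) := (Finset.range K).sigma (fun j => Finset.range j)
  have hP : P.card * 2 = K * (K - 1) := by
    have : P.card = ∑ j ∈ Finset.range K, j := by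
      simp [P, Finset.card_sigma]
    rw [this, Finset.sum_range_id_mul_two]
  have hcard : P.card ≤ ((S.set (fun t v => S.E t v ∧ a 0 ≤ t ∧ t < b (K - 1) ∧ mu ≤ v ∧
      v < mu')) ×ˢ (Finset.univ : Finset Bool)).card := by
    refine Finset.card_le_card_of_injOn
      (fun q => ((τ q.1 q.2, g q.1), decide (τ q.1 q.2 = b q.2))) ?_ ?_
    · rintro ⟨j, l⟩ hq
      simp only [P, Finset.mem_coe, Finset.mem_sigma, Finset.mem_range] at hq
      obtain ⟨h1, h2⟩ := hq
      obtain ⟨t1, t2, t3⟩ := ht j l h2 h1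
      have h3 := ma 0 l (by omega) (by omega)
      have h4 := mb l j h2 h1
      have h5 := mlast j h1
      have h6 := hgmu j h1
      have h7 := (s1 j h1).2.2
      simp only [Finset.coe_product, Set.mem_prod, Finset.mem_coe, Finset.mem_univ, and_true]
      exact Sys.mem_set.2 ⟨Sys.E_lt t3, Sys.E_mem t3, t3, by omega, by omega, h7, h6⟩
    · rintro ⟨j, l⟩ hq ⟨j', l'⟩ hq' he
      simp only [P, Finset.mem_coe, Finset.mem_sigma, Finset.mem_range] at hq hq'
      obtain ⟨h1, h2⟩ := hq
      obtain ⟨h1', h2'⟩ := hq'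
      simp only [Prod.mk.injEq, decide_eq_decide] at he
      obtain ⟨⟨he1, he2⟩, he3⟩ := he
      have hj : j = j' := by
        rcases Nat.lt_trichotomy j j' with h | h | h
        · have := hgl j j' h h1'
          omega
        · exact h
        · have := hgl j' j h h1
          omega
      subst hj
      obtain ⟨t1, t2, t3⟩ := ht j l h2 h1
      obtain ⟨t1', t2', t3'⟩ := ht j l' h2' h1
      have hl : l = l' := by
        rcases Nat.lt_trichotomy l l' with h | h | h
        · have q1 := mb l l' h (by omega)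
          have q2 := o1 l' (by omega)
          by_cases q3 : τ j l = b l
          · have := he3.1 q3
            omega
          · have q4 : ¬ τ j l' = b l' := fun q => q3 (he3.2 q)
            omega
        · exact h
        · have q1 := mb l' l h (by omega)
          have q2 := o1 l (by omega)
          by_cases q3 : τ j l = b l
          · have := he3.1 q3
            omega
          · have q4 : ¬ τ j l' = b l' := fun q => q3 (he3.2 q)
            omega
      rw [hl]
  rw [Finset.card_product, Finset.card_univ, Fintype.card_bool] at hcard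
  unfold Sys.cnt
  omega

end Pool.Agent.SplTr
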