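import Pool.Agent.SplTr.Rap

set_option autoImplicit false

/-!
# The F-family: classes
-/

namespace Pool.Agent.SplTr

open Pool.Agent.SplLog Pool.Agent.SplLs Pool.Agent.SplDq
open scoped Classical

variable {S : Sys} {s t u v w g h p q a b τ k μ : ℕ} {r r' : Rnd}

/-- A round is determined by the time and the victim of its kill. -/
theorem rd_ext (h : Rd S r) (h' : Rd S r') (ht : r.t = r'.t) (hg : r.g = r'.g) : r = r' := by
  have key : ∀ {r r' : Rnd}, Rd S r → Rd S r' → r.t = r'.t → r.g = r'.g → ¬ r.s < r'.s := by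
    intro r r' h h' ht hg hc
    have h1 : S.E r'.s r.g := by
      rw [hg]
      rcases h'.sk with h2 | h2
      · exact Sys.R_E h2.1.1
      · exact Sys.L_E h2.1.1
    have h3 := h.ne r'.s hc (by have := h'.st; omega) h1
    have h4 := h3.2.1
    rw [hg] at h4
    rcases h'.sk with h2 | h2
    · exact Sys.not_kp_kl h4 h2.1
    · exact Sys.not_R_L h4.1 h2.1.1
  have hs : r.s = r'.s := by
    have a := key h h' ht hg
    have b := key h' h ht.symm hg.symm
    omega
  have hp : r.p = r'.p := by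
    have h1 := h.kl
    rw [ht, hg] at h1
    exact kl_unique h1 h'.kl
  have hh : r.h = r'.h := by
    rw [← h.hh, ← h'.hh, ht, hg]
  have hq : r.q = r'.q := by
    rw [← h.lam_s, ← h'.lam_s, hs, hg]
  have hr : r.rel = r'.rel := by
    rcases lt_trichotomy r.rel r'.rel with h1 | h1 | h1
    · exfalso
      refine h'.nr r.rel (by have := h.rs; omega) h1 ?_
      have := h.rq
      have := h.rg
      omega
    · exact h1
    · exfalso
      refine h.nr r'.rel (by have := h'.rs; omega) h1 ?_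
      have := h'.rq
      have := h'.rg
      omega
  obtain ⟨_, _, _, _, _, _, _⟩ := r
  obtain ⟨_, _, _, _, _, _, _⟩ := r'
  simp only at ht hg hs hp hh hq hr
  subst ht hg hs hp hh hq hr
  rfl

/-- After a state-time `> s` the lower end of `g` does not decrease up to `t`. -/
theorem lam_aft (h : Rd S r) {x y : ℕ} (h1 : r.s < x) (hxy : x ≤ y) (h2 : y ≤ r.t) :
    S.lam x r.g ≤ S.lam y r.g := by
  have htm := h.tm
  induction y, hxy using Nat.le_induction with
  | base => exact le_rfl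
  | succ y hxy ih =>
    have h3 := ih (by omega)
    by_cases hE : S.E y r.g
    · have h4 := (h.ne y (by omega) (by omega) hE).2.1
      have h5 := Sys.R_mono h4.1
      omega
    · rw [(Sys.untouched (S := S) (by omega) h.gK hE).1]
      exact h3

/-- The earlier requests at the time of the kill are below the request or above the victim. -/
theorem Rd.below (h : Rd S r) (hS : Spl S) (hu : u < r.t) (h1 : S.X u ≤ r.g) :
    S.X u < S.X r.t := by
  by_contra hc
  push Not at hc
  exact loc_R hS (kl_R h.kl) h.gU hc h1 ⟨u, hu, by have := h.tm; omega, rfl⟩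

/-- The last condition of a class. -/
theorem Rd.rel_far (h : Rd S r) (hS : Spl S) (hd : S.X r.t + 2 ^ k ≤ r.g) :
    S.X r.rel + 2 ^ k ≤ r.g := by
  rcases Nat.eq_or_lt_of_le h.rt with h1 | h1
  · rw [h1]
    exact hd
  · have := h.below hS h1 h.rg.le
    omega

namespace FF

theorem rd (h : FF S FM k r) : Rd S r := h.1

theorem far1 (h : FF S FM k r) : S.X r.t + 64 * 2 ^ k ≤ r.p := by
  have h1 := h.2.2.1
  have h2 := h.rd.Xp
  have h3 := h.2.2.2.2.1
  by_contra hc
  refine h1 ⟨r.p, h.rd.kl, Or.inr (Or.inl ?_)⟩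
  rw [h.rd.hh]
  have : 64 * 2 ^ k ≤ FM * (r.h - r.g) := Nat.mul_le_mul le_rfl h3
  omega

theorem far2 (h : FF S FM k r) : r.h + 64 * 2 ^ k ≤ rw S r.t := by
  have h1 := h.2.2.1
  have h3 := h.2.2.2.2.1
  by_contra hc
  refine h1 ⟨r.p, h.rd.kl, Or.inr (Or.inr ?_)⟩
  rw [h.rd.hh]
  have : 64 * 2 ^ k ≤ FM * (r.h - r.g) := Nat.mul_le_mul le_rfl h3
  have hk : 1 ≤ 2 ^ k := Nat.one_le_two_pow
  omega

/-- two touched nodes with `μ` in the gap above them are equal -/
theorem gap_eq (h1 : S.R t v) (h2 : S.R t w) (h3 : v < μ) (h4 : w < μ) (h5 : μ ≤ S.rho t v)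
    (h6 : μ ≤ S.rho t w) : v = w := by
  rcases lt_trichotomy v w with h | h | h
  · have := (Sys.R_above h1 h2 h).1
    omega
  · exact h
  · have := (Sys.R_above h2 h1 h).1
    omega

theorem aux (h : FF S FM k r) (hμ : r.g < μ) (hμ' : μ ≤ r.g + 2 ^ k) :
    μ ≤ r.h ∧ S.X r.t + 64 * 2 ^ k ≤ μ := by
  have h1 := h.2.2.2.2.1
  have h2 := h.far1
  have h3 := h.rd.pg
  have h4 := h.rd.gh
  omega

/-- The alive periods of the rounds at one cell are disjoint. -/
theorem disj (hr : FF S FM k r) (hr' : FF S FM k r') (h1 : r.g < μ) (h2 : μ ≤ r.g + 2 ^ k)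
    (h1' : r'.g < μ) (h2' : μ ≤ r'.g + 2 ^ k) (ht : r.t < r'.t) : r.t < r'.s := by
  have a := hr.aux h1 h2
  have a' := hr'.aux h1' h2'
  have hk : 1 ≤ 2 ^ k := Nat.one_le_two_pow
  have hX : S.X r.t < r'.g := by omega
  have hR := kl_R hr.rd.kl
  have hX' := hr'.rd.Xp
  have hpg' := hr'.rd.pg
  by_contra hc
  push Not at hc
  rcases Nat.eq_or_lt_of_le hc with hc | hc
  · -- the same request
    rcases hr'.rd.sk with h3 | h3
    · have h4 := h3.1
      have h5 := (Sys.kl_facts h4).2.2.2.2.2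
      rw [hc] at h4 h5
      have h6 := h3.2
      rw [hc] at h6
      have h7 := gap_eq (kl_R h4) hR h1' h1 (by omega) (by rw [hr.rd.hh]; exact a.1)
      obtain ⟨u, hu1, hu2, hu3⟩ := hr.2.2.2.1
      rw [← h7] at hu2 hu3
      rcases lt_trichotomy u r'.t with h8 | h8 | h8
      · have h9 := (hr'.rd.ne u (by omega) h8 (Sys.L_E hu2)).2.1
        exact Sys.not_R_L h9.1 hu2
      · rw [h8] at hu2
        exact Sys.not_R_L (kl_R hr'.rd.kl) hu2
      · exact hu3 r'.t (by omega) h8 (Sys.R_E (kl_R hr'.rd.kl))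
    · have h4 := h3.1.1.2.2.1
      rw [hc] at h4
      omega
  · have hrho := hr'.rd.rho_aft hc ht.le
    have hgh := hr'.rd.gh
    have htm := hR.1
    by_cases hE : S.E r.t r'.g
    · have h3 := (hr'.rd.ne r.t hc ht hE).2.1
      have h7 := gap_eq h3.1 hR h1' h1 (by omega) (by rw [hr.rd.hh]; exact a.1)
      rw [h7] at h3
      exact Sys.not_kp_kl h3 hr.rd.kl
    · have hl : S.X r.t ≤ S.lam r.t r'.g :=
        (not_R htm hr'.rd.gK hX (fun h => hE (Sys.R_E h))).1
      rcases lt_trichotomy r.g r'.g with h3 | h3 | h3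
      · have h4 : r.g ≤ S.lam r.t r'.g := by
          have h5 := hr.rd.hh
          have h6 := R_lam hR
          rcases S.lamin r.t htm.le r.g hr.rd.gK r'.g hr'.rd.gK h3 with h4 | h4 | h4 <;> omega
        have h5 := lam_aft hr'.rd hc ht.le le_rfl
        have h6 := R_lam (kl_R hr'.rd.kl)
        omega
      · rw [← h3] at hE
        exact hE (Sys.R_E hR)
      · have h6 := R_lam hR
        rcases S.lamin r.t htm.le r'.g hr'.rd.gK r.g hr.rd.gK h3 with h4 | h4 | h4 <;> omega

/-- One kill per request and cell. -/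
theorem same (hr : FF S FM k r) (hr' : FF S FM k r') (h1 : r.g < μ) (h2 : μ ≤ r.g + 2 ^ k)
    (h1' : r'.g < μ) (h2' : μ ≤ r'.g + 2 ^ k) (ht : r.t = r'.t) : r = r' := by
  have a := hr.aux h1 h2
  have a' := hr'.aux h1' h2'
  have h3 := kl_R hr'.rd.kl
  have h4 := hr'.rd.hh
  rw [← ht] at h3 h4
  exact rd_ext hr.rd hr'.rd ht (gap_eq (kl_R hr.rd.kl) h3 h1 h1' (by rw [hr.rd.hh]; exact a.1)
    (by rw [h4]; exact a'.1))

/-- Every key has at most one round of the family. -/
theorem inj (hS : Spl S) (hr : FF S FM k r) (hr' : FF S FM k r') (hg : r.g = r'.g) :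
    ¬ r.t < r'.t := by
  intro ht
  obtain ⟨u, hu1, hu2, hu3⟩ := hr.2.2.2.1
  have hR' := kl_R hr'.rd.kl
  have hk : 1 ≤ 2 ^ k := Nat.one_le_two_pow
  have hu : u < r'.t := by
    rcases lt_trichotomy u r'.t with h8 | h8 | h8
    · exact h8
    · rw [h8, hg] at hu2
      exact absurd hu2 (fun h => Sys.not_R_L hR' h)
    · rw [hg] at hu3
      exact absurd (Sys.R_E hR') (hu3 r'.t (by omega) h8)
  have h1 : S.rho u r.g = r.h := by
    rw [(Sys.NE_const hr.rd.gK (show r.t + 1 ≤ u by omega) hu2.1.le hu3).2,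
      (Sys.kl_facts hr.rd.kl).2.2.2.2.2, hr.rd.hh]
  have h2 := hu2.2.2.1
  have h3 := hu2.2.2.2
  have h4 := hr'.far2
  have h5 := R_gt hR'
  have h6 : rw S r'.t ≤ S.X u := zr_le (seen_X hu2.1 hu) (by omega)
  have h7 := hr.2.2.2.2.2
  have h8 := hr.rd.gh
  have h9 := hr'.rd.gh
  have : 2 ^ (k + 1) = 2 * 2 ^ k := by ring
  omega

end FF

theorem clsF : ClsF := by
  intro S hS k F hF
  refine ⟨fun i => F.filter (fun r => (r.g / 2 ^ k) % 8 = i.1), ?_, ?_⟩
  · intro r hr
    refine ⟨⟨(r.g / 2 ^ k) % 8, by omega⟩, Finset.mem_filter.2 ⟨hr, rfl⟩⟩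
  · intro i
    have hk : 0 < 2 ^ k := Nat.two_pow_pos k
    have hmu : ∀ x, x < (x / 2 ^ k + 1) * 2 ^ k ∧ (x / 2 ^ k + 1) * 2 ^ k ≤ x + 2 ^ k := by
      intro x
      have h1 := Nat.div_add_mod x (2 ^ k)
      have h2 := Nat.mod_lt x hk
      have h3 : (x / 2 ^ k + 1) * 2 ^ k = 2 ^ k * (x / 2 ^ k) + 2 ^ k := by ring
      omega
    refine ⟨?_, ?_, ?_, ?_, ?_⟩
    · intro r hr
      exact (hF r (Finset.mem_filter.1 hr).1).rd
    · intro r hr
      exact (hF r (Finset.mem_filter.1 hr).1).2.1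
    · rintro r hr r' hr' hlt ⟨τ, h1, h2⟩
      obtain ⟨hr, hc⟩ := Finset.mem_filter.1 hr
      obtain ⟨hr', hc'⟩ := Finset.mem_filter.1 hr'
      have f := hF r hr
      have f' := hF r' hr'
      by_cases he : r.g / 2 ^ k = r'.g / 2 ^ k
      · exfalso
        obtain ⟨m1, m2⟩ := hmu r.g
        obtain ⟨m1', m2'⟩ := hmu r'.g
        rw [← he] at m1' m2'
        rcases lt_trichotomy r.t r'.t with h3 | h3 | h3
        · have h4 := FF.disj f f' m1 m2 m1' m2' h3
          have := f.rd.rt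
          have := h1.2
          have := h2.1
          omega
        · have := FF.same f f' m1 m2 m1' m2' h3
          rw [this] at hlt
          exact lt_irrefl _ hlt
        · have h4 := FF.disj f' f m1' m2' m1 m2 h3
          have := f'.rd.rt
          have := h2.2
          have := h1.1
          omega
      · have h3 : r.g / 2 ^ k ≤ r'.g / 2 ^ k := Nat.div_le_div_right hlt.le
        have h4 : r.g / 2 ^ k + 8 ≤ r'.g / 2 ^ k := by omega
        have h5 : (r.g / 2 ^ k + 8) * 2 ^ k ≤ (r'.g / 2 ^ k) * 2 ^ k :=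
          Nat.mul_le_mul_right _ h4
        have h6 := Nat.div_mul_le_self r'.g (2 ^ k)
        have h7 := (hmu r.g).1
        have h8 : (r.g / 2 ^ k + 8) * 2 ^ k = (r.g / 2 ^ k + 1) * 2 ^ k + 7 * 2 ^ k := by ring
        omega
    · intro r hr r' hr' hg
      obtain ⟨hr, hc⟩ := Finset.mem_filter.1 hr
      obtain ⟨hr', hc'⟩ := Finset.mem_filter.1 hr'
      have f := hF r hr
      have f' := hF r' hr'
      have h1 := FF.inj hS.spl f f' hg
      have h2 := FF.inj hS.spl f' f hg.symm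
      exact rd_ext f.rd f'.rd (by omega) hg
    · intro r hr
      have f := hF r (Finset.mem_filter.1 hr).1
      have h1 := f.far1
      have h2 := f.rd.pg
      exact f.rd.rel_far hS.spl (by omega)

end Pool.Agent.SplTr
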