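import Pool.Agent.SplTr.CF

set_option autoImplicit false

/-!
# The S-family: classes
-/

namespace Pool.Agent.SplTr

open Pool.Agent.SplLog Pool.Agent.SplLs Pool.Agent.SplDq
open scoped Classical

variable {S : Sys} {s t u v w g h p q a b τ k μ : ℕ} {r r' : Rnd}

namespace FS

theorem rd (h : FS S FM k r) : Rd S r := h.1

theorem far (h : FS S FM k r) : S.X r.t + 64 * 2 ^ k ≤ r.p := by
  have h1 := h.2.2.1
  have h2 := h.rd.Xp
  have h3 := h.2.2.2.2.1
  by_contra hc
  refine h1 ⟨r.p, h.rd.kl, Or.inl ?_⟩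
  have : 64 * 2 ^ k ≤ FM * (r.g - r.p) := Nat.mul_le_mul le_rfl h3
  omega

theorem aux (h : FS S FM k r) (hμ : r.p < μ) (hμ' : μ ≤ r.p + 2 ^ k) :
    μ ≤ r.g ∧ r.g < μ + 2 ^ (k + 1) ∧ S.X r.t + 64 * 2 ^ k ≤ μ ∧ r.p < r.g := by
  have h1 := h.2.2.2.2.1
  have h2 := h.far
  have h3 := h.rd.pg
  have h4 := h.2.2.2.2.2
  omega

/-- If the next victim over `μ` is not touched then the next round begins later. -/
theorem unt (hr : FS S FM k r) (hr' : FS S FM k r') (h1 : r.p < μ) (h2 : μ ≤ r.p + 2 ^ k)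
    (h1' : r'.p < μ) (h2' : μ ≤ r'.p + 2 ^ k) (ht : r.t < r'.t) (hE : ¬ S.E r.t r'.g) :
    r.t < r'.s := by
  obtain ⟨a1, a2, a3, a4⟩ := hr.aux h1 h2
  obtain ⟨a1', a2', a3', a4'⟩ := hr'.aux h1' h2'
  have hk : 1 ≤ 2 ^ k := Nat.one_le_two_pow
  have hR := kl_R hr.rd.kl
  have hp := kl_R' hr.rd.kl
  have htm := hR.1
  by_contra hc
  push Not at hc
  rcases Nat.eq_or_lt_of_le hc with hc | hc
  · apply hE
    rw [← hc]
    rcases hr'.rd.sk with h3 | h3
    · exact Sys.R_E h3.1.1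
    · exact Sys.L_E h3.1.1
  · have hl : r.p ≤ S.lam r.t r'.g := by
      have h3 : S.X r.t ≤ S.lam r.t r'.g :=
        (not_R htm hr'.rd.gK (by omega) (fun h => hE (Sys.R_E h))).1
      have h4 := kl_rho hr.rd.kl
      have h5 := R_lam hR
      rcases lt_trichotomy r'.g r.g with h6 | h6 | h6
      · rcases S.lamin r.t htm.le r.p hp.2.1 r'.g hr'.rd.gK (by omega) with h7 | h7 | h7
        · omega
        · have := R_lam hp
          omega
        · omega
      · rw [h6] at hE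
        exact absurd (Sys.R_E hR) hE
      · rcases S.lamin r.t htm.le r.g hr.rd.gK r'.g hr'.rd.gK h6 with h7 | h7 | h7
        · omega
        · omega
        · have := S.lt_rho r.t htm.le r.g hr.rd.gK
          omega
    have h5 := lam_aft hr'.rd hc ht.le le_rfl
    have h6 := R_lam (kl_R hr'.rd.kl)
    omega

/-- Two kills over the same cell: the later round begins later, or the earlier kill is the
release of the later round. -/
theorem two (hS : Spl S) (hr : FS S FM k r) (hr' : FS S FM k r') (h1 : r.p < μ)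
    (h2 : μ ≤ r.p + 2 ^ k) (h1' : r'.p < μ) (h2' : μ ≤ r'.p + 2 ^ k) (ht : r.t < r'.t) :
    r.t < r'.s ∨ (r'.s < r.t ∧ r'.rel = r.t) := by
  by_cases hE : S.E r.t r'.g
  · obtain ⟨a1, a2, a3, a4⟩ := hr.aux h1 h2
    obtain ⟨a1', a2', a3', a4'⟩ := hr'.aux h1' h2'
    have hk : 1 ≤ 2 ^ k := Nat.one_le_two_pow
    rcases lt_trichotomy r.t r'.s with h3 | h3 | h3
    · exact Or.inl h3
    · exfalso
      -- the same request
      rcases hr'.rd.sk with h4 | h4
      · have h5 := h4.1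
        rw [← h3] at h5
        have h6 : r.p ≤ r'.q := by
          by_contra hc
          push Not at hc
          have h7 := (Sys.R_above (kl_R' h5) (kl_R' hr.rd.kl) hc).1
          have h8 := kl_rho h5
          omega
        have h7 := hr'.rd.rq
        have h8 := hr'.rd.rg
        rcases Nat.eq_or_lt_of_le hr'.rd.rt with h9 | h9
        · rw [h9] at h7
          omega
        · have := hr'.rd.below hS h9 h8.le
          omega
      · have h5 := h4.1.1.2.2.1
        rw [← h3] at h5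
        omega
    · exact Or.inr ⟨h3, (hr'.rd.ne r.t h3 ht hE).1.symm⟩
  · exact Or.inl (unt hr hr' h1 h2 h1' h2' ht hE)

/-- One kill per request and cell. -/
theorem same (hr : FS S FM k r) (hr' : FS S FM k r') (h1 : r.p < μ) (h2 : μ ≤ r.p + 2 ^ k)
    (h1' : r'.p < μ) (h2' : μ ≤ r'.p + 2 ^ k) (ht : r.t = r'.t) : r = r' := by
  have key : ∀ {r r' : Rnd}, FS S FM k r → FS S FM k r' → r.p < μ → μ ≤ r.p + 2 ^ k →
      r'.p < μ → μ ≤ r'.p + 2 ^ k → r.t = r'.t → ¬ r.g < r'.g := by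
    intro r r' hr hr' h1 h2 h1' h2' ht hlt
    obtain ⟨a1, a2, a3, a4⟩ := hr.aux h1 h2
    have h3 := hr'.rd.kl
    rw [← ht] at h3
    have h4 := (Sys.R_above (kl_R' h3) (kl_R hr.rd.kl) (by omega)).1
    have h5 := kl_rho h3
    omega
  have a := key hr hr' h1 h2 h1' h2' ht
  have b := key hr' hr h1' h2' h1 h2 ht.symm
  exact rd_ext hr.rd hr'.rd ht (by omega)

/-- Every key has at most one round over a cell. -/
theorem inj (hS : Spl S) (hr : FS S FM k r) (hr' : FS S FM k r') (h1 : r.p < μ)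
    (h2 : μ ≤ r.p + 2 ^ k) (h1' : r'.p < μ) (h2' : μ ≤ r'.p + 2 ^ k) (hg : r.g = r'.g) :
    ¬ r.t < r'.t := by
  intro ht
  obtain ⟨a1, a2, a3, a4⟩ := hr.aux h1 h2
  obtain ⟨a1', a2', a3', a4'⟩ := hr'.aux h1' h2'
  obtain ⟨u, hu1, hu2, hu3⟩ := hr.2.2.2.1
  have hR' := kl_R hr'.rd.kl
  have hk : 1 ≤ 2 ^ k := Nat.one_le_two_pow
  have h3 : S.lam u r.g = r.p := by
    rw [(Sys.NE_const hr.rd.gK (show r.t + 1 ≤ u by omega) hu2.1.le hu3).1, hr.rd.kl.2.2]
  have h4 := R_lam hu2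
  have h5 := R_gt hu2
  rcases lt_trichotomy u r'.t with h8 | h8 | h8
  · have := hr'.rd.below hS h8 (by omega)
    omega
  · rw [h8] at h4 h3
    omega
  · rw [hg] at hu3
    exact absurd (Sys.R_E hR') (hu3 r'.t (by omega) h8)

end FS

/-- the number of the earlier kills at the same cell -/
noncomputable def ix (k : ℕ) (F : Finset Rnd) (r : Rnd) : ℕ :=
  (F.filter (fun x => x.p / 2 ^ k = r.p / 2 ^ k ∧ x.t < r.t)).card

theorem FS.ix_succ {F : Finset Rnd} (hS : Spl S) (hF : ∀ r ∈ F, FS S FM k r) (hr : r ∈ F)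
    (hr' : r' ∈ F) (hmu : ∀ x, x < (x / 2 ^ k + 1) * 2 ^ k ∧ (x / 2 ^ k + 1) * 2 ^ k ≤ x + 2 ^ k)
    (he : r.p / 2 ^ k = r'.p / 2 ^ k) (h1 : r'.s < r.t) (h2 : r'.rel = r.t) (h3 : r.t < r'.t) :
    ix k F r' = ix k F r + 1 := by
  have f := hF r hr
  have f' := hF r' hr'
  obtain ⟨m1', m2'⟩ := hmu r'.p
  have e : F.filter (fun x => x.p / 2 ^ k = r'.p / 2 ^ k ∧ x.t < r'.t) =
      insert r (F.filter (fun x => x.p / 2 ^ k = r.p / 2 ^ k ∧ x.t < r.t)) := by
    ext x
    simp only [Finset.mem_filter, Finset.mem_insert]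
    constructor
    · rintro ⟨hx, hxe, hxt⟩
      have fx := hF x hx
      obtain ⟨mx1, mx2⟩ := hmu x.p
      rw [hxe] at mx1 mx2
      obtain ⟨m1, m2⟩ := hmu r.p
      rw [he] at m1 m2
      rcases FS.two hS fx f' mx1 mx2 m1' m2' hxt with h4 | ⟨h4, h5⟩
      · right
        exact ⟨hx, by rw [hxe, he], by omega⟩
      · left
        exact FS.same fx f mx1 mx2 m1 m2 (by omega)
    · rintro (rfl | ⟨hx, hxe, hxt⟩)
      · exact ⟨hr, he, h3⟩
      · exact ⟨hx, by rw [hxe, he], by omega⟩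
  unfold ix
  rw [e, Finset.card_insert_of_notMem]
  simp

theorem clsS : ClsS := by
  intro S hS k F hF
  refine ⟨fun i => F.filter (fun r => 2 * ((r.p / 2 ^ k) % 8) + ix k F r % 2 = i.1), ?_, ?_⟩
  · intro r hr
    refine ⟨⟨2 * ((r.p / 2 ^ k) % 8) + ix k F r % 2, by omega⟩, Finset.mem_filter.2 ⟨hr, rfl⟩⟩
  · intro i
    have hk : 0 < 2 ^ k := Nat.two_pow_pos k
    have hmu : ∀ x, x < (x / 2 ^ k + 1) * 2 ^ k ∧ (x / 2 ^ k + 1) * 2 ^ k ≤ x + 2 ^ k := by
      intro x
      have h1 := Nat.div_add_mod x (2 ^ k)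
      have h2 := Nat.mod_lt x hk
      have h3 : (x / 2 ^ k + 1) * 2 ^ k = 2 ^ k * (x / 2 ^ k) + 2 ^ k := by ring
      omega
    have hk2 : 2 ^ (k + 1) = 2 * 2 ^ k := by ring
    refine ⟨?_, ?_, ?_, ?_, ?_⟩
    · intro r hr
      exact (hF r (Finset.mem_filter.1 hr).1).rd
    · intro r hr
      exact (hF r (Finset.mem_filter.1 hr).1).2.1
    · rintro r hr r' hr' hlt ⟨τ, h1, h2⟩
      obtain ⟨hr, hc⟩ := Finset.mem_filter.1 hr
      obtain ⟨hr', hc'⟩ := Finset.mem_filter.1 hr'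
      have f := hF r hr
      have f' := hF r' hr'
      obtain ⟨m1, m2⟩ := hmu r.p
      obtain ⟨m1', m2'⟩ := hmu r'.p
      obtain ⟨b1, b2, b3, b4⟩ := f.aux m1 m2
      obtain ⟨b1', b2', b3', b4'⟩ := f'.aux m1' m2'
      by_cases he : r.p / 2 ^ k = r'.p / 2 ^ k
      · exfalso
        have m3 := m1
        have m4 := m2
        rw [he] at m3 m4
        rcases lt_trichotomy r.t r'.t with h3 | h3 | h3
        · rcases FS.two hS.spl f f' m3 m4 m1' m2' h3 with h4 | ⟨h4, h5⟩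
          · have := f.rd.rt
            have := h1.2
            have := h2.1
            omega
          · have := FS.ix_succ hS.spl hF hr hr' hmu he h4 h5 h3
            omega
        · have := FS.same f f' m3 m4 m1' m2' h3
          rw [this] at hlt
          exact lt_irrefl _ hlt
        · rcases FS.two hS.spl f' f m1' m2' m3 m4 h3 with h4 | ⟨h4, h5⟩
          · have := f'.rd.rt
            have := h2.2
            have := h1.1
            omega
          · have := FS.ix_succ hS.spl hF hr' hr hmu he.symm h4 h5 h3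
            omega
      · rcases Nat.lt_or_ge (r.p / 2 ^ k) (r'.p / 2 ^ k) with h3 | h3
        · have h4 : r.p / 2 ^ k + 8 ≤ r'.p / 2 ^ k := by omega
          have h5 : (r.p / 2 ^ k + 8) * 2 ^ k ≤ (r'.p / 2 ^ k) * 2 ^ k :=
            Nat.mul_le_mul_right _ h4
          have h8 : (r.p / 2 ^ k + 8) * 2 ^ k = (r.p / 2 ^ k + 1) * 2 ^ k + 7 * 2 ^ k := by ring
          have h9 : (r'.p / 2 ^ k + 1) * 2 ^ k = (r'.p / 2 ^ k) * 2 ^ k + 2 ^ k := by ring
          omega
        · exfalso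
          have h4 : r'.p / 2 ^ k + 8 ≤ r.p / 2 ^ k := by omega
          have h5 : (r'.p / 2 ^ k + 8) * 2 ^ k ≤ (r.p / 2 ^ k) * 2 ^ k :=
            Nat.mul_le_mul_right _ h4
          have h8 : (r'.p / 2 ^ k + 8) * 2 ^ k = (r'.p / 2 ^ k + 1) * 2 ^ k + 7 * 2 ^ k := by
            ring
          have h9 : (r.p / 2 ^ k + 1) * 2 ^ k = (r.p / 2 ^ k) * 2 ^ k + 2 ^ k := by ring
          omega
    · intro r hr r' hr' hg
      obtain ⟨hr, hc⟩ := Finset.mem_filter.1 hr
      obtain ⟨hr', hc'⟩ := Finset.mem_filter.1 hr'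
      have f := hF r hr
      have f' := hF r' hr'
      obtain ⟨m1, m2⟩ := hmu r.p
      obtain ⟨m1', m2'⟩ := hmu r'.p
      obtain ⟨b1, b2, b3, b4⟩ := f.aux m1 m2
      obtain ⟨b1', b2', b3', b4'⟩ := f'.aux m1' m2'
      have he : r.p / 2 ^ k = r'.p / 2 ^ k := by
        by_contra he
        have key : ∀ x y : ℕ, x % 8 = y % 8 → x < y →
            (x + 1) * 2 ^ k + 2 ^ (k + 1) ≤ (y + 1) * 2 ^ k := by
          intro x y h1 h2
          have h3 : (x + 8) * 2 ^ k ≤ y * 2 ^ k := Nat.mul_le_mul_right _ (by omega)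
          have h4 : (x + 8) * 2 ^ k = (x + 1) * 2 ^ k + 7 * 2 ^ k := by ring
          have h5 : (y + 1) * 2 ^ k = y * 2 ^ k + 2 ^ k := by ring
          omega
        rcases Nat.lt_or_ge (r.p / 2 ^ k) (r'.p / 2 ^ k) with h3 | h3
        · have := key _ _ (by omega) h3
          omega
        · have := key (r'.p / 2 ^ k) (r.p / 2 ^ k) (by omega) (by omega)
          omega
      have m3 := m1
      have m4 := m2
      rw [he] at m3 m4
      have h1 := FS.inj hS.spl f f' m3 m4 m1' m2' hg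
      have h2 := FS.inj hS.spl f' f m1' m2' m3 m4 hg.symm
      exact rd_ext f.rd f'.rd (by omega) hg
    · intro r hr
      have f := hF r (Finset.mem_filter.1 hr).1
      have h1 := f.far
      have h2 := f.rd.pg
      exact f.rd.rel_far hS.spl (by omega)

end Pool.Agent.SplTr
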