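import Mathlib

set_option autoImplicit false

/-!
# The recursion over the gap levels: pure arithmetic
-/

namespace Pool.Agent.SplTr

open Finset

private theorem ari_geo (a G : ℕ) : ∑ R ∈ Ico a G, ((4 : ℝ) / 5) ^ R ≤ 5 * (4 / 5) ^ a := by
  rcases le_total G a with h | h
  · rw [Ico_eq_empty_of_le h, sum_empty]
    positivity
  · have key : ∀ n : ℕ, ∑ R ∈ Ico a (a + n), ((4 : ℝ) / 5) ^ R =
        5 * (4 / 5) ^ a - 5 * (4 / 5) ^ (a + n) := by
      intro n
      induction n with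
      | zero => simp
      | succ n ih =>
        rw [← add_assoc, sum_Ico_succ_top (by omega), ih]
        ring
    obtain ⟨n, rfl⟩ := Nat.exists_eq_add_of_le h
    rw [key]
    have : (0 : ℝ) ≤ (4 / 5) ^ (a + n) := by positivity
    linarith

private theorem ari_pow (g : ℕ) : (g + 1) * 5 ^ g ≤ 5 * 4 ^ g * 2 ^ (g / 2) := by
  induction g using Nat.strong_induction_on with
  | _ g ih =>
    rcases Nat.lt_or_ge g 9 with h | h
    · interval_cases g <;> norm_num
    · obtain ⟨g, rfl⟩ : ∃ g', g = g' + 2 := ⟨g - 2, by omega⟩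
      have h1 := ih g (by omega)
      have h2 : (g + 2) / 2 = g / 2 + 1 := by omega
      rw [h2]
      have h3 : 25 * (g + 3) ≤ 32 * (g + 1) := by omega
      calc (g + 2 + 1) * 5 ^ (g + 2) = 25 * (g + 3) * 5 ^ g := by ring
        _ ≤ 32 * (g + 1) * 5 ^ g := Nat.mul_le_mul_right _ h3
        _ = 32 * ((g + 1) * 5 ^ g) := by ring
        _ ≤ 32 * (5 * 4 ^ g * 2 ^ (g / 2)) := Nat.mul_le_mul_left _ h1
        _ = 5 * 4 ^ (g + 2) * 2 ^ (g / 2 + 1) := by ring

/-- **The recursion over the gap levels** of one class.  `N g`: number of rounds of the class of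
scale `k` with gap level `g`; `n`: size, `θ`: number of touches.  The hypothesis is
`N g ≤ D (g + 1) (n L / 2 ^ g + θ / L) + q ∑_{R ≥ g + c0} N R` for every `L ≥ 1`; the conclusion is
`∑ N g ≤ 50 D (4 / 5) ^ k (A n + θ / A)` for every `A ≥ 1`. -/
theorem ari (D q c0 : ℕ) (hq : 10 * q * 4 ^ c0 ≤ 5 ^ c0) (n θ A G k : ℕ) (N : ℕ → ℕ)
    (hA : 1 ≤ A) (hk : ∀ g, g < k → N g = 0)
    (hrec : ∀ g, k ≤ g → g < G → ∀ L, 1 ≤ L →
      L * 2 ^ g * N g ≤ D * (g + 1) * (n * L ^ 2 + θ * 2 ^ g) +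
        L * 2 ^ g * (q * ∑ R ∈ Ico (g + c0) G, N R)) :
    A * 5 ^ k * ∑ g ∈ range G, N g ≤ 50 * D * 4 ^ k * (A ^ 2 * n + θ) := by
  have hA' : (0 : ℝ) < A := by exact_mod_cast hA
  obtain ⟨Q, hQ⟩ : ∃ Q : ℝ, Q = A * n + θ / A := ⟨_, rfl⟩
  have hQ0 : 0 ≤ Q := by rw [hQ]; positivity
  -- the recursion in real form
  have h1 : ∀ g, k ≤ g → g < G → (N g : ℝ) ≤ 5 * D * Q * (4 / 5) ^ g +
      q * ∑ R ∈ Ico (g + c0) G, (N R : ℝ) := by
    intro g hkg hg
    have h2 := hrec g hkg hg (A * 2 ^ (g / 2)) (Nat.mul_pos hA (by positivity))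
    have h3 : ((A : ℝ) * 2 ^ (g / 2)) * 2 ^ g * N g ≤
        D * (g + 1) * (n * (A * 2 ^ (g / 2)) ^ 2 + θ * 2 ^ g) +
        (A * 2 ^ (g / 2)) * 2 ^ g * (q * ∑ R ∈ Ico (g + c0) G, (N R : ℝ)) := by
      exact_mod_cast h2
    have hp : (0 : ℝ) < (A * 2 ^ (g / 2)) * 2 ^ g := by positivity
    have h4 : (N g : ℝ) ≤ D * (g + 1) * (n * (A * 2 ^ (g / 2)) ^ 2 + θ * 2 ^ g) /
        ((A * 2 ^ (g / 2)) * 2 ^ g) + q * ∑ R ∈ Ico (g + c0) G, (N R : ℝ) := by
      rw [← sub_le_iff_le_add, le_div_iff₀ hp]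
      nlinarith
    refine h4.trans (add_le_add ?_ le_rfl)
    -- `(n L^2 + θ 2^g) / (L 2^g) ≤ Q / 2^(g/2)`
    have h5 : (n * (A * 2 ^ (g / 2)) ^ 2 + θ * 2 ^ g) / ((A * 2 ^ (g / 2)) * 2 ^ g) ≤
        Q / 2 ^ (g / 2) := by
      rw [div_le_div_iff₀ hp (by positivity), hQ]
      have h6 : (2 : ℝ) ^ (g / 2) * 2 ^ (g / 2) ≤ 2 ^ g := by
        rw [← pow_add]
        exact pow_le_pow_right₀ (by norm_num) (by omega)
      have h7 : (A * n + θ / A : ℝ) * (A * 2 ^ (g / 2) * 2 ^ g) =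
          A ^ 2 * n * 2 ^ (g / 2) * 2 ^ g + θ * 2 ^ (g / 2) * 2 ^ g := by
        field_simp
      rw [h7]
      have h8 : (0 : ℝ) ≤ A ^ 2 * n * 2 ^ (g / 2) := by positivity
      nlinarith [mul_le_mul_of_nonneg_left h6 h8]
    have h6 : (D : ℝ) * (g + 1) * (n * (A * 2 ^ (g / 2)) ^ 2 + θ * 2 ^ g) /
        ((A * 2 ^ (g / 2)) * 2 ^ g) ≤ D * (g + 1) * (Q / 2 ^ (g / 2)) := by
      rw [mul_div_assoc]
      exact mul_le_mul_of_nonneg_left h5 (by positivity)
    refine h6.trans ?_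
    have h7 : ((g : ℝ) + 1) / 2 ^ (g / 2) ≤ 5 * (4 / 5) ^ g := by
      rw [div_le_iff₀ (by positivity), div_pow]
      have h8 : ((g : ℝ) + 1) * 5 ^ g ≤ 5 * 4 ^ g * 2 ^ (g / 2) := by
        exact_mod_cast ari_pow g
      have h9 : (0 : ℝ) < 5 ^ g := by positivity
      have h10 : (5 : ℝ) * (4 ^ g / 5 ^ g) * 2 ^ (g / 2) = (5 * 4 ^ g * 2 ^ (g / 2)) / 5 ^ g := by
        ring
      rw [h10, le_div_iff₀ h9]
      exact h8
    calc (D : ℝ) * (g + 1) * (Q / 2 ^ (g / 2)) = D * Q * ((g + 1) / 2 ^ (g / 2)) := by ring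
      _ ≤ D * Q * (5 * (4 / 5) ^ g) := mul_le_mul_of_nonneg_left h7 (by positivity)
      _ = 5 * D * Q * (4 / 5) ^ g := by ring
  -- the solution
  have hq' : (10 : ℝ) * q * (4 / 5) ^ c0 ≤ 1 := by
    rw [div_pow, mul_div_assoc', div_le_one (by positivity)]
    exact_mod_cast hq
  have h2 : ∀ d g, g + d = G → g < G → (N g : ℝ) ≤ 10 * D * Q * (4 / 5) ^ g := by
    intro d
    induction d using Nat.strong_induction_on with
    | _ d ih =>
      intro g hgd hg
      rcases Nat.lt_or_ge g k with hgk | hgk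
      · rw [hk g hgk]
        simp only [Nat.cast_zero]
        positivity
      · refine (h1 g hgk hg).trans ?_
        rcases Nat.eq_zero_or_pos c0 with hc | hc
        · -- then `q = 0`
          have hq0 : q = 0 := by
            rw [hc] at hq
            simp at hq
            omega
          rw [hq0]
          have : (0 : ℝ) ≤ D * Q * (4 / 5) ^ g := by positivity
          simp only [Nat.cast_zero, zero_mul, add_zero]
          linarith
        have h3 : ∑ R ∈ Ico (g + c0) G, (N R : ℝ) ≤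
            ∑ R ∈ Ico (g + c0) G, 10 * D * Q * (4 / 5 : ℝ) ^ R := by
          apply sum_le_sum
          intro R hR
          rw [mem_Ico] at hR
          exact ih (G - R) (by omega) R (by omega) hR.2
        rw [← mul_sum] at h3
        have h4 := ari_geo (g + c0) G
        have h5 : (0 : ℝ) ≤ 10 * D * Q := by positivity
        have h6 := mul_le_mul_of_nonneg_left h4 h5
        have h7 : (q : ℝ) * ∑ R ∈ Ico (g + c0) G, (N R : ℝ) ≤
            q * (10 * D * Q * (5 * (4 / 5) ^ (g + c0))) :=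
          mul_le_mul_of_nonneg_left (h3.trans h6) (by positivity)
        have h8 : (q : ℝ) * (10 * D * Q * (5 * (4 / 5) ^ (g + c0))) =
            (5 * D * Q * (4 / 5) ^ g) * (10 * q * (4 / 5) ^ c0) := by
          rw [pow_add]
          ring
        have h9 : (0 : ℝ) ≤ 5 * D * Q * (4 / 5) ^ g := by positivity
        have h10 := mul_le_mul_of_nonneg_left hq' h9
        linarith
  -- the sums
  have h3 : ∑ g ∈ range G, (N g : ℝ) ≤ 50 * D * Q * (4 / 5) ^ k := by
    have h4 : ∑ g ∈ range G, (N g : ℝ) ≤ ∑ g ∈ Ico k G, 10 * D * Q * (4 / 5 : ℝ) ^ g := by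
      rw [range_eq_Ico]
      rcases le_total G k with hGk | hGk
      · rw [Ico_eq_empty_of_le hGk, sum_empty]
        apply le_of_eq
        apply sum_eq_zero
        intro g hg
        rw [mem_Ico] at hg
        rw [hk g (by omega)]
        simp
      · rw [← sum_Ico_consecutive _ (Nat.zero_le k) hGk]
        have h5 : ∑ g ∈ Ico 0 k, (N g : ℝ) = 0 := by
          apply sum_eq_zero
          intro g hg
          rw [mem_Ico] at hg
          rw [hk g (by omega)]
          simp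
        rw [h5, zero_add]
        apply sum_le_sum
        intro g hg
        rw [mem_Ico] at hg
        exact h2 (G - g) g (by omega) hg.2
    rw [← mul_sum] at h4
    have h5 := mul_le_mul_of_nonneg_left (ari_geo k G) (show (0 : ℝ) ≤ 10 * D * Q by positivity)
    linarith
  have h5 : (A : ℝ) * 5 ^ k * (∑ g ∈ range G, (N g : ℝ)) ≤
      50 * D * 4 ^ k * (A ^ 2 * n + θ) := by
    have h6 := mul_le_mul_of_nonneg_left h3 (show (0 : ℝ) ≤ A * 5 ^ k by positivity)
    have h7 : (A : ℝ) * 5 ^ k * (50 * D * Q * (4 / 5) ^ k) =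
        50 * D * 4 ^ k * (A ^ 2 * n + θ) := by
      rw [hQ, div_pow]
      field_simp
    linarith
  exact_mod_cast h5

end Pool.Agent.SplTr
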