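import Pool.Agent.SplTr.CWin

set_option autoImplicit false

/-!
# P3: stages of a cell (5 A, B, C, D)
-/

namespace Pool.Agent.SplTr

namespace Fam

variable {k c top : ℕ} {Q : Fam k c top} {x y g m b : ℕ}

-- MODULE ya
private theorem ya_F (hx : x ∈ Q.Mg g) : x ∈ Q.F := Ng_F (Mg_Ng hx)

private theorem ya_ef (hx : x ∈ Q.Mg g) : Q.ef x ∈ Q.Ef x ∧ Q.ef x < x := by
  have h := Mg_Ng hx
  unfold Ng at h
  exact ef_mem (Finset.mem_filter.mp h).2.1

/-- a later round of the cell released while an element of the window of `x` is alive belongs to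
this window -/
theorem in_window (hx : x ∈ Q.Mg g) (hy : y ∈ Q.Mg g) (hm : Q.mc g x = Q.mc g y) {a : ℕ}
    (ha : a ∈ Q.Ef x) (h1 : Q.rel x ≤ Q.rel y) (h2 : Q.rel y ≤ Q.rel a) (h3 : Q.z y < a)
    (h4 : a < y) : y ∈ Q.Ef x := by
  have hxF := ya_F hx
  have hyF := ya_F hy
  have ha' := ha
  unfold Ef at ha' ⊢
  have ha2 := mem_En.mp ha'
  have hzz : Q.z y ≤ Q.z a := by
    rcases Q.zz a ha2.1 y hyF h2 with h | h
    · exact h
    · exfalso
      have h5 := Q.xw a ha2.1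
      unfold z at h3
      omega
  refine betw (x := x) (a := a) ?_ ha' hyF h1 h2 h3 ?_ ?_
  · exact mem_Ef hxF
  · have h5 := Q.xw y hyF
    unfold w
    omega
  · have h6 := ha2.2.1
    omega

private theorem ya_pow (g : ℕ) : 2 ^ (g + 1) ≤ 2 ^ (g + c0 + 1) :=
  Nat.pow_le_pow_right (by norm_num) (by omega)

/-- (A) -/
theorem stA (hx : x ∈ Q.Mg g) (hy : y ∈ Q.Mg g) (hm : Q.mc g x = Q.mc g y)
    (h : Q.rel x < Q.rel y) : Q.rel x ≤ Q.s y := by
  by_contra hc
  push Not at hc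
  have hxF := ya_F hx
  have hyF := ya_F hy
  have hp := ya_pow g
  have mx := mc_spec (Mg_Ng hx)
  have my := mc_spec (Mg_Ng hy)
  have hq := Q.qz y hyF
  have hfar := far hy (mem_Ef hyF)
  have hzy : Q.z y = Q.Z (Q.rel y) := rfl
  rcases lt_trichotomy x y with hxy | hxy | hxy
  · have h1 := Q.l1 x hxF y hyF hxy (by have := Q.sr x hxF; omega) hc (by omega)
    omega
  · rw [hxy] at h
    exact lt_irrefl _ h
  · obtain ⟨he, hex⟩ := ya_ef hx
    have heF : Q.ef x ∈ Q.F := by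
      unfold Ef at he
      exact (mem_En.mp he).1
    have hxE := mem_Ef hxF
    have hs : Q.s (Q.ef x) < Q.rel x := alive he hxE
    have ho := ord he hxE hex
    have hN := Ng_spec (Mg_Ng hx)
    have h1 := Q.l1 (Q.ef x) heF y hyF (by omega) (by omega) (by omega) (by omega)
    have hw := in_window hx hy hm he h.le h1 (by omega) (by omega)
    have := ef_max hw hxy
    omega

/-- the times of the stages are different -/
theorem teq (hx : x ∈ Q.Mg g) (hy : y ∈ Q.Mg g) (hm : Q.mc g x = Q.mc g y)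
    (hp : Q.Dx x % 2 = Q.Dx y % 2) (h : Q.rel x = Q.rel y) : x = y := by
  wlog hxy : x ≤ y generalizing x y
  · exact (this hy hx hm.symm hp.symm h.symm (by omega)).symm
  have hxF := ya_F hx
  have hyF := ya_F hy
  have mx := mc_spec (Mg_Ng hx)
  have my := mc_spec (Mg_Ng hy)
  have hz : Q.z x = Q.z y := by
    unfold z
    rw [h]
  have hw : Q.w x = Q.w y := by
    unfold w
    rw [h]
  have dx := Dx_spec hxF
  have dy := Dx_spec hyF
  have hgx : g + c0 < Q.Dx x := by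
    unfold Mg at hx
    exact (Finset.mem_filter.mp hx).2
  have hle : Q.Dx x ≤ Q.Dx y := by
    unfold Dx
    apply Nat.log_mono_right
    omega
  have hD : Q.Dx y = Q.Dx x := by
    by_contra hne
    have h2 : Q.Dx x + 2 ≤ Q.Dx y := by omega
    have h3 : 2 ^ (Q.Dx x + 2) ≤ 2 ^ Q.Dx y := Nat.pow_le_pow_right (by norm_num) h2
    have h4 : 2 ^ (g + 1) ≤ 2 ^ (Q.Dx x + 1) := Nat.pow_le_pow_right (by norm_num) (by omega)
    have h5 : 2 ^ (Q.Dx x + 2) = 2 * 2 ^ (Q.Dx x + 1) := by ring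
    omega
  have hky : Q.ky (Q.Dx x) y = Q.ky (Q.Dx x) x := by
    unfold ky
    rw [hz, hw]
  have hyE : y ∈ Q.Ef x := by
    unfold Ef
    rw [mem_En]
    refine ⟨hyF, ?_, hky⟩
    rw [← hD]
    exact dy.1
  have hxE : x ∈ Q.Ef y := by
    rw [Ef_eq hyE hD]
    exact mem_Ef hxF
  exact cell_uniq (Mg_Ng hx) (Mg_Ng hy) hyE hxE hm

theorem ef_inj (hx : x ∈ Q.Mg g) (hy : y ∈ Q.Mg g) (hm : Q.mc g x = Q.mc g y)
    (h : Q.rel x < Q.rel y) : Q.ef x ≠ Q.ef y := by
  intro he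
  obtain ⟨hex, hlx⟩ := ya_ef hx
  obtain ⟨hey, hly⟩ := ya_ef hy
  have hxF := ya_F hx
  have hyF := ya_F hy
  have ho := ord hey (mem_Ef hyF) hly
  have haF : Q.ef y ∈ Q.F := by
    unfold Ef at hey
    exact (mem_En.mp hey).1
  have hza := z_lt haF
  have hw : y ∈ Q.Ef x := in_window hx hy hm (he ▸ hex) h.le ho.1 (by omega) hly
  have h1 : Q.s y < Q.rel x := alive hw (mem_Ef hxF)
  have h2 := stA hx hy hm h
  omega
-- END ya

-- MODULE yb
/-- (B) for any element `a < ef y` of the window of `x` which is near `ef y` -/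
theorem stB (hx : x ∈ Q.Mg g) (hy : y ∈ Q.Mg g) (hm : Q.mc g x = Q.mc g y)
    (h : Q.rel x < Q.rel y) {a : ℕ} (ha : a ∈ Q.Ef x) (h1 : a ≤ Q.ef y)
    (h2 : Q.mc g x ≤ a + 2 ^ (g - 1) + 2 ^ (g + c0)) : Q.rel a ≤ Q.s (Q.ef y) := by
  have hxN := Mg_Ng hx
  have hyN := Mg_Ng hy
  have hxF := Ng_F hxN
  have hyF := Ng_F hyN
  have hxE := mem_Ef hxF
  have hyE := mem_Ef hyF
  have hey : Q.ef y ≠ 0 := (Finset.mem_filter.1 hyN).2.1
  obtain ⟨heE, hely⟩ := ef_mem hey
  have heF : Q.ef y ∈ Q.F := (mem_En.1 heE).1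
  have haF : a ∈ Q.F := (mem_En.1 ha).1
  have hst := stA hx hy hm h
  have hord := ord heE hyE hely
  have hfar := far hy heE
  have hmy := mc_spec hyN
  have hpow : 2 ^ (g - 1) ≤ 2 ^ (g + c0) := Nat.pow_le_pow_right (by norm_num) (by omega)
  have hpow2 : 2 ^ (g + c0 + 1) = 2 * 2 ^ (g + c0) := by ring
  have hza : Q.z (Q.ef y) < a := by omega
  have key : Q.rel (Q.ef y) ≤ Q.rel a → False := by
    intro hr
    have hin : y ∈ Q.Ef x := in_window hx hy hm ha h.le (by omega) (by omega) (by omega)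
    have := alive hin hxE
    omega
  by_contra hcon
  rcases Nat.lt_or_ge a (Q.ef y) with hlt | hge
  · have hsa : Q.s a < Q.rel x := alive ha hxE
    have hq : Q.q (Q.ef y) ≤ Q.z (Q.ef y) := Q.qz _ heF
    exact key (Q.l1 a haF (Q.ef y) heF hlt (by omega) (by omega) (by omega))
  · have : a = Q.ef y := by omega
    exact key (by rw [this])

/-- (B) and: the intervals of the `e` are disjoint -/
theorem stJ (hx : x ∈ Q.Mg g) (hy : y ∈ Q.Mg g) (hm : Q.mc g x = Q.mc g y)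
    (h : Q.rel x < Q.rel y) (hL : ¬ Q.LI g x) : Q.rel (Q.ef x) ≤ Q.s (Q.ef y) := by
  have hxN := Mg_Ng hx
  have hyN := Mg_Ng hy
  have hex : Q.ef x ≠ 0 := (Finset.mem_filter.1 hxN).2.1
  obtain ⟨heE, helx⟩ := ef_mem hex
  have hmx := mc_spec hxN
  have hmy := mc_spec hyN
  unfold LI at hL
  push Not at hL
  obtain ⟨φ, hφ, hφ1, hφ2⟩ := hL
  rcases Nat.lt_or_ge (Q.ef y) (Q.ef x) with hlt | hge
  · have hlt2 : φ < Q.ef y := by omega
    have h1 := stB hx hy hm h hφ hlt2.le (by omega)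
    have h2 := (ord hφ heE (by omega)).1
    omega
  · exact stB hx hy hm h heE hge (by omega)
-- END yb

-- MODULE yc
/-- (C) dormant stages -/
theorem dormant (hx : x ∈ Q.Mg g) (hL : ¬ Q.LI g x) :
    ((Q.Mg g).filter (fun y => Q.mc g y = Q.mc g x ∧ Q.Dx y % 2 = b ∧ Q.rel x < Q.rel y ∧
      Q.B (Q.ef y) ≤ Q.rel x)).card ≤ 4 * (g + c0 + 2) + 20 := by

  have hxN := Mg_Ng hx
  have hxF := Ng_F hxN
  have hmx := mc_spec hxN
  have hL' : ∃ a ∈ Q.Ef x, a + 2 ^ (g - 1) < Q.mc g x ∧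
      Q.mc g x ≤ a + 2 ^ (g - 1) + 2 ^ (g + c0) := by
    by_contra hcon
    apply hL
    intro a ha h1
    by_contra h2
    exact hcon ⟨a, ha, h1, by omega⟩
  obtain ⟨a, haE, ha1, ha2⟩ := hL'
  have haF : a ∈ Q.F := (mem_En.1 haE).1
  set S := (Q.Mg g).filter (fun y => Q.mc g y = Q.mc g x ∧ Q.Dx y % 2 = b ∧ Q.rel x < Q.rel y ∧
      Q.B (Q.ef y) ≤ Q.rel x) with hS
  have hinj : Set.InjOn Q.ef (S : Set ℕ) := by
    intro y hy y' hy' he
    have hy0 := Finset.mem_coe.1 hy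
    have hy0' := Finset.mem_coe.1 hy'
    rw [hS, Finset.mem_filter] at hy0 hy0'
    obtain ⟨h1, h2, h3, -, -⟩ := hy0
    obtain ⟨h1', h2', h3', -, -⟩ := hy0'
    rcases lt_trichotomy (Q.rel y) (Q.rel y') with h4 | h4 | h4
    · exact absurd he (ef_inj h1 h1' (h2.trans h2'.symm) h4)
    · exact teq h1 h1' (h2.trans h2'.symm) (h3.trans h3'.symm) h4
    · exact absurd he.symm (ef_inj h1' h1 (h2'.trans h2.symm) h4)
  have hef : ∀ y ∈ S, Q.ef y ∈ Q.Ef y ∧ Q.ef y < y := by
    intro y hy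
    rw [hS, Finset.mem_filter] at hy
    have := Mg_Ng hy.1
    rw [Ng, Finset.mem_filter] at this
    exact ef_mem this.2.1
  have hp1 : 2 ^ (g - 1) ≤ 2 ^ (g + c0) := Nat.pow_le_pow_right (by norm_num) (by omega)
  have hp2 : 2 ^ (g + c0 + 1) = 2 * 2 ^ (g + c0) := by ring
  have hd := Q.dorm a haF (Q.mc g x) (S.image Q.ef) (by
      intro j hj
      obtain ⟨y, hy, rfl⟩ := Finset.mem_image.1 hj
      exact (mem_En.1 (hef y hy).1).1) (by
      intro j hj
      obtain ⟨y, hy, rfl⟩ := Finset.mem_image.1 hj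
      obtain ⟨he1, he2⟩ := hef y hy
      have hy0 := hy
      rw [hS, Finset.mem_filter] at hy0
      obtain ⟨g1, g2, -, g3, g4⟩ := hy0
      have hyF := Ng_F (Mg_Ng g1)
      have hmy := mc_spec (Mg_Ng g1)
      have hfar := far g1 he1
      have hqz := Q.qz _ (mem_En.1 he1).1
      have hzz : Q.z (Q.ef y) = Q.Z (Q.rel (Q.ef y)) := rfl
      have haey : a < Q.ef y := by omega
      have hzlt : Q.z (Q.ef y) < a := by omega
      have hord := ord he1 (mem_Ef hyF) he2
      have horda := ord haE (mem_Ef hxF) (by omega)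
      refine ⟨haey, by omega, by omega,
        stB hx g1 g2.symm g3 haE haey.le ha2, by omega, y, hyF, alive he1 (mem_Ef hyF), ?_, ?_⟩
      · show Q.z y < a
        omega
      · have := Q.xw y hyF
        omega)
  rw [Finset.card_image_of_injOn hinj] at hd
  have hlog : Nat.log 2 (Q.mc g x - a) ≤ g + c0 + 2 := by
    have h1 : Q.mc g x - a ≤ 2 ^ (g + c0 + 2) := by
      have : 2 ^ (g + c0 + 2) = 4 * 2 ^ (g + c0) := by ring
      omega
    have h2 := Nat.log_mono_right (b := 2) h1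
    rwa [Nat.log_pow (by norm_num)] at h2
  omega
-- END yc

-- MODULE yd
/-- (D) sweep -/
theorem sweep (hx : x ∈ Q.Rg g) (hy : y ∈ Q.Rg g) (hm : Q.mc g x = Q.mc g y)
    (h : Q.rel x < Q.rel y) (h1 : Q.rel x < Q.B (Q.ef y)) (h2 : 0 < Q.B (Q.ef x)) :
    ∃ τ, Q.B (Q.ef x) ≤ τ + 1 ∧ τ < Q.rel x ∧ (τ, y) ∈ Q.RT := by

  classical
  rw [Rg, Finset.mem_filter] at hx hy
  obtain ⟨hxM, -, hxR, -⟩ := hx
  obtain ⟨hyM, -, -, hyN⟩ := hy
  have hxN := Mg_Ng hxM
  have hyNg := Mg_Ng hyM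
  have hxF := Ng_F hxN
  have hyF := Ng_F hyNg
  have hmx := mc_spec hxN
  have hmy := mc_spec hyNg
  rw [← hm] at hmy
  have hex : Q.ef x ∈ Q.Ef x ∧ Q.ef x < x := by
    rw [Ng, Finset.mem_filter] at hxN
    exact ef_mem hxN.2.1
  have hey : Q.ef y ∈ Q.Ef y ∧ Q.ef y < y := by
    rw [Ng, Finset.mem_filter] at hyNg
    exact ef_mem hyNg.2.1
  have hynot : y ∉ Q.Ef x := by
    intro hyE
    have h3 := stA hxM hyM hm h
    have h4 := alive hyE (mem_Ef hxF)
    omega
  have hR' : ∃ a ∈ Q.Ef x, Q.mc g x + 2 ^ (g + 1) ≤ a ∧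
      a < Q.mc g x + 2 ^ (g + 1) + 2 ^ (g + c0) := by
    by_contra hcon
    apply hxR
    intro a ha h3
    by_contra h4
    exact hcon ⟨a, ha, h3, by omega⟩
  obtain ⟨a, haE, ha1, ha2⟩ := hR'
  obtain ⟨p, hp, hpmax⟩ := Finset.exists_max_image ((Q.Ef x).filter (fun a => a < y)) id
    ⟨Q.ef x, Finset.mem_filter.2 ⟨hex.1, by omega⟩⟩
  obtain ⟨p', hp', hpmin⟩ := Finset.exists_min_image ((Q.Ef x).filter (fun a => y < a)) id
    ⟨a, Finset.mem_filter.2 ⟨haE, by omega⟩⟩
  rw [Finset.mem_filter] at hp hp'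
  have hpe : Q.ef x ≤ p := hpmax (Q.ef x) (Finset.mem_filter.2 ⟨hex.1, by omega⟩)
  have hpa : p' ≤ a := hpmin a (Finset.mem_filter.2 ⟨haE, by omega⟩)
  have hBp : Q.B (Q.ef x) ≤ Q.B p := by
    rcases hpe.eq_or_lt with h3 | h3
    · rw [h3]
    · exact (ord hex.1 hp.1 h3).2.1
  have hfar := far hyM (mem_Ef hyF)
  have e1 : 2 ^ (g + c0 + 1) = 2 ^ 41 * 2 ^ g := by
    rw [show g + c0 + 1 = 41 + g by simp [c0]; omega, pow_add]
  have e2 : 2 ^ (g + 1) = 2 * 2 ^ g := by ring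
  have e3 : 2 ^ (g - 1) ≤ 2 ^ g := Nat.pow_le_pow_right (by norm_num) (by omega)
  have e4 : 2 ^ (g + c0 + 2) = 2 ^ 42 * 2 ^ g := by
    rw [show g + c0 + 2 = 42 + g by simp [c0]; omega, pow_add]
  have e5 : 2 ^ (g + c0) = 2 ^ 40 * 2 ^ g := by
    rw [show g + c0 = 40 + g by simp [c0]; omega, pow_add]
  have hyN' : y + 2 ^ (g + c0 + 2) ≤ Q.w y := by
    by_contra h3
    exact hyN (by unfold RN; omega)
  have hyw : Q.w y = Q.W (Q.rel y) := rfl
  have hyz : Q.z y = Q.Z (Q.rel y) := rfl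
  have hordy := ord hey.1 (mem_Ef hyF) hey.2
  have hal := alive hp'.1 (mem_Ef hxF)
  obtain ⟨τ, t1, t2, t3⟩ := Q.sw p (mem_En.1 hp.1).1 p' (mem_En.1 hp'.1).1 y hyF hp.2 hp'.2
    (alive hp.1 hp'.1) (alive hp'.1 hp.1) (lnk hp.1 hp'.1 (by omega)) (by omega)
    (by omega) (by omega) (by omega)
  exact ⟨τ, by omega, by omega, t3⟩
-- END yd

-- MODULE ye
/-- Counting the pairs. -/
private theorem ye_sweep_pairs {ι : Type*} [DecidableEq ι] (T : Finset (ℕ × ℕ)) (tm bb key : ι → ℕ) (F : Finset ι)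
    (hinj : ∀ i ∈ F, ∀ j ∈ F, tm i = tm j → i = j)
    (hkey : ∀ i ∈ F, ∀ j ∈ F, key i = key j → i = j)
    (hF : ∀ i ∈ F, ∀ j ∈ F, tm i < tm j → tm i < bb j)
    (hsw : ∀ i ∈ F, ∀ j ∈ F, tm i < tm j → 0 < bb i → tm i < bb j →
      ∃ u, bb i ≤ u + 1 ∧ u < tm i ∧ (u, key j) ∈ T) :
    (F.card - 1) * (F.card - 2) ≤ 2 * T.card := by
  rcases F.eq_empty_or_nonempty with h0 | hne
  · rw [h0]
    simp
  obtain ⟨i0, hi0, hmin⟩ := Finset.exists_min_image F tm hne
  set F1 := F.erase i0 with hF1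
  have hc : F1.card = F.card - 1 := Finset.card_erase_of_mem hi0
  set P := (F1 ×ˢ F1).filter (fun q => tm q.1 < tm q.2) with hP
  have h1 : F1.offDiag ⊆ P ∪ P.image Prod.swap := by
    intro q hq
    obtain ⟨hq1, hq2, hq3⟩ := Finset.mem_offDiag.1 hq
    have h2 : tm q.1 ≠ tm q.2 := fun h => hq3
      (hinj _ (Finset.mem_of_mem_erase hq1) _ (Finset.mem_of_mem_erase hq2) h)
    rcases lt_or_gt_of_ne h2 with h3 | h3
    · exact Finset.mem_union_left _ (Finset.mem_filter.2 ⟨Finset.mem_product.2 ⟨hq1, hq2⟩, h3⟩)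
    · refine Finset.mem_union_right _ (Finset.mem_image.2 ⟨(q.2, q.1), ?_, rfl⟩)
      exact Finset.mem_filter.2 ⟨Finset.mem_product.2 ⟨hq2, hq1⟩, h3⟩
  have h2 : (F.card - 1) * (F.card - 2) ≤ 2 * P.card := by
    have h3 := (Finset.card_le_card h1).trans (Finset.card_union_le _ _)
    have h4 : (P.image Prod.swap).card ≤ P.card := Finset.card_image_le
    rw [Finset.offDiag_card, hc] at h3
    have h5 : (F.card - 1) * (F.card - 2) =
        (F.card - 1) * (F.card - 1) - (F.card - 1) := by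
      rcases Nat.lt_or_ge F.card 2 with h6 | h6
      · interval_cases F.card <;> rfl
      · obtain ⟨c, hc'⟩ : ∃ c, F.card = c + 2 := ⟨F.card - 2, by omega⟩
        rw [hc']
        show (c + 1) * c = (c + 1) * (c + 1) - (c + 1)
        rw [Nat.mul_succ]
        omega
    omega
  -- the injection
  have h3 : ∀ q ∈ P, ∃ u, bb q.1 ≤ u + 1 ∧ u < tm q.1 ∧ (u, key q.2) ∈ T := by
    intro q hq
    obtain ⟨hq1, hq2⟩ := Finset.mem_filter.1 hq
    obtain ⟨hq3, hq4⟩ := Finset.mem_product.1 hq1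
    have e1 := Finset.mem_of_mem_erase hq3
    have e2 := Finset.mem_of_mem_erase hq4
    have h4 : tm i0 < tm q.1 := by
      have h5 := hmin q.1 e1
      have h6 : tm i0 ≠ tm q.1 := fun h => Finset.ne_of_mem_erase hq3 (hinj _ hi0 _ e1 h).symm
      omega
    have h5 := hF i0 hi0 q.1 e1 h4
    exact hsw q.1 e1 q.2 e2 hq2 (by omega) (hF _ e1 _ e2 hq2)
  choose! U hU1 hU2 hU3 using h3
  have h4 : P.card ≤ T.card := by
    apply Finset.card_le_card_of_injOn (fun q => (U q, key q.2))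
    · intro q hq
      exact hU3 q hq
    · intro q hq q' hq' heq
      have hq0 := Finset.mem_coe.1 hq
      have hq0' := Finset.mem_coe.1 hq'
      simp only [Prod.mk.injEq] at heq
      obtain ⟨heq1, heq2⟩ := heq
      obtain ⟨hq1, hq2⟩ := Finset.mem_filter.1 hq0
      obtain ⟨hq3, hq4⟩ := Finset.mem_product.1 hq1
      obtain ⟨hq1', hq2'⟩ := Finset.mem_filter.1 hq0'
      obtain ⟨hq3', hq4'⟩ := Finset.mem_product.1 hq1'
      have e1 := Finset.mem_of_mem_erase hq3
      have e2 := Finset.mem_of_mem_erase hq4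
      have e1' := Finset.mem_of_mem_erase hq3'
      have e2' := Finset.mem_of_mem_erase hq4'
      have h5 := hkey _ e2 _ e2' heq2
      have g1 := hU1 q hq0
      have g2 := hU2 q hq0
      have g1' := hU1 q' hq0'
      have g2' := hU2 q' hq0'
      have h6 : q.1 = q'.1 := by
        apply hinj _ e1 _ e1'
        rcases lt_trichotomy (tm q.1) (tm q'.1) with h7 | h7 | h7
        · have := hF _ e1 _ e1' h7
          omega
        · exact h7
        · have := hF _ e1' _ e1 h7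
          omega
      exact Prod.ext h6 h5
  omega

/-- an independent set -/
theorem indep (V : Finset ℕ) (r : ℕ → ℕ) (bad : ℕ → ℕ → Prop) (d : ℕ) [DecidableRel bad]
    (hd : ∀ x ∈ V, (V.filter (fun y => r x < r y ∧ bad x y)).card ≤ d) :
    ∃ U ⊆ V, V.card ≤ (d + 1) * U.card ∧ ∀ x ∈ U, ∀ y ∈ U, r x < r y → ¬ bad x y := by
  induction hn : V.card using Nat.strong_induction_on generalizing V with
  | _ n ih =>
    rcases V.eq_empty_or_nonempty with h0 | hne
    · refine ⟨∅, Finset.empty_subset _, ?_, by simp⟩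
      rw [← hn, h0]
      simp
    · obtain ⟨i, hi, hmin⟩ := Finset.exists_min_image V r hne
      set V1 := (V.erase i).filter (fun j => ¬ (r i < r j ∧ bad i j)) with hV1
      have h1 : V1 ⊆ V := fun x hx => Finset.mem_of_mem_erase (Finset.mem_filter.1 hx).1
      have h2 : V1.card < n := by
        rw [← hn]
        apply Finset.card_lt_card
        rw [Finset.ssubset_iff_of_subset h1]
        exact ⟨i, hi, by simp [hV1]⟩
      obtain ⟨F, h3, h4, h5⟩ := ih V1.card h2 V1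
        (fun x hx => (Finset.card_le_card (Finset.filter_subset_filter _ h1)).trans
          (hd x (h1 hx))) rfl
      have hiF : i ∉ F := fun hx => by
        have := h3 hx
        simp [hV1] at this
      refine ⟨insert i F, ?_, ?_, ?_⟩
      · intro x hx
        rcases Finset.mem_insert.1 hx with h6 | h6
        · rw [h6]; exact hi
        · exact h1 (h3 h6)
      · rw [Finset.card_insert_of_notMem hiF]
        have h6 : V ⊆ insert i (V1 ∪ V.filter (fun j => r i < r j ∧ bad i j)) := by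
          intro x hx
          by_cases hxi : x = i
          · rw [hxi]; exact Finset.mem_insert_self _ _
          · apply Finset.mem_insert_of_mem
            by_cases hb : r i < r x ∧ bad i x
            · exact Finset.mem_union_right _ (Finset.mem_filter.2 ⟨hx, hb⟩)
            · exact Finset.mem_union_left _ (Finset.mem_filter.2
                ⟨Finset.mem_erase.2 ⟨hxi, hx⟩, hb⟩)
        have h7 := (Finset.card_le_card h6).trans (Finset.card_insert_le _ _)
        have h8 := Finset.card_union_le V1 (V.filter (fun j => r i < r j ∧ bad i j))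
        have h9 := hd i hi
        rw [hn] at h7
        nlinarith
      · intro x hx y hy hxy
        rcases Finset.mem_insert.1 hx with h6 | h6
        · rcases Finset.mem_insert.1 hy with h7 | h7
          · rw [h6, h7] at hxy
            omega
          · rw [h6] at hxy ⊢
            have := (Finset.mem_filter.1 (h3 h7)).2
            exact fun hb => this ⟨hxy, hb⟩
        · rcases Finset.mem_insert.1 hy with h7 | h7
          · rw [h7] at hxy
            have := hmin x (h1 (h3 h6))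
            omega
          · exact h5 x h6 y h7 hxy

/-- pairs of an independent set and touches -/
theorem pairs (U : Finset ℕ) (r : ℕ → ℕ) (B : ℕ → ℕ) (T : Finset (ℕ × ℕ)) (L : ℕ) (hL : 1 ≤ L)
    (hr : ∀ x ∈ U, ∀ y ∈ U, r x = r y → x = y)
    (h1 : ∀ x ∈ U, ∀ y ∈ U, r x < r y → r x < B y)
    (h2 : ∀ x ∈ U, ∀ y ∈ U, r x < r y → 0 < B x → ∃ τ, B x ≤ τ + 1 ∧ τ < r x ∧ (τ, y) ∈ T) :
    L * U.card ≤ L ^ 2 + 3 * L + 2 * T.card := by
  have h4 := ye_sweep_pairs T r B id U hr (fun i _ j _ h => h) h1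
    (fun i hi j hj hij hb _ => h2 i hi j hj hij hb)
  rcases Nat.lt_or_ge U.card 3 with h6 | h6
  · have := Nat.mul_le_mul_left L h6.le
    nlinarith
  · obtain ⟨c, hc⟩ : ∃ c, U.card = c + 3 := ⟨U.card - 3, by omega⟩
    rw [hc] at h4 ⊢
    have h7 : c + 3 - 1 = c + 2 := by omega
    have h8 : c + 3 - 2 = c + 1 := by omega
    rw [h7, h8] at h4
    have h9 : L * c ≤ L ^ 2 + c ^ 2 := by
      rcases le_total L c with h10 | h10
      · obtain ⟨d, rfl⟩ := Nat.exists_eq_add_of_le h10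
        nlinarith
      · obtain ⟨d, rfl⟩ := Nat.exists_eq_add_of_le h10
        nlinarith
    nlinarith
-- END ye

-- MODULE yf
/-- (D) one cell -/
theorem cell (L : ℕ) (hL : 1 ≤ L) (g m b : ℕ) :
    L * (Q.St g m b).card ≤ (4 * (g + c0 + 2) + 21) * (L ^ 2 + 3 * L + 2 * (Q.Tc g m).card) := by

  classical
  have hd : ∀ x ∈ Q.St g m b, ((Q.St g m b).filter (fun y => Q.rel x < Q.rel y ∧
      Q.B (Q.ef y) ≤ Q.rel x)).card ≤ 4 * (g + c0 + 2) + 20 := by
    intro x hx
    rw [St, Finset.mem_filter, Rg, Finset.mem_filter] at hx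
    refine (Finset.card_le_card ?_).trans (dormant (b := b) hx.1.1 hx.1.2.1)
    intro y hy
    rw [Finset.mem_filter, St, Finset.mem_filter, Rg, Finset.mem_filter] at hy
    rw [Finset.mem_filter]
    exact ⟨hy.1.1.1, hy.1.2.1.trans hx.2.1.symm, hy.1.2.2, hy.2.1, hy.2.2⟩
  obtain ⟨U, hU1, hU2, hU3⟩ := indep (Q.St g m b) Q.rel (fun x y => Q.B (Q.ef y) ≤ Q.rel x) _ hd
  have hSt : ∀ x ∈ U, x ∈ Q.Rg g ∧ Q.mc g x = m ∧ Q.Dx x % 2 = b := by
    intro x hx
    have := hU1 hx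
    rw [St, Finset.mem_filter] at this
    exact this
  have hMg : ∀ x ∈ U, x ∈ Q.Mg g := by
    intro x hx
    have := (hSt x hx).1
    rw [Rg, Finset.mem_filter] at this
    exact this.1
  have h4 := pairs U Q.rel (fun x => Q.B (Q.ef x)) (Q.Tc g m) L hL
    (fun x hx y hy h => teq (hMg x hx) (hMg y hy) ((hSt x hx).2.1.trans (hSt y hy).2.1.symm)
      ((hSt x hx).2.2.trans (hSt y hy).2.2.symm) h)
    (fun x hx y hy h => not_le.1 (hU3 x hx y hy h))
    (fun x hx y hy h h0 => by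
      obtain ⟨τ, t1, t2, t3⟩ := sweep (hSt x hx).1 (hSt y hy).1
        ((hSt x hx).2.1.trans (hSt y hy).2.1.symm) h (not_le.1 (hU3 x hx y hy h)) h0
      refine ⟨τ, t1, t2, ?_⟩
      rw [Tc, Finset.mem_filter]
      have hmy := mc_spec (Mg_Ng (hMg y hy))
      rw [(hSt y hy).2.1] at hmy
      exact ⟨t3, hmy.2.2.1, hmy.2.2.2⟩)
  calc L * (Q.St g m b).card ≤ L * ((4 * (g + c0 + 2) + 20 + 1) * U.card) :=
        Nat.mul_le_mul_left _ hU2
    _ = (4 * (g + c0 + 2) + 21) * (L * U.card) := by ring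
    _ ≤ _ := Nat.mul_le_mul_left _ h4
-- END yf

-- MODULE yg
/-- all cells -/
theorem cells (L : ℕ) (hL : 1 ≤ L) (g : ℕ) :
    L * (Q.Rg g).card ≤ 2 ^ 16 * (g + 1) * (L ^ 2 * (top / 2 ^ g + 1) + Q.RT.card) := by

  classical
  rcases (Q.Rg g).eq_empty_or_nonempty with h0 | ⟨x0, hx0⟩
  · rw [h0]
    simp
  have hg : 2 ≤ g := by
    rw [Rg, Finset.mem_filter] at hx0
    have := Ng_k (Mg_Ng hx0.1)
    omega
  set M : Finset ℕ := Finset.range (2 * (top / 2 ^ g + 1)) with hM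
  set P : ℕ := 2 ^ (g - 1) with hP
  have hP0 : 0 < P := by positivity
  have hPg : 2 ^ g = 2 * P := by
    rw [hP, ← pow_succ']
    congr 1
    omega
  have hPg1 : 2 ^ (g + 1) = 4 * P := by
    rw [pow_succ, hPg]
    ring
  -- the cells
  have hsub : Q.Rg g ⊆ (M ×ˢ Finset.range 2).biUnion (fun p => Q.St g (p.1 * P) p.2) := by
    intro x hx
    have hxM : x ∈ Q.Mg g := by
      rw [Rg, Finset.mem_filter] at hx
      exact hx.1
    have hxF := Ng_F (Mg_Ng hxM)
    have hmx := mc_spec (Mg_Ng hxM)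
    have hxw := Q.xw x hxF
    have hwt := Q.wt x hxF
    have hmc : Q.mc g x = (Q.ef x / P + 1) * P := rfl
    rw [Finset.mem_biUnion]
    refine ⟨(Q.ef x / P + 1, Q.Dx x % 2), Finset.mem_product.2 ⟨?_, ?_⟩, ?_⟩
    · rw [hM, Finset.mem_range]
      have h1 : (Q.ef x / P + 1) * P < top := by omega
      have h2 : top < 2 ^ g * (top / 2 ^ g + 1) := by
        have h3 := Nat.div_add_mod top (2 ^ g)
        have h4 := Nat.mod_lt top (show 0 < 2 ^ g by positivity)
        rw [Nat.mul_add, Nat.mul_one]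
        omega
      rw [hPg] at h2
      have h3 : (Q.ef x / P + 1) * P < (2 * (top / (2 * P) + 1)) * P := by
        calc (Q.ef x / P + 1) * P < top := h1
          _ < 2 * P * (top / (2 * P) + 1) := h2
          _ = _ := by ring
      have h4 := lt_of_mul_lt_mul_right h3 (Nat.zero_le P)
      rw [hPg]
      exact h4
    · exact Finset.mem_range.2 (Nat.mod_lt _ (by norm_num))
    · rw [St, Finset.mem_filter]
      exact ⟨hx, hmc, rfl⟩
  have h1 : L * (Q.Rg g).card ≤ ∑ p ∈ M ×ˢ Finset.range 2, L * (Q.St g (p.1 * P) p.2).card := by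
    rw [← Finset.mul_sum]
    exact Nat.mul_le_mul_left _ ((Finset.card_le_card hsub).trans Finset.card_biUnion_le)
  have h2 : ∑ p ∈ M ×ˢ Finset.range 2, L * (Q.St g (p.1 * P) p.2).card ≤
      ∑ p ∈ M ×ˢ Finset.range 2, (4 * (g + c0 + 2) + 21) *
        (L ^ 2 + 3 * L + 2 * (Q.Tc g (p.1 * P)).card) :=
    Finset.sum_le_sum (fun p _ => cell L hL g _ _)
  have h3 : ∑ p ∈ M ×ˢ Finset.range 2, (4 * (g + c0 + 2) + 21) *
        (L ^ 2 + 3 * L + 2 * (Q.Tc g (p.1 * P)).card) =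
      (4 * (g + c0 + 2) + 21) * (2 * (M.card * (L ^ 2 + 3 * L) +
        2 * ∑ j ∈ M, (Q.Tc g (j * P)).card)) := by
    rw [← Finset.mul_sum, Finset.sum_product]
    simp only [Finset.sum_const, Finset.card_range, smul_eq_mul]
    rw [← Finset.mul_sum, Finset.sum_add_distrib, ← Finset.mul_sum, Finset.sum_const, smul_eq_mul]
  have h4 : ∑ j ∈ M, (Q.Tc g (j * P)).card ≤ 4 * Q.RT.card := by
    have h5 : ∀ j ∈ M, (Q.Tc g (j * P)).card =
        ∑ r ∈ Q.RT, if (j * P < r.2 ∧ r.2 < j * P + 2 ^ (g + 1)) then 1 else 0 := by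
      intro j _
      rw [Tc, Finset.card_filter]
    rw [Finset.sum_congr rfl h5, Finset.sum_comm]
    calc ∑ r ∈ Q.RT, ∑ j ∈ M, (if (j * P < r.2 ∧ r.2 < j * P + 2 ^ (g + 1)) then 1 else 0)
        ≤ ∑ r ∈ Q.RT, 4 := by
          refine Finset.sum_le_sum (fun r _ => ?_)
          rw [← Finset.card_filter]
          have h6 : M.filter (fun j => j * P < r.2 ∧ r.2 < j * P + 2 ^ (g + 1)) ⊆
              Finset.Icc (r.2 / P - 3) (r.2 / P) ∪ Finset.Icc (r.2 / P - 3) (r.2 / P) := by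
            intro j hj
            rw [Finset.mem_filter] at hj
            obtain ⟨-, j1, j2⟩ := hj
            rw [hPg1] at j2
            rw [Finset.mem_union, Finset.mem_Icc]
            left
            have j3 : j ≤ r.2 / P := (Nat.le_div_iff_mul_le hP0).2 j1.le
            have j4 : r.2 / P < j + 4 := by
              rw [Nat.div_lt_iff_lt_mul hP0]
              calc r.2 < j * P + 4 * P := j2
                _ = (j + 4) * P := by ring
            omega
          rw [Finset.union_self] at h6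
          refine (Finset.card_le_card h6).trans ?_
          rw [Nat.card_Icc]
          omega
      _ = 4 * Q.RT.card := by rw [Finset.sum_const, smul_eq_mul, mul_comm]
  have h5 : M.card = 2 * (top / 2 ^ g + 1) := by rw [hM, Finset.card_range]
  have h6 : L ^ 2 + 3 * L ≤ 4 * L ^ 2 := by nlinarith
  set A := top / 2 ^ g + 1 with hA
  calc L * (Q.Rg g).card ≤ (4 * (g + c0 + 2) + 21) * (2 * (M.card * (L ^ 2 + 3 * L) +
        2 * ∑ j ∈ M, (Q.Tc g (j * P)).card)) := by
        rw [← h3]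
        exact h1.trans h2
    _ ≤ (4 * (g + c0 + 2) + 21) * (2 * (2 * A * (4 * L ^ 2) + 2 * (4 * Q.RT.card))) := by
        rw [h5]
        gcongr
    _ ≤ (189 * (g + 1)) * (16 * (L ^ 2 * A + Q.RT.card)) := by
        apply Nat.mul_le_mul
        · simp only [c0]
          omega
        · have e1 : 2 * (2 * A * (4 * L ^ 2) + 2 * (4 * Q.RT.card)) =
              16 * (L ^ 2 * A + Q.RT.card) := by ring
          exact e1.le
    _ ≤ 2 ^ 16 * (g + 1) * (L ^ 2 * A + Q.RT.card) := by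
        have e1 : (189 * (g + 1)) * (16 * (L ^ 2 * A + Q.RT.card)) =
            3024 * ((g + 1) * (L ^ 2 * A + Q.RT.card)) := by ring
        have e2 : 2 ^ 16 * (g + 1) * (L ^ 2 * A + Q.RT.card) =
            65536 * ((g + 1) * (L ^ 2 * A + Q.RT.card)) := by ring
        rw [e1, e2]
        exact Nat.mul_le_mul_right _ (by norm_num)
-- END yg

end Fam

end Pool.Agent.SplTr
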