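import Pool.Agent.SplTr.CCnt
import Pool.Agent.SplTr.CStg
import Pool.Agent.SplTr.Ari

set_option autoImplicit false

/-!
# P3 and P4: the number of rounds of a class
-/

namespace Pool.Agent.SplTr

namespace Fam

variable {k c top : ℕ} (Q : Fam k c top)

-- MODULE za
/-- the constant of P3 -/
def K3 (c : ℕ) : ℕ := 2 ^ (c + c0 + 20)

/-- **P3**: one gap level -/
theorem level (g L : ℕ) (hL : 1 ≤ L) : L * (Q.Ng g).card ≤
    5 * L * (∑ R ∈ Finset.Icc (g + c0) (Nat.log 2 top), (Q.Ng R).card) +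
    K3 c * (g + 1) * (L ^ 2 * (top / 2 ^ g + 1) + Q.RT.card) := by

  classical
  set S : ℕ := ∑ R ∈ Finset.Icc (g + c0) (Nat.log 2 top), (Q.Ng R).card with hS
  set A : ℕ := top / 2 ^ g + 1 with hA
  have hpos : 0 < 2 ^ g := by positivity
  have htop : top ≤ 2 ^ g * A := by
    rw [hA]
    have h3 := Nat.div_add_mod top (2 ^ g)
    have h4 := Nat.mod_lt top hpos
    rw [Nat.mul_add, Nat.mul_one]
    omega
  have key : ∀ N K : ℕ, 2 ^ g * N ≤ K * top → N ≤ K * A := by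
    intro N K h
    have h5 : 2 ^ g * N ≤ 2 ^ g * (K * A) := by
      calc 2 ^ g * N ≤ K * top := h
        _ ≤ K * (2 ^ g * A) := Nat.mul_le_mul_left _ htop
        _ = 2 ^ g * (K * A) := by ring
    exact le_of_mul_le_mul_left h5 hpos
  have h1 := key _ _ (Q.nmain g)
  have h2 := key _ _ (Q.Wn_card g)
  have h3 := key _ _ (Q.cRN g)
  have h4 := Q.cLI g
  have h5 := Q.cRI g
  have h6 := cells (Q := Q) L hL g
  have hsub : Q.Ng g ⊆ (Q.Ng g).filter (fun x => ¬ g + c0 < Q.Dx x) ∪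
      ((Q.Mg g).filter (fun x => Q.LI g x) ∪ ((Q.Mg g).filter (fun x => Q.RI g x) ∪
        ((Q.Mg g).filter (fun x => Q.RN g x) ∪ Q.Rg g))) := by
    intro x hx
    simp only [Finset.mem_union, Finset.mem_filter, Rg, Mg]
    by_cases e1 : g + c0 < Q.Dx x
    · by_cases e2 : Q.LI g x
      · exact Or.inr (Or.inl ⟨⟨hx, e1⟩, e2⟩)
      · by_cases e3 : Q.RI g x
        · exact Or.inr (Or.inr (Or.inl ⟨⟨hx, e1⟩, e3⟩))
        · by_cases e4 : Q.RN g x
          · exact Or.inr (Or.inr (Or.inr (Or.inl ⟨⟨hx, e1⟩, e4⟩)))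
          · exact Or.inr (Or.inr (Or.inr (Or.inr ⟨⟨hx, e1⟩, e2, e3, e4⟩)))
    · exact Or.inl ⟨hx, e1⟩
  have h7 : (Q.Ng g).card ≤ 5 * S + (2 ^ (c + 11) + 5 * 2 ^ (c + 4) + 2 ^ (c + c0 + 10)) * A +
      (Q.Rg g).card := by
    have e1 := Finset.card_le_card hsub
    have e2 := Finset.card_union_le ((Q.Ng g).filter (fun x => ¬ g + c0 < Q.Dx x))
      ((Q.Mg g).filter (fun x => Q.LI g x) ∪ ((Q.Mg g).filter (fun x => Q.RI g x) ∪
        ((Q.Mg g).filter (fun x => Q.RN g x) ∪ Q.Rg g)))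
    have e3 := Finset.card_union_le ((Q.Mg g).filter (fun x => Q.LI g x))
      ((Q.Mg g).filter (fun x => Q.RI g x) ∪ ((Q.Mg g).filter (fun x => Q.RN g x) ∪ Q.Rg g))
    have e4 := Finset.card_union_le ((Q.Mg g).filter (fun x => Q.RI g x))
      ((Q.Mg g).filter (fun x => Q.RN g x) ∪ Q.Rg g)
    have e5 := Finset.card_union_le ((Q.Mg g).filter (fun x => Q.RN g x)) (Q.Rg g)
    have e6 : (2 ^ (c + 11) + 5 * 2 ^ (c + 4) + 2 ^ (c + c0 + 10)) * A =
        2 ^ (c + 11) * A + 5 * (2 ^ (c + 4) * A) + 2 ^ (c + c0 + 10) * A := by ring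
    rw [e6]
    omega
  have h8 : 2 ^ (c + 11) + 5 * 2 ^ (c + 4) + 2 ^ (c + c0 + 10) ≤ 2 ^ (c + c0 + 12) := by
    have e1 : 2 ^ (c + 11) ≤ 2 ^ (c + c0 + 10) :=
      Nat.pow_le_pow_right (by norm_num) (by simp only [c0]; omega)
    have e2 : 5 * 2 ^ (c + 4) ≤ 2 ^ (c + c0 + 10) := by
      calc 5 * 2 ^ (c + 4) ≤ 8 * 2 ^ (c + 4) := by gcongr; norm_num
        _ = 2 ^ (c + 7) := by ring
        _ ≤ _ := Nat.pow_le_pow_right (by norm_num) (by simp only [c0]; omega)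
    have e3 : 2 ^ (c + c0 + 12) = 4 * 2 ^ (c + c0 + 10) := by ring
    omega
  have h9 : (2:ℕ) ^ 16 ≤ 2 ^ (c + c0 + 12) :=
    Nat.pow_le_pow_right (by norm_num) (by simp only [c0]; omega)
  have hLL : L ≤ L ^ 2 := by nlinarith
  calc L * (Q.Ng g).card ≤ L * (5 * S + (2 ^ (c + 11) + 5 * 2 ^ (c + 4) + 2 ^ (c + c0 + 10)) * A +
      (Q.Rg g).card) := Nat.mul_le_mul_left _ h7
    _ = 5 * L * S + L * ((2 ^ (c + 11) + 5 * 2 ^ (c + 4) + 2 ^ (c + c0 + 10)) * A) +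
        L * (Q.Rg g).card := by ring
    _ ≤ 5 * L * S + L ^ 2 * (2 ^ (c + c0 + 12) * A) +
        2 ^ (c + c0 + 12) * (g + 1) * (L ^ 2 * A + Q.RT.card) := by
        have e1 : L * (Q.Rg g).card ≤ 2 ^ (c + c0 + 12) * (g + 1) * (L ^ 2 * A + Q.RT.card) := by
          refine h6.trans ?_
          gcongr
        have e2 : L * ((2 ^ (c + 11) + 5 * 2 ^ (c + 4) + 2 ^ (c + c0 + 10)) * A) ≤
            L ^ 2 * (2 ^ (c + c0 + 12) * A) := by gcongr
        omega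
    _ ≤ 5 * L * S + (2 * 2 ^ (c + c0 + 12)) * (g + 1) * (L ^ 2 * A + Q.RT.card) := by
        have e1 : L ^ 2 * (2 ^ (c + c0 + 12) * A) ≤
            2 ^ (c + c0 + 12) * (g + 1) * (L ^ 2 * A + Q.RT.card) := by
          calc L ^ 2 * (2 ^ (c + c0 + 12) * A) = 2 ^ (c + c0 + 12) * 1 * (L ^ 2 * A + 0) := by ring
            _ ≤ _ := by gcongr <;> omega
        have e2 : (2 * 2 ^ (c + c0 + 12)) * (g + 1) * (L ^ 2 * A + Q.RT.card) =
            2 ^ (c + c0 + 12) * (g + 1) * (L ^ 2 * A + Q.RT.card) +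
            2 ^ (c + c0 + 12) * (g + 1) * (L ^ 2 * A + Q.RT.card) := by ring
        omega
    _ ≤ 5 * L * S + K3 c * (g + 1) * (L ^ 2 * A + Q.RT.card) := by
        have e1 : 2 * 2 ^ (c + c0 + 12) ≤ K3 c := by
          rw [K3, ← pow_succ']
          exact Nat.pow_le_pow_right (by norm_num) (by omega)
        gcongr

/-- all rounds of the class -/
theorem F_card : Q.F.card ≤
    (Q.Wn k).card + ∑ g ∈ Finset.Icc (k + 2) (Nat.log 2 top), (Q.Ng g).card := by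

  classical
  have hsub : Q.F ⊆ Q.F.filter (fun x => Q.ef x = 0 ∧ k ≤ Q.Dx x) ∪
      (Finset.Icc (k + 2) (Nat.log 2 top)).biUnion (fun g => Q.Ng g) := by
    intro x hx
    rw [Finset.mem_union]
    by_cases h : Q.ef x = 0
    · exact Or.inl (Finset.mem_filter.2 ⟨hx, h, k_le_Dx hx⟩)
    · right
      have hN : x ∈ Q.Ng (Q.gf x) := by
        rw [Ng, Finset.mem_filter]
        exact ⟨hx, h, rfl⟩
      rw [Finset.mem_biUnion]
      refine ⟨Q.gf x, Finset.mem_Icc.2 ⟨Ng_k hN, ?_⟩, hN⟩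
      rw [gf]
      apply Nat.log_mono_right
      have h1 := Q.xw x hx
      have h2 := Q.wt x hx
      omega
  calc Q.F.card ≤ _ := Finset.card_le_card hsub
    _ ≤ _ := Finset.card_union_le _ _
    _ ≤ _ := Nat.add_le_add (Q.minc k) Finset.card_biUnion_le
-- END za

end Fam

-- MODULE zc
/-- **P3 + P4**: the number of rounds of a class of scale `k` -/
theorem class_bound (c : ℕ) : ∃ C : ℕ, ∀ (k top : ℕ) (Q : Fam k c top) (A : ℕ), 1 ≤ A →
    A * 9 ^ k * Q.F.card ≤ C * 8 ^ k * (A ^ 2 * top + Q.RT.card) := by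
  refine ⟨100 * Fam.K3 c + 2 ^ (c + 4), ?_⟩
  intro k top Q A hA
  rcases Nat.eq_zero_or_pos top with h0 | h0
  · have h1 : Q.F = ∅ := by
      rw [Finset.eq_empty_iff_forall_notMem]
      intro x hx
      have h2 := Q.xw x hx
      have h3 := Q.wt x hx
      omega
    rw [h1]
    simp
  -- the recursion
  have hG : ∀ a, Finset.Ico a (Nat.log 2 top + 1) = Finset.Icc a (Nat.log 2 top) := by
    intro a
    ext x
    simp only [Finset.mem_Ico, Finset.mem_Icc]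
    omega
  have h1 := ari (Fam.K3 c) 5 c0 (by unfold c0; norm_num) (2 * top) Q.RT.card A
    (Nat.log 2 top + 1) k (fun g => (Q.Ng g).card) hA
    (by
      intro g hg
      rw [Finset.card_eq_zero, Finset.eq_empty_iff_forall_notMem]
      intro x hx
      have := Fam.Ng_k hx
      omega)
    (by
      intro g _ hg L hL
      have h2 := Q.level g L hL
      rw [← hG] at h2
      have h3 : 2 ^ g ≤ top := Nat.pow_le_of_le_log (by omega) (by omega)
      have h4 : (top / 2 ^ g + 1) * 2 ^ g ≤ 2 * top := by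
        have := Nat.div_mul_le_self top (2 ^ g)
        nlinarith
      obtain ⟨Sg, hSg⟩ : ∃ s', s' = ∑ R ∈ Finset.Ico (g + c0) (Nat.log 2 top + 1),
        (Q.Ng R).card := ⟨_, rfl⟩
      rw [← hSg] at h2 ⊢
      calc L * 2 ^ g * (Q.Ng g).card = 2 ^ g * (L * (Q.Ng g).card) := by ring
        _ ≤ 2 ^ g * (5 * L * Sg +
            Fam.K3 c * (g + 1) * (L ^ 2 * (top / 2 ^ g + 1) + Q.RT.card)) :=
          Nat.mul_le_mul_left _ h2
        _ = Fam.K3 c * (g + 1) * (L ^ 2 * ((top / 2 ^ g + 1) * 2 ^ g) + Q.RT.card * 2 ^ g) +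
            L * 2 ^ g * (5 * Sg) := by ring
        _ ≤ Fam.K3 c * (g + 1) * (L ^ 2 * (2 * top) + Q.RT.card * 2 ^ g) +
            L * 2 ^ g * (5 * Sg) := by
          gcongr
        _ = Fam.K3 c * (g + 1) * (2 * top * L ^ 2 + Q.RT.card * 2 ^ g) +
            L * 2 ^ g * (5 * Sg) := by ring)
  have h2 := Q.F_card
  have h3 := Q.Wn_card k
  have h4 : ∑ g ∈ Finset.Icc (k + 2) (Nat.log 2 top), (Q.Ng g).card ≤
      ∑ g ∈ Finset.range (Nat.log 2 top + 1), (Q.Ng g).card := by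
    apply Finset.sum_le_sum_of_subset
    intro x hx
    simp only [Finset.mem_Icc, Finset.mem_range] at hx ⊢
    omega
  obtain ⟨T, hT⟩ : ∃ T, T = ∑ g ∈ Finset.range (Nat.log 2 top + 1), (Q.Ng g).card := ⟨_, rfl⟩
  obtain ⟨W, hW⟩ : ∃ W, W = (Q.Wn k).card := ⟨_, rfl⟩
  rw [← hT] at h1 h4
  rw [← hW] at h2 h3
  have h5 : Q.F.card ≤ W + T := by omega
  -- the windows
  have h6 : A * 9 ^ k * W ≤ 2 ^ (c + 4) * 8 ^ k * (A ^ 2 * top) := by
    have h7 : 9 ^ k ≤ 2 ^ k * 8 ^ k := by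
      rw [← mul_pow]
      exact Nat.pow_le_pow_left (by norm_num) k
    calc A * 9 ^ k * W ≤ A * (2 ^ k * 8 ^ k) * W := by gcongr
      _ = A * 8 ^ k * (2 ^ k * W) := by ring
      _ ≤ A * 8 ^ k * (2 ^ (c + 4) * top) := Nat.mul_le_mul_left _ h3
      _ ≤ A ^ 2 * 8 ^ k * (2 ^ (c + 4) * top) := by
          apply Nat.mul_le_mul_right
          apply Nat.mul_le_mul_right
          nlinarith
      _ = 2 ^ (c + 4) * 8 ^ k * (A ^ 2 * top) := by ring
  -- the levels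
  have h8 : A * 9 ^ k * T ≤ 100 * Fam.K3 c * 8 ^ k * (A ^ 2 * top + Q.RT.card) := by
    have h9 : 0 < 5 ^ k := by positivity
    apply Nat.le_of_mul_le_mul_left _ h9
    have h10 : 9 ^ k * 4 ^ k ≤ 5 ^ k * 8 ^ k := by
      rw [← mul_pow, ← mul_pow]
      exact Nat.pow_le_pow_left (by norm_num) k
    calc 5 ^ k * (A * 9 ^ k * T) = 9 ^ k * (A * 5 ^ k * T) := by ring
      _ ≤ 9 ^ k * (50 * Fam.K3 c * 4 ^ k * (A ^ 2 * (2 * top) + Q.RT.card)) :=
          Nat.mul_le_mul_left _ h1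
      _ = (9 ^ k * 4 ^ k) * (50 * Fam.K3 c * (A ^ 2 * (2 * top) + Q.RT.card)) := by ring
      _ ≤ (5 ^ k * 8 ^ k) * (50 * Fam.K3 c * (A ^ 2 * (2 * top) + Q.RT.card)) :=
          Nat.mul_le_mul_right _ h10
      _ ≤ (5 ^ k * 8 ^ k) * (100 * Fam.K3 c * (A ^ 2 * top + Q.RT.card)) := by
          apply Nat.mul_le_mul_left
          nlinarith [Nat.zero_le (Fam.K3 c * Q.RT.card)]
      _ = 5 ^ k * (100 * Fam.K3 c * 8 ^ k * (A ^ 2 * top + Q.RT.card)) := by ring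
  calc A * 9 ^ k * Q.F.card ≤ A * 9 ^ k * (W + T) := Nat.mul_le_mul_left _ h5
    _ = A * 9 ^ k * W + A * 9 ^ k * T := by ring
    _ ≤ 2 ^ (c + 4) * 8 ^ k * (A ^ 2 * top) +
        100 * Fam.K3 c * 8 ^ k * (A ^ 2 * top + Q.RT.card) := add_le_add h6 h8
    _ ≤ (100 * Fam.K3 c + 2 ^ (c + 4)) * 8 ^ k * (A ^ 2 * top + Q.RT.card) := by
        nlinarith [Nat.zero_le (2 ^ (c + 4) * 8 ^ k * Q.RT.card)]
-- END zc

end Pool.Agent.SplTr
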