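import Pool.Agent.SplTr.InsS
import Pool.Agent.SplTr.CFin

set_option autoImplicit false

/-!
# The rounds of a class of a splitting system, and their number
-/

namespace Pool.Agent.SplTr

namespace Ins

open Pool.Agent.SplLog Pool.Agent.SplLs Pool.Agent.SplDq
open scoped Classical

variable {S : Sys} {x y f : Rnd} {k : ℕ} {F : Finset Rnd}

/-- The round of the key `x`. -/
noncomputable def rk (F : Finset Rnd) (x : ℕ) : Rnd :=
  if h : ∃ r ∈ F, r.g = x then h.choose else ⟨0, 0, 0, 0, 0, 0, 0⟩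

/-- the keys -/
noncomputable def gs (F : Finset Rnd) : Finset ℕ := F.image (fun r => r.g)

theorem rk_spec {F : Finset Rnd} {x : ℕ} (h : x ∈ gs F) : rk F x ∈ F ∧ (rk F x).g = x := by
  obtain ⟨r, hr, he⟩ := Finset.mem_image.1 h
  have hex : ∃ r ∈ F, r.g = x := ⟨r, hr, he⟩
  unfold rk
  rw [dif_pos hex]
  exact hex.choose_spec

/-- The class of rounds as a `Fam`. -/
noncomputable def fam (hG : Good S) (hc : Cls S k F) : Fam k 0 S.top where
  F := gs F
  q x := (rk F x).q
  s x := (rk F x).s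
  rel x := (rk F x).rel
  B x := bt S (rk F x)
  Z := S.X
  W := rw S
  RT := S.set (fun t v => S.L t v)
  sr x hx := by
    have h := hc.rd _ (rk_spec hx).1
    exact h.rs
  qz x hx := by
    have h := hc.rd _ (rk_spec hx).1
    exact h.rq
  zx x hx := by
    have h := hc.rel _ (rk_spec hx).1
    rwa [(rk_spec hx).2] at h
  xw x hx := by
    have h := rd_rw hG.spl (hc.rd _ (rk_spec hx).1)
    rwa [(rk_spec hx).2] at h
  wt x _ := w_top S _
  rt r hr := by
    rw [Sys.mem_set] at hr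
    exact (S.key _ hr.2.1).2.le
  h1 x hx y hy hxy h1 h2 := by
    have ex := rk_spec hx
    have ey := rk_spec hy
    have hx' := hc.rd _ ex.1
    have hy' := hc.rd _ ey.1
    have := hc.sep _ ex.1 _ ey.1 (by rw [ex.2, ey.2]; exact hxy)
      ⟨min (rk F x).rel (rk F y).rel, ⟨by
        have := hx'.rs
        omega, by omega⟩, ⟨by
        have := hy'.rs
        omega, by omega⟩⟩
    rwa [ex.2, ey.2] at this
  zz x hx y hy h := w_zz (rd_rel (hc.rd _ (rk_spec hy).1)) h
  ww x hx y hy h := w_ww h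
  f0 x hx y hy h h' := by
    have ex := rk_spec hx
    have h1 := rd_f0 (hc.rd _ ex.1) (hc.f0 _ ex.1) (u := (rk F y).rel) h
      (by rw [ex.2]; exact h')
    rw [ex.2] at h1
    simp only [pow_zero, one_mul]
    omega
  nq x hx y hy h1 h2 := by
    have ex := rk_spec hx
    have h3 := (hc.rd _ ex.1).nr _ h1 h2
    rw [ex.2] at h3
    omega
  l1 x hx y hy h h1 h2 hq := by
    have ex := rk_spec hx
    have ey := rk_spec hy
    exact pL1 hG (hc.rd _ ex.1) (hc.rd _ ey.1) (by rw [ex.2, ey.2]; exact h) h1 h2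
      (by rw [ex.2]; exact hq)
  l3 x hx y hy h h1 h2 hq := by
    have ex := rk_spec hx
    have ey := rk_spec hy
    exact pL3 hG (hc.rd _ ex.1) (hc.rd _ ey.1) (by rw [ex.2, ey.2]; exact h) h1 h2
      (by rw [ex.2]; exact hq)
  sw x hx y hy f hf h h' h1 h2 hq hb h3 h4 h5 := by
    have ex := rk_spec hx
    have ey := rk_spec hy
    have ef := rk_spec hf
    obtain ⟨τ, h6, h7, h8⟩ := pL6 hG (hc.rd _ ex.1) (hc.rd _ ey.1) (hc.rd _ ef.1)
      (by rw [ex.2, ef.2]; exact h) (by rw [ey.2, ef.2]; exact h') h1 h2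
      (by rw [ex.2]; exact hq) hb (by rw [ex.2]; exact h3) (by rw [ey.2]; exact h4) h5
    rw [ef.2] at h8
    exact ⟨τ, h6, h7, Sys.mem_set.2 ⟨h8.1, h8.2.1, h8⟩⟩
  keys D := by
    set u := 2 ^ (D - (0 + 2)) with hu
    have hu0 : 0 < u := by positivity
    have e : ((gs F).filter (fun x => S.X (rk F x).rel + 2 ^ D ≤ x)).image
        (fun x => (S.X (rk F x).rel / u, rw S (rk F x).rel / u)) ⊆
        ((((gs F).filter (fun x => S.X (rk F x).rel + 2 ^ D ≤ x)).image
          (fun x => (rk F x).rel))).image (fun t => (S.X t / u, rw S t / u)) := by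
      rw [Finset.image_image]
      exact subset_rfl
    refine (Finset.card_le_card e).trans (wkeys _ _ ?_)
    intro t ht
    obtain ⟨x, hx, rfl⟩ := Finset.mem_image.1 ht
    rw [Finset.mem_filter] at hx
    have ex := rk_spec hx.1
    have h1 := rd_rw hG.spl (hc.rd _ ex.1)
    rw [ex.2] at h1
    refine ⟨rd_rel (hc.rd _ ex.1), ?_⟩
    have h2 := hx.2
    rw [Nat.le_div_iff_mul_le hu0]
    have h3 := Nat.div_mul_le_self (S.X (rk F x).rel) u
    rcases Nat.lt_or_ge D 3 with h4 | h4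
    · have hu1 : u = 1 := by
        rw [hu]
        have : D - (0 + 2) = 0 := by omega
        rw [this, pow_zero]
      have h5 : 1 ≤ 2 ^ D := Nat.one_le_two_pow
      rw [hu1] at h3 ⊢
      omega
    · have h5 : 2 ^ D = 4 * u := by
        rw [hu]
        obtain ⟨d, rfl⟩ : ∃ d, D = d + 2 := ⟨D - 2, by omega⟩
        have : d + 2 - (0 + 2) = d := by omega
        rw [this, pow_add]
        ring
      rw [add_mul]
      omega
  dorm a ha b J hJ h := by
    have ea := rk_spec ha
    have hinj : Set.InjOn (rk F) (J : Set ℕ) := by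
      intro x hx y hy he
      have h1 := (rk_spec (hJ hx)).2
      have h2 := (rk_spec (hJ hy)).2
      rw [← h1, ← h2, he]
    rw [← Finset.card_image_of_injOn hinj]
    have h0 := pDm (S := S) hG (a := rk F a) (b := b) (J := J.image (rk F)) (hc.rd _ ea.1) ?_ ?_ ?_
    · rw [ea.2] at h0
      exact h0
    · intro r hr
      obtain ⟨x, hx, rfl⟩ := Finset.mem_image.1 hr
      exact hc.rd _ (rk_spec (hJ hx)).1
    · intro r hr r' hr' he
      obtain ⟨x, hx, rfl⟩ := Finset.mem_image.1 hr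
      obtain ⟨y, hy, rfl⟩ := Finset.mem_image.1 hr'
      exact hc.inj _ (rk_spec (hJ hx)).1 _ (rk_spec (hJ hy)).1 he
    · intro r hr
      obtain ⟨x, hx, rfl⟩ := Finset.mem_image.1 hr
      have ex := rk_spec (hJ hx)
      obtain ⟨h1, h2, h3, h4, h5, f, hf, h6, h7, h8⟩ := h x hx
      have ef := rk_spec hf
      rw [ea.2, ex.2]
      exact ⟨h1, h2, h3, h4, h5, rk F f, hc.rd _ ef.1, h6, h7, h8⟩

theorem card_gs (hc : Cls S k F) : (gs F).card = F.card := by
  unfold gs
  rw [Finset.card_image_of_injOn]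
  intro r hr r' hr' he
  exact hc.inj _ hr _ hr' he

theorem rt_le (S : Sys) : (S.set (fun t v => S.L t v)).card ≤ tch S := by
  unfold tch Sys.cnt
  apply Finset.card_le_card
  intro p hp
  rw [Sys.mem_set] at hp ⊢
  exact ⟨hp.1, hp.2.1, Or.inr (Or.inl hp.2.2)⟩

theorem sq_le (k : ℕ) : (k + 1) ^ 2 * 8 ^ k ≤ 64 * 9 ^ k := by
  rcases Nat.lt_or_ge k 17 with h | h
  · interval_cases k <;> norm_num
  · induction k, h using Nat.le_induction with
    | base => norm_num
    | succ k hk ih =>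
      have h1 : 8 * (k + 2) ^ 2 ≤ 9 * (k + 1) ^ 2 := by
        obtain ⟨j, rfl⟩ : ∃ j, k = j + 17 := ⟨k - 17, by omega⟩
        have : 9 * (j + 17 + 1) ^ 2 = 8 * (j + 17 + 2) ^ 2 + (j ^ 2 + 20 * j + 28) := by ring
        omega
      calc (k + 1 + 1) ^ 2 * 8 ^ (k + 1) = (8 * (k + 2) ^ 2) * 8 ^ k := by ring
        _ ≤ (9 * (k + 1) ^ 2) * 8 ^ k := Nat.mul_le_mul_right _ h1
        _ = 9 * ((k + 1) ^ 2 * 8 ^ k) := by ring
        _ ≤ 9 * (64 * 9 ^ k) := Nat.mul_le_mul_left _ ih
        _ = 64 * 9 ^ (k + 1) := by ring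

/-- **Parts 3 and 4.** -/
theorem clsCard : ClsCard := by
  intro A
  obtain ⟨C, hC⟩ := class_bound 0
  -- with `A' = 64 (A + 1) (C + 1)`
  refine ⟨64 * (64 * (A + 1) * (C + 1)) ^ 2, fun S hG k F hc => ?_⟩
  have h1 := hC k S.top (fam hG hc) (64 * (A + 1) * (C + 1)) (by
    have : 0 < 64 * (A + 1) * (C + 1) := by positivity
    omega)
  have h2 : (fam hG hc).F.card = F.card := card_gs hc
  have h3 : (fam hG hc).RT.card ≤ tch S := rt_le S
  rw [h2] at h1
  set R := (fam hG hc).RT.card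
  set A' := 64 * (A + 1) * (C + 1) with hA'
  have h4 := sq_le k
  have h8 : 0 < 8 ^ k := by positivity
  -- multiply by `8^k (C + 1)`
  have h5 : (8 ^ k * (C + 1)) * (A * (k + 1) ^ 2 * F.card) ≤
      (8 ^ k * (C + 1)) * (tch S + 64 * A' ^ 2 * S.top) := by
    calc (8 ^ k * (C + 1)) * (A * (k + 1) ^ 2 * F.card)
        = ((k + 1) ^ 2 * 8 ^ k) * ((C + 1) * A * F.card) := by ring
      _ ≤ (64 * 9 ^ k) * ((C + 1) * A * F.card) := Nat.mul_le_mul_right _ h4
      _ ≤ A' * 9 ^ k * F.card := by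
          rw [hA']
          have : (64 * 9 ^ k) * ((C + 1) * A * F.card) + 64 * 9 ^ k * ((C + 1) * F.card) =
            64 * (A + 1) * (C + 1) * 9 ^ k * F.card := by ring
          omega
      _ ≤ C * 8 ^ k * (A' ^ 2 * S.top + R) := h1
      _ ≤ (8 ^ k * (C + 1)) * (tch S + 64 * A' ^ 2 * S.top) := by
          have e1 : A' ^ 2 * S.top + R ≤ tch S + 64 * A' ^ 2 * S.top := by
            have : A' ^ 2 * S.top ≤ 64 * A' ^ 2 * S.top := by
              rw [mul_assoc 64]
              exact Nat.le_mul_of_pos_left _ (by norm_num)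
            omega
          have e2 : C * 8 ^ k ≤ 8 ^ k * (C + 1) := by
            have : 8 ^ k * (C + 1) = C * 8 ^ k + 8 ^ k := by ring
            omega
          exact Nat.mul_le_mul e2 e1
  exact Nat.le_of_mul_le_mul_left h5 (by positivity)

end Ins

end Pool.Agent.SplTr
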