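import Pool.Agent.SplTr.Asm
import Pool.Agent.SplTr.InsB
import Pool.Agent.SplTr.CF
import Pool.Agent.SplTr.CS
import Pool.Agent.SplTr.Hot
import Pool.Agent.SplNr.Red
import Pool.Agent.SplNr.AFam
import Pool.Agent.SplTr.SepFin

set_option autoImplicit false

/-!
# The number of touches of a splitting system is linear
-/

namespace Pool.Agent.SplTr

open Pool.Agent

theorem lin : Lin :=
  lin_of Th.theta_le Ht.hotLe clsS clsF Ins.clsCard (SplNr.near_of (fun e k => SplNa.n3 e k))

end Pool.Agent.SplTr
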