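import Mathlib

set_option autoImplicit false

/-!
# P3 of the traversal theorem: one class of rounds (structure `Fam`), windows and cells

`Fam k c top` lists what sections 4 and 5 use about the rounds of one class of scale `k`.  A round is
named by its key `x` (a key has at most one round in a class).  Times are request indices:
`s x` = time of the predecessor kill, `rel x` = time of the release; `x` is alive just before the
request `t` iff `s x < t` and `t ≤ rel x`.  `Z t` = key requested at time `t`, `W t` = right wall of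
the zone of the request `t` (nearest key requested before `t` above `Z t`, or `top`), `q x` = the
killer / neighbour in `s x`, `B x` = 1 + time of the last right touch of `x` up to `s x` (0: none),
`RT` = the right touches (time, key).  `c` = C0.
-/

namespace Pool.Agent.SplTr

/-- The constant `c0` of section 5. -/
def c0 : ℕ := 40

/-- One class of rounds of scale `k`. -/
structure Fam (k c top : ℕ) where
  F : Finset ℕ
  q : ℕ → ℕ
  s : ℕ → ℕ
  rel : ℕ → ℕ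
  B : ℕ → ℕ
  Z : ℕ → ℕ
  W : ℕ → ℕ
  RT : Finset (ℕ × ℕ)
  sr : ∀ x ∈ F, s x < rel x
  qz : ∀ x ∈ F, q x ≤ Z (rel x)
  /-- (H3) -/
  zx : ∀ x ∈ F, Z (rel x) + 2 ^ k ≤ x
  xw : ∀ x ∈ F, x < W (rel x)
  wt : ∀ x ∈ F, W (rel x) ≤ top
  rt : ∀ r ∈ RT, r.2 ≤ top
  /-- (H1) -/
  h1 : ∀ x ∈ F, ∀ y ∈ F, x < y → s x < rel y → s y < rel x → x + 4 * 2 ^ k ≤ y
  /-- the zone `(Z, W)` of the later release contains no earlier request, no earlier wall -/
  zz : ∀ x ∈ F, ∀ y ∈ F, rel y ≤ rel x → Z (rel y) ≤ Z (rel x) ∨ W (rel x) ≤ Z (rel y)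
  ww : ∀ x ∈ F, ∀ y ∈ F, rel y ≤ rel x → W (rel y) ≤ Z (rel x) ∨ W (rel x) ≤ W (rel y)
  /-- (F0) -/
  f0 : ∀ x ∈ F, ∀ y ∈ F, rel y ≤ s x → Z (rel y) < x →
    x + 2 ^ c * Z (rel y) ≤ q x + 2 ^ c * q x
  /-- no request in `[q x, x)` while `x` is alive -/
  nq : ∀ x ∈ F, ∀ y ∈ F, s x < rel y → rel y < rel x → Z (rel y) < q x ∨ x ≤ Z (rel y)
  /-- (L1) -/
  l1 : ∀ x ∈ F, ∀ y ∈ F, x < y → s x < rel y → s y < rel x → q y < x → rel y ≤ rel x
  /-- (L3) -/
  l3 : ∀ x ∈ F, ∀ y ∈ F, x < y → s x < rel y → s y < rel x → q y < x → B x ≤ B y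
  /-- (L6) for `h = f` in the class -/
  sw : ∀ x ∈ F, ∀ y ∈ F, ∀ f ∈ F, x < f → f < y → s x < rel y → s y < rel x → q y < x → 0 < B x →
    Z (rel f) < x → y < W (rel f) → s y < B f → ∃ τ, B x ≤ τ + 1 ∧ τ < s y ∧ (τ, f) ∈ RT
  /-- the number of window keys of level `D` -/
  keys : ∀ D : ℕ, ((F.filter (fun x => Z (rel x) + 2 ^ D ≤ x)).image
    (fun x => (Z (rel x) / 2 ^ (D - (c + 2)), W (rel x) / 2 ^ (D - (c + 2))))).card ≤
    top / 2 ^ (D - (c + 2)) + 1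
  /-- dormant rounds (5 C) -/
  dorm : ∀ a ∈ F, ∀ b : ℕ, ∀ J ⊆ F, (∀ x ∈ J, a < x ∧ x < b ∧ q x < a ∧ rel a ≤ s x ∧
    B x ≤ rel a ∧ ∃ f ∈ F, s x < rel f ∧ Z (rel f) < a ∧ b ≤ W (rel f)) →
    J.card ≤ 4 * Nat.log 2 (b - a) + 20

namespace Fam

variable {k c top : ℕ} (Q : Fam k c top)

/-- the request which releases `x` -/
def z (x : ℕ) : ℕ := Q.Z (Q.rel x)

/-- the right wall at the release of `x` -/
def w (x : ℕ) : ℕ := Q.W (Q.rel x)

/-- the unit of level `D` -/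
def u (_ : Fam k c top) (D : ℕ) : ℕ := 2 ^ (D - (c + 2))

/-- the level `D` key of the zone at the release of `x` -/
def ky (D x : ℕ) : ℕ × ℕ := (Q.z x / Q.u D, Q.w x / Q.u D)

/-- the window `v` of level `D` -/
def En (D : ℕ) (v : ℕ × ℕ) : Finset ℕ := Q.F.filter (fun x => Q.z x + 2 ^ D ≤ x ∧ Q.ky D x = v)

/-- the level of `x` -/
def Dx (x : ℕ) : ℕ := Nat.log 2 (x - Q.z x)

/-- the window of `x` -/
def Ef (x : ℕ) : Finset ℕ := Q.En (Q.Dx x) (Q.ky (Q.Dx x) x)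

/-- the predecessor of `x` in its window (0: none) -/
def ef (x : ℕ) : ℕ := ((Q.Ef x).filter (fun y => y < x)).sup id

/-- the gap level of `x` -/
def gf (x : ℕ) : ℕ := Nat.log 2 (x - Q.ef x)

/-- the rounds of gap level `g` -/
def Ng (g : ℕ) : Finset ℕ := Q.F.filter (fun x => Q.ef x ≠ 0 ∧ Q.gf x = g)

/-- main rounds of gap level `g` -/
def Mg (g : ℕ) : Finset ℕ := (Q.Ng g).filter (fun x => g + c0 < Q.Dx x)

/-- the cell of a round of gap level `g`: least multiple of `2^(g-1)` above `e` -/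
def mc (g x : ℕ) : ℕ := (Q.ef x / 2 ^ (g - 1) + 1) * 2 ^ (g - 1)

/-- left-isolated -/
def LI (g x : ℕ) : Prop := ∀ y ∈ Q.Ef x, y + 2 ^ (g - 1) < Q.mc g x →
  y + 2 ^ (g - 1) + 2 ^ (g + c0) < Q.mc g x

/-- right-isolated -/
def RI (g x : ℕ) : Prop := ∀ y ∈ Q.Ef x, Q.mc g x + 2 ^ (g + 1) ≤ y →
  Q.mc g x + 2 ^ (g + 1) + 2 ^ (g + c0) ≤ y

/-- right-near -/
def RN (g x : ℕ) : Prop := Q.w x < x + 2 ^ (g + c0 + 2)

open scoped Classical in
/-- the remaining rounds of gap level `g` -/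
noncomputable def Rg (g : ℕ) : Finset ℕ :=
  (Q.Mg g).filter (fun x => ¬ Q.LI g x ∧ ¬ Q.RI g x ∧ ¬ Q.RN g x)

open scoped Classical in
/-- the remaining rounds of the cell `m`, level parity `b` -/
noncomputable def St (g m b : ℕ) : Finset ℕ :=
  (Q.Rg g).filter (fun x => Q.mc g x = m ∧ Q.Dx x % 2 = b)

/-- the right touches of keys of the cell `m` -/
def Tc (g m : ℕ) : Finset (ℕ × ℕ) := Q.RT.filter (fun r => m < r.2 ∧ r.2 < m + 2 ^ (g + 1))

end Fam

end Pool.Agent.SplTr
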