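import Pool.Agent.SplTr.CDef

set_option autoImplicit false

/-!
# P3, section 4: windows
-/

namespace Pool.Agent.SplTr

namespace Fam

variable {k c top : ℕ} {Q : Fam k c top} {D x y a g : ℕ} {v : ℕ × ℕ}

-- MODULE wa
theorem u_pos : 0 < Q.u D := pow_pos (by norm_num) _

theorem u_le : Q.u D ≤ 2 ^ D := Nat.pow_le_pow_right (by norm_num) (Nat.sub_le _ _)

private theorem wa_two : 2 * Q.u D ≤ 2 ^ D + 1 := by
  rcases Nat.eq_zero_or_pos D with h | h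
  · subst h
    unfold u
    simp
  · have h1 : D - (c + 2) + 1 ≤ D := by omega
    have h2 : 2 ^ (D - (c + 2) + 1) ≤ 2 ^ D := Nat.pow_le_pow_right (by norm_num) h1
    have h3 : 2 * Q.u D = 2 ^ (D - (c + 2) + 1) := by
      unfold u
      rw [pow_succ, mul_comm]
    omega

/-- a zone of length at least `2^D` has a cell strictly between its ends -/
theorem far_keys (hx : x ∈ Q.F) (h : Q.z x + 2 ^ D ≤ x) : Q.z x / Q.u D + 2 ≤ Q.w x / Q.u D := by
  have hw : x < Q.w x := Q.xw x hx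
  have h2 := wa_two (Q := Q) (D := D)
  have h3 : Q.z x + Q.u D * 2 ≤ Q.w x := by omega
  have h4 : (Q.z x + Q.u D * 2) / Q.u D ≤ Q.w x / Q.u D := Nat.div_le_div_right h3
  rwa [Nat.add_mul_div_left _ _ (u_pos (Q := Q) (D := D))] at h4

theorem mem_En : x ∈ Q.En D v ↔ x ∈ Q.F ∧ Q.z x + 2 ^ D ≤ x ∧ Q.ky D x = v := by
  unfold En
  rw [Finset.mem_filter]

private theorem wa_ky (hx : x ∈ Q.En D v) (hy : y ∈ Q.En D v) :
    Q.z y / Q.u D = Q.z x / Q.u D ∧ Q.w y / Q.u D = Q.w x / Q.u D := by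
  have h1 := (mem_En.mp hx).2.2
  have h2 := (mem_En.mp hy).2.2
  have h3 : Q.ky D y = Q.ky D x := h2.trans h1.symm
  unfold ky at h3
  exact ⟨congrArg Prod.fst h3, congrArg Prod.snd h3⟩

/-- two elements of a window: the left walls differ by less than the unit -/
theorem z_lt_add (hx : x ∈ Q.En D v) (hy : y ∈ Q.En D v) : Q.z y < Q.z x + Q.u D := by
  have h1 := (wa_ky hx hy).1
  have h2 := Nat.div_add_mod (Q.z y) (Q.u D)
  have h3 := Nat.mod_lt (Q.z y) (u_pos (Q := Q) (D := D))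
  have h4 := Nat.div_mul_le_self (Q.z x) (Q.u D)
  rw [h1, mul_comm] at h2
  omega
-- END wa

-- MODULE wb
/-- the zones of a window are nested -/
theorem nest (hx : x ∈ Q.En D v) (hy : y ∈ Q.En D v) (h : Q.rel x ≤ Q.rel y) :
    Q.z x ≤ Q.z y ∧ Q.w y ≤ Q.w x := by
  obtain ⟨hxF, hxD, -⟩ := mem_En.mp hx
  obtain ⟨hyF, hyD, -⟩ := mem_En.mp hy
  obtain ⟨k1, k2⟩ := wa_ky hx hy
  have fx := far_keys hxF hxD
  have fy := far_keys hyF hyD
  constructor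
  · rcases Q.zz y hyF x hxF h with h1 | h1
    · exact h1
    · exfalso
      have h2 : Q.w y / Q.u D ≤ Q.z x / Q.u D := Nat.div_le_div_right h1
      omega
  · rcases Q.ww y hyF x hxF h with h1 | h1
    · exfalso
      have h2 : Q.w x / Q.u D ≤ Q.z y / Q.u D := Nat.div_le_div_right h1
      omega
    · exact h1

/-- (W1) all elements of a window are alive just before the first release -/
theorem alive (hx : x ∈ Q.En D v) (hy : y ∈ Q.En D v) : Q.s x < Q.rel y := by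
  obtain ⟨hxF, hxD, -⟩ := mem_En.mp hx
  obtain ⟨hyF, hyD, -⟩ := mem_En.mp hy
  by_contra hc
  have hc' : Q.rel y ≤ Q.s x := not_lt.mp hc
  have hu := u_le (Q := Q) (D := D)
  have h1 := z_lt_add hx hy
  have h2 := z_lt_add hy hx
  have h3 : Q.Z (Q.rel y) < x := by
    have : Q.z y < x := by omega
    exact this
  have h4 := Q.f0 x hxF y hyF hc' h3
  have h5 : Q.q x ≤ Q.z x := Q.qz x hxF
  have h6 : Q.Z (Q.rel y) = Q.z y := rfl
  rw [h6] at h4
  have h7 : 2 ^ c * Q.q x ≤ 2 ^ c * Q.z x := Nat.mul_le_mul_left _ h5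
  have h8 : x + 2 ^ c * Q.z y ≤ Q.z x + 2 ^ c * Q.z x := le_trans h4 (Nat.add_le_add h5 h7)
  have h9 : 2 ^ c * Q.z x + 2 ^ c ≤ 2 ^ c * Q.z y + 2 ^ c * Q.u D := by
    have : Q.z x + 1 ≤ Q.z y + Q.u D := h2
    have := Nat.mul_le_mul_left (2 ^ c) this
    rw [Nat.mul_add, Nat.mul_add, Nat.mul_one] at this
    exact this
  have h10 : 2 ^ c * Q.u D < 2 ^ D + 2 ^ c := by
    by_cases hD : c + 2 ≤ D
    · have e : 2 ^ c * Q.u D = 2 ^ (D - 2) := by
        unfold u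
        rw [← pow_add]
        congr 1
        omega
      have : 2 ^ (D - 2) ≤ 2 ^ D := Nat.pow_le_pow_right (by norm_num) (Nat.sub_le _ _)
      have := Nat.pos_of_ne_zero (pow_ne_zero c (two_ne_zero : (2 : ℕ) ≠ 0))
      omega
    · have e : Q.u D = 1 := by
        unfold u
        rw [Nat.sub_eq_zero_of_le (by omega), pow_zero]
      rw [e, Nat.mul_one]
      have := Nat.pos_of_ne_zero (pow_ne_zero D (two_ne_zero : (2 : ℕ) ≠ 0))
      omega
  omega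

/-- (W1) and pairwise linked -/
theorem lnk (hx : x ∈ Q.En D v) (hy : y ∈ Q.En D v) (h : x < y) : Q.q y < x := by
  obtain ⟨hxF, hxD, -⟩ := mem_En.mp hx
  obtain ⟨hyF, hyD, -⟩ := mem_En.mp hy
  have hu := u_le (Q := Q) (D := D)
  have h1 := z_lt_add hx hy
  have h5 : Q.q y ≤ Q.z y := Q.qz y hyF
  omega

theorem ord (hx : x ∈ Q.En D v) (hy : y ∈ Q.En D v) (h : x < y) :
    Q.rel y ≤ Q.rel x ∧ Q.B x ≤ Q.B y ∧ Q.z y ≤ Q.z x ∧ Q.w x ≤ Q.w y := by
  have hxF := (mem_En.mp hx).1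
  have hyF := (mem_En.mp hy).1
  have a1 := alive hx hy
  have a2 := alive hy hx
  have a3 := lnk hx hy h
  have h1 := Q.l1 x hxF y hyF h a1 a2 a3
  have h3 := Q.l3 x hxF y hyF h a1 a2 a3
  have h4 := nest hy hx h1
  exact ⟨h1, h3, h4.1, h4.2⟩

/-- (W2) -/
theorem betw (hx : x ∈ Q.En D v) (ha : a ∈ Q.En D v) (hy : y ∈ Q.F) (h1 : Q.rel x ≤ Q.rel y)
    (h2 : Q.rel y ≤ Q.rel a) (h3 : Q.z y < a) (h4 : a < Q.w y) (h5 : Q.z y + 2 ^ D ≤ y) :
    y ∈ Q.En D v := by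
  obtain ⟨hxF, hxD, hxv⟩ := mem_En.mp hx
  obtain ⟨haF, haD, -⟩ := mem_En.mp ha
  obtain ⟨k1, k2⟩ := wa_ky hx ha
  have hu := u_le (Q := Q) (D := D)
  have z1 := z_lt_add ha hx
  have wa : a < Q.w a := Q.xw a haF
  have n1 := nest hx ha (le_trans h1 h2)
  have p1 : Q.z x ≤ Q.z y := by
    rcases Q.zz y hy x hxF h1 with h | h
    · exact h
    · exfalso
      have : Q.w y ≤ Q.z x := h
      omega
  have p2 : Q.z y ≤ Q.z a := by
    rcases Q.zz a haF y hy h2 with h | h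
    · exact h
    · exfalso
      have : Q.w a ≤ Q.z y := h
      omega
  have p3 : Q.w y ≤ Q.w x := by
    rcases Q.ww y hy x hxF h1 with h | h
    · exfalso
      have : Q.w x ≤ Q.z y := h
      omega
    · exact h
  have p4 : Q.w a ≤ Q.w y := by
    rcases Q.ww a haF y hy h2 with h | h
    · exfalso
      have : Q.w y ≤ Q.z a := h
      omega
    · exact h
  refine mem_En.mpr ⟨hy, h5, ?_⟩
  rw [← hxv]
  unfold ky
  have q1 : Q.z x / Q.u D ≤ Q.z y / Q.u D := Nat.div_le_div_right p1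
  have q2 : Q.z y / Q.u D ≤ Q.z a / Q.u D := Nat.div_le_div_right p2
  have q3 : Q.w y / Q.u D ≤ Q.w x / Q.u D := Nat.div_le_div_right p3
  have q4 : Q.w a / Q.u D ≤ Q.w y / Q.u D := Nat.div_le_div_right p4
  exact Prod.ext (by show Q.z y / Q.u D = Q.z x / Q.u D; omega)
    (by show Q.w y / Q.u D = Q.w x / Q.u D; omega)
-- END wb

-- MODULE wc
theorem z_lt (hx : x ∈ Q.F) : Q.z x < x := by
  have h := Q.zx x hx
  have h2 : 0 < 2 ^ k := pow_pos (by norm_num) _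
  unfold z
  omega

theorem Dx_spec (hx : x ∈ Q.F) : Q.z x + 2 ^ Q.Dx x ≤ x ∧ x < Q.z x + 2 ^ (Q.Dx x + 1) := by
  have h := z_lt hx
  unfold Dx
  have h1 : 2 ^ Nat.log 2 (x - Q.z x) ≤ x - Q.z x := Nat.pow_log_le_self 2 (by omega)
  have h2 : x - Q.z x < 2 ^ (Nat.log 2 (x - Q.z x) + 1) :=
    Nat.lt_pow_succ_log_self (by norm_num) _
  omega

theorem k_le_Dx (hx : x ∈ Q.F) : k ≤ Q.Dx x := by
  have h := Q.zx x hx
  unfold Dx
  apply Nat.le_log_of_pow_le (by norm_num)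
  unfold z
  omega

theorem mem_Ef (hx : x ∈ Q.F) : x ∈ Q.Ef x := by
  unfold Ef En
  rw [Finset.mem_filter]
  exact ⟨hx, (Dx_spec hx).1, rfl⟩

theorem ef_mem (he : Q.ef x ≠ 0) : Q.ef x ∈ Q.Ef x ∧ Q.ef x < x := by
  have hne : ((Q.Ef x).filter (fun y => y < x)).Nonempty := by
    rw [Finset.nonempty_iff_ne_empty]
    intro h0
    apply he
    unfold ef
    rw [h0]
    rfl
  obtain ⟨a, ha, hb⟩ := Finset.exists_mem_eq_sup _ hne (id : ℕ → ℕ)
  have h1 : Q.ef x = a := hb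
  rw [h1]
  rw [Finset.mem_filter] at ha
  exact ha

theorem ef_max (hy : y ∈ Q.Ef x) (h : y < x) : y ≤ Q.ef x ∧ Q.ef x ≠ 0 := by
  have hm : y ∈ (Q.Ef x).filter (fun y => y < x) := Finset.mem_filter.mpr ⟨hy, h⟩
  have h1 : y ≤ Q.ef x := Finset.le_sup (f := (id : ℕ → ℕ)) hm
  have h2 : y ∈ Q.F := by
    unfold Ef En at hy
    exact (Finset.mem_filter.mp hy).1
  have h3 := z_lt h2
  exact ⟨h1, by omega⟩

theorem D_le_Dx (hx : x ∈ Q.En D v) : D ≤ Q.Dx x := by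
  rw [mem_En] at hx
  unfold Dx
  apply Nat.le_log_of_pow_le (by norm_num)
  have := hx.2.1
  omega

theorem Dx_mono (hx : x ∈ Q.En D v) (hy : y ∈ Q.En D v) (h : x < y) : Q.Dx x ≤ Q.Dx y := by
  have h1 := (ord hx hy h).2.2.1
  unfold Dx
  apply Nat.log_mono_right
  omega

theorem Ef_eq (hy : y ∈ Q.Ef x) (h : Q.Dx y = Q.Dx x) : Q.Ef y = Q.Ef x := by
  unfold Ef at hy ⊢
  rw [mem_En] at hy
  rw [h, hy.2.2]

theorem two_Dx_le (hx : x ∈ Q.F) : 2 ^ Q.Dx x ≤ top := by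
  have h1 := (Dx_spec hx).1
  have h2 := Q.xw x hx
  have h3 := Q.wt x hx
  omega
-- END wc

-- MODULE wd
theorem Ng_F (hx : x ∈ Q.Ng g) : x ∈ Q.F := by
  exact (Finset.mem_filter.1 hx).1

theorem Ng_spec (hx : x ∈ Q.Ng g) : Q.ef x + 2 ^ g ≤ x ∧ x < Q.ef x + 2 ^ (g + 1) := by
  obtain ⟨hF, he, hg⟩ := Finset.mem_filter.1 hx
  have hlt := (ef_mem he).2
  have h1 : 2 ^ Nat.log 2 (x - Q.ef x) ≤ x - Q.ef x := Nat.pow_log_le_self 2 (by omega)
  have h2 : x - Q.ef x < 2 ^ (Nat.log 2 (x - Q.ef x) + 1) := Nat.lt_pow_succ_log_self (by norm_num) _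
  have hg' : Nat.log 2 (x - Q.ef x) = g := hg
  rw [hg'] at h1 h2
  omega

/-- (H1) -/
theorem Ng_k (hx : x ∈ Q.Ng g) : k + 2 ≤ g := by
  obtain ⟨hF, he, hg⟩ := Finset.mem_filter.1 hx
  have hm := ef_mem he
  have hxE := mem_Ef hF
  have heF : Q.ef x ∈ Q.F := (mem_En.1 hm.1).1
  have h1 := Q.h1 _ heF _ hF hm.2 (alive hm.1 hxE) (alive hxE hm.1)
  have h2 := (Ng_spec hx).2
  have h3 : 2 ^ (k + 2) < 2 ^ (g + 1) := by
    have : 2 ^ (k + 2) = 4 * 2 ^ k := by rw [pow_add]; ring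
    omega
  have h4 := (Nat.pow_lt_pow_iff_right (by norm_num : 1 < 2)).1 h3
  omega

theorem Ng_Dx (hx : x ∈ Q.Ng g) : g ≤ Q.Dx x := by
  obtain ⟨hF, he, hg⟩ := Finset.mem_filter.1 hx
  have hm := ef_mem he
  have hxE := mem_Ef hF
  have heF : Q.ef x ∈ Q.F := (mem_En.1 hm.1).1
  have h1 := (ord hm.1 hxE hm.2).2.2.1
  have h2 := z_lt heF
  have hg' : Nat.log 2 (x - Q.ef x) = g := hg
  rw [← hg']
  exact Nat.log_mono_right (by omega)

theorem mc_spec (hx : x ∈ Q.Ng g) : Q.ef x < Q.mc g x ∧ Q.mc g x ≤ Q.ef x + 2 ^ (g - 1) ∧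
    Q.mc g x < x ∧ x < Q.mc g x + 2 ^ (g + 1) := by
  have hk := Ng_k hx
  have hs := Ng_spec hx
  obtain ⟨g', rfl⟩ : ∃ g', g = g' + 1 := ⟨g - 1, by omega⟩
  have hu : 0 < 2 ^ g' := by positivity
  have h1 : 2 ^ (g' + 1) = 2 * 2 ^ g' := by ring
  have h2 : 2 ^ (g' + 1 + 1) = 4 * 2 ^ g' := by ring
  have hd := Nat.div_add_mod (Q.ef x) (2 ^ g')
  have hm := Nat.mod_lt (Q.ef x) hu
  have hmc : Q.mc (g' + 1) x = 2 ^ g' * (Q.ef x / 2 ^ g') + 2 ^ g' := by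
    unfold mc
    rw [Nat.add_sub_cancel]
    ring
  rw [hmc, Nat.add_sub_cancel]
  rw [h1, h2] at hs
  rw [h2]
  generalize 2 ^ g' * (Q.ef x / 2 ^ g') = t at *
  generalize Q.ef x % 2 ^ g' = r at *
  generalize 2 ^ g' = U at *
  omega

theorem mc_dvd (g x : ℕ) : 2 ^ (g - 1) ∣ Q.mc g x := by
  exact Dvd.intro_left _ rfl

theorem Mg_Ng (hx : x ∈ Q.Mg g) : x ∈ Q.Ng g := by
  exact (Finset.mem_filter.1 hx).1

/-- the elements of the window of a main round are far from the left wall -/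
theorem far (hx : x ∈ Q.Mg g) (hy : y ∈ Q.Ef x) : Q.z y + 2 ^ (g + c0 + 1) ≤ y := by
  have h1 : g + c0 < Q.Dx x := (Finset.mem_filter.1 hx).2
  have h2 := (mem_En.1 hy).2.1
  have h3 : 2 ^ (g + c0 + 1) ≤ 2 ^ Q.Dx x := Nat.pow_le_pow_right (by norm_num) h1
  omega

/-- a window has at most one main round in a cell -/
theorem cell_uniq (hx : x ∈ Q.Ng g) (hy : y ∈ Q.Ng g) (hE : y ∈ Q.Ef x) (hE' : x ∈ Q.Ef y)
    (hm : Q.mc g x = Q.mc g y) : x = y := by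
  have h1 := mc_spec hx
  have h2 := mc_spec hy
  rcases lt_trichotomy x y with h | h | h
  · have h3 := (ef_max hE' h).1
    omega
  · exact h
  · have h3 := (ef_max hE h).1
    omega

/-- rounds of one gap level in one window are spaced -/
theorem Ng_space (hx : x ∈ Q.Ng g) (hE : y ∈ Q.Ef x) (h : y < x) : y + 2 ^ g ≤ x := by
  have h1 := (ef_max hE h).1
  have h2 := (Ng_spec hx).1
  omega
-- END wd

end Fam

end Pool.Agent.SplTr
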