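import Pool.Agent.SplDq.Chain

set_option autoImplicit false

/-!
# Splitting systems

`Spl S`: the keys are `1, ..., top - 1`, every key is requested at most once, and a touched key was
requested before or lies in the current zone: no key requested before lies strictly between it and
the request.  `irr S` is the number of touches of keys which were requested before.
-/

namespace Pool.Agent.SplTr

open Pool.Agent.SplLog Pool.Agent.SplLs Pool.Agent.SplDq
open scoped Classical

/-- `v` was requested before the time `t`. -/
def Seen (S : Sys) (t v : ℕ) : Prop := ∃ s, s < t ∧ s < S.m ∧ S.X s = v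

/-- Splitting systems. -/
structure Spl (S : Sys) : Prop where
  full : ∀ v, 0 < v → v < S.top → v ∈ S.K
  inj : ∀ s t, s < S.m → t < S.m → S.X s = S.X t → s = t
  loc : ∀ t v, S.E t v → Seen S t v ∨ ∀ s, s < t →
    ¬ (S.X t < S.X s ∧ S.X s < v) ∧ ¬ (v < S.X s ∧ S.X s < S.X t)

/-- The number of touches of keys which were requested before. -/
noncomputable def irr (S : Sys) : ℕ := S.cnt (fun t v => S.E t v ∧ Seen S t v)

/-- The number of touches. -/
noncomputable def tch (S : Sys) : ℕ := S.cnt (fun t v => S.E t v)

/-- Every key is requested exactly once, and the requests avoid the pattern 213. -/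
structure Pre (S : Sys) : Prop where
  full : ∀ v, 0 < v → v < S.top → v ∈ S.K
  inj : ∀ s t, s < S.m → t < S.m → S.X s = S.X t → s = t
  onto : ∀ v ∈ S.K, ∃ t, t < S.m ∧ S.X t = v
  av : ∀ i j k, i < j → j < k → k < S.m → ¬ (S.X j < S.X i ∧ S.X i < S.X k)

/-- The smallest request which was followed by a smaller request, up to time `t` (or `top`). -/
noncomputable def wl (S : Sys) (t : ℕ) : ℕ :=
  sInf {w | w = S.top ∨ ∃ i j, i < j ∧ j ≤ t ∧ j < S.m ∧ S.X i = w ∧ S.X j < w}

/-- The left wall of `v` before the request `t`: the nearest seen key below `v` (or `0`). -/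
noncomputable def zl (S : Sys) (t v : ℕ) : ℕ := sSup {w | w = 0 ∨ (Seen S t w ∧ w < v)}

/-- The right wall of `v` before the request `t`: the nearest seen key above `v` (or `top`). -/
noncomputable def zr (S : Sys) (t v : ℕ) : ℕ := sInf {w | w = S.top ∨ (Seen S t w ∧ v < w)}

/-- The left wall of the request `t`. -/
noncomputable def lw (S : Sys) (t : ℕ) : ℕ := zl S t (S.X t)

/-- The right wall of the request `t`. -/
noncomputable def rw (S : Sys) (t : ℕ) : ℕ := zr S t (S.X t)

/-- `w` kills `g` in the pass of the request `t > w > g` (mirror image of `S.Kl`). -/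
def Kr (S : Sys) (t g w : ℕ) : Prop := S.L t g ∧ w < S.X t ∧ S.rho (t + 1) g = w

/-- `v` is left-visible before the request `t`: `lam t v` is `0` or seen. -/
def LV (S : Sys) (t v : ℕ) : Prop := S.lam t v ≤ zl S t v

/-- `v` is right-visible before the request `t`: `rho t v` is `top` or seen. -/
def RV (S : Sys) (t v : ℕ) : Prop := zr S t v ≤ S.rho t v

/-- `Thr` for unseen keys: of three consecutive nodes of a run of unseen keys, one of the upper two
is killed. -/
def ThrU (S : Sys) : Prop :=
  ∀ t y, ¬ Seen S t (S.rho t (S.rho t y)) → S.R t y → S.R t (S.rho t y) →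
    S.R t (S.rho t (S.rho t y)) → S.lam t (S.rho t y) = S.lam t y →
    S.lam t (S.rho t (S.rho t y)) = S.lam t y →
    S.Kl t (S.rho t y) y ∨ S.Kl t (S.rho t (S.rho t y)) (S.rho t y)

theorem thrU_of {S : Sys} (h : Thr S) : ThrU S := fun t y _ => h t y

/-- All hypotheses; closed under mirror images. -/
structure Good (S : Sys) : Prop where
  spl : Spl S
  thr : ThrU S
  thr' : ThrU S.mir

end Pool.Agent.SplTr
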