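import Pool.Agent.SplTr.Dorm

set_option autoImplicit false

/-!
# Dormant rounds

`ra` is a round with the key `a = ra.g`; `J` is a set of rounds with different keys in `(a, b)` whose
predecessor kills happen after the release of `ra`, with a killer below `a`, and which are not
touched from the other side in between.  While no key of `[a, b)` is requested there are only
`O(log (b - a))` such rounds.
-/

namespace Pool.Agent.SplTr.Dm

open Pool.Agent.SplLog Pool.Agent.SplLs Pool.Agent.SplDq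
open scoped Classical

variable {S : Sys} {a b i j l q r s t u v w p g : ℕ}

/-- No key requested before `t` lies strictly between the request and its right wall. -/
theorem rw_le (hs : s < t) (hsm : s < S.m) (h : S.X t < S.X s) : rw S t ≤ S.X s :=
  Nat.sInf_le (Or.inr ⟨⟨s, hs, hsm, rfl⟩, h⟩)

/-- The last kill of a round which was not touched from the other side is a kill by `q`. -/
theorem kl_of_bt {r : Rnd} (hr : Rd S r) (hτ : bt S r ≤ t) (hs : t ≤ r.s) :
    S.Kl r.s r.g r.q ∧ ∀ u, t ≤ u → u ≤ r.s → ¬ S.L u r.g := by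
  have h2 : ∀ u, t ≤ u → u ≤ r.s → ¬ S.L u r.g := by
    intro u hu1 hu2 hL
    have hb : BddAbove {b | b = 0 ∨ ∃ u, u ≤ r.s ∧ S.L u r.g ∧ b = u + 1} := by
      refine ⟨r.s + 1, ?_⟩
      rintro b (h | ⟨u, h1, h2, h3⟩)
      · omega
      · omega
    have h3 : u + 1 ≤ bt S r := le_csSup hb (Or.inr ⟨u, hu2, hL, rfl⟩)
    omega
  refine ⟨?_, h2⟩
  rcases hr.sk with h | h
  · exact h.1
  · exact absurd h.1.1 (h2 r.s hs le_rfl)

/-- The left end of the key of a round before its release. -/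
theorem lam_rel {r : Rnd} (hr : Rd S r) : S.lam r.rel r.g = r.q := by
  have h1 : S.NE r.g (r.s + 1) r.rel := by
    intro u hu1 hu2 hE
    have := (hr.ne u (by omega) (by have := hr.rt; omega) hE).1
    omega
  have hm : r.t < S.m := hr.kl.1.1
  have h2 := Sys.NE_const (S := S) hr.kl.1.2.1 (show r.s + 1 ≤ r.rel from hr.rs)
    (by have := hr.rt; omega) h1
  rw [h2.1]
  rcases hr.sk with h | h
  · exact h.1.2.2
  · exact h.2

theorem dorm_rd (hG : Good S) {ra : Rnd} (ha : Rd S ra) (b : ℕ) (J : Finset Rnd)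
    (hinj : ∀ r ∈ J, ∀ r' ∈ J, r.g = r'.g → r = r')
    (hJ : ∀ r ∈ J, Rd S r ∧ ra.g < r.g ∧ r.g < b ∧ r.q < ra.g ∧ ra.rel ≤ r.s ∧ bt S r ≤ ra.rel ∧
      ∃ τ, r.s < τ ∧ τ < S.m ∧ S.X τ < ra.g ∧ b ≤ rw S τ) :
    J.card ≤ 4 * Nat.log 2 (b - ra.g) + 20 := by
  have hS := hG.spl
  have hT := hG.thr
  -- the rounds killed at the release itself
  have hc : J.card ≤ (J.filter (fun r => ra.rel < r.s)).card + 1 := by
    have h1 := Finset.card_filter_add_card_filter_not (s := J) (fun r => ra.rel < r.s)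
    have h2 : (J.filter (fun r => ¬ ra.rel < r.s)).card ≤ 1 := by
      rw [Finset.card_le_one]
      intro r hr r' hr'
      rw [Finset.mem_filter] at hr hr'
      obtain ⟨a1, a2, a3, a4, a5, a6, _⟩ := hJ r hr.1
      obtain ⟨b1, b2, b3, b4, b5, b6, _⟩ := hJ r' hr'.1
      have c1 := (kl_of_bt a1 a6 a5).1
      have c2 := (kl_of_bt b1 b6 b5).1
      have e1 : r.s = ra.rel := by omega
      have e2 : r'.s = ra.rel := by omega
      rw [e1] at c1
      rw [e2] at c2
      exact hinj r hr.1 r' hr'.1 (ext_unique c1 a4 c2 b4 a2.le b2.le)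
    omega
  rcases (J.filter (fun r => ra.rel < r.s)).eq_empty_or_nonempty with h0 | h0
  · rw [h0, Finset.card_empty] at hc
    omega
  obtain ⟨rm, hrm, hmax⟩ : ∃ rm ∈ J.filter (fun r => ra.rel < r.s),
      ∀ r ∈ J.filter (fun r => ra.rel < r.s), r.s ≤ rm.s := Finset.exists_max_image _ _ h0
  have hrm' := Finset.mem_filter.1 hrm
  obtain ⟨m1, m2, m3, m4, m5, m6, τ, m7, m8, m9, m10⟩ := hJ rm hrm'.1
  have hun : ∀ s, s < rm.s + 1 → S.X s < ra.g ∨ b ≤ S.X s := by
    intro s hs
    by_contra hc2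
    push Not at hc2
    have := rw_le (S := S) (t := τ) (show s < τ by omega) (by omega) (by omega)
    omega
  have htm : ra.rel < S.m := by
    have := ha.rt
    have := ha.kl.1.1
    omega
  have hx : S.X ra.rel < ra.g := ha.rg
  have hnoS : ∀ t, t ≤ rm.s + 1 → ∀ v, ra.g ≤ v → v ≤ b - 1 → ¬ Seen S t v := by
    rintro t ht v h1 h2 ⟨s, h3, h4, h5⟩
    have := hun s (by omega)
    omega
  have hun' := hnoS (ra.rel + 1) (by have := hrm'.2; omega)
  have hlam : S.lam ra.rel ra.g ≤ S.X ra.rel := by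
    rw [lam_rel ha]
    exact ha.rq
  have haW : ra.g ∈ dW S ra.rel ra.g (b - 1) := by
    rw [mem_dW]
    exact ⟨ha.kl.1.2.1, le_rfl, by omega, by omega⟩
  have hR : ∀ v ∈ dU S ra.rel ra.g (b - 1), S.R ra.rel v :=
    fun v hv => vis_touched hS htm hx hun' haW hlam hv
  obtain ⟨hU1, hU2⟩ := dU_step hS htm hx hun' hR
  have hH : (dH S (ra.rel + 1) ra.g (b - 1)).card ≤ 1 := by
    refine le_trans (Finset.card_le_card ?_) (card_dX S ra.rel ra.g (b - 1))
    refine (dH_step htm hx hR).trans ?_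
    intro v hv
    rw [Finset.mem_union, Finset.mem_sdiff] at hv
    rcases hv with ⟨h1, h2⟩ | h1
    · exfalso
      apply h2
      rw [dA, Finset.mem_filter]
      refine ⟨h1, ?_⟩
      have h3 := mem_dH.1 h1
      rcases Nat.eq_or_lt_of_le h3.1.2.1 with h4 | h4
      · rw [← h4]
        exact hlam
      · have := dW_anc htm.le haW (mem_dW.2 h3.1) h4
        omega
    · exact h1
  have hU : (dU S (ra.rel + 1) ra.g (b - 1)).card < 2 ^ (Nat.log 2 (b - ra.g) + 1) := by
    have h1 : dU S (ra.rel + 1) ra.g (b - 1) ⊆ Finset.Ico ra.g b := by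
      intro v hv
      rw [mem_dU] at hv
      rw [Finset.mem_Ico]
      omega
    have h2 := Finset.card_le_card h1
    rw [Nat.card_Ico] at h2
    exact lt_of_le_of_lt h2 (Nat.lt_pow_succ_log_self (by norm_num) _)
  -- the image of `J`
  have hch : ∀ g ∈ (J.filter (fun r => ra.rel < r.s)).image (fun r => r.g), ∃ r ∈ J, ra.rel < r.s ∧
      r.g = g := by
    intro g hg
    rw [Finset.mem_image] at hg
    obtain ⟨r, hr, hr'⟩ := hg
    rw [Finset.mem_filter] at hr
    exact ⟨r, hr.1, hr.2, hr'⟩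
  have : Nonempty Rnd := ⟨ra⟩
  choose! ρ hρ using hch
  have hcard : ((J.filter (fun r => ra.rel < r.s)).image (fun r => r.g)).card =
      (J.filter (fun r => ra.rel < r.s)).card := by
    apply Finset.card_image_of_injOn
    intro r hr r' hr' he
    rw [Finset.mem_coe, Finset.mem_filter] at hr hr'
    exact hinj r hr.1 r' hr'.1 he
  have hrmt : rm.s + 1 ≤ S.m := by
    have := m1.st
    have := m1.kl.1.1
    omega
  have hmain := dormant (S := S) (l := ra.g) (r := b) (w := b - 1) (t0 := ra.rel + 1)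
    (t1 := rm.s + 1) (P0 := Nat.log 2 (b - ra.g) + 2) (j := Nat.log 2 (b - ra.g) + 1) hS hT
    (by have := hrm'.2; omega) hrmt hun (fun g => (ρ g).s)
    ((J.filter (fun r => ra.rel < r.s)).image (fun r => r.g)) (by omega) ?_ ?_ (by omega) hU
  · rw [hcard] at hmain
    omega
  · intro g hg
    obtain ⟨g1, g2, g3⟩ := hρ g hg
    obtain ⟨a1, a2, a3, a4, a5, a6, _⟩ := hJ (ρ g) g1
    have h1 := kl_of_bt a1 a6 a5
    have h2 := hmax (ρ g) (Finset.mem_filter.2 ⟨g1, g2⟩)
    rw [g3] at h1 a2 a3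
    refine ⟨a2.le, by omega, g2, by omega, ⟨(ρ g).q, h1.1, a4⟩, ?_⟩
    intro u hu1 hu2
    exact h1.2 u (by omega) (by omega)
  · intro v hv u hu
    rw [hU2 v hv, hU2 u hu]

end Pool.Agent.SplTr.Dm
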