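import Pool.Agent.SplTr.Old

set_option autoImplicit false

/-!
# Hot nodes and base kills: definitions
-/

namespace Pool.Agent.SplTr.Ht

open Pool.Agent.SplLog Pool.Agent.SplLs Pool.Agent.SplDq
open scoped Classical

/-- `g` made a kill after its last (kill of `g` or touch of `g` from the other side). -/
def Hot (S : Sys) (t g : ℕ) : Prop :=
  ∃ u, u < t ∧ (∃ w, S.Kl u w g) ∧ ∀ x, u < x → x < t → ¬ S.L x g ∧ ¬ ∃ p, S.Kl x g p

/-- A kill of a node which is not hot. -/
def Base (S : Sys) (t g : ℕ) : Prop := (∃ p, S.Kl t g p) ∧ ¬ Hot S t g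

/-- The second half of part 1: base kills are rounds, with few exceptions. -/
def HotB : Prop := ∃ C : ℕ, ∀ S : Sys, Good S →
  S.cnt (Base S) ≤ S.cnt (fun t g => ∃ r, Rd S r ∧ (Same S r ∨ Flip S r) ∧ r.t = t ∧ r.g = g) +
    C * (S.top + irr S)

end Pool.Agent.SplTr.Ht
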