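import Pool.Agent.SplTr.Defs

set_option autoImplicit false

/-!
# Counting zones by cells

`nc_card`: a family of pairs `i < j ≤ N` without strict crossings has at most `2 (N + 1)` elements.
`win_card`: the windows `(X t / D, rw t / D)` of the requests with `X t + D < rw t` are at most
`2 (top / D + 1)`.
-/

namespace Pool.Agent.SplTr.ZC

open Pool.Agent.SplLog Pool.Agent.SplLs Pool.Agent.SplDq
open scoped Classical

/-- Non crossing pairs. -/
theorem nc_card (P : Finset (ℕ × ℕ)) (N : ℕ) (h1 : ∀ p ∈ P, p.1 < p.2 ∧ p.2 ≤ N)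
    (h2 : ∀ p ∈ P, ∀ q ∈ P, ¬ (p.1 < q.1 ∧ q.1 < p.2 ∧ p.2 < q.2)) : P.card ≤ 2 * (N + 1) := by
  have ha : (P.filter (fun p => ∀ q ∈ P, q.1 = p.1 → q.2 ≤ p.2)).card ≤ N + 1 := by
    rw [← Finset.card_range (N + 1)]
    refine Finset.card_le_card_of_injOn (fun p => p.1) ?_ ?_
    · intro p hp
      have hp' := (Finset.mem_filter.mp (Finset.mem_coe.mp hp)).1
      have h3 := h1 p hp'
      have h4 : p.1 < N + 1 ∧ p.2 < N + 1 := by omega
      exact Finset.mem_coe.mpr (Finset.mem_range.mpr h4.1)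
    · intro p hp q hq hpq
      have hp' := Finset.mem_filter.mp (Finset.mem_coe.mp hp)
      have hq' := Finset.mem_filter.mp (Finset.mem_coe.mp hq)
      have e1 : p.1 = q.1 := hpq
      have e2 := hp'.2 q hq'.1 e1.symm
      have e3 := hq'.2 p hp'.1 e1
      exact Prod.ext e1 (le_antisymm e3 e2)
  have hb : (P.filter (fun p => ¬ ∀ q ∈ P, q.1 = p.1 → q.2 ≤ p.2)).card ≤ N + 1 := by
    rw [← Finset.card_range (N + 1)]
    have key : ∀ p ∈ P, ∀ p' ∈ P, p.2 = p'.2 → p.1 < p'.1 → ∀ q ∈ P, q.1 = p'.1 → q.2 ≤ p'.2 := by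
      intro p hp p' hp' he hl q hq hqe
      by_contra hc
      have := h1 p' hp'
      exact h2 p hp q hq ⟨by omega, by omega, by omega⟩
    refine Finset.card_le_card_of_injOn (fun p => p.2) ?_ ?_
    · intro p hp
      have hp' := (Finset.mem_filter.mp (Finset.mem_coe.mp hp)).1
      have h3 := h1 p hp'
      have h4 : p.1 < N + 1 ∧ p.2 < N + 1 := by omega
      exact Finset.mem_coe.mpr (Finset.mem_range.mpr h4.2)
    · intro p hp q hq hpq
      have hp' := Finset.mem_filter.mp (Finset.mem_coe.mp hp)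
      have hq' := Finset.mem_filter.mp (Finset.mem_coe.mp hq)
      have e1 : p.2 = q.2 := hpq
      rcases lt_trichotomy p.1 q.1 with h | h | h
      · exact absurd (key p hp'.1 q hq'.1 e1 h) hq'.2
      · exact Prod.ext h e1
      · exact absurd (key q hq'.1 p hp'.1 e1.symm h) hp'.2
  have hc := Finset.card_filter_add_card_filter_not (s := P) (fun p => ∀ q ∈ P, q.1 = p.1 → q.2 ≤ p.2)
  omega

variable {S : Sys} {s t D w : ℕ}

theorem zr_le_top (S : Sys) (t v : ℕ) : zr S t v ≤ S.top := Nat.sInf_le (Or.inl rfl)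

theorem zr_le (h : Seen S t w) {v : ℕ} (hv : v < w) : zr S t v ≤ w := Nat.sInf_le (Or.inr ⟨h, hv⟩)

theorem zr_cases (S : Sys) (t v : ℕ) : zr S t v = S.top ∨ (Seen S t (zr S t v) ∧ v < zr S t v) :=
  Nat.sInf_mem (s := {w | w = S.top ∨ (Seen S t w ∧ v < w)}) ⟨S.top, Or.inl rfl⟩

theorem X_lt_rw (ht : t < S.m) : S.X t < rw S t := by
  rcases zr_cases S t (S.X t) with h | h
  · unfold rw
    rw [h]
    exact (S.key _ (S.req t ht)).2
  · exact h.2

/-- Zones do not cross. -/
theorem rw_nc (ht : t < S.m) : ¬ (S.X s < S.X t ∧ S.X t < rw S s ∧ rw S s < rw S t) := by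
  rintro ⟨h1, h2, h3⟩
  rcases lt_trichotomy s t with h | h | h
  · rcases zr_cases S s (S.X s) with h4 | h4
    · have := zr_le_top S t (S.X t)
      unfold rw at h3
      omega
    · obtain ⟨⟨u, hu1, hu2, hu3⟩, h5⟩ := h4
      have h6 : Seen S t (zr S s (S.X s)) := ⟨u, hu1.trans h, hu2, hu3⟩
      have h7 := zr_le h6 h2
      unfold rw at h3
      omega
  · subst h
    omega
  · have h6 : Seen S s (S.X t) := ⟨t, h, ht, rfl⟩
    have h7 := zr_le h6 h1
    unfold rw at h2
    omega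

/-- The number of windows. -/
theorem win_card (T : Finset ℕ) (hD : 0 < D) (hT : ∀ t ∈ T, t < S.m ∧ S.X t + D ≤ rw S t) :
    (T.image (fun t => (S.X t / D, rw S t / D))).card ≤ 2 * (S.top / D + 1) := by
  apply nc_card
  · intro p hp
    obtain ⟨t, ht, rfl⟩ := Finset.mem_image.mp hp
    have h := hT t ht
    constructor
    · show S.X t / D < rw S t / D
      have h1 : S.X t / D + 1 ≤ rw S t / D := by
        rw [← Nat.add_div_right _ hD]
        exact Nat.div_le_div_right h.2
      omega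
    · exact Nat.div_le_div_right (zr_le_top S t (S.X t))
  · intro p hp q hq
    obtain ⟨s, hs, rfl⟩ := Finset.mem_image.mp hp
    obtain ⟨t, ht, rfl⟩ := Finset.mem_image.mp hq
    rintro ⟨h1, h2, h3⟩
    have g : ∀ a b : ℕ, a / D < b / D → a < b := fun a b h => by
      by_contra hc
      exact absurd (Nat.div_le_div_right (c := D) (not_lt.mp hc)) (by omega)
    exact rw_nc (hT t ht).1 ⟨g _ _ h1, g _ _ h2, g _ _ h3⟩

end Pool.Agent.SplTr.ZC
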