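import Pool.Agent.SplTr.Rnd
import Pool.Agent.SplTr.Dorm
import Pool.Agent.SplTr.ZCell

set_option autoImplicit false

/-!
# Instance of the class axioms: walls, releases, number of window keys
-/

namespace Pool.Agent.SplTr

namespace Ins

open Pool.Agent.SplLog Pool.Agent.SplLs Pool.Agent.SplDq
open scoped Classical

variable {S : Sys} {r r' : Rnd} {s t u v : ℕ}

theorem seen_mono (h : Seen S s v) (hst : s ≤ t) : Seen S t v := by
  obtain ⟨a, h1, h2, h3⟩ := h
  exact ⟨a, by omega, h2, h3⟩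

theorem rd_tm (h : Rd S r) : r.t < S.m := h.kl.1.1

theorem rd_rel (h : Rd S r) : r.rel < S.m := lt_of_le_of_lt h.rt (rd_tm h)

theorem rd_s (h : Rd S r) : r.s < S.m := lt_trans h.st (rd_tm h)

theorem rd_g (h : Rd S r) : r.g ∈ S.K := h.kl.1.2.1

theorem rd_ne (h : Rd S r) : S.NE r.g (r.s + 1) r.rel := by
  intro u h1 h2 h3
  have := (h.ne u (by omega) (lt_of_lt_of_le h2 h.rt) h3).1
  omega

theorem rd_lam1 (h : Rd S r) : S.lam (r.s + 1) r.g = r.q ∧ S.rho (r.s + 1) r.g = r.h := by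
  rcases h.sk with ⟨h1, h2⟩ | ⟨h1, h2⟩
  · exact ⟨h1.2.2, h2⟩
  · exact ⟨h2, h1.2.2⟩

/-- While the round is alive the subtree interval is `(q, h)`. -/
theorem rd_int (h : Rd S r) (h1 : r.s < t) (h2 : t ≤ r.rel) :
    S.lam t r.g = r.q ∧ S.rho t r.g = r.h := by
  have h3 := rd_lam1 h
  have h4 := Sys.NE_const (rd_g h) (s := r.s + 1) (t := t) (by omega)
    (by have := rd_rel h; omega) ((rd_ne h).mono le_rfl h2)
  exact ⟨h4.1.trans h3.1, h4.2.trans h3.2⟩

theorem rd_q (h : Rd S r) : r.q ∈ S.K := by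
  have h3 := rd_lam1 h
  rcases S.lam_mem (r.s + 1) (rd_s h) r.g (rd_g h) with h1 | h1
  · have := h.q0
    omega
  · rwa [h3.1] at h1

theorem rd_qg (h : Rd S r) : r.q < r.g := by
  have h3 := rd_lam1 h
  have := S.lam_lt (r.s + 1) (rd_s h) r.g (rd_g h)
  omega

/-- No request in `[q, g]` before the release. -/
theorem rd_un (hS : Spl S) (h : Rd S r) (hu : u < r.rel) : ¬ (r.q ≤ S.X u ∧ S.X u ≤ r.g) := by
  rintro ⟨h1, h2⟩
  have hm := rd_rel h
  have hg : S.X u ≠ r.g := fun e => h.gU ⟨u, by have := h.rt; omega, by omega, e⟩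
  rcases Nat.lt_or_ge r.s u with h3 | h3
  · exact h.nr u h3 hu ⟨h1, by omega⟩
  · have h4 : S.X u ≠ r.q := fun e => h.qU ⟨u, by omega, by omega, e⟩
    have h5 := rd_lam1 h
    have h6 := Dm.no_seen_between hS (r.s + 1) (rd_s h) r.g (rd_g h)
      (fun hs => h.gU (seen_mono hs h.st)) (by rw [h5.1]; exact rd_q h)
      (by rw [h5.1]; exact h.qU) u (by omega)
    rw [h5.1] at h6
    exact h6 ⟨by omega, by omega⟩

theorem rd_rw (hS : Spl S) (h : Rd S r) : r.g < rw S r.rel := by
  rcases ZC.zr_cases S r.rel (S.X r.rel) with h1 | ⟨⟨u, h1, h2, h3⟩, h4⟩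
  · unfold rw
    rw [h1]
    exact (S.key _ (rd_g h)).2
  · unfold rw
    by_contra hc
    exact rd_un hS h h1 ⟨by have := h.rq; omega, by omega⟩

theorem w_top (S : Sys) (t : ℕ) : rw S t ≤ S.top := ZC.zr_le_top S t _

theorem w_zz (hs : s < S.m) (h : s ≤ t) : S.X s ≤ S.X t ∨ rw S t ≤ S.X s := by
  rcases Nat.lt_or_ge s t with h1 | h1
  · rcases Nat.lt_or_ge (S.X t) (S.X s) with h2 | h2
    · exact Or.inr (ZC.zr_le ⟨s, h1, hs, rfl⟩ h2)
    · exact Or.inl h2
  · have : s = t := by omega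
    subst this
    exact Or.inl le_rfl

theorem w_ww (h : s ≤ t) : rw S s ≤ S.X t ∨ rw S t ≤ rw S s := by
  rcases ZC.zr_cases S s (S.X s) with h1 | ⟨h1, _⟩
  · right
    show _ ≤ zr S s (S.X s)
    rw [h1]
    exact w_top S t
  · rcases Nat.lt_or_ge (S.X t) (rw S s) with h2 | h2
    · exact Or.inr (ZC.zr_le (seen_mono h1 h) h2)
    · exact Or.inl h2

theorem le_zl (h : Seen S t u) (hv : u < v) : u ≤ zl S t v := by
  refine le_csSup ⟨v, ?_⟩ (Or.inr ⟨h, hv⟩)
  rintro w (h1 | ⟨_, h1⟩)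
  · omega
  · exact h1.le

theorem rd_f0 (h : Rd S r) (h0 : F0 S r) (hu : u ≤ r.s) (hx : S.X u < r.g) :
    r.g + S.X u ≤ 2 * r.q := by
  have h1 := le_zl (S := S) (t := r.s + 1) ⟨u, by omega, by have := rd_s h; omega, rfl⟩ hx
  unfold F0 at h0
  omega

/-! ### The number of window keys -/

/-- No request up to the time `t` lies strictly between `X t` and its right wall. -/
theorem no_req (hs : s < S.m) (h : s ≤ t) : ¬ (S.X t < S.X s ∧ S.X s < rw S t) := by
  rintro ⟨h1, h2⟩
  rcases w_zz hs h with h3 | h3 <;> omega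

/-- The requests in the cells strictly between. -/
noncomputable def kP (S : Sys) (D t : ℕ) : Finset ℕ :=
  (Finset.range S.m).filter (fun s => S.X t / D < S.X s / D ∧ S.X s / D < rw S t / D)

/-- The cell of a key. -/
noncomputable def kc (S : Sys) (D t : ℕ) : ℕ :=
  if h : (kP S D t).Nonempty then S.X ((kP S D t).min' h) / D else S.X t / D + 1

theorem lt_of_div {a b D : ℕ} (h : a / D < b / D) : a < b := by
  by_contra hc
  have := Nat.div_le_div_right (c := D) (Nat.le_of_not_lt hc)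
  omega

theorem kP_gt (hs : s ∈ kP S v t) : t < s := by
  unfold kP at hs
  rw [Finset.mem_filter, Finset.mem_range] at hs
  by_contra hc
  exact no_req hs.1 (Nat.le_of_not_lt hc) ⟨lt_of_div hs.2.1, lt_of_div hs.2.2⟩

theorem kc_lt {D : ℕ} (h : S.X t / D + 2 ≤ rw S t / D) : kc S D t < rw S t / D := by
  unfold kc
  split_ifs with h1
  · have := Finset.min'_mem _ h1
    unfold kP at this
    rw [Finset.mem_filter] at this
    exact this.2.2
  · omega

theorem kc_inj1 {D : ℕ} (ht : t < S.m) (hs : s < S.m) (h : S.X t / D + 2 ≤ rw S t / D)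
    (h' : S.X s / D + 2 ≤ rw S s / D) (hc : kc S D t = kc S D s) : ¬ S.X t / D < S.X s / D := by
  intro hlt
  -- the request `s` lies in the cells strictly between for `t`, or beyond
  have hcs : S.X s / D < kc S D s := by
    unfold kc
    split_ifs with h1
    · have := Finset.min'_mem _ h1
      unfold kP at this
      rw [Finset.mem_filter] at this
      exact this.2.1
    · omega
  have h2 := kc_lt h
  have h3 : s ∈ kP S D t := by
    unfold kP
    rw [Finset.mem_filter, Finset.mem_range]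
    exact ⟨hs, hlt, by omega⟩
  have h4 : (kP S D t).Nonempty := ⟨s, h3⟩
  have e1 : kc S D t = S.X ((kP S D t).min' h4) / D := by
    unfold kc
    rw [dif_pos h4]
  set T := (kP S D t).min' h4 with hT
  have h5 := Finset.min'_mem _ h4
  rw [← hT] at h5
  have h6 : T ≤ s := Finset.min'_le _ _ h3
  -- `T` is a request in the cell `kc`, strictly between for `s`: later than `s`
  have h7 : T ∈ kP S D s := by
    unfold kP at h5 ⊢
    rw [Finset.mem_filter] at h5 ⊢
    have := kc_lt h'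
    exact ⟨h5.1, by omega, by omega⟩
  have := kP_gt h7
  omega

theorem kc_inj2 {D : ℕ} (ht : t < S.m) (hs : s < S.m) (h : S.X t / D + 2 ≤ rw S t / D)
    (h' : S.X s / D + 2 ≤ rw S s / D) (hc : kc S D t = kc S D s) (he : S.X t / D = S.X s / D) :
    ¬ rw S t / D < rw S s / D := by
  intro hlt
  -- the wall of `t` is a request before `t`
  obtain ⟨a, h1, h2, h3⟩ : Seen S t (rw S t) := by
    rcases ZC.zr_cases S t (S.X t) with h1 | h1
    · exfalso
      have h2 := w_top S s
      have h3 : rw S t = S.top := h1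
      have h4 := lt_of_div hlt
      omega
    · exact h1.1
  have h4 : a ∈ kP S D s := by
    unfold kP
    rw [Finset.mem_filter, Finset.mem_range]
    exact ⟨h2, by rw [h3]; omega, by rw [h3]; exact hlt⟩
  have h5 : (kP S D s).Nonempty := ⟨a, h4⟩
  have e1 : kc S D s = S.X ((kP S D s).min' h5) / D := by
    unfold kc
    rw [dif_pos h5]
  set T := (kP S D s).min' h5 with hT
  have h6 := Finset.min'_mem _ h5
  rw [← hT] at h6
  have h7 : T ≤ a := Finset.min'_le _ _ h4
  have h8 : T ∈ kP S D t := by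
    unfold kP at h6 ⊢
    rw [Finset.mem_filter] at h6 ⊢
    have := kc_lt h
    exact ⟨h6.1, by omega, by omega⟩
  have := kP_gt h8
  omega

theorem wkeys (T : Finset ℕ) (D : ℕ) (hT : ∀ t ∈ T, t < S.m ∧ S.X t / D + 2 ≤ rw S t / D) :
    (T.image (fun t => (S.X t / D, rw S t / D))).card ≤ S.top / D + 1 := by
  have key : ∀ t ∈ T, ∀ s ∈ T, kc S D t = kc S D s →
      ((S.X t / D, rw S t / D) : ℕ × ℕ) = (S.X s / D, rw S s / D) := by
    intro t ht s hs hc
    have h1 := hT t ht
    have h2 := hT s hs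
    have h3 := kc_inj1 h1.1 h2.1 h1.2 h2.2 hc
    have h4 := kc_inj1 h2.1 h1.1 h2.2 h1.2 hc.symm
    have e : S.X t / D = S.X s / D := by omega
    have h5 := kc_inj2 h1.1 h2.1 h1.2 h2.2 hc e
    have h6 := kc_inj2 h2.1 h1.1 h2.2 h1.2 hc.symm e.symm
    rw [Prod.mk.injEq]
    exact ⟨e, by omega⟩
  let ψ : ℕ → ℕ × ℕ := fun j => if h : ∃ t ∈ T, kc S D t = j then
    (S.X h.choose / D, rw S h.choose / D) else (0, 0)
  have e : T.image (fun t => (S.X t / D, rw S t / D)) ⊆ (T.image (kc S D)).image ψ := by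
    intro p hp
    obtain ⟨t, ht, rfl⟩ := Finset.mem_image.1 hp
    refine Finset.mem_image.2 ⟨kc S D t, Finset.mem_image_of_mem _ ht, ?_⟩
    have hex : ∃ t' ∈ T, kc S D t' = kc S D t := ⟨t, ht, rfl⟩
    show (if h : ∃ t' ∈ T, kc S D t' = kc S D t then
      (S.X h.choose / D, rw S h.choose / D) else (0, 0)) = _
    rw [dif_pos hex]
    exact key _ hex.choose_spec.1 _ ht hex.choose_spec.2
  refine (Finset.card_le_card e).trans (Finset.card_image_le.trans ?_)
  rw [← Finset.card_range (S.top / D + 1)]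
  apply Finset.card_le_card
  intro j hj
  obtain ⟨t, ht, rfl⟩ := Finset.mem_image.1 hj
  rw [Finset.mem_range]
  have h1 := kc_lt (hT t ht).2
  have h2 := Nat.div_le_div_right (c := D) (w_top S t)
  omega

end Ins

end Pool.Agent.SplTr
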