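import Pool.Agent.SplTr.InsA
import Pool.Agent.SplTr.DormR
import Pool.Agent.SplTr.Pair

set_option autoImplicit false

/-!
# Stubs of the instance: L1, L3, L6 (helper18) and dormant rounds (helper43)
-/

namespace Pool.Agent.SplTr

namespace Ins

open Pool.Agent.SplLog Pool.Agent.SplLs Pool.Agent.SplDq
open scoped Classical

variable {S : Sys} {x y f : Rnd} {k : ℕ} {F : Finset Rnd}

-- MODULE pl
/-- (L1) -/
theorem pL1 (hG : Good S) (hx : Rd S x) (hy : Rd S y) (h : x.g < y.g) (h1 : x.s < y.rel)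
    (h2 : y.s < x.rel) (hq : y.q < x.g) : y.rel ≤ x.rel := by
  have a1 := hx.rs
  have a2 := hy.rs
  exact lk_rel hx hy (τ := min x.rel y.rel) ⟨by omega, by omega⟩ ⟨by omega, by omega⟩ h hq

/-- (L3) -/
theorem pL3 (hG : Good S) (hx : Rd S x) (hy : Rd S y) (h : x.g < y.g) (h1 : x.s < y.rel)
    (h2 : y.s < x.rel) (hq : y.q < x.g) : bt S x ≤ bt S y := by
  have a1 := hx.rs
  have a2 := hy.rs
  exact lk_bb hG.spl hx hy (τ := min x.rel y.rel) ⟨by omega, by omega⟩ ⟨by omega, by omega⟩ h hq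

/-- (L6) -/
theorem pL6 (hG : Good S) (hx : Rd S x) (hy : Rd S y) (hf : Rd S f) (h : x.g < f.g)
    (h' : f.g < y.g) (h1 : x.s < y.rel) (h2 : y.s < x.rel) (hq : y.q < x.g) (hb : 0 < bt S x)
    (h3 : S.X f.rel < x.g) (h4 : y.g < rw S f.rel) (h5 : y.s < bt S f) :
    ∃ τ, bt S x ≤ τ + 1 ∧ τ < y.s ∧ S.L τ f.g := by
  have a1 := hx.rs
  have a2 := hy.rs
  have a3 := hf.rs
  rcases bt_spec S f with h6 | ⟨v, h6, h7, h8⟩
  · omega
  · refine lk_sweep' hG.spl hx hy (τ := min x.rel y.rel) ⟨by omega, by omega⟩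
      ⟨by omega, by omega⟩ (by omega) hq hb h h' (v := v) (by omega) ?_ h7
    intro u hu1 hu2
    have h9 := rd_rel hf
    have h10 := no_req (S := S) (s := u) (t := f.rel) (by omega) (by omega)
    omega
-- END pl

-- MODULE dm
/-- dormant rounds -/
theorem pDm (hG : Good S) {a : Rnd} {b : ℕ} {J : Finset Rnd} (ha : Rd S a) (hJ : ∀ r ∈ J, Rd S r)
    (hi : ∀ r ∈ J, ∀ r' ∈ J, r.g = r'.g → r = r')
    (h : ∀ r ∈ J, a.g < r.g ∧ r.g < b ∧ r.q < a.g ∧ a.rel ≤ r.s ∧ bt S r ≤ a.rel ∧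
      ∃ f, Rd S f ∧ r.s < f.rel ∧ S.X f.rel < a.g ∧ b ≤ rw S f.rel) :
    J.card ≤ 4 * Nat.log 2 (b - a.g) + 20 := by
  refine Dm.dorm_rd hG ha b J hi (fun r hr => ?_)
  obtain ⟨h1, h2, h3, h4, h5, f, hf, h6, h7, h8⟩ := h r hr
  exact ⟨hJ r hr, h1, h2, h3, h4, h5, f.rel, h6, rd_rel hf, h7, h8⟩
-- END dm

end Ins

end Pool.Agent.SplTr
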