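import Pool.Agent.SplTr.Rnd

set_option autoImplicit false

/-!
# Splitting systems: mirror images
-/

namespace Pool.Agent.SplTr

open Pool.Agent.SplLog Pool.Agent.SplLs Pool.Agent.SplDq
open scoped Classical

variable {S : Sys} {s t u v w g p a b : ℕ}

theorem Spl.mem_iff (h : Spl S) : v ∈ S.K ↔ 0 < v ∧ v < S.top :=
  ⟨fun hv => S.key v hv, fun hv => h.full v hv.1 hv.2⟩

theorem mir_top (S : Sys) : S.mir.top = S.top := rfl

theorem mir_m (S : Sys) : S.mir.m = S.m := rfl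

theorem mir_X (S : Sys) (t : ℕ) : S.mir.X t = S.top - S.X t := rfl

theorem seen_mir (hv : v ≤ S.top) (_h0 : 0 < v) :
    Seen S.mir t (S.top - v) ↔ Seen S t v := by
  constructor
  · rintro ⟨s, h2, h3, h4⟩
    have h5 := S.key _ (S.req s h3)
    rw [mir_X] at h4
    exact ⟨s, h2, h3, by omega⟩
  · rintro ⟨s, h2, h3, h4⟩
    exact ⟨s, h2, h3, by rw [mir_X, h4]⟩

theorem seen_mem (h : Seen S t v) : v ∈ S.K := by
  obtain ⟨s, _, h2, rfl⟩ := h
  exact S.req s h2

theorem seen_mono (h : Seen S s v) (hst : s ≤ t) : Seen S t v := by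
  obtain ⟨u, h1, h2, h3⟩ := h
  exact ⟨u, by omega, h2, h3⟩

theorem spl_mir (h : Spl S.mir) : Spl S where
  full := by
    intro v h1 h2
    have h3 := h.full (S.top - v) (by omega) (by change S.top - v < S.top; omega)
    obtain ⟨u, hu, he⟩ := Sys.mir_mem.1 h3
    have h4 := S.key u hu
    have h5 : v = u := by omega
    rw [h5]
    exact hu
  inj := by
    intro s t hs ht he
    refine h.inj s t hs ht ?_
    change S.top - S.X s = S.top - S.X t
    rw [he]
  loc := by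
    intro t v hE
    have hv := Sys.E_mem hE
    have ht := Sys.E_lt hE
    have h1 := S.key v hv
    have hXt := S.key _ (S.req t ht)
    rcases h.loc t (S.top - v) ((Sys.mir_E hv).2 hE) with h2 | h2
    · exact Or.inl ((seen_mir h1.2.le h1.1).1 h2)
    · right
      intro s hs
      have h3 := h2 s hs
      have hXs := S.key _ (S.req s (by omega))
      rw [mir_X, mir_X] at h3
      omega

theorem spl_mir' (h : Spl S) : Spl S.mir where
  full := by
    intro v h1 h2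
    rw [mir_top] at h2
    exact Sys.mir_mem.2 ⟨S.top - v, h.full _ (by omega) (by omega), by omega⟩
  inj := by
    intro s t hs ht he
    have h1 := S.key _ (S.req s hs)
    have h2 := S.key _ (S.req t ht)
    rw [mir_X, mir_X] at he
    exact h.inj s t hs ht (by omega)
  loc := by
    intro t v hE
    obtain ⟨u, hu, rfl⟩ := Sys.mir_mem.1 (Sys.E_mem hE)
    have hE' := (Sys.mir_E hu).1 hE
    have ht := Sys.E_lt hE'
    have h1 := S.key u hu
    have hXt := S.key _ (S.req t ht)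
    rcases h.loc t u hE' with h2 | h2
    · exact Or.inl ((seen_mir h1.2.le h1.1).2 h2)
    · right
      intro s hs
      have h3 := h2 s hs
      have hXs := S.key _ (S.req s (by omega))
      rw [mir_X, mir_X]
      omega

theorem irr_mir (S : Sys) : irr S.mir = irr S :=
  Sys.mir_cnt (fun _ u hu => and_congr (Sys.mir_E hu)
    (seen_mir (S.key u hu).2.le (S.key u hu).1))

theorem tch_mir (S : Sys) : tch S.mir = tch S :=
  Sys.mir_cnt (fun _ _ hu => Sys.mir_E hu)

private theorem TP_R {S : Sys} {t y : ℕ} (hy : y ∈ S.K) : S.mir.mir.R t y ↔ S.R t y := by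
  have h1 := S.key y hy
  have h2 : S.top - y ∈ S.mir.K := Sys.mir_mem.2 ⟨y, hy, rfl⟩
  have h3 := Sys.mir_R (t := t) h2
  have e : S.mir.top - (S.top - y) = y := Nat.sub_sub_self h1.2.le
  rw [e] at h3
  rw [h3, Sys.mir_L hy]

private theorem TP_rho {S : Sys} {t y : ℕ} (ht : t ≤ S.m) (hy : y ∈ S.K) :
    S.mir.mir.rho t y = S.rho t y := by
  have h1 := S.key y hy
  have h2 : S.top - y ∈ S.mir.K := Sys.mir_mem.2 ⟨y, hy, rfl⟩
  have h3 := Sys.mir_rho (t := t) h2
  have e : S.mir.top - (S.top - y) = y := Nat.sub_sub_self h1.2.le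
  rw [e, Sys.mir_lam hy] at h3
  rw [h3]
  exact Nat.sub_sub_self (S.rho_le_top ht hy)

private theorem TP_lam {S : Sys} {t y : ℕ} (ht : t ≤ S.m) (hy : y ∈ S.K) :
    S.mir.mir.lam t y = S.lam t y := by
  have h1 := S.key y hy
  have h2 : S.top - y ∈ S.mir.K := Sys.mir_mem.2 ⟨y, hy, rfl⟩
  have h3 := Sys.mir_lam (t := t) h2
  have e : S.mir.top - (S.top - y) = y := Nat.sub_sub_self h1.2.le
  rw [e, Sys.mir_rho hy] at h3
  rw [h3]
  exact Nat.sub_sub_self (S.lam_lt_top ht hy).le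

private theorem TP_mem {S : Sys} {y : ℕ} (hy : y ∈ S.mir.mir.K) : y ∈ S.K := by
  obtain ⟨u, hu, rfl⟩ := Sys.mir_mem.1 hy
  obtain ⟨w, hw, rfl⟩ := Sys.mir_mem.1 hu
  have h1 := S.key w hw
  have e : S.mir.top - (S.top - w) = w := Nat.sub_sub_self h1.2.le
  rw [e]
  exact hw

theorem thr_mm {S : Sys} (h : Thr S) : Thr S.mir.mir := by
  intro t y hy hv hu hl1 hl2
  have ht : t < S.m := hy.1
  have hyK : y ∈ S.K := TP_mem hy.2.1
  have hyR : S.R t y := (TP_R hyK).1 hy
  rw [TP_rho ht.le hyK] at hv hu hl1 hl2 ⊢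
  have hvK : S.rho t y ∈ S.K := TP_mem hv.2.1
  have hvR : S.R t (S.rho t y) := (TP_R hvK).1 hv
  rw [TP_rho ht.le hvK] at hu hl2 ⊢
  have huK : S.rho t (S.rho t y) ∈ S.K := TP_mem hu.2.1
  have huR : S.R t (S.rho t (S.rho t y)) := (TP_R huK).1 hu
  rw [TP_lam ht.le hvK, TP_lam ht.le hyK] at hl1
  rw [TP_lam ht.le huK, TP_lam ht.le hyK] at hl2
  have hx : S.mir.mir.X t = S.X t := Nat.sub_sub_self (S.key _ (S.req t ht)).2.le
  rcases h t y hyR hvR huR hl1 hl2 with k | k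
  · left
    refine ⟨hv, ?_, ?_⟩
    · rw [hx]
      exact k.2.1
    · rw [TP_lam ht hvK]
      exact k.2.2
  · right
    refine ⟨hu, ?_, ?_⟩
    · rw [hx]
      exact k.2.1
    · rw [TP_lam ht huK]
      exact k.2.2

theorem thrU_mm {S : Sys} (h : ThrU S) : ThrU S.mir.mir := by
  intro t y hs hy hv hu hl1 hl2
  have ht : t < S.m := hy.1
  have hyK : y ∈ S.K := TP_mem hy.2.1
  have hyR : S.R t y := (TP_R hyK).1 hy
  rw [TP_rho ht.le hyK] at hs hv hu hl1 hl2 ⊢
  have hvK : S.rho t y ∈ S.K := TP_mem hv.2.1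
  have hvR : S.R t (S.rho t y) := (TP_R hvK).1 hv
  rw [TP_rho ht.le hvK] at hs hu hl2 ⊢
  have huK : S.rho t (S.rho t y) ∈ S.K := TP_mem hu.2.1
  have huR : S.R t (S.rho t (S.rho t y)) := (TP_R huK).1 hu
  rw [TP_lam ht.le hvK, TP_lam ht.le hyK] at hl1
  rw [TP_lam ht.le huK, TP_lam ht.le hyK] at hl2
  have hx : S.mir.mir.X t = S.X t := Nat.sub_sub_self (S.key _ (S.req t ht)).2.le
  have hs' : ¬ Seen S t (S.rho t (S.rho t y)) := by
    rintro ⟨s, h1, h2, h3⟩
    exact hs ⟨s, h1, h2, (Nat.sub_sub_self (S.key _ (S.req s h2)).2.le).trans h3⟩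
  rcases h t y hs' hyR hvR huR hl1 hl2 with k | k
  · left
    refine ⟨hv, ?_, ?_⟩
    · rw [hx]
      exact k.2.1
    · rw [TP_lam ht hvK]
      exact k.2.2
  · right
    refine ⟨hu, ?_, ?_⟩
    · rw [hx]
      exact k.2.1
    · rw [TP_lam ht huK]
      exact k.2.2

theorem good_mir (h : Good S) : Good S.mir :=
  ⟨spl_mir' h.spl, h.thr', thrU_mm h.thr⟩

/-- The two kinds of kills. -/
theorem kr_mir (hg : g ∈ S.K) (hw : w ∈ S.K) :
    S.mir.Kl t (S.top - g) (S.top - w) ↔ Kr S t g w := by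
  have h1 := S.key g hg
  have h2 := S.key w hw
  unfold Sys.Kl Kr
  rw [Sys.mir_R hg, Sys.mir_lam hg, mir_X]
  constructor
  · rintro ⟨h3, h4, h5⟩
    have h6 := S.key _ (S.req t h3.1)
    have h7 := S.rho_le_top (show t + 1 ≤ S.m from h3.1) hg
    refine ⟨h3, by omega, by omega⟩
  · rintro ⟨h3, h4, h5⟩
    have h6 := S.key _ (S.req t h3.1)
    refine ⟨h3, by omega, by rw [h5]⟩

theorem kr_mem (h : Kr S t g w) : w ∈ S.K := by
  obtain ⟨h1, h2, h3⟩ := h
  have h4 := S.key _ (S.req t h1.1)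
  rcases S.rho_mem (t + 1) h1.1 g h1.2.1 with h5 | h5
  · omega
  · rw [← h3]
    exact h5

/-- All about a kill on the left side. -/
theorem kr_facts (h : Kr S t g w) : S.L t w ∧ S.rho (t + 1) w = S.X t ∧ g < w ∧
    S.rho t w = S.rho t g ∧ S.lam t w = g ∧ S.lam (t + 1) w = S.lam t g ∧
    S.lam (t + 1) g = S.lam t g := by
  have hg := h.1.2.1
  have hw := kr_mem h
  have h0 := Sys.kl_facts ((kr_mir hg hw).2 h)
  have ht := h.1.1
  have g1 := S.key g hg
  have w1 := S.key w hw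
  have x1 := S.key _ (S.req t ht)
  obtain ⟨⟨h1, h2⟩, h3, h4, h5, h6, h7⟩ := h0
  rw [Sys.mir_R hw] at h1
  rw [Sys.mir_lam hw, mir_X] at h2
  rw [Sys.mir_lam hw, Sys.mir_lam hg] at h4
  rw [Sys.mir_rho hw] at h5
  rw [Sys.mir_rho hw, Sys.mir_rho hg] at h6
  rw [Sys.mir_rho hg, Sys.mir_rho hg] at h7
  have a1 := S.rho_le_top ht.le hw
  have a2 := S.rho_le_top ht.le hg
  have a3 := S.rho_le_top (show t + 1 ≤ S.m from ht) hw
  have b1 := S.lam_lt_top ht.le hw
  have b2 := S.lam_lt_top ht.le hg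
  have b3 := S.lam_lt_top (show t + 1 ≤ S.m from ht) hw
  have b4 := S.lam_lt_top (show t + 1 ≤ S.m from ht) hg
  refine ⟨h1, by omega, by omega, by omega, by omega, by omega, by omega⟩

end Pool.Agent.SplTr
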