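import Pool.Agent.SplTr.Defs

set_option autoImplicit false

/-!
# Rounds, classes and the statements of the parts

State-times: the functions `lam t`, `rho t` describe the tree just before the request `t`; just
after the request `t` is the time `t + 1`.
-/

namespace Pool.Agent.SplTr

open Pool.Agent.SplLog Pool.Agent.SplLs Pool.Agent.SplDq
open scoped Classical

/-- The data of a round: the kill `(p, g; h)` at the request `t`, the last kill `s` of `g` before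
`t`, the key `q = lam (s + 1) g`, the first request `rel` after `s` with a key in `[q, g)`. -/
structure Rnd where
  t : ℕ
  g : ℕ
  p : ℕ
  h : ℕ
  s : ℕ
  q : ℕ
  rel : ℕ

/-- `r` is a round (on the right side of the requests: left kill). -/
structure Rd (S : Sys) (r : Rnd) : Prop where
  kl : S.Kl r.t r.g r.p
  hh : S.rho r.t r.g = r.h
  gU : ¬ Seen S r.t r.g
  pU : ¬ Seen S r.t r.p
  ht : r.h < S.top
  hU : ¬ Seen S r.t r.h
  st : r.s < r.t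
  sk : (S.Kl r.s r.g r.q ∧ S.rho (r.s + 1) r.g = r.h) ∨
    (Kr S r.s r.g r.h ∧ S.lam (r.s + 1) r.g = r.q)
  q0 : 0 < r.q
  qU : ¬ Seen S (r.s + 1) r.q
  ne : ∀ u, r.s < u → u < r.t → S.E u r.g → u = r.rel ∧ S.Kp u r.g ∧ S.rho (u + 1) r.g = r.h
  rs : r.s < r.rel
  rt : r.rel ≤ r.t
  rq : r.q ≤ S.X r.rel
  rg : S.X r.rel < r.g
  nr : ∀ u, r.s < u → u < r.rel → ¬ (r.q ≤ S.X u ∧ S.X u < r.g)

/-- The round `r` is alive at the state-time `τ`. -/
def Alv (r : Rnd) (τ : ℕ) : Prop := r.s < τ ∧ τ ≤ r.rel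

/-- The killer `q` of the last kill `s` is not near the left wall (after `s`). -/
def F0 (S : Sys) (r : Rnd) : Prop := r.g + zl S (r.s + 1) r.g ≤ 2 * r.q

/-- The state-time just after the last touch of `r.g` from the right side (`S.L`) up to the request
`r.s`; `0` if there is none. -/
noncomputable def bt (S : Sys) (r : Rnd) : ℕ := sSup {b | b = 0 ∨ ∃ u, u ≤ r.s ∧ S.L u r.g ∧ b = u + 1}

/-- The next event of the victim is a touch on the right side of the path. -/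
def Same (S : Sys) (r : Rnd) : Prop := ∃ u, r.t < u ∧ S.R u r.g ∧ S.NE r.g (r.t + 1) u

/-- The next event of the victim is a touch on the left side of the path. -/
def Flip (S : Sys) (r : Rnd) : Prop := ∃ u, r.t < u ∧ S.L u r.g ∧ S.NE r.g (r.t + 1) u

/-- Near kills. -/
def NI (S : Sys) (M t g : ℕ) : Prop :=
  ∃ p, S.Kl t g p ∧ (p - S.X t < M * (g - p) ∨ p - S.X t < M * (S.rho t g - g) ∨
    rw S t - S.rho t g < M * (S.rho t g - g))

/-- Rounds of the S-family of scale `k`. -/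
def FS (S : Sys) (M k : ℕ) (r : Rnd) : Prop :=
  Rd S r ∧ F0 S r ∧ ¬ NI S M r.t r.g ∧ Same S r ∧ 2 ^ k ≤ r.g - r.p ∧ r.g - r.p < 2 ^ (k + 1)

/-- Rounds of the F-family of scale `k`. -/
def FF (S : Sys) (M k : ℕ) (r : Rnd) : Prop :=
  Rd S r ∧ F0 S r ∧ ¬ NI S M r.t r.g ∧ Flip S r ∧ 2 ^ k ≤ r.h - r.g ∧ r.h - r.g < 2 ^ (k + 1)

/-- A class of rounds of scale `k`. -/
structure Cls (S : Sys) (k : ℕ) (F : Finset Rnd) : Prop where
  rd : ∀ r ∈ F, Rd S r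
  f0 : ∀ r ∈ F, F0 S r
  sep : ∀ r ∈ F, ∀ r' ∈ F, r.g < r'.g → (∃ τ, Alv r τ ∧ Alv r' τ) → r.g + 4 * 2 ^ k ≤ r'.g
  inj : ∀ r ∈ F, ∀ r' ∈ F, r.g = r'.g → r = r'
  rel : ∀ r ∈ F, S.X r.rel + 2 ^ k ≤ r.g

/-- The constant of the far kills. -/
def FM : ℕ := 64

/-- **Part 0.** -/
def ThetaLe : Prop := ∃ C : ℕ, ∀ S : Sys, Good S →
  tch S ≤ 3 * (S.NR + S.mir.NR) + C * (S.top + irr S)

/-- **Part 1.** -/
def HotLe : Prop := ∃ C : ℕ, ∀ S : Sys, Good S →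
  S.NR ≤ 3 * S.cnt (fun t g => ∃ r, Rd S r ∧ (Same S r ∨ Flip S r) ∧ r.t = t ∧ r.g = g) +
    C * (S.top + irr S)

/-- **Part 2, S.** -/
def ClsS : Prop := ∀ S : Sys, Good S → ∀ (k : ℕ) (F : Finset Rnd), (∀ r ∈ F, FS S FM k r) →
  ∃ P : Fin 24 → Finset Rnd, (∀ r ∈ F, ∃ i, r ∈ P i) ∧ ∀ i, Cls S k (P i)

/-- **Part 2, F.** -/
def ClsF : Prop := ∀ S : Sys, Good S → ∀ (k : ℕ) (F : Finset Rnd), (∀ r ∈ F, FF S FM k r) →
  ∃ P : Fin 24 → Finset Rnd, (∀ r ∈ F, ∃ i, r ∈ P i) ∧ ∀ i, Cls S k (P i)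

/-- **Parts 3 and 4.** -/
def ClsCard : Prop := ∀ A : ℕ, ∃ C : ℕ, ∀ S : Sys, Good S → ∀ (k : ℕ) (F : Finset Rnd),
  Cls S k F → A * (k + 1) ^ 2 * F.card ≤ tch S + C * S.top

/-- **Part 5.** -/
def NearLe : Prop := ∀ M k : ℕ, ∃ C : ℕ, ∀ S : Sys, Good S →
  k * S.cnt (NI S M) ≤ tch S + C * (S.top + irr S)

/-- **The theorem.** -/
def Lin : Prop := ∃ C : ℕ, ∀ S : Sys, Good S → tch S ≤ C * (S.top + irr S)

end Pool.Agent.SplTr
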