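import Pool.Agent.SplTr.Wall

set_option autoImplicit false

/-!
# Separable permutations are splitting systems with few irregular touches

A permutation is separable if it avoids the patterns 2413 and 3142.
-/

namespace Pool.Agent.SplTr

open Pool.Agent.SplLog Pool.Agent.SplLs Pool.Agent.SplDq
open scoped Classical

variable {S : Sys} {i j s t u v w g p q y a b : ℕ}

/-- Every key is requested exactly once, and the requests avoid the patterns 2413 and 3142. -/
structure Sep (S : Sys) : Prop where
  full : ∀ v, 0 < v → v < S.top → v ∈ S.K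
  inj : ∀ s t, s < S.m → t < S.m → S.X s = S.X t → s = t
  onto : ∀ v ∈ S.K, ∃ t, t < S.m ∧ S.X t = v
  av1 : ∀ i j k l, i < j → j < k → k < l → l < S.m →
    ¬ (S.X k < S.X i ∧ S.X i < S.X l ∧ S.X l < S.X j)
  av2 : ∀ i j k l, i < j → j < k → k < l → l < S.m →
    ¬ (S.X j < S.X l ∧ S.X l < S.X i ∧ S.X i < S.X k)

theorem sep_mir (h : Sep S) : Sep S.mir where
  full := by
    intro v h1 h2
    rw [mir_top] at h2
    exact Sys.mir_mem.2 ⟨S.top - v, h.full _ (by omega) (by omega), by omega⟩
  inj := by
    intro s t hs ht he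
    have h1 := S.key _ (S.req s hs)
    have h2 := S.key _ (S.req t ht)
    rw [mir_X, mir_X] at he
    exact h.inj s t hs ht (by omega)
  onto := by
    intro v hv
    obtain ⟨u, hu, rfl⟩ := Sys.mir_mem.1 hv
    obtain ⟨t, ht, hX⟩ := h.onto u hu
    exact ⟨t, ht, by rw [mir_X, hX]⟩
  av1 := by
    intro i j k l hij hjk hkl hl
    rw [mir_m] at hl
    have h1 := S.key _ (S.req i (by omega))
    have h2 := S.key _ (S.req j (by omega))
    have h3 := S.key _ (S.req k (by omega))
    have h4 := S.key _ (S.req l hl)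
    have h5 := h.av2 i j k l hij hjk hkl hl
    rw [mir_X, mir_X, mir_X, mir_X]
    omega
  av2 := by
    intro i j k l hij hjk hkl hl
    rw [mir_m] at hl
    have h1 := S.key _ (S.req i (by omega))
    have h2 := S.key _ (S.req j (by omega))
    have h3 := S.key _ (S.req k (by omega))
    have h4 := S.key _ (S.req l hl)
    have h5 := h.av1 i j k l hij hjk hkl hl
    rw [mir_X, mir_X, mir_X, mir_X]
    omega

/-- Nothing smaller than the last request below `X t` is touched on the left side. -/
theorem low' (hit : i < t) (hX : S.X i < S.X t) (hall : ∀ j, i < j → j < t → S.X i < S.X j)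
    (hL : S.L t v) : S.X i ≤ v := by
  by_contra hc
  push Not at hc
  have htm := hL.1
  have hvK := hL.2.1
  have hiK := S.req i (by omega)
  have h1 : S.rho (i + 1) v ≤ S.X i := by
    have h2 := S.acc i (by omega)
    have h3 := S.key v hvK
    rcases S.lamin (i + 1) (by omega) v hvK (S.X i) hiK hc with h | h | h
    · omega
    · omega
    · omega
  have h5 : S.NE v (i + 1) t := by
    suffices h : ∀ b, i + 1 ≤ b → b ≤ t → S.NE v (i + 1) b from h t hit le_rfl
    intro b hb
    induction b, hb using Nat.le_induction with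
    | base =>
      intro _ u hu1 hu2
      omega
    | succ b hb ih =>
      intro hbt u hu1 hu2 hE
      have h6 := ih (by omega)
      rcases Nat.lt_or_ge u b with h7 | h7
      · exact h6 u hu1 h7 hE
      · have h8 : u = b := by omega
        subst h8
        have h9 := (Sys.NE_const hvK hb (by omega) h6).2
        have h10 := Sys.E_int hE
        have h11 := hall u (by omega) (by omega)
        omega
  have h6 := (Sys.NE_const hvK (show i + 1 ≤ t from hit) (by omega) h5).2
  have h7 := hL.2.2.2
  omega

/-- The last request below `X t`. -/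
theorem exists_last (hS : Sep S) (ht : t < S.m) (h : ∃ i, i < t ∧ S.X i < S.X t) :
    ∃ i, i < t ∧ S.X i < S.X t ∧ ∀ j, i < j → j < t → S.X t < S.X j := by
  obtain ⟨i, h1, h2, h3⟩ := Sys.exists_prev (P := fun i => S.X i < S.X t) h
  refine ⟨i, h1, h2, fun j hj1 hj2 => ?_⟩
  have h4 := h3 j hj1 hj2
  have h5 : S.X j ≠ S.X t := fun h => by
    have := hS.inj j t (by omega) ht h
    omega
  omega

/-- **Contiguity.** -/
theorem contL (hS : Sep S) (hL : S.L t v) (hs : Seen S t s) (hsx : s < S.X t) (h1 : v ≤ w)
    (h2 : w ≤ s) : Seen S t w := by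
  by_contra hw
  have ht := hL.1
  obtain ⟨b, hb1, hb2, hb3⟩ := hs
  obtain ⟨i, hi1, hi2, hi3⟩ := exists_last hS ht ⟨b, hb1, by rw [hb3]; exact hsx⟩
  have h3 : S.X i ≤ v := low' hi1 hi2 (fun j a1 a2 => by have := hi3 j a1 a2; omega) hL
  have hwK : w ∈ S.K := hS.full w (by have := S.key v hL.2.1; omega)
    (by have := (S.key _ (S.req t ht)).2; omega)
  obtain ⟨l, hl1, hl2⟩ := hS.onto w hwK
  have h4 : ¬ l < t := fun h => hw ⟨l, h, hl1, hl2⟩
  have h5 : l ≠ t := by
    rintro rfl
    omega
  have h6 : S.X i ≠ w := fun h => hw ⟨i, hi1, by omega, h⟩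
  have h7 : w ≠ s := fun h => hw ⟨b, hb1, hb2, by rw [hb3, h]⟩
  have h8 : b < i := by
    by_contra h9
    have h10 : b ≠ i := by
      rintro rfl
      omega
    have := hi3 b (by omega) hb1
    omega
  have h9 := hS.av2 b i t l h8 hi1 (by omega) hl1
  omega

theorem contR (hS : Sep S) (hR : S.R t v) (hs : Seen S t s) (hsx : S.X t < s) (h1 : s ≤ w)
    (h2 : w ≤ v) : Seen S t w := by
  have hv := hR.2.1
  have k1 := S.key v hv
  have k2 := S.key s (seen_mem hs)
  have k3 := S.key _ (S.req t hR.1)
  have h3 := contL (sep_mir hS) ((Sys.mir_L hv).2 hR) ((seen_mir k2.2.le k2.1).2 hs)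
    (by rw [mir_X]; omega) (show S.top - v ≤ S.top - w by omega) (by omega)
  exact (seen_mir (by omega) (by omega)).1 h3

/-- Separable permutations are splitting systems. -/
theorem spl_of_sep (hS : Sep S) : Spl S := by
  refine ⟨hS.full, hS.inj, ?_⟩
  intro t v hE
  by_cases hv : Seen S t v
  · exact Or.inl hv
  · right
    have ht := Sys.E_lt hE
    intro s hs
    constructor
    · rintro ⟨h1, h2⟩
      rcases hE with h | h | h
      · exact hv (contR hS h ⟨s, hs, by omega, rfl⟩ h1 h2.le le_rfl)
      · have := h.2.2.1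
        omega
      · have := h.2.2
        omega
    · rintro ⟨h1, h2⟩
      rcases hE with h | h | h
      · have := h.2.2.1
        omega
      · exact hv (contL hS h ⟨s, hs, by omega, rfl⟩ h2 le_rfl h1.le)
      · have := h.2.2
        omega

/-! ### Seen keys with an unseen left end -/

/-- seen keys `v` such that `lam v` is an unseen key -/
noncomputable def SA (S : Sys) (t : ℕ) : Finset ℕ :=
  S.K.filter (fun v => Seen S t v ∧ S.lam t v ∈ S.K ∧ ¬ Seen S t (S.lam t v))

/-- touched nodes of `SA` -/
noncomputable def QA (S : Sys) (t : ℕ) : Finset ℕ := (SA S t).filter (fun v => S.R t v)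

/-- seen keys killed by unseen keys -/
noncomputable def UA (S : Sys) (t : ℕ) : Finset ℕ :=
  S.K.filter (fun v => Seen S t v ∧ ∃ p, S.Kl t v p ∧ ¬ Seen S t p)

theorem UA_card (hS : Sep S) (t : ℕ) : (UA S t).card ≤ 1 := by
  rw [Finset.card_le_one]
  have key : ∀ a ∈ UA S t, ∀ b ∈ UA S t, ¬ a < b := by
    intro a ha b hb hab
    simp only [UA, Finset.mem_filter] at ha hb
    obtain ⟨_, ha2, p, ha3, _⟩ := ha
    obtain ⟨_, _, q, hb3, hb4⟩ := hb
    have h1 := kl_R' hb3
    have h2 := kl_rho hb3
    have h3 : a ≤ q := by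
      by_contra h4
      push Not at h4
      have := (Sys.R_above h1 ha3.1 h4).1
      omega
    exact hb4 (contR hS h1 ha2 (R_gt ha3.1) h3 le_rfl)
  intro a ha b hb
  rcases Nat.lt_trichotomy a b with h | h | h
  · exact absurd h (key a ha b hb)
  · exact h
  · exact absurd h (key b hb a ha)

theorem SA_step (hS : Sep S) (ht : t < S.m) : SA S (t + 1) ⊆ (SA S t \ QA S t) ∪ UA S t := by
  intro v hv
  simp only [SA, Finset.mem_filter] at hv
  obtain ⟨hvK, hvs, hl, hlU⟩ := hv
  rw [seen_succ ht] at hvs hlU
  push Not at hlU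
  have hvX : v ≠ S.X t := by
    rintro rfl
    rw [(S.acc t ht).1] at hl
    have := S.key 0 hl
    omega
  have hvs' : Seen S t v := by
    rcases hvs with h | h
    · exact h
    · exact absurd h hvX
  rw [Finset.mem_union]
  by_cases hE : S.E t v
  · rcases hE with hR | hL | hA
    · rcases R_cases hR with c | c | ⟨q, c1, c2, c3⟩
      · exact absurd c.1 hlU.2
      · exact absurd c.1 hlU.2
      · right
        rw [c2] at hlU
        simp only [UA, Finset.mem_filter]
        exact ⟨hvK, hvs', q, c1, hlU.1⟩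
    · rcases L_lam hL with c | ⟨c1, c2, c3⟩
      · left
        rw [c] at hl hlU
        rw [Finset.mem_sdiff]
        simp only [SA, QA, Finset.mem_filter]
        exact ⟨⟨hvK, hvs', hl, hlU.1⟩, fun h => Sys.not_R_L h.2 hL⟩
      · exfalso
        rw [c3] at hl hlU
        have h1 := E_lam (Sys.L_E c2) hl
        have h2 := Sys.E_int h1
        have h3 := S.lam_lt t ht.le _ c1
        have h4 := S.lam_lt t ht.le v hvK
        have h5 := hL.2.2.1
        exact hlU.1 (contL hS ⟨ht, hl, by omega, h2.2⟩ hvs' h5 le_rfl (by omega))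
    · exact absurd hA.2.2 hvX
  · left
    have h1 := (Sys.untouched ht hvK hE).1
    rw [h1] at hl hlU
    rw [Finset.mem_sdiff]
    simp only [SA, QA, Finset.mem_filter]
    exact ⟨⟨hvK, hvs', hl, hlU.1⟩, fun h => hE (Sys.R_E h.2)⟩

theorem SA_zero : SA S 0 = ∅ := by
  rw [Finset.eq_empty_iff_forall_notMem]
  intro v hv
  simp only [SA, Finset.mem_filter] at hv
  obtain ⟨_, ⟨s, h, _⟩, _⟩ := hv
  omega

theorem sum_QA (hS : Sep S) : ∑ t ∈ Finset.range S.m, (QA S t).card ≤ S.m := by
  have h : ∀ k, k ≤ S.m → (SA S k).card + ∑ t ∈ Finset.range k, (QA S t).card ≤ k := by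
    intro k
    induction k with
    | zero =>
      intro _
      rw [SA_zero]
      simp
    | succ k ih =>
      intro hk
      have h1 := ih (by omega)
      have h2 := Finset.card_le_card (SA_step hS (show k < S.m by omega))
      have h3 := Finset.card_union_le (SA S k \ QA S k) (UA S k)
      have h4 := UA_card hS k
      have h5 : (SA S k \ QA S k).card + (QA S k).card = (SA S k).card :=
        Finset.card_sdiff_add_card_eq_card (Finset.filter_subset _ _)
      rw [Finset.sum_range_succ]
      omega
  have := h S.m le_rfl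
  omega

/-! ### Turns -/

/-- **Turns.**  If `v` is seen and a larger touched node has a smaller left end, then `lam v` is
unseen. -/
theorem turn_unseen (hS : Sep S) (hv : S.R t v) (hvs : Seen S t v) (hw : S.R t w) (hvw : v < w)
    (h : S.lam t w < S.lam t v) : S.lam t v ∈ S.K ∧ ¬ Seen S t (S.lam t v) := by
  have ht := hv.1
  have hvK := hv.2.1
  have hwK := hw.2.1
  have hsK : S.lam t v ∈ S.K := by
    rcases S.lam_mem t ht.le v hvK with h1 | h1
    · omega
    · exact h1
  refine ⟨hsK, ?_⟩
  rintro ⟨i, hi1, hi2, hi3⟩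
  obtain ⟨j, hj1, hj2, hj3⟩ := hvs
  set s := S.lam t v with hs
  have hsx : s < S.X t := R_lam hv
  have hxv := R_gt hv
  have hrs : v < S.rho t s := S.lam_anc t ht.le v hvK hsK
  have hne : i ≠ j := by
    rintro rfl
    omega
  rcases Nat.lt_or_ge i j with hij | hij
  · -- `v` was requested after `s`
    have h1 : S.rho (j + 1) s ≤ v := by
      have h2 := S.acc j hj2
      rw [hj3] at h2
      have h4 := S.lam_lt (j + 1) (by omega) v hvK
      rcases S.lamin (j + 1) (by omega) s hsK v hvK (by omega) with h | h | h <;> omega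
    have h2 : ∃ k, j < k ∧ k < t ∧ S.R k s := by
      by_contra hc
      push Not at hc
      have h3 : ∀ b, j + 1 ≤ b → b ≤ t → S.rho b s ≤ v := by
        intro b hb
        induction b, hb using Nat.le_induction with
        | base => exact fun _ => h1
        | succ b hb ih =>
          intro hbt
          have h4 := ih (by omega)
          have hbm : b < S.m := by omega
          by_cases hE : S.E b s
          · rcases hE with c | c | c
            · exact absurd c (hc b (by omega) (by omega))
            · have := (Sys.L_mono c).1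
              omega
            · have := hS.inj b i hbm hi2 (by rw [← c.2.2, hi3])
              omega
          · rw [(Sys.untouched hbm hsK hE).2]
            exact h4
      have := h3 t (by omega) le_rfl
      omega
    obtain ⟨k, hk1, hk2, hk3⟩ := h2
    have h3 := hS.av1 i j k t hij hk1 hk2 ht
    have h4 := R_gt hk3
    omega
  · -- `s` was requested after `v`
    have hij' : j < i := by omega
    have h1 : s ≤ S.lam (i + 1) w := by
      have h2 := S.acc i hi2
      rw [hi3] at h2
      have h4 := S.lt_rho (i + 1) (by omega) w hwK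
      have h5 := S.rho_le_top (show i + 1 ≤ S.m by omega) hwK
      rcases S.lamin (i + 1) (by omega) s hsK w hwK (by omega) with h | h | h <;> omega
    have h2 : ∃ k, i < k ∧ k < t ∧ S.L k w := by
      by_contra hc
      push Not at hc
      have h3 : ∀ b, i + 1 ≤ b → b ≤ t → s ≤ S.lam b w := by
        intro b hb
        induction b, hb using Nat.le_induction with
        | base => exact fun _ => h1
        | succ b hb ih =>
          intro hbt
          have h4 := ih (by omega)
          have hbm : b < S.m := by omega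
          by_cases hE : S.E b w
          · rcases hE with c | c | c
            · have := (Sys.R_mono c).1
              omega
            · exact absurd c (hc b (by omega) (by omega))
            · -- `w` is requested at time `b`
              exfalso
              have h3 := hS.av2 j i b t hij' (by omega) (by omega) ht
              have := c.2.2
              omega
          · rw [(Sys.untouched hbm hwK hE).1]
            exact h4
      have := h3 t (by omega) le_rfl
      omega
    obtain ⟨k, hk1, hk2, hk3⟩ := h2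
    have h3 := hS.av2 j i k t hij' hk1 hk2 ht
    have h4 := hk3.2.2.1
    omega

/-! ### Kills of seen keys by seen keys -/

/-- seen keys with an unseen key between `lam v` and `v` -/
noncomputable def FX (S : Sys) (t : ℕ) : Finset ℕ :=
  S.K.filter (fun v => Seen S t v ∧ ∃ u ∈ S.K, ¬ Seen S t u ∧ S.lam t v < u ∧ u < v)

/-- seen keys killed by seen keys -/
noncomputable def KS (S : Sys) (t : ℕ) : Finset ℕ :=
  S.K.filter (fun v => Seen S t v ∧ ∃ p, S.Kl t v p ∧ Seen S t p)

/-- the second smallest nodes of the left side -/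
noncomputable def SL (S : Sys) (t : ℕ) : Finset ℕ :=
  S.K.filter (fun v => S.L t v ∧ S.lam t v ∈ S.K ∧ S.lam t (S.lam t v) = 0)

theorem SL_card (S : Sys) (t : ℕ) : (SL S t).card ≤ 1 := by
  rw [Finset.card_le_one]
  have key : ∀ a ∈ SL S t, ∀ b ∈ SL S t, ¬ a < b := by
    intro a ha b hb hab
    simp only [SL, Finset.mem_filter] at ha hb
    obtain ⟨ha1, ha2, ha3, ha4⟩ := ha
    obtain ⟨hb1, hb2, hb3, hb4⟩ := hb
    have h1 := (Sys.L_above ha2 hb2 hab).1
    -- `lam b ≥ a > lam a`, and `lam (lam b) = 0`
    have h2 := E_lam (Sys.L_E hb2) hb3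
    have h3 := S.lam_lt t hb2.1.le b hb1
    have h4 : S.L t (S.lam t b) := ⟨hb2.1, hb3, by have := hb2.2.2.1; omega, (Sys.E_int h2).2⟩
    have h5 := S.lam_lt t ha2.1.le a ha1
    have h6 := E_lam (Sys.L_E ha2) ha3
    have h7 : S.L t (S.lam t a) := ⟨ha2.1, ha3, by have := ha2.2.2.1; omega, (Sys.E_int h6).2⟩
    have h8 := (Sys.L_above h7 h4 (by omega)).1
    have h9 := S.key _ ha3
    omega
  intro a ha b hb
  rcases Nat.lt_trichotomy a b with h | h | h
  · exact absurd h (key a ha b hb)
  · exact h
  · exact absurd h (key b hb a ha)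

theorem FX_step (hS : Sep S) (ht : t < S.m) :
    FX S (t + 1) ⊆ (FX S t \ KS S t) ∪ (SL S t ∪ {S.X t}) := by
  intro v hv
  simp only [FX, Finset.mem_filter] at hv
  obtain ⟨hvK, hvs, u, huK, huU, hu1, hu2⟩ := hv
  rw [seen_succ ht] at hvs huU
  push Not at huU
  simp only [Finset.mem_union, Finset.mem_singleton]
  by_cases hvX : v = S.X t
  · exact Or.inr (Or.inr hvX)
  have hvs' : Seen S t v := by
    rcases hvs with h | h
    · exact h
    · exact absurd h hvX
  by_cases hE : S.E t v
  · rcases hE with hR | hL | hA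
    · left
      rw [Finset.mem_sdiff]
      have h1 := (Sys.R_mono hR).1
      simp only [FX, KS, Finset.mem_filter]
      refine ⟨⟨hvK, hvs', u, huK, huU.1, by omega, hu2⟩, ?_⟩
      rintro ⟨_, _, p, h2, h3⟩
      have h4 : S.lam (t + 1) v = p := h2.2.2
      exact huU.1 (contR hS hR h3 h2.2.1 (by omega) hu2.le)
    · rcases L_lam hL with c | ⟨c1, c2, c3⟩
      · left
        rw [Finset.mem_sdiff]
        simp only [FX, KS, Finset.mem_filter]
        refine ⟨⟨hvK, hvs', u, huK, huU.1, by omega, hu2⟩, ?_⟩
        rintro ⟨_, _, p, h2, h3⟩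
        exact Sys.not_R_L h2.1 hL
      · by_cases hz : S.lam t (S.lam t v) = 0
        · right; left
          simp only [SL, Finset.mem_filter]
          exact ⟨hvK, hL, c1, hz⟩
        · exfalso
          have hzK : S.lam t (S.lam t v) ∈ S.K := by
            rcases S.lam_mem t ht.le _ c1 with h | h
            · exact absurd h hz
            · exact h
          have h1 := E_lam (Sys.L_E c2) hzK
          have h3 := S.lam_lt t ht.le _ c1
          have h4 := S.lam_lt t ht.le v hvK
          have h5 := hL.2.2.1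
          have h6 : S.L t (S.lam t (S.lam t v)) := ⟨ht, hzK, by omega, (Sys.E_int h1).2⟩
          exact huU.1 (contL hS h6 hvs' h5 (by omega) hu2.le)
    · exact absurd hA.2.2 hvX
  · left
    have h1 := (Sys.untouched ht hvK hE).1
    rw [Finset.mem_sdiff]
    simp only [FX, KS, Finset.mem_filter]
    refine ⟨⟨hvK, hvs', u, huK, huU.1, by omega, hu2⟩, ?_⟩
    rintro ⟨_, _, p, h2, h3⟩
    exact hE (Sys.R_E h2.1)

theorem KS_sub (hS : Sep S) (ht : t < S.m) : KS S t ⊆ FX S t := by
  intro v hv
  simp only [KS, Finset.mem_filter] at hv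
  obtain ⟨hvK, hvs, p, h1, h2⟩ := hv
  simp only [FX, Finset.mem_filter]
  exact ⟨hvK, hvs, S.X t, S.req t ht, not_seen_X (spl_of_sep hS) ht, R_lam h1.1, R_gt h1.1⟩

theorem FX_zero : FX S 0 = ∅ := by
  rw [Finset.eq_empty_iff_forall_notMem]
  intro v hv
  simp only [FX, Finset.mem_filter] at hv
  obtain ⟨_, ⟨s, h, _⟩, _⟩ := hv
  omega

theorem sum_KS (hS : Sep S) : ∑ t ∈ Finset.range S.m, (KS S t).card ≤ 2 * S.m := by
  have h : ∀ k, k ≤ S.m → (FX S k).card + ∑ t ∈ Finset.range k, (KS S t).card ≤ 2 * k := by
    intro k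
    induction k with
    | zero =>
      intro _
      rw [FX_zero]
      simp
    | succ k ih =>
      intro hk
      have h1 := ih (by omega)
      have h2 := Finset.card_le_card (FX_step hS (show k < S.m by omega))
      have h3 := Finset.card_union_le (FX S k \ KS S k) (SL S k ∪ {S.X k})
      have h4 := SL_card S k
      have h6 := Finset.card_union_le (SL S k) {S.X k}
      have h5 : (FX S k \ KS S k).card + (KS S k).card = (FX S k).card :=
        Finset.card_sdiff_add_card_eq_card (KS_sub hS (by omega))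
      rw [Finset.card_singleton] at h6
      rw [Finset.sum_range_succ]
      omega
  have := h S.m le_rfl
  omega

/-! ### The number of touches of seen keys -/

/-- seen touched nodes on the right side -/
noncomputable def sR (S : Sys) (t : ℕ) : Finset ℕ := S.K.filter (fun v => S.R t v ∧ Seen S t v)

theorem sR_card (hS : Sep S) (hT : Thr S) (ht : t < S.m) :
    (sR S t).card ≤ 2 * (KS S t).card + 2 * (QA S t).card + 4 := by
  have hx := S.key _ (S.req t ht)
  have hseen : ∀ v, S.R t v → rw S t ≤ v → Seen S t v := by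
    intro v hR hv
    rcases zr_spec S t (S.X t) with h1 | h1
    · have := (S.key v hR.2.1).2
      unfold rw at hv
      omega
    · exact contR hS hR h1.1 h1.2 hv le_rfl
  have h1 := chain hT t (rw S t) S.top
  have h2 : sR S t ⊆ S.K.filter (fun v => S.R t v ∧ rw S t ≤ v ∧ v < S.top) := by
    intro v hv
    simp only [sR, Finset.mem_filter] at hv ⊢
    exact ⟨hv.1, hv.2.1, zr_le hv.2.2 (R_gt hv.2.1), (S.key v hv.1).2⟩
  have h3 : (S.K.filter (fun v => (S.R t v ∧ rw S t ≤ v ∧ v < S.top) ∧
      ∃ p, rw S t ≤ p ∧ S.Kl t v p)) ⊆ KS S t := by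
    intro v hv
    simp only [KS, Finset.mem_filter] at hv ⊢
    obtain ⟨h4, ⟨h5, h6, _⟩, p, h7, h8⟩ := hv
    exact ⟨h4, hseen v h5 h6, p, h8, hseen p (kl_R' h8) h7⟩
  have h4 : ((Tn S t).filter (fun v => rw S t ≤ v ∧ v < S.top)).card ≤ (QA S t).card + 1 := by
    have hch : ∀ v ∈ (Tn S t).filter (fun v => rw S t ≤ v ∧ v < S.top), ∃ y, S.R t y ∧
        S.rho t y = v ∧ S.lam t v ≠ S.lam t y ∧ S.R t v := by
      intro v hv
      simp only [Tn, Finset.mem_filter] at hv
      obtain ⟨⟨_, h1, y, h2, h3, h4⟩, _⟩ := hv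
      exact ⟨y, h2, h3, h4, h1⟩
    choose! f hf using hch
    -- the turns with an unseen lower node
    have h5 : (Tn S t).filter (fun v => rw S t ≤ v ∧ v < S.top) ⊆
        ((Tn S t).filter (fun v => rw S t ≤ v ∧ v < S.top)).filter (fun v => f v < rw S t) ∪
        ((Tn S t).filter (fun v => rw S t ≤ v ∧ v < S.top)).filter
          (fun v => ¬ f v < rw S t) := by
      intro v hv
      by_cases h : f v < rw S t
      · exact Finset.mem_union_left _ (Finset.mem_filter.2 ⟨hv, h⟩)
      · exact Finset.mem_union_right _ (Finset.mem_filter.2 ⟨hv, h⟩)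
    have h6 : (((Tn S t).filter (fun v => rw S t ≤ v ∧ v < S.top)).filter
        (fun v => f v < rw S t)).card ≤ 1 := by
      rw [Finset.card_le_one]
      have key : ∀ a ∈ ((Tn S t).filter (fun v => rw S t ≤ v ∧ v < S.top)).filter
          (fun v => f v < rw S t), ∀ b ∈ ((Tn S t).filter (fun v => rw S t ≤ v ∧
          v < S.top)).filter (fun v => f v < rw S t), ¬ a < b := by
        intro a ha b hb hab
        rw [Finset.mem_filter] at ha hb
        obtain ⟨a1, a2, a3, a4⟩ := hf a ha.1
        obtain ⟨b1, b2, b3, b4⟩ := hf b hb.1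
        have h7 := (Finset.mem_filter.1 ha.1).2.1
        have h8 := (Sys.R_above b1 a4 (by omega)).1
        omega
      intro a ha b hb
      rcases Nat.lt_trichotomy a b with h | h | h
      · exact absurd h (key a ha b hb)
      · exact h
      · exact absurd h (key b hb a ha)
    have h7 : (((Tn S t).filter (fun v => rw S t ≤ v ∧ v < S.top)).filter
        (fun v => ¬ f v < rw S t)).card ≤ (QA S t).card := by
      refine Finset.card_le_card_of_injOn f ?_ ?_
      · intro v hv
        rw [Finset.mem_coe, Finset.mem_filter] at hv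
        obtain ⟨a1, a2, a3, a4⟩ := hf v hv.1
        have h8 := R_rho a1
        have h9 := (Sys.R_above a1 a4 (by omega)).2
        have h10 := hseen (f v) a1 (by omega)
        have h11 := turn_unseen hS a1 h10 a4 (by omega) (by omega)
        simp only [Finset.mem_coe, QA, SA, Finset.mem_filter]
        exact ⟨⟨a1.2.1, h10, h11.1, h11.2⟩, a1⟩
      · intro v hv w hw he
        rw [Finset.mem_coe, Finset.mem_filter] at hv hw
        obtain ⟨a1, a2, a3, a4⟩ := hf v hv.1
        obtain ⟨b1, b2, b3, b4⟩ := hf w hw.1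
        rw [← a2, ← b2, he]
    have h8 := Finset.card_le_card h5
    have h9 := Finset.card_union_le
      (((Tn S t).filter (fun v => rw S t ≤ v ∧ v < S.top)).filter (fun v => f v < rw S t))
      (((Tn S t).filter (fun v => rw S t ≤ v ∧ v < S.top)).filter (fun v => ¬ f v < rw S t))
    omega
  have h5 := Finset.card_le_card h2
  have h6 := Finset.card_le_card h3
  omega

theorem sum_sR (hS : Sep S) (hT : Thr S) :
    ∑ t ∈ Finset.range S.m, (sR S t).card ≤ 10 * S.m := by
  have h1 : ∀ t ∈ Finset.range S.m, (sR S t).card ≤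
      2 * (KS S t).card + 2 * (QA S t).card + 4 :=
    fun t ht => sR_card hS hT (Finset.mem_range.1 ht)
  have h2 := Finset.sum_le_sum h1
  rw [Finset.sum_add_distrib, Finset.sum_add_distrib, ← Finset.mul_sum, ← Finset.mul_sum,
    Finset.sum_const, smul_eq_mul, Finset.card_range] at h2
  have h3 := sum_KS hS
  have h4 := sum_QA hS
  omega

theorem sum_cnt (S : Sys) (P : ℕ → ℕ → Prop) :
    S.cnt P = ∑ t ∈ Finset.range S.m, (S.K.filter (fun v => P t v)).card := by
  unfold Sys.cnt Sys.set
  rw [← Finset.card_sigma]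
  refine Finset.card_bij (fun q _ => ⟨q.1, q.2⟩) ?_ ?_ ?_
  · rintro ⟨a, b⟩ h
    rw [Finset.mem_filter, Finset.mem_product] at h
    rw [Finset.mem_sigma, Finset.mem_filter]
    exact ⟨h.1.1, h.1.2, h.2⟩
  · rintro ⟨a, b⟩ _ ⟨c, d⟩ _ h
    simp only [Sigma.mk.injEq, heq_eq_eq] at h
    rw [h.1, h.2]
  · rintro ⟨a, b⟩ h
    rw [Finset.mem_sigma, Finset.mem_filter] at h
    refine ⟨(a, b), ?_, rfl⟩
    rw [Finset.mem_filter, Finset.mem_product]
    exact ⟨⟨h.1, h.2.1⟩, h.2.2⟩

theorem cnt_sR (S : Sys) :
    S.cnt (fun t v => S.R t v ∧ Seen S t v) = ∑ t ∈ Finset.range S.m, (sR S t).card := by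
  rw [sum_cnt]
  refine Finset.sum_congr rfl (fun t _ => ?_)
  unfold sR
  congr

/-- **The number of touches of seen keys.** -/
theorem irr_sep (hS : Sep S) (hT : Thr S) (hT' : Thr S.mir) : irr S ≤ 20 * S.m := by
  have h1 := sum_sR hS hT
  have h2 := sum_sR (sep_mir hS) hT'
  rw [← cnt_sR] at h1 h2
  rw [mir_m] at h2
  have h3 : S.mir.cnt (fun t v => S.mir.R t v ∧ Seen S.mir t v) =
      S.cnt (fun t v => S.L t v ∧ Seen S t v) :=
    Sys.mir_cnt (fun _ u hu => and_congr (Sys.mir_R hu)
      (seen_mir (S.key u hu).2.le (S.key u hu).1))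
  rw [h3] at h2
  have h4 : irr S ≤ S.cnt (fun t v => S.R t v ∧ Seen S t v) +
      S.cnt (fun t v => S.L t v ∧ Seen S t v) := by
    unfold irr
    refine le_trans (Finset.card_le_card ?_) (Finset.card_union_le _ _)
    intro q hq
    rw [Finset.mem_union, Sys.mem_set, Sys.mem_set]
    rw [Sys.mem_set] at hq
    obtain ⟨a1, a2, a3, a4⟩ := hq
    rcases a3 with h | h | h
    · exact Or.inl ⟨a1, a2, h, a4⟩
    · exact Or.inr ⟨a1, a2, h, a4⟩
    · exfalso
      rw [h.2.2] at a4
      exact not_seen_X (spl_of_sep hS) a1 a4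
  omega

end Pool.Agent.SplTr
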