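import Pool.Agent.SplTr.Sep

set_option autoImplicit false

/-!
# The number of touches of seen keys, if `Thr` holds for seen keys
-/

namespace Pool.Agent.SplTr

open Pool.Agent.SplLog Pool.Agent.SplLs Pool.Agent.SplDq
open scoped Classical

variable {S : Sys} {i j s t u v w g p q y a b : ℕ}

/-- `Thr` for seen keys. -/
def ThrS (S : Sys) : Prop :=
  ∀ t y, Seen S t y → S.R t y → S.R t (S.rho t y) → S.R t (S.rho t (S.rho t y)) →
    S.lam t (S.rho t y) = S.lam t y → S.lam t (S.rho t (S.rho t y)) = S.lam t y →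
    S.Kl t (S.rho t y) y ∨ S.Kl t (S.rho t (S.rho t y)) (S.rho t y)

theorem two_low (T : Finset ℕ) :
    (T.filter (fun v => (T.filter (fun z => z < v)).card ≤ 1)).card ≤ 2 := by
  have h : (T.filter (fun v => (T.filter (fun z => z < v)).card ≤ 1)).card ≤
      (Finset.range 2).card := by
    refine Finset.card_le_card_of_injOn (fun v => (T.filter (fun z => z < v)).card) ?_ ?_
    · intro v hv
      simp only [Finset.mem_coe, Finset.mem_filter] at hv
      simp only [Finset.mem_coe, Finset.mem_range]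
      omega
    · have key : ∀ v ∈ T, ∀ w ∈ T, v < w →
          (T.filter (fun z => z < v)).card < (T.filter (fun z => z < w)).card := by
        intro v hv w hw hvw
        apply Finset.card_lt_card
        rw [Finset.ssubset_iff_of_subset]
        · exact ⟨v, by simp [hv, hvw], by simp⟩
        · intro z hz
          simp only [Finset.mem_filter] at hz ⊢
          exact ⟨hz.1, by omega⟩
      intro v hv w hw hvw
      simp only [Finset.mem_coe, Finset.mem_filter] at hv hw
      rcases lt_trichotomy v w with h | h | h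
      · have := key v hv.1 w hw.1 h
        simp only at hvw
        omega
      · exact h
      · have := key w hw.1 v hv.1 h
        simp only at hvw
        omega
  simpa using h

/-- All touched nodes of an interval but two are killed, or counted with a killed node or a turn. -/
theorem chain_loc (t a b : ℕ) (hT : ∀ y, a ≤ y → S.R t y → S.R t (S.rho t y) →
    S.R t (S.rho t (S.rho t y)) → S.lam t (S.rho t y) = S.lam t y →
    S.lam t (S.rho t (S.rho t y)) = S.lam t y →
    S.Kl t (S.rho t y) y ∨ S.Kl t (S.rho t (S.rho t y)) (S.rho t y)) :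
    (S.K.filter (fun v => S.R t v ∧ a ≤ v ∧ v < b)).card ≤
      2 * (S.K.filter (fun v => (S.R t v ∧ a ≤ v ∧ v < b) ∧ ∃ p, a ≤ p ∧ S.Kl t v p)).card +
      2 * ((Tn S t).filter (fun v => a ≤ v ∧ v < b)).card + 2 := by
  set T := S.K.filter (fun v => S.R t v ∧ a ≤ v ∧ v < b) with hTd
  set A := S.K.filter (fun v => (S.R t v ∧ a ≤ v ∧ v < b) ∧ ∃ p, a ≤ p ∧ S.Kl t v p) with hA
  set B := (Tn S t).filter (fun v => a ≤ v ∧ v < b) with hB
  have memT : ∀ v, v ∈ T ↔ S.R t v ∧ a ≤ v ∧ v < b := by
    intro v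
    simp only [hTd, Finset.mem_filter]
    exact ⟨fun h => h.2, fun h => ⟨R_mem h.1, h⟩⟩
  -- the elements with two smaller elements
  set U := (T \ (A ∪ B)).filter (fun v => ¬ (T.filter (fun z => z < v)).card ≤ 1) with hU
  have h1 : T.card ≤ (A ∪ B).card + ((T.filter (fun v => (T.filter (fun z => z < v)).card ≤ 1)).card
      + U.card) := by
    have h2 : T ⊆ (A ∪ B) ∪ (T.filter (fun v => (T.filter (fun z => z < v)).card ≤ 1) ∪ U) := by
      intro v hv
      by_cases h3 : v ∈ A ∪ B
      · exact Finset.mem_union_left _ h3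
      · apply Finset.mem_union_right
        by_cases h4 : (T.filter (fun z => z < v)).card ≤ 1
        · exact Finset.mem_union_left _ (Finset.mem_filter.2 ⟨hv, h4⟩)
        · exact Finset.mem_union_right _ (Finset.mem_filter.2 ⟨Finset.mem_sdiff.2 ⟨hv, h3⟩, h4⟩)
    calc T.card ≤ _ := Finset.card_le_card h2
      _ ≤ _ := (Finset.card_union_le _ _).trans
        (Nat.add_le_add_left (Finset.card_union_le _ _) _)
  have hU2 : ∀ v ∈ U, ∃ y, S.R t y ∧ S.rho t y = v ∧ y ∈ A ∪ B := by
    intro v hv
    simp only [hU, Finset.mem_filter, Finset.mem_sdiff] at hv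
    obtain ⟨⟨hvT, hvn⟩, hc⟩ := hv
    push Not at hc
    obtain ⟨z1, hz1, z2, hz2, hne⟩ := Finset.one_lt_card.1 hc
    obtain ⟨z, z', hz, hz', hlt⟩ : ∃ z z', (z ∈ T ∧ z < v) ∧ (z' ∈ T ∧ z' < v) ∧ z < z' := by
      rcases lt_or_gt_of_ne hne with h | h
      · exact ⟨z1, z2, Finset.mem_filter.1 hz1, Finset.mem_filter.1 hz2, h⟩
      · exact ⟨z2, z1, Finset.mem_filter.1 hz2, Finset.mem_filter.1 hz1, h⟩
    have hv' := (memT v).1 hvT
    have hz1' := (memT z).1 hz.1
    have hz2' := (memT z').1 hz'.1
    obtain ⟨y, hy1, hy2, hy3, hy4⟩ := exists_below hz2'.1 hv'.1 hz'.2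
    obtain ⟨x, hx1, hx2, hx3, hx4⟩ := exists_below hz1'.1 hy1 (by omega)
    refine ⟨y, hy1, hy4, ?_⟩
    by_contra hy5
    rw [Finset.mem_union, not_or] at hy5 hvn
    have hyA : ∀ p, a ≤ p → ¬ S.Kl t y p := by
      intro p hp hk
      apply hy5.1
      simp only [hA, Finset.mem_filter]
      exact ⟨R_mem hy1, ⟨hy1, by omega, by omega⟩, p, hp, hk⟩
    have hvA : ∀ p, a ≤ p → ¬ S.Kl t v p := by
      intro p hp hk
      apply hvn.1
      simp only [hA, Finset.mem_filter]
      exact ⟨R_mem hv'.1, hv', p, hp, hk⟩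
    have hyB : S.lam t y = S.lam t x := by
      by_contra hl
      apply hy5.2
      simp only [hB, Tn, Finset.mem_filter]
      exact ⟨⟨R_mem hy1, hy1, x, hx1, hx4, hl⟩, by omega, by omega⟩
    have hvB : S.lam t v = S.lam t y := by
      by_contra hl
      apply hvn.2
      simp only [hB, Tn, Finset.mem_filter]
      exact ⟨⟨R_mem hv'.1, hv'.1, y, hy1, hy4, hl⟩, by omega, by omega⟩
    have hK := hT x (by omega) hx1 (by rw [hx4]; exact hy1) (by rw [hx4, hy4]; exact hv'.1)
      (by rw [hx4]; exact hyB) (by rw [hx4, hy4]; exact hvB.trans hyB)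
    rw [hx4, hy4] at hK
    rcases hK with hK | hK
    · exact hyA x (by omega) hK
    · exact hvA y (by omega) hK
  choose! f hf using hU2
  have h2 : U.card ≤ (A ∪ B).card := by
    refine Finset.card_le_card_of_injOn f (fun v hv => (hf v hv).2.2) ?_
    intro v hv w hw hvw
    have h3 := (hf v hv).2.1
    have h4 := (hf w hw).2.1
    rw [← h3, ← h4, hvw]
  have h3 := two_low T
  have h4 := Finset.card_union_le A B
  omega

theorem sR_card' (hS : Sep S) (hT : ThrS S) (ht : t < S.m) :
    (sR S t).card ≤ 2 * (KS S t).card + 2 * (QA S t).card + 4 := by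
  have hx := S.key _ (S.req t ht)
  have hseen : ∀ v, S.R t v → rw S t ≤ v → Seen S t v := by
    intro v hR hv
    rcases zr_spec S t (S.X t) with h1 | h1
    · have := (S.key v hR.2.1).2
      unfold rw at hv
      omega
    · exact contR hS hR h1.1 h1.2 hv le_rfl
  have h1 := chain_loc (S := S) t (rw S t) S.top
    (fun y hy hR => hT t y (hseen y hR hy) hR)
  have h2 : sR S t ⊆ S.K.filter (fun v => S.R t v ∧ rw S t ≤ v ∧ v < S.top) := by
    intro v hv
    simp only [sR, Finset.mem_filter] at hv ⊢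
    exact ⟨hv.1, hv.2.1, zr_le hv.2.2 (R_gt hv.2.1), (S.key v hv.1).2⟩
  have h3 : (S.K.filter (fun v => (S.R t v ∧ rw S t ≤ v ∧ v < S.top) ∧
      ∃ p, rw S t ≤ p ∧ S.Kl t v p)) ⊆ KS S t := by
    intro v hv
    simp only [KS, Finset.mem_filter] at hv ⊢
    obtain ⟨h4, ⟨h5, h6, _⟩, p, h7, h8⟩ := hv
    exact ⟨h4, hseen v h5 h6, p, h8, hseen p (kl_R' h8) h7⟩
  have h4 : ((Tn S t).filter (fun v => rw S t ≤ v ∧ v < S.top)).card ≤ (QA S t).card + 1 := by
    have hch : ∀ v ∈ (Tn S t).filter (fun v => rw S t ≤ v ∧ v < S.top), ∃ y, S.R t y ∧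
        S.rho t y = v ∧ S.lam t v ≠ S.lam t y ∧ S.R t v := by
      intro v hv
      simp only [Tn, Finset.mem_filter] at hv
      obtain ⟨⟨_, h1, y, h2, h3, h4⟩, _⟩ := hv
      exact ⟨y, h2, h3, h4, h1⟩
    choose! f hf using hch
    -- the turns with an unseen lower node
    have h5 : (Tn S t).filter (fun v => rw S t ≤ v ∧ v < S.top) ⊆
        ((Tn S t).filter (fun v => rw S t ≤ v ∧ v < S.top)).filter (fun v => f v < rw S t) ∪
        ((Tn S t).filter (fun v => rw S t ≤ v ∧ v < S.top)).filter
          (fun v => ¬ f v < rw S t) := by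
      intro v hv
      by_cases h : f v < rw S t
      · exact Finset.mem_union_left _ (Finset.mem_filter.2 ⟨hv, h⟩)
      · exact Finset.mem_union_right _ (Finset.mem_filter.2 ⟨hv, h⟩)
    have h6 : (((Tn S t).filter (fun v => rw S t ≤ v ∧ v < S.top)).filter
        (fun v => f v < rw S t)).card ≤ 1 := by
      rw [Finset.card_le_one]
      have key : ∀ a ∈ ((Tn S t).filter (fun v => rw S t ≤ v ∧ v < S.top)).filter
          (fun v => f v < rw S t), ∀ b ∈ ((Tn S t).filter (fun v => rw S t ≤ v ∧
          v < S.top)).filter (fun v => f v < rw S t), ¬ a < b := by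
        intro a ha b hb hab
        rw [Finset.mem_filter] at ha hb
        obtain ⟨a1, a2, a3, a4⟩ := hf a ha.1
        obtain ⟨b1, b2, b3, b4⟩ := hf b hb.1
        have h7 := (Finset.mem_filter.1 ha.1).2.1
        have h8 := (Sys.R_above b1 a4 (by omega)).1
        omega
      intro a ha b hb
      rcases Nat.lt_trichotomy a b with h | h | h
      · exact absurd h (key a ha b hb)
      · exact h
      · exact absurd h (key b hb a ha)
    have h7 : (((Tn S t).filter (fun v => rw S t ≤ v ∧ v < S.top)).filter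
        (fun v => ¬ f v < rw S t)).card ≤ (QA S t).card := by
      refine Finset.card_le_card_of_injOn f ?_ ?_
      · intro v hv
        rw [Finset.mem_coe, Finset.mem_filter] at hv
        obtain ⟨a1, a2, a3, a4⟩ := hf v hv.1
        have h8 := R_rho a1
        have h9 := (Sys.R_above a1 a4 (by omega)).2
        have h10 := hseen (f v) a1 (by omega)
        have h11 := turn_unseen hS a1 h10 a4 (by omega) (by omega)
        simp only [Finset.mem_coe, QA, SA, Finset.mem_filter]
        exact ⟨⟨a1.2.1, h10, h11.1, h11.2⟩, a1⟩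
      · intro v hv w hw he
        rw [Finset.mem_coe, Finset.mem_filter] at hv hw
        obtain ⟨a1, a2, a3, a4⟩ := hf v hv.1
        obtain ⟨b1, b2, b3, b4⟩ := hf w hw.1
        rw [← a2, ← b2, he]
    have h8 := Finset.card_le_card h5
    have h9 := Finset.card_union_le
      (((Tn S t).filter (fun v => rw S t ≤ v ∧ v < S.top)).filter (fun v => f v < rw S t))
      (((Tn S t).filter (fun v => rw S t ≤ v ∧ v < S.top)).filter (fun v => ¬ f v < rw S t))
    omega
  have h5 := Finset.card_le_card h2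
  have h6 := Finset.card_le_card h3
  omega

theorem sum_sR' (hS : Sep S) (hT : ThrS S) :
    ∑ t ∈ Finset.range S.m, (sR S t).card ≤ 10 * S.m := by
  have h1 : ∀ t ∈ Finset.range S.m, (sR S t).card ≤
      2 * (KS S t).card + 2 * (QA S t).card + 4 :=
    fun t ht => sR_card' hS hT (Finset.mem_range.1 ht)
  have h2 := Finset.sum_le_sum h1
  rw [Finset.sum_add_distrib, Finset.sum_add_distrib, ← Finset.mul_sum, ← Finset.mul_sum,
    Finset.sum_const, smul_eq_mul, Finset.card_range] at h2
  have h3 := sum_KS hS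
  have h4 := sum_QA hS
  omega

/-- **The number of touches of seen keys.** -/
theorem irr_sep' (hS : Sep S) (hT : ThrS S) (hT' : ThrS S.mir) : irr S ≤ 20 * S.m := by
  have h1 := sum_sR' hS hT
  have h2 := sum_sR' (sep_mir hS) hT'
  rw [← cnt_sR] at h1 h2
  rw [mir_m] at h2
  have h3 : S.mir.cnt (fun t v => S.mir.R t v ∧ Seen S.mir t v) =
      S.cnt (fun t v => S.L t v ∧ Seen S t v) :=
    Sys.mir_cnt (fun _ u hu => and_congr (Sys.mir_R hu)
      (seen_mir (S.key u hu).2.le (S.key u hu).1))
  rw [h3] at h2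
  have h4 : irr S ≤ S.cnt (fun t v => S.R t v ∧ Seen S t v) +
      S.cnt (fun t v => S.L t v ∧ Seen S t v) := by
    unfold irr
    refine le_trans (Finset.card_le_card ?_) (Finset.card_union_le _ _)
    intro q hq
    rw [Finset.mem_union, Sys.mem_set, Sys.mem_set]
    rw [Sys.mem_set] at hq
    obtain ⟨a1, a2, a3, a4⟩ := hq
    rcases a3 with h | h | h
    · exact Or.inl ⟨a1, a2, h, a4⟩
    · exact Or.inr ⟨a1, a2, h, a4⟩
    · exfalso
      rw [h.2.2] at a4
      exact not_seen_X (spl_of_sep hS) a1 a4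
  omega

end Pool.Agent.SplTr
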