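import Pool.Agent.SplTr.SpZone
import Pool.Agent.SplTr.SepFin

set_option autoImplicit false

/-!
# Sequences of splits
-/

namespace Pool.Agent.SplTr.Sp

open BinaryTree Pool.Agent.MP_c42954_lc.Scan Pool.Agent.SplPat Pool.Agent.SplLog Pool.Agent.SplLs
open scoped Classical

variable {x v w : ℕ} {t : BinaryTree ℕ}

/-- The forest after a split at `x`; a forest is given by the map `F` which sends each key `v` to the
tree `F v` containing `v`.  The key `x` is splayed in its tree and removed, which leaves its two
subtrees. -/
def splitAt (F : ℕ → BinaryTree ℕ) (x v : ℕ) : BinaryTree ℕ :=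
  if v ∈ inorder (F x) ∧ v < x then leftOf (splay x (F x))
  else if v ∈ inorder (F x) ∧ x < v then rightOf (splay x (F x))
  else F v

/-- The cost of the splits at the keys of the list. -/
def splitCost : (ℕ → BinaryTree ℕ) → List ℕ → ℕ
  | _, [] => 0
  | F, x :: X => (1 + depth x (F x)) + splitCost (splitAt F x) X

theorem splitCost_congr : ∀ (X : List ℕ) {F G : ℕ → BinaryTree ℕ}, (∀ v ∈ X, F v = G v) →
    splitCost F X = splitCost G X
  | [], _, _, _ => rfl
  | x :: X, F, G, h => by
      have hx := h x (by simp)
      rw [splitCost, splitCost, hx]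
      congr 1
      apply splitCost_congr
      intro v hv
      unfold splitAt
      rw [hx, h v (by simp [hv])]

theorem splitCost_append : ∀ (X Y : List ℕ) (F : ℕ → BinaryTree ℕ),
    splitCost F X ≤ splitCost F (X ++ Y)
  | [], _, _ => Nat.zero_le _
  | x :: X, Y, F => by
      rw [List.cons_append, splitCost, splitCost]
      exact Nat.add_le_add_left (splitCost_append X Y _) _

/-! ## The forest of a list of requests -/

/-- Every key of the list lies in its tree. -/
def WF (F : ℕ → BinaryTree ℕ) (X : List ℕ) : Prop := ∀ v ∈ X, IsBST (F v) ∧ v ∈ inorder (F v)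

/-- The subtrees after a splay. -/
theorem splay_sub (hb : IsBST t) (hm : x ∈ inorder t) :
    IsBST (leftOf (splay x t)) ∧ IsBST (rightOf (splay x t)) ∧
    (∀ w, w ∈ inorder (leftOf (splay x t)) ↔ w ∈ inorder t ∧ w < x) ∧
    (∀ w, w ∈ inorder (rightOf (splay x t)) ↔ w ∈ inorder t ∧ x < w) := by
  obtain ⟨A, B, e1, e2⟩ := spl_exists hb hm
  have e3 := splay_inorder hb hm
  have e4 := splay_bst hb hm
  rw [e2] at e3 e4 ⊢
  obtain ⟨g1, g2, g3, g4⟩ := bst_node.1 e4
  refine ⟨g1, g2, fun w => ?_, fun w => ?_⟩
  · rw [← e3, mem_node]
    constructor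
    · intro h
      exact ⟨Or.inl h, g3 w h⟩
    · rintro ⟨h | h | h, h'⟩
      · exact h
      · omega
      · have := g4 w h
        omega
  · rw [← e3, mem_node]
    constructor
    · intro h
      exact ⟨Or.inr (Or.inr h), g4 w h⟩
    · rintro ⟨h | h | h, h'⟩
      · have := g3 w h
        omega
      · omega
      · exact h

theorem wf_step {F : ℕ → BinaryTree ℕ} {X : List ℕ} (h : WF F (x :: X)) :
    WF (splitAt F x) X := by
  intro v hv
  obtain ⟨a1, a2⟩ := h x (by simp)
  obtain ⟨b1, b2, b3, b4⟩ := splay_sub a1 a2
  unfold splitAt
  split_ifs with h1 h2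
  · exact ⟨b1, (b3 v).2 h1⟩
  · exact ⟨b2, (b4 v).2 h2⟩
  · exact h v (by simp [hv])

/-- Splits in different trees are independent. -/
theorem splitCost_filter (x : ℕ) : ∀ (X : List ℕ) (F : ℕ → BinaryTree ℕ), X.Nodup → WF F X →
    (∀ v ∈ X, v < x → ∀ w ∈ inorder (F v), w < x) →
    (∀ v ∈ X, x < v → ∀ w ∈ inorder (F v), x < w) → (∀ v ∈ X, v ≠ x) →
    splitCost F X = splitCost F (X.filter (fun v => v < x)) +
      splitCost F (X.filter (fun v => x < v))
  | [], _, _, _, _, _, _ => rfl
  | z :: X, F, hn, hw, h1, h2, h3 => by
      have hzX := (List.nodup_cons.1 hn).1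
      have hn' := (List.nodup_cons.1 hn).2
      have hz := h3 z (by simp)
      have hw' := wf_step hw
      obtain ⟨a1, a2⟩ := hw z (by simp)
      obtain ⟨b1, b2, b3, b4⟩ := splay_sub a1 a2
      have hsub : ∀ v, ∀ w ∈ inorder (splitAt F z v), (v ∈ inorder (F z) ∧ w ∈ inorder (F z)) ∨
          w ∈ inorder (F v) := by
        intro v w hw
        unfold splitAt at hw
        split_ifs at hw with k1 k2
        · exact Or.inl ⟨k1.1, ((b3 w).1 hw).1⟩
        · exact Or.inl ⟨k2.1, ((b4 w).1 hw).1⟩
        · exact Or.inr hw
      have g1 : ∀ v ∈ X, v < x → ∀ w ∈ inorder (splitAt F z v), w < x := by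
        intro v hv hvx w hw
        rcases hsub v w hw with ⟨k1, k2⟩ | k
        · rcases Nat.lt_or_gt_of_ne hz with k3 | k3
          · exact h1 z (by simp) k3 w k2
          · have := h2 z (by simp) k3 v k1
            omega
        · exact h1 v (by simp [hv]) hvx w k
      have g2 : ∀ v ∈ X, x < v → ∀ w ∈ inorder (splitAt F z v), x < w := by
        intro v hv hvx w hw
        rcases hsub v w hw with ⟨k1, k2⟩ | k
        · rcases Nat.lt_or_gt_of_ne hz with k3 | k3
          · have := h1 z (by simp) k3 v k1
            omega
          · exact h2 z (by simp) k3 w k2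
        · exact h2 v (by simp [hv]) hvx w k
      have ih := splitCost_filter x X (splitAt F z) hn' hw' g1 g2
        (fun v hv => h3 v (by simp [hv]))
      rcases Nat.lt_or_gt_of_ne hz with k | k
      · have e1 : (z :: X).filter (fun v => v < x) = z :: X.filter (fun v => v < x) := by
          rw [List.filter_cons_of_pos (by simpa using k)]
        have e2 : (z :: X).filter (fun v => x < v) = X.filter (fun v => x < v) := by
          rw [List.filter_cons_of_neg (by simp only [decide_eq_true_eq]; omega)]
        have e3 : splitCost (splitAt F z) (X.filter (fun v => x < v)) =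
            splitCost F (X.filter (fun v => x < v)) := by
          apply splitCost_congr
          intro v hv
          have hv' := List.mem_filter.1 hv
          have hvx : x < v := by simpa using hv'.2
          have hnv : v ∉ inorder (F z) := by
            intro h
            have := h1 z (by simp) k v h
            omega
          unfold splitAt
          rw [if_neg (fun h => hnv h.1), if_neg (fun h => hnv h.1)]
        rw [e1, e2, splitCost, splitCost, ih, e3]
        ring
      · have e1 : (z :: X).filter (fun v => x < v) = z :: X.filter (fun v => x < v) := by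
          rw [List.filter_cons_of_pos (by simpa using k)]
        have e2 : (z :: X).filter (fun v => v < x) = X.filter (fun v => v < x) := by
          rw [List.filter_cons_of_neg (by simp only [decide_eq_true_eq]; omega)]
        have e3 : splitCost (splitAt F z) (X.filter (fun v => v < x)) =
            splitCost F (X.filter (fun v => v < x)) := by
          apply splitCost_congr
          intro v hv
          have hv' := List.mem_filter.1 hv
          have hvx : v < x := by simpa using hv'.2
          have hnv : v ∉ inorder (F z) := by
            intro h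
            have := h2 z (by simp) k v h
            omega
          unfold splitAt
          rw [if_neg (fun h => hnv h.1), if_neg (fun h => hnv h.1)]
        rw [e1, e2, splitCost, splitCost, ih, e3]
        ring

/-! ## Splitting along a tree -/

/-- The cost of splitting `T` in the order given by a tree. -/
def splitT : BinaryTree ℕ → BinaryTree ℕ → ℕ
  | _, .nil => 0
  | T, .node x A B => (1 + depth x T) + (splitT (leftOf (splay x T)) A +
      splitT (rightOf (splay x T)) B)

/-- The tree of the order `X`. -/
def cart : List ℕ → BinaryTree ℕ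
  | [] => .nil
  | x :: X => .node x (cart (X.filter (fun v => v < x))) (cart (X.filter (fun v => x < v)))
termination_by X => X.length
decreasing_by
  all_goals
    simp only [List.length_cons, List.length_unattach]
    exact Nat.lt_succ_of_le ((List.length_filter_le _ _).trans (by simp))

theorem cart_cons (x : ℕ) (X : List ℕ) : cart (x :: X) =
    .node x (cart (X.filter (fun v => v < x))) (cart (X.filter (fun v => x < v))) := by
  rw [cart]

theorem splitCost_cart : ∀ (n : ℕ) (X : List ℕ) (F : ℕ → BinaryTree ℕ) (T : BinaryTree ℕ),
    X.length ≤ n → X.Nodup → IsBST T → (∀ v ∈ X, v ∈ inorder T ∧ F v = T) →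
    splitCost F X = splitT T (cart X)
  | _, [], F, T, _, _, _, _ => by
      rw [cart]
      rfl
  | 0, x :: X, F, T, h, _, _, _ => by simp at h
  | n + 1, x :: X, F, T, hn, hd, hb, hT => by
      have hxX := (List.nodup_cons.1 hd).1
      have hd' := (List.nodup_cons.1 hd).2
      obtain ⟨a1, a2⟩ := hT x (by simp)
      obtain ⟨b1, b2, b3, b4⟩ := splay_sub hb a1
      have hw : WF F (x :: X) := by
        intro v hv
        obtain ⟨c1, c2⟩ := hT v hv
        rw [c2]
        exact ⟨hb, c1⟩
      have hlt : ∀ v ∈ X, v < x → splitAt F x v = leftOf (splay x T) := by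
        intro v hv hvx
        obtain ⟨c1, c2⟩ := hT v (by simp [hv])
        unfold splitAt
        rw [a2, if_pos ⟨c1, hvx⟩]
      have hgt : ∀ v ∈ X, x < v → splitAt F x v = rightOf (splay x T) := by
        intro v hv hvx
        obtain ⟨c1, c2⟩ := hT v (by simp [hv])
        unfold splitAt
        rw [a2, if_neg (fun h => by omega), if_pos ⟨c1, hvx⟩]
      have hne : ∀ v ∈ X, v ≠ x := by
        rintro v hv rfl
        exact hxX hv
      rw [splitCost, cart_cons, splitT, a2,
        splitCost_filter x X (splitAt F x) hd' (wf_step hw) ?_ ?_ hne]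
      · have hl : ∀ (p : ℕ → Bool), (X.filter p).length ≤ n := by
          intro p
          have h1 := List.length_filter_le p X
          simp only [List.length_cons] at hn
          omega
        rw [splitCost_cart n _ (splitAt F x) (leftOf (splay x T)) (hl _) (hd'.filter _) b1 ?_,
          splitCost_cart n _ (splitAt F x) (rightOf (splay x T)) (hl _) (hd'.filter _) b2 ?_]
        · intro v hv
          have hv' := List.mem_filter.1 hv
          have hvx : x < v := by simpa using hv'.2
          exact ⟨(b4 v).2 ⟨(hT v (by simp [hv'.1])).1, hvx⟩, hgt v hv'.1 hvx⟩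
        · intro v hv
          have hv' := List.mem_filter.1 hv
          have hvx : v < x := by simpa using hv'.2
          exact ⟨(b3 v).2 ⟨(hT v (by simp [hv'.1])).1, hvx⟩, hlt v hv'.1 hvx⟩
      · intro v hv hvx w hw
        rw [hlt v hv hvx] at hw
        exact ((b3 w).1 hw).2
      · intro v hv hvx w hw
        rw [hgt v hv hvx] at hw
        exact ((b4 w).1 hw).2

/-- The keys of the tree of an order. -/
theorem cart_mem : ∀ (n : ℕ) (X : List ℕ), X.length ≤ n → X.Nodup →
    IsBST (cart X) ∧ ∀ v, v ∈ inorder (cart X) ↔ v ∈ X
  | _, [], _, _ => by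
      rw [cart]
      exact ⟨List.Pairwise.nil, fun v => by simp [inorder]⟩
  | 0, x :: X, h, _ => by simp at h
  | n + 1, x :: X, hn, hd => by
      have hxX := (List.nodup_cons.1 hd).1
      have hd' := (List.nodup_cons.1 hd).2
      have hl : ∀ (p : ℕ → Bool), (X.filter p).length ≤ n := by
        intro p
        have h1 := List.length_filter_le p X
        simp only [List.length_cons] at hn
        omega
      obtain ⟨c1, c2⟩ := cart_mem n (X.filter (fun v => v < x)) (hl _) (hd'.filter _)
      obtain ⟨d1, d2⟩ := cart_mem n (X.filter (fun v => x < v)) (hl _) (hd'.filter _)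
      rw [cart_cons]
      refine ⟨bst_node.2 ⟨c1, d1, fun w hw => ?_, fun w hw => ?_⟩, fun v => ?_⟩
      · rw [c2, List.mem_filter] at hw
        simpa using hw.2
      · rw [d2, List.mem_filter] at hw
        simpa using hw.2
      · rw [mem_node, c2, d2, List.mem_filter, List.mem_filter, List.mem_cons]
        constructor
        · rintro (h | h | h)
          · exact Or.inr h.1
          · exact Or.inl h
          · exact Or.inr h.1
        · rintro (h | h)
          · exact Or.inr (Or.inl h)
          · have hne : v ≠ x := by
              rintro rfl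
              exact hxX h
            rcases Nat.lt_or_gt_of_ne hne with k | k
            · exact Or.inl ⟨h, by simpa using k⟩
            · exact Or.inr (Or.inr ⟨h, by simpa using k⟩)

/-- The tree of a preorder. -/
theorem cart_preorder : ∀ {T : BinaryTree ℕ}, IsBST T → cart (preorder T) = T
  | .nil, _ => by
      rw [preorder, cart]
  | .node a l r, hb => by
      obtain ⟨h1, h2, h3, h4⟩ := bst_node.1 hb
      have hl : ∀ v ∈ preorder l, v < a := fun v hv => h3 v ((preorder_perm l).mem_iff.1 hv)
      have hr : ∀ v ∈ preorder r, a < v := fun v hv => h4 v ((preorder_perm r).mem_iff.1 hv)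
      have e1 : (preorder l ++ preorder r).filter (fun v => decide (v < a)) = preorder l := by
        rw [List.filter_append, List.filter_eq_self.2 (fun v hv => by simpa using hl v hv),
          List.filter_eq_nil_iff.2 (fun v hv => by
            have := hr v hv
            simp only [decide_eq_true_eq]
            omega), List.append_nil]
      have e2 : (preorder l ++ preorder r).filter (fun v => decide (a < v)) = preorder r := by
        have e3 : (preorder l).filter (fun v => decide (a < v)) = [] := by
          rw [List.filter_eq_nil_iff]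
          intro v hv
          have := hl v hv
          simp only [decide_eq_true_eq]
          omega
        have e4 : (preorder r).filter (fun v => decide (a < v)) = preorder r := by
          rw [List.filter_eq_self]
          intro v hv
          simpa using hr v hv
        rw [List.filter_append, e3, e4, List.nil_append]
      rw [preorder, cart_cons, e1, e2, cart_preorder h1, cart_preorder h2]

/-! ## Renaming the keys -/

theorem mapT_left (f : ℕ → ℕ) (t : BinaryTree ℕ) : mapT f (leftOf t) = leftOf (mapT f t) := by
  cases t <;> rfl

theorem mapT_right (f : ℕ → ℕ) (t : BinaryTree ℕ) : mapT f (rightOf t) = rightOf (mapT f t) := by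
  cases t <;> rfl

theorem splitT_map {f : ℕ → ℕ} {K : List ℕ} (hf : ∀ a ∈ K, ∀ b, a < b → f a < f b) :
    ∀ {T2 T : BinaryTree ℕ}, IsBST T → IsBST T2 → (∀ v ∈ inorder T2, v ∈ inorder T) →
    (∀ v ∈ inorder T, v ∈ K) → splitT (mapT f T) (mapT f T2) = splitT T T2
  | .nil, T, _, _, _, _ => by
      cases T <;> rfl
  | .node x A B, T, hb, hb2, h, hK => by
      obtain ⟨g1, g2, g3, g4⟩ := bst_node.1 hb2
      have hx := h x (mem_node.2 (Or.inr (Or.inl rfl)))
      have hm : Mono f x (inorder T) :=
        fun a ha => ⟨fun hh => hf x (hK x hx) a hh, fun hh => hf a (hK a ha) x hh⟩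
      obtain ⟨b1, b2, b3, b4⟩ := splay_sub hb hx
      have e1 : splitT (mapT f T) (mapT f (.node x A B)) = (1 + depth (f x) (mapT f T)) +
          (splitT (leftOf (splay (f x) (mapT f T))) (mapT f A) +
            splitT (rightOf (splay (f x) (mapT f T))) (mapT f B)) := rfl
      rw [e1, mapT_depth hm, mapT_splay hb hx hm, ← mapT_left, ← mapT_right,
        splitT_map hf b1 g1 ?_ ?_, splitT_map hf b2 g2 ?_ ?_]
      · rfl
      · intro v hv
        exact (b4 v).2 ⟨h v (mem_node.2 (Or.inr (Or.inr hv))), g4 v hv⟩
      · intro v hv
        exact hK v ((b4 v).1 hv).1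
      · intro v hv
        exact (b3 v).2 ⟨h v (mem_node.2 (Or.inl hv)), g3 v hv⟩
      · intro v hv
        exact hK v ((b3 v).1 hv).1

end Pool.Agent.SplTr.Sp
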