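import Pool.Agent.SplTr.SpSys
import Pool.Agent.SplTr.SpChain

set_option autoImplicit false

/-!
# Kills in the runs of two-phase splays
-/

namespace Pool.Agent.SplTr.Sp

open BinaryTree Pool.Agent.MP_c42954_lc.Scan Pool.Agent.SplPat Pool.Agent.SplLog Pool.Agent.SplLs
open scoped Classical

/-! ## Mirror images -/

section

variable {S : Sys} {t y : ℕ}

/-- The three nodes of a run of the mirror image. -/
theorem mir_triple {y' : ℕ} (hy' : S.mir.R t y') (hv' : S.mir.R t (S.mir.rho t y'))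
    (hu' : S.mir.R t (S.mir.rho t (S.mir.rho t y')))
    (hl1 : S.mir.lam t (S.mir.rho t y') = S.mir.lam t y')
    (hl2 : S.mir.lam t (S.mir.rho t (S.mir.rho t y')) = S.mir.lam t y') :
    ∃ y, y' = S.top - y ∧ S.L t y ∧ S.L t (S.lam t y) ∧ S.L t (S.lam t (S.lam t y)) ∧
      S.rho t (S.lam t y) = S.rho t y ∧ S.rho t (S.lam t (S.lam t y)) = S.rho t y ∧
      S.mir.rho t y' = S.top - S.lam t y ∧
      S.mir.rho t (S.mir.rho t y') = S.top - S.lam t (S.lam t y) := by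
  obtain ⟨y, hyK, rfl⟩ := Sys.mir_mem.1 hy'.2.1
  have ht : t < S.m := hy'.1
  have hy : S.L t y := (Sys.mir_R hyK).1 hy'
  rw [Sys.mir_rho hyK] at hv' hu' hl1 hl2 ⊢
  have hlamK : ∀ w ∈ S.K, S.mir.R t (S.top - S.lam t w) → S.lam t w ∈ S.K := by
    intro w hw h
    rcases S.lam_mem t ht.le w hw with k | k
    · exfalso
      have := (S.mir.key _ h.2.1).2
      rw [k] at this
      change S.top - 0 < S.top at this
      omega
    · exact k
  have hvK := hlamK y hyK hv'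
  have hv : S.L t (S.lam t y) := (Sys.mir_R hvK).1 hv'
  rw [Sys.mir_rho hvK] at hu' hl2 ⊢
  have huK := hlamK _ hvK hu'
  have hu : S.L t (S.lam t (S.lam t y)) := (Sys.mir_R huK).1 hu'
  rw [Sys.mir_lam hvK, Sys.mir_lam hyK] at hl1
  rw [Sys.mir_lam huK, Sys.mir_lam hyK] at hl2
  have r1 := S.rho_le_top ht.le hyK
  have r2 := S.rho_le_top ht.le hvK
  have r3 := S.rho_le_top ht.le huK
  exact ⟨y, rfl, hy, hv, hu, by omega, by omega, rfl, rfl⟩

theorem thrU_mir (h : ∀ t y, ¬ Seen S t (S.lam t (S.lam t y)) → S.L t y → S.L t (S.lam t y) →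
    S.L t (S.lam t (S.lam t y)) → S.rho t (S.lam t y) = S.rho t y →
    S.rho t (S.lam t (S.lam t y)) = S.rho t y →
    Kr S t (S.lam t y) y ∨ Kr S t (S.lam t (S.lam t y)) (S.lam t y)) : ThrU S.mir := by
  intro t y' hs hy' hv' hu' hl1 hl2
  obtain ⟨y, rfl, hy, hv, hu, e1, e2, e3, e4⟩ := mir_triple hy' hv' hu' hl1 hl2
  rw [e4] at hs ⊢
  rw [e3]
  have k := S.key _ hu.2.1
  have hs' : ¬ Seen S t (S.lam t (S.lam t y)) := fun h => hs ((seen_mir k.2.le k.1).2 h)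
  rcases h t y hs' hy hv hu e1 e2 with c | c
  · exact Or.inl ((kr_mir hv.2.1 hy.2.1).2 c)
  · exact Or.inr ((kr_mir hu.2.1 hv.2.1).2 c)

theorem thrS_mir (h : ∀ t y, Seen S t y → S.L t y → S.L t (S.lam t y) →
    S.L t (S.lam t (S.lam t y)) → S.rho t (S.lam t y) = S.rho t y →
    S.rho t (S.lam t (S.lam t y)) = S.rho t y →
    Kr S t (S.lam t y) y ∨ Kr S t (S.lam t (S.lam t y)) (S.lam t y)) : ThrS S.mir := by
  intro t y' hs hy' hv' hu' hl1 hl2
  obtain ⟨y, rfl, hy, hv, hu, e1, e2, e3, e4⟩ := mir_triple hy' hv' hu' hl1 hl2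
  rw [e4, e3]
  have k := S.key _ hy.2.1
  rcases h t y ((seen_mir k.2.le k.1).1 hs) hy hv hu e1 e2 with c | c
  · exact Or.inl ((kr_mir hv.2.1 hy.2.1).2 c)
  · exact Or.inr ((kr_mir hu.2.1 hv.2.1).2 c)

theorem thr_mir_L (h : Thr S.mir) (hy : S.L t y) (hv : S.L t (S.lam t y))
    (hu : S.L t (S.lam t (S.lam t y))) (e1 : S.rho t (S.lam t y) = S.rho t y)
    (e2 : S.rho t (S.lam t (S.lam t y)) = S.rho t y) :
    Kr S t (S.lam t y) y ∨ Kr S t (S.lam t (S.lam t y)) (S.lam t y) := by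
  have h1 := h t (S.top - y)
  rw [Sys.mir_rho hy.2.1, Sys.mir_rho hv.2.1, Sys.mir_lam hy.2.1, Sys.mir_lam hv.2.1,
    Sys.mir_lam hu.2.1, kr_mir hv.2.1 hy.2.1, kr_mir hu.2.1 hv.2.1] at h1
  exact h1 ((Sys.mir_R hy.2.1).2 hy) ((Sys.mir_R hv.2.1).2 hv) ((Sys.mir_R hu.2.1).2 hu)
    (by rw [e1]) (by rw [e2])

end

/-! ## Trees -/

section

variable {x lo hi y u v w : ℕ} {t : BinaryTree ℕ}

theorem lm_dich (v : ℕ) : ∀ t : BinaryTree ℕ,
    (∀ lo, lm v t lo = lo) ∨ ∃ c ∈ inorder t, ∀ lo, lm v t lo = c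
  | .nil => Or.inl (fun lo => rfl)
  | .node a l r => by
      rcases Nat.lt_trichotomy v a with h | h | h
      · rcases lm_dich v l with h1 | ⟨c, h1, h2⟩
        · exact Or.inl (fun lo => by rw [lm_lt h, h1])
        · exact Or.inr ⟨c, mem_node.2 (Or.inl h1), fun lo => by rw [lm_lt h, h2]⟩
      · subst h
        exact Or.inl (fun lo => lm_self v l r lo)
      · rcases lm_dich v r with h1 | ⟨c, h1, h2⟩
        · exact Or.inr ⟨a, mem_node.2 (Or.inr (Or.inl rfl)), fun lo => by rw [lm_gt h, h1]⟩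
        · exact Or.inr ⟨c, mem_node.2 (Or.inr (Or.inr h1)), fun lo => by rw [lm_gt h, h2]⟩

/-- The left ends with the left sentinels `lo` and `0`. -/
theorem lm_zero (hB : Bd lo hi t) (w : ℕ) : (lm w t lo = lo ∧ lm w t 0 = 0) ∨
    (lm w t lo = lm w t 0 ∧ lo < lm w t 0) := by
  rcases lm_dich w t with h | ⟨c, h1, h2⟩
  · exact Or.inl ⟨h lo, h 0⟩
  · right
    rw [h2 lo, h2 0]
    exact ⟨rfl, (hB c h1).1⟩

theorem splay_bd (hb : IsBST t) (hm : x ∈ inorder t) (hB : Bd lo hi t) : Bd lo hi (splay x t) := by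
  intro w hw
  rw [splay_inorder hb hm] at hw
  exact hB w hw

theorem thr_tree (hb : IsBST t) (hm : x ∈ inorder t) (hB : Bd lo hi t) (hy : y ∈ inorder t)
    (hv : v ∈ inorder t) (hu : u ∈ inorder t) (hxy : x < y) (hyl : lm y t lo < x)
    (e1 : rh y t hi = v) (e2 : rh v t hi = u) (l1 : lm v t lo = lm y t lo)
    (l2 : lm u t lo = lm y t lo) : lm v (splay x t) lo = y ∨ lm u (splay x t) lo = v := by
  have hB' : Bd 0 hi t := fun w hw => ⟨by have := (hB w hw).1; omega, (hB w hw).2⟩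
  have hx := hB x hm
  have hyv := (ends hb hB hy).2.2.1
  have hvu := (ends hb hB hv).2.2.1
  rw [e1] at hyv
  rw [e2] at hvu
  obtain ⟨S, hS⟩ : ∃ S, S = sysOf t (fun _ => x) 1 hi hb (fun _ _ => hm) hB' := ⟨_, rfl⟩
  have hT : Thr S := by
    rw [hS]
    exact thr_sys hb _ hB'
  have hρ : ∀ w, S.rho 0 w = rh w t hi := by
    intro w
    rw [hS]
    rfl
  have hl : ∀ w, S.lam 0 w = lm w t 0 := by
    intro w
    rw [hS]
    rfl
  have hl1 : ∀ w, S.lam (0 + 1) w = lm w (splay x t) 0 := by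
    intro w
    rw [hS]
    rfl
  have hR : ∀ w, w ∈ inorder t → x < w → lm w t 0 < x → S.R 0 w := by
    intro w h1 h2 h3
    rw [hS]
    exact ⟨Nat.one_pos, List.mem_toFinset.2 h1, h2, h3⟩
  have z1 := lm_zero hB y
  have z2 := lm_zero hB v
  have z3 := lm_zero hB u
  have key := hT 0 y
  rw [hρ y, e1, hρ v, e2, hl, hl, hl] at key
  have hB2 := splay_bd hb hm hB
  have z4 := lm_zero hB2 v
  have z5 := lm_zero hB2 u
  rcases key (hR y hy hxy (by omega)) (hR v hv (by omega) (by omega)) (hR u hu (by omega) (by omega))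
    (by omega) (by omega) with k | k
  · left
    have k1 := k.2.2
    rw [hl1] at k1
    omega
  · right
    have k1 := k.2.2
    rw [hl1] at k1
    omega

theorem thr_treeL (hb : IsBST t) (hm : x ∈ inorder t) (hB : Bd lo hi t) (hy : y ∈ inorder t)
    (hv : v ∈ inorder t) (hu : u ∈ inorder t) (hxy : y < x) (hyl : x < rh y t hi)
    (e1 : lm y t lo = v) (e2 : lm v t lo = u) (l1 : rh v t hi = rh y t hi)
    (l2 : rh u t hi = rh y t hi) : rh v (splay x t) hi = y ∨ rh u (splay x t) hi = v := by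
  have hB' : Bd 0 hi t := fun w hw => ⟨by have := (hB w hw).1; omega, (hB w hw).2⟩
  have hx := hB x hm
  have hyv := (ends hb hB hy).2.1
  have hvu := (ends hb hB hv).2.1
  rw [e1] at hyv
  rw [e2] at hvu
  obtain ⟨S, hS⟩ : ∃ S, S = sysOf t (fun _ => x) 1 hi hb (fun _ _ => hm) hB' := ⟨_, rfl⟩
  have hT : Thr S.mir := by
    rw [hS]
    exact thr_mir hb _ hB'
  have hρ : ∀ w, S.rho 0 w = rh w t hi := by
    intro w
    rw [hS]
    rfl
  have hl : ∀ w, S.lam 0 w = lm w t 0 := by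
    intro w
    rw [hS]
    rfl
  have hr1 : ∀ w, S.rho (0 + 1) w = rh w (splay x t) hi := by
    intro w
    rw [hS]
    rfl
  have hL : ∀ w, w ∈ inorder t → w < x → x < rh w t hi → S.L 0 w := by
    intro w h1 h2 h3
    rw [hS]
    exact ⟨Nat.one_pos, List.mem_toFinset.2 h1, h2, h3⟩
  have z1 := lm_zero hB y
  have z2 := lm_zero hB v
  have k1 := (hB v hv).1
  have k2 := (hB u hu).1
  have e1' : S.lam 0 y = v := by
    rw [hl]
    omega
  have e2' : S.lam 0 v = u := by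
    rw [hl]
    omega
  have key := thr_mir_L (t := 0) (y := y) hT (hL y hy hxy hyl)
    (by rw [e1']; exact hL v hv (by omega) (by omega))
    (by rw [e1', e2']; exact hL u hu (by omega) (by omega))
    (by rw [e1', hρ, hρ]; exact l1) (by rw [e1', e2', hρ, hρ]; exact l2)
  rw [e1', e2'] at key
  rcases key with k | k
  · left
    have k1 := k.2.2
    rw [hr1] at k1
    exact k1
  · right
    have k1 := k.2.2
    rw [hr1] at k1
    exact k1

end

/-! ## The run -/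

section

variable {T : BinaryTree ℕ} {X : ℕ → ℕ} {m top : ℕ} {hb : IsBST T}
  {hX : ∀ t, t < m → X t ∈ inorder T} {hinj : ∀ s t, s < m → t < m → X s = X t → s = t}
  {hB : Bd 0 top T}

theorem sn_seen {t v : ℕ} (ht : t ≤ m) :
    Seen (sysZ T X m top hb hX hinj hB) t v ↔ Sn X t v := by
  constructor
  · rintro ⟨s, h1, _, h3⟩
    exact ⟨s, h1, h3⟩
  · rintro ⟨s, h1, h3⟩
    exact ⟨s, h1, show s < m by omega, h3⟩

/-- The tree before the request `t`. -/
theorem tree_facts {t : ℕ} (ht : t < m) (hb : IsBST T) (hX : ∀ t, t < m → X t ∈ inorder T)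
    (hinj : ∀ s t, s < m → t < m → X s = X t → s = t) (hB : Bd 0 top T) :
    IsBST (trz T X t) ∧ X t ∈ inorder (trz T X t) ∧ ¬ Sn X t (X t) ∧ Bd 0 top (trz T X t) ∧
      Inv (Sn X t) (trz T X t) ∧ ∀ w, w ∈ inorder (trz T X t) ↔ w ∈ (inorder T).toFinset := by
  obtain ⟨h1, h2, h0⟩ := trz_inv hb hX hinj t ht.le
  refine ⟨h1, ?_, not_sn hinj ht, ?_, h0, ?_⟩
  · rw [h2]
    exact hX t ht
  · intro w hw
    rw [h2] at hw
    exact hB w hw
  · intro w
    rw [h2, List.mem_toFinset]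

/-- Touched unseen keys lie in the zone. -/
theorem mem_zone {t w : ℕ} (hE : (sysZ T X m top hb hX hinj hB).E t w)
    (hs : ¬ Seen (sysZ T X m top hb hX hinj hB) t w) :
    w ∈ inorder (zone (Sn X t) (X t) (trz T X t)) := by
  have ht : t < m := Sys.E_lt hE
  obtain ⟨h1, h2, h3, h4, h5, h6⟩ := tree_facts ht hb hX hinj hB
  by_contra hn
  apply hs
  rw [sn_seen ht.le]
  have h7 := Sys.E_int hE
  exact anc_P h1 h2 h3 h4 w ((h6 w).2 (Sys.E_mem hE)) hn h7.1 h7.2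

/-- Seen keys do not lie in the zone. -/
theorem not_mem_zone {t w : ℕ} (ht : t < m) (hs : Seen (sysZ T X m top hb hX hinj hB) t w) :
    w ∉ inorder (zone (Sn X t) (X t) (trz T X t)) := by
  obtain ⟨h1, h2, h3, h4, h5, h6⟩ := tree_facts ht hb hX hinj hB
  intro h
  rw [sn_seen ht.le] at hs
  exact zone_notP h5 h1 h2 h3 w h hs

theorem thrU_sysZ (hS : SplTr.Spl (sysZ T X m top hb hX hinj hB)) :
    ThrU (sysZ T X m top hb hX hinj hB) := by
  intro t y hs hy hv hu l1 l2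
  have ht : t < m := hy.1
  obtain ⟨v, hvd⟩ : ∃ v, v = (sysZ T X m top hb hX hinj hB).rho t y := ⟨_, rfl⟩
  rw [← hvd] at hs hv hu l1 l2 ⊢
  obtain ⟨u, hud⟩ : ∃ u, u = (sysZ T X m top hb hX hinj hB).rho t v := ⟨_, rfl⟩
  rw [← hud] at hs hu l2 ⊢
  have hvu : v < u := by rw [hud]; exact R_rho hv
  have hyv : y < v := by rw [hvd]; exact R_rho hy
  have hsv := loc_R hS hu hs (R_gt hv).le hvu.le
  have hsy := loc_R hS hu hs (R_gt hy).le (by omega)
  obtain ⟨h1, h2, h3, h4, h5, h6⟩ := tree_facts ht hb hX hinj hB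
  obtain ⟨d1, d2, d3, d4, d5, d6⟩ := zone_bst h1 h2 h3 h4
  have zy := mem_zone (Sys.R_E hy) hsy
  have zv := mem_zone (Sys.R_E hv) hsv
  have zu := mem_zone (Sys.R_E hu) hs
  obtain ⟨y1, y2, y3, y4⟩ := zone_ends h1 h2 h3 h4 y zy
  obtain ⟨v1, v2, v3, v4⟩ := zone_ends h1 h2 h3 h4 v zv
  obtain ⟨u1, u2, u3, u4⟩ := zone_ends h1 h2 h3 h4 u zu
  change lm v (trz T X t) 0 = lm y (trz T X t) 0 at l1
  change lm u (trz T X t) 0 = lm y (trz T X t) 0 at l2
  change v = rh y (trz T X t) top at hvd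
  change u = rh v (trz T X t) top at hud
  have gy := R_lam hy
  change lm y (trz T X t) 0 < X t at gy
  have kv := zone_up h1 h2 h3 h4 zv (R_gt hv)
  have ku := zone_up h1 h2 h3 h4 zu (R_gt hu)
  rcases thr_tree d1 d2 d3 zy zv zu (R_gt hy) (by rw [← y1]; exact gy) (by rw [← y2, hvd])
    (by rw [← v2, hud]) (by rw [← v1, ← y1]; exact l1) (by rw [← u1, ← y1]; exact l2) with k | k
  · left
    refine ⟨hv, R_gt hy, ?_⟩
    change lm v (zstep (Sn X t) (X t) (trz T X t)) 0 = y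
    rw [kv.2.1, v3, k]
  · right
    refine ⟨hu, R_gt hv, ?_⟩
    change lm u (zstep (Sn X t) (X t) (trz T X t)) 0 = v
    rw [ku.2.1, u3, k]

theorem thrS_sysZ (hS : SplTr.Spl (sysZ T X m top hb hX hinj hB)) :
    ThrS (sysZ T X m top hb hX hinj hB) := by
  intro t y hs hy hv hu l1 l2
  have ht : t < m := hy.1
  obtain ⟨v, hvd⟩ : ∃ v, v = (sysZ T X m top hb hX hinj hB).rho t y := ⟨_, rfl⟩
  rw [← hvd] at hv hu l1 l2 ⊢
  obtain ⟨u, hud⟩ : ∃ u, u = (sysZ T X m top hb hX hinj hB).rho t v := ⟨_, rfl⟩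
  rw [← hud] at hu l2 ⊢
  have hvu : v < u := by rw [hud]; exact R_rho hv
  have hyv : y < v := by rw [hvd]; exact R_rho hy
  have hsv : Seen (sysZ T X m top hb hX hinj hB) t v := by
    by_contra hn
    exact loc_R hS hv hn (R_gt hy).le hyv.le hs
  have hsu : Seen (sysZ T X m top hb hX hinj hB) t u := by
    by_contra hn
    exact loc_R hS hu hn (R_gt hy).le (by omega) hs
  obtain ⟨h1, h2, h3, h4, h5, h6⟩ := tree_facts ht hb hX hinj hB
  have zy := not_mem_zone ht hs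
  have zv := not_mem_zone ht hsv
  have zu := not_mem_zone ht hsu
  have my := (h6 y).2 hy.2.1
  have mv := (h6 v).2 hv.2.1
  have mu := (h6 u).2 hu.2.1
  obtain ⟨y1, y2⟩ := zsp_other (lo := 0) (hi := top) h1 h2 h3 y my zy
  obtain ⟨v1, v2⟩ := zsp_other (lo := 0) (hi := top) h1 h2 h3 v mv zv
  obtain ⟨u1, u2⟩ := zsp_other (lo := 0) (hi := top) h1 h2 h3 u mu zu
  change lm v (trz T X t) 0 = lm y (trz T X t) 0 at l1
  change lm u (trz T X t) 0 = lm y (trz T X t) 0 at l2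
  change v = rh y (trz T X t) top at hvd
  change u = rh v (trz T X t) top at hud
  have gy := R_lam hy
  change lm y (trz T X t) 0 < X t at gy
  have ei := zsp_inorder (P := Sn X t) h1 h2 h3
  rcases thr_tree (zsp_bst h1 h2 h3) (zsp_mem h1 h2 h3) (zsp_bd h1 h2 h3 h4)
    (by rw [ei]; exact my) (by rw [ei]; exact mv) (by rw [ei]; exact mu) (R_gt hy)
    (by rw [y1]; exact gy) (by rw [y2, hvd]) (by rw [v2, hud]) (by rw [v1, y1]; exact l1)
    (by rw [u1, y1]; exact l2) with k | k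
  · left
    exact ⟨hv, R_gt hy, k⟩
  · right
    exact ⟨hu, R_gt hv, k⟩

theorem thrU_sysZ' (hS : SplTr.Spl (sysZ T X m top hb hX hinj hB)) :
    ThrU (sysZ T X m top hb hX hinj hB).mir := by
  apply thrU_mir
  intro t y hs hy hv hu l1 l2
  have ht : t < m := hy.1
  obtain ⟨v, hvd⟩ : ∃ v, v = (sysZ T X m top hb hX hinj hB).lam t y := ⟨_, rfl⟩
  rw [← hvd] at hs hv hu l1 l2 ⊢
  obtain ⟨u, hud⟩ : ∃ u, u = (sysZ T X m top hb hX hinj hB).lam t v := ⟨_, rfl⟩
  rw [← hud] at hs hu l2 ⊢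
  have hvu : u < v := by rw [hud]; exact Sys.lam_lt _ t ht.le v hv.2.1
  have hyv : v < y := by rw [hvd]; exact Sys.lam_lt _ t ht.le y hy.2.1
  have hsv := loc_L hS hu hs hvu.le hv.2.2.1.le
  have hsy := loc_L hS hu hs (show u ≤ y by omega) hy.2.2.1.le
  obtain ⟨h1, h2, h3, h4, h5, h6⟩ := tree_facts ht hb hX hinj hB
  obtain ⟨d1, d2, d3, d4, d5, d6⟩ := zone_bst h1 h2 h3 h4
  have zy := mem_zone (Sys.L_E hy) hsy
  have zv := mem_zone (Sys.L_E hv) hsv
  have zu := mem_zone (Sys.L_E hu) hs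
  obtain ⟨y1, y2, y3, y4⟩ := zone_ends h1 h2 h3 h4 y zy
  obtain ⟨v1, v2, v3, v4⟩ := zone_ends h1 h2 h3 h4 v zv
  obtain ⟨u1, u2, u3, u4⟩ := zone_ends h1 h2 h3 h4 u zu
  change rh v (trz T X t) top = rh y (trz T X t) top at l1
  change rh u (trz T X t) top = rh y (trz T X t) top at l2
  change v = lm y (trz T X t) 0 at hvd
  change u = lm v (trz T X t) 0 at hud
  have gy := hy.2.2.2
  change X t < rh y (trz T X t) top at gy
  have kv := zone_low h1 h2 h3 h4 zv hv.2.2.1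
  have ku := zone_low h1 h2 h3 h4 zu hu.2.2.1
  rcases thr_treeL d1 d2 d3 zy zv zu hy.2.2.1 (by rw [← y2]; exact gy) (by rw [← y1, hvd])
    (by rw [← v1, hud]) (by rw [← v2, ← y2]; exact l1) (by rw [← u2, ← y2]; exact l2) with k | k
  · left
    refine ⟨hv, hy.2.2.1, ?_⟩
    change rh v (zstep (Sn X t) (X t) (trz T X t)) top = y
    rw [kv.2.2, v4, k]
  · right
    refine ⟨hu, hv.2.2.1, ?_⟩
    change rh u (zstep (Sn X t) (X t) (trz T X t)) top = v
    rw [ku.2.2, u4, k]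

theorem thrS_sysZ' (hS : SplTr.Spl (sysZ T X m top hb hX hinj hB)) :
    ThrS (sysZ T X m top hb hX hinj hB).mir := by
  apply thrS_mir
  intro t y hs hy hv hu l1 l2
  have ht : t < m := hy.1
  obtain ⟨v, hvd⟩ : ∃ v, v = (sysZ T X m top hb hX hinj hB).lam t y := ⟨_, rfl⟩
  rw [← hvd] at hv hu l1 l2 ⊢
  obtain ⟨u, hud⟩ : ∃ u, u = (sysZ T X m top hb hX hinj hB).lam t v := ⟨_, rfl⟩
  rw [← hud] at hu l2 ⊢
  have hvu : u < v := by rw [hud]; exact Sys.lam_lt _ t ht.le v hv.2.1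
  have hyv : v < y := by rw [hvd]; exact Sys.lam_lt _ t ht.le y hy.2.1
  have hsv : Seen (sysZ T X m top hb hX hinj hB) t v := by
    by_contra hn
    exact loc_L hS hv hn hyv.le hy.2.2.1.le hs
  have hsu : Seen (sysZ T X m top hb hX hinj hB) t u := by
    by_contra hn
    exact loc_L hS hu hn (show u ≤ y by omega) hy.2.2.1.le hs
  obtain ⟨h1, h2, h3, h4, h5, h6⟩ := tree_facts ht hb hX hinj hB
  have zy := not_mem_zone ht hs
  have zv := not_mem_zone ht hsv
  have zu := not_mem_zone ht hsu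
  have my := (h6 y).2 hy.2.1
  have mv := (h6 v).2 hv.2.1
  have mu := (h6 u).2 hu.2.1
  obtain ⟨y1, y2⟩ := zsp_other (lo := 0) (hi := top) h1 h2 h3 y my zy
  obtain ⟨v1, v2⟩ := zsp_other (lo := 0) (hi := top) h1 h2 h3 v mv zv
  obtain ⟨u1, u2⟩ := zsp_other (lo := 0) (hi := top) h1 h2 h3 u mu zu
  change rh v (trz T X t) top = rh y (trz T X t) top at l1
  change rh u (trz T X t) top = rh y (trz T X t) top at l2
  change v = lm y (trz T X t) 0 at hvd
  change u = lm v (trz T X t) 0 at hud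
  have gy := hy.2.2.2
  change X t < rh y (trz T X t) top at gy
  have ei := zsp_inorder (P := Sn X t) h1 h2 h3
  rcases thr_treeL (zsp_bst h1 h2 h3) (zsp_mem h1 h2 h3) (zsp_bd h1 h2 h3 h4)
    (by rw [ei]; exact my) (by rw [ei]; exact mv) (by rw [ei]; exact mu) hy.2.2.1
    (by rw [y2]; exact gy) (by rw [y1, hvd]) (by rw [v1, hud]) (by rw [v2, y2]; exact l1)
    (by rw [u2, y2]; exact l2) with k | k
  · left
    exact ⟨hv, hy.2.2.1, k⟩
  · right
    exact ⟨hu, hv.2.2.1, k⟩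

/-- **All hypotheses of the main theorem.** -/
theorem good_sysZ (hS : SplTr.Spl (sysZ T X m top hb hX hinj hB)) :
    Good (sysZ T X m top hb hX hinj hB) :=
  ⟨hS, thrU_sysZ hS, thrU_sysZ' hS⟩

end

end Pool.Agent.SplTr.Sp
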