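import Pool.Agent.SplTr.SpCost
import Pool.Agent.SplTr.SpThr

set_option autoImplicit false

/-!
# Sequences of splits are linear
-/

namespace Pool.Agent.SplTr.Sp

open BinaryTree Pool.Agent.MP_c42954_lc.Scan Pool.Agent.SplPat Pool.Agent.SplLog Pool.Agent.SplLs
open scoped Classical

section

variable {T : BinaryTree ℕ} {X : ℕ → ℕ} {m top : ℕ} (hb : IsBST T)
  (hX : ∀ t, t < m → X t ∈ inorder T) (hinj : ∀ s t, s < m → t < m → X s = X t → s = t)
  (hB : Bd 0 top T)

/-- The depth of the request in its zone. -/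
theorem depth_zone {t : ℕ} (ht : t < m) : depth (X t) (zone (Sn X t) (X t) (trz T X t)) ≤
    ((sysZ T X m top hb hX hinj hB).K.filter
      (fun v => (sysZ T X m top hb hX hinj hB).E t v)).card := by
  obtain ⟨h1, h2, h3, h4, h5, h6⟩ := tree_facts ht hb hX hinj hB
  obtain ⟨d1, d2, d3, d4, d5, d6⟩ := zone_bst h1 h2 h3 h4
  have d3' : Bd 0 (zhi (Sn X t) (X t) (trz T X t) top) (zone (Sn X t) (X t) (trz T X t)) :=
    fun w hw => ⟨by have := (d3 w hw).1; omega, (d3 w hw).2⟩
  have h7 := SplLs.depth_le (X := fun _ => X t) (m := 1) d1 (fun _ _ => d2) d3' Nat.one_pos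
  refine h7.trans (Finset.card_le_card ?_)
  intro v hv
  rw [Finset.mem_filter] at hv ⊢
  obtain ⟨hvK, _, hE⟩ := hv
  have hvZ : v ∈ inorder (zone (Sn X t) (X t) (trz T X t)) := List.mem_toFinset.1 hvK
  have hvK' : v ∈ (sysZ T X m top hb hX hinj hB).K := (h6 v).1 (d6 v hvZ)
  refine ⟨hvK', (Sys.E_iff (S := sysZ T X m top hb hX hinj hB) ht hvK').2 ?_⟩
  have h8 := Sys.E_int hE
  change lm v (zone (Sn X t) (X t) (trz T X t)) 0 < X t ∧
    X t < rh v (zone (Sn X t) (X t) (trz T X t)) (zhi (Sn X t) (X t) (trz T X t) top) at h8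
  change lm v (trz T X t) 0 < X t ∧ X t < rh v (trz T X t) top
  obtain ⟨e1, e2, _, _⟩ := zone_ends h1 h2 h3 h4 v hvZ
  rw [e1, e2]
  have h9 := lm_zero d3 v
  have h10 := (d3 _ d2).1
  exact ⟨by omega, h8.2⟩

end

/-- **Runs of two-phase splays.** -/
theorem zrun_le (hLin : Lin) : ∃ C : ℕ, ∀ (T : BinaryTree ℕ) (X : ℕ → ℕ) (m : ℕ), IsBST T →
    (∀ t, t < m → X t ∈ inorder T) → (∀ v ∈ inorder T, 1 ≤ v ∧ v ≤ (inorder T).length) →
    (∀ s t, s < m → t < m → X s = X t → s = t) → (∀ v ∈ inorder T, ∃ t, t < m ∧ X t = v) →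
    (∀ i j k l, i < j → j < k → k < l → l < m → ¬ (X k < X i ∧ X i < X l ∧ X l < X j)) →
    (∀ i j k l, i < j → j < k → k < l → l < m → ¬ (X j < X l ∧ X l < X i ∧ X i < X k)) →
    ∑ t ∈ Finset.range m, depth (X t) (zone (Sn X t) (X t) (trz T X t)) ≤
      C * (m + (inorder T).length) := by
  obtain ⟨C, hC⟩ := hLin
  refine ⟨21 * C, ?_⟩
  intro T X m hb hX hA hinj honto hav1 hav2
  have hB : Bd 0 ((inorder T).length + 1) T := by
    intro v hv
    have h1 := hA v hv
    exact ⟨by omega, by omega⟩
  set S := sysZ T X m ((inorder T).length + 1) hb hX hinj hB with hS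
  have hpw : (inorder T).Pairwise (· < ·) := hb
  have hnd : (inorder T).Nodup := hpw.imp (fun {a b} hab => Nat.ne_of_lt hab)
  have hcard : S.K.card = (inorder T).length := List.toFinset_card_of_nodup hnd
  have hfull : ∀ v, 0 < v → v < S.top → v ∈ S.K := by
    have h1 : S.K ⊆ Finset.Icc 1 (inorder T).length := by
      intro v hv
      rw [Finset.mem_Icc]
      exact hA v (List.mem_toFinset.1 hv)
    have h2 : S.K = Finset.Icc 1 (inorder T).length := by
      apply Finset.eq_of_subset_of_card_le h1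
      rw [hcard, Nat.card_Icc]
      omega
    intro v h3 h4
    rw [h2, Finset.mem_Icc]
    have h5 : S.top = (inorder T).length + 1 := rfl
    omega
  have hP : Sep S :=
    ⟨hfull, hinj, fun v hv => honto v (List.mem_toFinset.1 hv), hav1, hav2⟩
  have hSp := spl_of_sep hP
  have h1 := hC S (good_sysZ hSp)
  have h2 := irr_sep' hP (thrS_sysZ hSp) (thrS_sysZ' hSp)
  have h4 : ∑ t ∈ Finset.range m, depth (X t) (zone (Sn X t) (X t) (trz T X t)) ≤ tch S := by
    unfold tch
    rw [sum_cnt]
    apply Finset.sum_le_sum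
    intro t ht
    rw [Finset.mem_range] at ht
    exact depth_zone hb hX hinj hB ht
  have h5 : S.m = m := rfl
  have h6 : S.top = (inorder T).length + 1 := rfl
  rw [h5] at h2
  rw [h6] at h1
  rcases Nat.eq_zero_or_pos m with h7 | h7
  · subst h7
    simp
  · calc ∑ t ∈ Finset.range m, depth (X t) (zone (Sn X t) (X t) (trz T X t)) ≤ tch S := h4
      _ ≤ C * ((inorder T).length + 1 + irr S) := h1
      _ ≤ C * (21 * (m + (inorder T).length)) := Nat.mul_le_mul_left _ (by omega)
      _ = 21 * C * (m + (inorder T).length) := by ring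

/-- The function of a list. -/
def fn (X : List ℕ) (i : ℕ) : ℕ := X.getD i 0

theorem fn_get {X : List ℕ} {i : ℕ} (hi : i < X.length) : fn X i = X[i] :=
  List.getD_eq_getElem _ 0 hi

theorem fn_inj {X : List ℕ} (hn : X.Nodup) : ∀ s t, s < X.length → t < X.length →
    fn X s = fn X t → s = t := by
  intro s t hs ht h
  rw [fn_get hs, fn_get ht] at h
  exact (List.Nodup.getElem_inj_iff hn).1 h

/-- **The cost of the splits as a run of two-phase splays.** -/
theorem split_run {T : BinaryTree ℕ} {X : List ℕ} (hb : IsBST T) (hXT : ∀ x ∈ X, x ∈ inorder T)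
    (hn : X.Nodup) : ∀ k, k ≤ X.length → splitCost (fun _ => T) X =
      (k + ∑ t ∈ Finset.range k, depth (fn X t) (zone (Sn (fn X) t) (fn X t) (trz T (fn X) t))) +
      splitCost (fun v => zone (Sn (fn X) k) v (trz T (fn X) k)) (X.drop k) := by
  have hX : ∀ t, t < X.length → fn X t ∈ inorder T := by
    intro t ht
    rw [fn_get ht]
    exact hXT _ (List.getElem_mem ht)
  have hinj := fn_inj hn
  intro k
  induction k with
  | zero =>
    intro _
    rw [List.drop_zero, Finset.range_zero, Finset.sum_empty, Nat.zero_add, Nat.zero_add]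
    apply splitCost_congr
    intro v _
    exact (zone_all (by rintro w _ ⟨s, h, _⟩; omega)).symm
  | succ k ih =>
    intro hk
    rw [ih (by omega), Finset.sum_range_succ, List.drop_eq_getElem_cons (show k < X.length from hk),
      ← fn_get (show k < X.length from hk), splitCost]
    obtain ⟨h1, h2, h0⟩ := trz_inv (X := fn X) (m := X.length) hb hX hinj k (by omega)
    have h3 : fn X k ∈ inorder (trz T (fn X) k) := by
      rw [h2]
      exact hX k hk
    have hcongr : splitCost (splitAt (fun v => zone (Sn (fn X) k) v (trz T (fn X) k)) (fn X k))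
        (X.drop (k + 1)) =
        splitCost (fun v => zone (Sn (fn X) (k + 1)) v (trz T (fn X) (k + 1)))
          (X.drop (k + 1)) := by
      apply splitCost_congr
      intro v hv
      obtain ⟨j, hj, hj2⟩ := List.mem_iff_getElem.1 hv
      rw [List.getElem_drop] at hj2
      rw [List.length_drop] at hj
      have hj3 : fn X (k + 1 + j) = v := by
        rw [fn_get (show k + 1 + j < X.length by omega)]
        exact hj2
      have hv1 : ¬ Sn (fn X) k v := by
        rintro ⟨s, h4, h5⟩
        have := hinj s (k + 1 + j) (by omega) (by omega) (by rw [h5, hj3])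
        omega
      have hv2 : v ≠ fn X k := by
        intro h4
        have := hinj k (k + 1 + j) (by omega) (by omega) (by rw [← h4, hj3])
        omega
      have hv3 : v ∈ inorder (trz T (fn X) k) := by
        rw [h2, ← hj3]
        exact hX _ (by omega)
      have h6 := zone_zstep h1 h3 (not_sn hinj (show k < X.length from hk)) h0 hv3 hv1 hv2
      have h7 : zone (Sn (fn X) (k + 1)) v (trz T (fn X) (k + 1)) =
          zone (fun w => Sn (fn X) k w ∨ w = fn X k) v
            (zstep (Sn (fn X) k) (fn X k) (trz T (fn X) k)) := by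
        apply zone_congr
        intro w _
        exact sn_succ
      rw [h7, h6]
      unfold splitAt
      rfl
    rw [hcongr]
    ring

/-- **Splitting along a tree with the keys `1, ..., n`.** -/
theorem pre_le (hLin : Lin) : ∃ C : ℕ, ∀ T T2 : BinaryTree ℕ, IsBST T → inorder T2 = inorder T →
    (∀ v ∈ inorder T, 1 ≤ v ∧ v ≤ (inorder T).length) →
    splitT T T2 ≤ C * (inorder T).length := by
  obtain ⟨C, hC⟩ := zrun_le hLin
  refine ⟨2 * C + 1, ?_⟩
  intro T T2 hb hi hA
  have hb2 : IsBST T2 := by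
    unfold IsBST at hb ⊢
    rw [hi]
    exact hb
  set X := preorder T2 with hXd
  have hperm : X.Perm (inorder T) := by
    rw [← hi]
    exact preorder_perm T2
  have hpw : (inorder T).Pairwise (· < ·) := hb
  have hnd0 : (inorder T).Nodup := hpw.imp (fun {a b} hab => Nat.ne_of_lt hab)
  have hnd : X.Nodup := hperm.nodup_iff.2 hnd0
  have hXT : ∀ x ∈ X, x ∈ inorder T := fun x hx => hperm.mem_iff.1 hx
  have h1 : splitT T T2 = splitCost (fun _ => T) X := by
    rw [splitCost_cart X.length X (fun _ => T) T le_rfl hnd hb (fun v hv => ⟨hXT v hv, rfl⟩),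
      hXd, cart_preorder hb2]
  have h2 := split_run hb hXT hnd X.length le_rfl
  rw [List.drop_length] at h2
  have h3 : splitCost (fun v => zone (Sn (fn X) X.length) v (trz T (fn X) X.length)) [] = 0 := rfl
  rw [h3, Nat.add_zero] at h2
  have hlen : X.length = (inorder T).length := hperm.length_eq
  have hsep := preorder_sep hb2
  have hX : ∀ t, t < X.length → fn X t ∈ inorder T := by
    intro t ht
    rw [fn_get ht]
    exact hXT _ (List.getElem_mem ht)
  have honto : ∀ v ∈ inorder T, ∃ t, t < X.length ∧ fn X t = v := by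
    intro v hv
    obtain ⟨t, ht, h⟩ := List.mem_iff_getElem.1 (hperm.mem_iff.2 hv)
    exact ⟨t, ht, by rw [fn_get ht]; exact h⟩
  have hav1 : ∀ i j k l, i < j → j < k → k < l → l < X.length →
      ¬ (fn X k < fn X i ∧ fn X i < fn X l ∧ fn X l < fn X j) := by
    intro i j k l hij hjk hkl hl
    have hi : i < X.length := by omega
    have hj : j < X.length := by omega
    have hk : k < X.length := by omega
    rw [fn_get hi, fn_get hj, fn_get hk, fn_get hl]
    exact (hsep ⟨i, hi⟩ ⟨j, hj⟩ ⟨k, hk⟩ ⟨l, hl⟩ hij hjk hkl).1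
  have hav2 : ∀ i j k l, i < j → j < k → k < l → l < X.length →
      ¬ (fn X j < fn X l ∧ fn X l < fn X i ∧ fn X i < fn X k) := by
    intro i j k l hij hjk hkl hl
    have hi : i < X.length := by omega
    have hj : j < X.length := by omega
    have hk : k < X.length := by omega
    rw [fn_get hi, fn_get hj, fn_get hk, fn_get hl]
    exact (hsep ⟨i, hi⟩ ⟨j, hj⟩ ⟨k, hk⟩ ⟨l, hl⟩ hij hjk hkl).2
  have h4 := hC T (fn X) X.length hb hX hA (fn_inj hnd) honto hav1 hav2
  rw [h1, h2]
  rw [hlen] at h4 ⊢
  calc (inorder T).length + ∑ t ∈ Finset.range (inorder T).length,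
        depth (fn X t) (zone (Sn (fn X) t) (fn X t) (trz T (fn X) t))
      ≤ (inorder T).length + C * ((inorder T).length + (inorder T).length) :=
        Nat.add_le_add_left h4 _
    _ = (2 * C + 1) * (inorder T).length := by ring

/-- **Splitting along a tree.** -/
theorem splitT_le (hLin : Lin) : ∃ C : ℕ, ∀ T T2 : BinaryTree ℕ, IsBST T →
    inorder T2 = inorder T → splitT T T2 ≤ C * (inorder T).length := by
  obtain ⟨C, hC⟩ := pre_le hLin
  refine ⟨C, ?_⟩
  intro T T2 hb hi
  have hb2 : IsBST T2 := by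
    unfold IsBST at hb ⊢
    rw [hi]
    exact hb
  set K := inorder T with hK
  set f : ℕ → ℕ := fun v => 1 + REL_rank K v with hf
  have hfl : ∀ a ∈ K, ∀ b, a < b → f a < f b := by
    intro a ha b hab
    have := REL_rank_lt K ha hab
    simp only [hf]
    omega
  have hb' : IsBST (mapT f T) := by
    have h1 : (K.map f).Pairwise (· < ·) := by
      rw [List.pairwise_map]
      have hpw : K.Pairwise (· < ·) := hb
      refine List.Pairwise.imp_of_mem (fun {a b} ha hb' hab => ?_) hpw
      exact hfl a ha b hab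
    unfold IsBST
    rw [mapT_inorder]
    exact h1
  have hi' : inorder (mapT f T2) = inorder (mapT f T) := by
    rw [mapT_inorder, mapT_inorder, hi]
  have hlen' : (inorder (mapT f T)).length = K.length := by
    rw [mapT_inorder, List.length_map]
  have hrng : ∀ v ∈ inorder (mapT f T), 1 ≤ v ∧ v ≤ (inorder (mapT f T)).length := by
    intro v hv
    rw [hlen']
    rw [mapT_inorder, List.mem_map] at hv
    obtain ⟨y, hy, rfl⟩ := hv
    have h1 := REL_rank_len K hy
    simp only [hf]
    omega
  have h1 := hC (mapT f T) (mapT f T2) hb' hi' hrng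
  rw [splitT_map (K := K) hfl hb hb2 (fun v hv => by rw [hi] at hv; exact hv)
    (fun v hv => hv), hlen'] at h1
  exact h1

/-- **Every sequence of splits is linear.** -/
theorem split_main (hLin : Lin) : ∃ C : ℕ, ∀ T : BinaryTree ℕ, IsBST T → ∀ X : List ℕ,
    X.Nodup → (∀ x ∈ X, x ∈ inorder T) →
    splitCost (fun _ => T) X ≤ C * (inorder T).length := by
  obtain ⟨C, hC⟩ := splitT_le hLin
  refine ⟨C, ?_⟩
  intro T hb X hn hX
  have hpw : (inorder T).Pairwise (· < ·) := hb
  have hnd0 : (inorder T).Nodup := hpw.imp (fun {a b} hab => Nat.ne_of_lt hab)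
  obtain ⟨Y, hY⟩ : ∃ Y, Y = (inorder T).filter (fun v => v ∉ X) := ⟨_, rfl⟩
  have hn' : (X ++ Y).Nodup := by
    rw [List.nodup_append]
    refine ⟨hn, by rw [hY]; exact hnd0.filter _, ?_⟩
    rintro a ha b hb' rfl
    rw [hY, List.mem_filter] at hb'
    simp at hb'
    exact hb'.2 ha
  have hmem : ∀ v, v ∈ X ++ Y ↔ v ∈ inorder T := by
    intro v
    rw [List.mem_append, hY, List.mem_filter]
    constructor
    · rintro (h | h)
      · exact hX v h
      · exact h.1
    · intro h
      by_cases h1 : v ∈ X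
      · exact Or.inl h1
      · exact Or.inr ⟨h, by simpa using h1⟩
  obtain ⟨c1, c2⟩ := cart_mem (X ++ Y).length (X ++ Y) le_rfl hn'
  have hi : inorder (cart (X ++ Y)) = inorder T := by
    have c3 : (inorder (cart (X ++ Y))).Pairwise (· < ·) := c1
    exact List.Pairwise.eq_of_mem_iff c3 hpw (fun {v} => by rw [c2, hmem])
  calc splitCost (fun _ => T) X ≤ splitCost (fun _ => T) (X ++ Y) := splitCost_append X Y _
    _ = splitT T (cart (X ++ Y)) :=
        splitCost_cart _ _ _ T le_rfl hn' hb (fun v hv => ⟨(hmem v).1 hv, rfl⟩)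
    _ ≤ C * (inorder T).length := hC T _ hb hi

end Pool.Agent.SplTr.Sp
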