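import Pool.Agent.SplTr.SpZ

set_option autoImplicit false

/-!
# The keys requested before form an upper part of the tree
-/

namespace Pool.Agent.SplTr.Sp

open BinaryTree Pool.Agent.MP_c42954_lc.Scan Pool.Agent.SplPat Pool.Agent.SplLog Pool.Agent.SplLs
open scoped Classical

variable {P Q : ℕ → Prop} {x v w lo hi : ℕ} {t A B : BinaryTree ℕ}

theorem inv_of_notP : ∀ {t : BinaryTree ℕ}, (∀ v ∈ inorder t, ¬ P v) → Inv P t
  | .nil, _ => trivial
  | .node a l r, h =>
      ⟨inv_of_notP (fun v hv => h v (mem_node.2 (Or.inl hv))),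
        inv_of_notP (fun v hv => h v (mem_node.2 (Or.inr (Or.inr hv)))), fun _ v hv =>
        h v (mem_node.2 (by
          rcases hv with h1 | h1
          · exact Or.inl h1
          · exact Or.inr (Or.inr h1)))⟩

theorem inv_congr : ∀ {t : BinaryTree ℕ}, (∀ v ∈ inorder t, (P v ↔ Q v)) → Inv P t → Inv Q t
  | .nil, _, _ => trivial
  | .node a l r, h, ⟨h1, h2, h3⟩ => by
      refine ⟨inv_congr (fun v hv => h v (mem_node.2 (Or.inl hv))) h1,
        inv_congr (fun v hv => h v (mem_node.2 (Or.inr (Or.inr hv)))) h2, fun hn v hv hq => ?_⟩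
      rw [← h a (mem_node.2 (Or.inr (Or.inl rfl)))] at hn
      refine h3 hn v hv ((h v (mem_node.2 ?_)).2 hq)
      rcases hv with h4 | h4
      · exact Or.inl h4
      · exact Or.inr (Or.inr h4)

theorem ev_mem (h : Ev x t A B) : x ∈ inorder t := by
  induction h with
  | base A B => exact mem_node.2 (Or.inr (Or.inl rfl))
  | ll _ _ _ ih => exact mem_node.2 (Or.inl (mem_node.2 (Or.inl ih)))
  | lr _ _ _ ih => exact mem_node.2 (Or.inl (mem_node.2 (Or.inr (Or.inr ih))))
  | rr _ _ _ ih => exact mem_node.2 (Or.inr (Or.inr (mem_node.2 (Or.inr (Or.inr ih)))))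
  | rl _ _ _ ih => exact mem_node.2 (Or.inr (Or.inr (mem_node.2 (Or.inl ih))))

theorem inv_root {a : ℕ} {l r : BinaryTree ℕ} (h : Inv Q (.node a l r)) (hQ : Q x)
    (hx : x ∈ inorder l ∨ x ∈ inorder r) : Q a := by
  by_contra hn
  exact h.2.2 hn x hx hQ

theorem ev_inv (h : Ev x t A B) (hQ : Q x) : Inv Q t → Inv Q A ∧ Inv Q B := by
  induction h with
  | base A B => exact fun h => ⟨h.1, h.2.1⟩
  | @ll p g L C D A B h1 h2 h3 ih =>
    intro h
    have hm := ev_mem h3
    have hg := inv_root h hQ (Or.inl (mem_node.2 (Or.inl hm)))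
    have hp := inv_root h.1 hQ (Or.inl hm)
    obtain ⟨i1, i2⟩ := ih h.1.1
    exact ⟨i1, i2, ⟨h.1.2.1, h.2.1, fun hn => absurd hg hn⟩, fun hn => absurd hp hn⟩
  | @lr p g R C D A B h1 h2 h3 ih =>
    intro h
    have hm := ev_mem h3
    have hg := inv_root h hQ (Or.inl (mem_node.2 (Or.inr (Or.inr hm))))
    have hp := inv_root h.1 hQ (Or.inr hm)
    obtain ⟨i1, i2⟩ := ih h.1.2.1
    exact ⟨⟨h.1.1, i1, fun hn => absurd hp hn⟩, ⟨i2, h.2.1, fun hn => absurd hg hn⟩⟩
  | @rr p g R C D A B h1 h2 h3 ih =>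
    intro h
    have hm := ev_mem h3
    have hg := inv_root h hQ (Or.inr (mem_node.2 (Or.inr (Or.inr hm))))
    have hp := inv_root h.2.1 hQ (Or.inr hm)
    obtain ⟨i1, i2⟩ := ih h.2.1.2.1
    exact ⟨⟨⟨h.1, h.2.1.1, fun hn => absurd hg hn⟩, i1, fun hn => absurd hp hn⟩, i2⟩
  | @rl p g L C D A B h1 h2 h3 ih =>
    intro h
    have hm := ev_mem h3
    have hg := inv_root h hQ (Or.inr (mem_node.2 (Or.inl hm)))
    have hp := inv_root h.2.1 hQ (Or.inl hm)
    obtain ⟨i1, i2⟩ := ih h.2.1.1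
    exact ⟨⟨h.1, i1, fun hn => absurd hg hn⟩, ⟨i2, h.2.1.2.1, fun hn => absurd hp hn⟩⟩

/-- Splaying a key with `Q` keeps the keys with `Q` above the other keys. -/
theorem inv_splay (hb : IsBST t) (hm : x ∈ inorder t) (hQ : Q x) (h : Inv Q t) :
    Inv Q (splay x t) := by
  obtain ⟨A, B, h1, h2⟩ := spl_exists hb hm
  rw [h2]
  cases h1 with
  | ev h3 =>
    obtain ⟨i1, i2⟩ := ev_inv h3 hQ h
    exact ⟨i1, i2, fun hn => absurd hQ hn⟩
  | @zl g L D A B' h4 h3 =>
    obtain ⟨i1, i2⟩ := ev_inv h3 hQ h.1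
    have hg := inv_root h hQ (Or.inl (ev_mem h3))
    exact ⟨i1, ⟨i2, h.2.1, fun hn => absurd hg hn⟩, fun hn => absurd hQ hn⟩
  | @zr g R D A' B h4 h3 =>
    obtain ⟨i1, i2⟩ := ev_inv h3 hQ h.2.1
    have hg := inv_root h hQ (Or.inr (ev_mem h3))
    exact ⟨⟨h.1, i1, fun hn => absurd hg hn⟩, i2, fun hn => absurd hQ hn⟩

/-- The first phase. -/
theorem inv_zsp : ∀ {t : BinaryTree ℕ}, IsBST t → x ∈ inorder t → ¬ P x → Inv P t →
    Inv (fun v => P v ∨ v = x) (zsp P x t)
  | .nil, _, hm, _, _ => by simp [inorder] at hm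
  | .node a l r, hb, hm, hx, hI => by
      obtain ⟨h1, h2, h3, h4⟩ := bst_node.1 hb
      by_cases hP : P a
      · rcases side hb hm hP hx with ⟨c1, c2⟩ | ⟨c1, c2, c3⟩
        · rw [zsp_left hP c1]
          refine ⟨inv_zsp h1 c2 hx hI.1, inv_congr ?_ hI.2.1, fun hn => absurd (Or.inl hP) hn⟩
          intro v hv
          have := h4 v hv
          constructor
          · exact Or.inl
          · rintro (h | h)
            · exact h
            · omega
        · rw [zsp_right hP c1]
          refine ⟨inv_congr ?_ hI.1, inv_zsp h2 c3 hx hI.2.1, fun hn => absurd (Or.inl hP) hn⟩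
          intro v hv
          have := h3 v hv
          constructor
          · exact Or.inl
          · rintro (h | h)
            · exact h
            · omega
      · have hz := zone_notP hI hb hm hx
        rw [zone_here hP] at hz
        rw [zsp_here hP]
        obtain ⟨A, B, e1, e2⟩ := spl_exists hb hm
        have e3 := splay_inorder hb hm
        have e4 := splay_bst hb hm
        rw [e2] at e3 e4
        obtain ⟨g1, g2, g3, g4⟩ := bst_node.1 e4
        rw [e2]
        refine ⟨inv_of_notP ?_, inv_of_notP ?_, fun hn => absurd (Or.inr rfl) hn⟩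
        · rintro v hv (h | h)
          · exact hz v (by rw [← e3]; exact mem_node.2 (Or.inl hv)) h
          · have := g3 v hv
            omega
        · rintro v hv (h | h)
          · exact hz v (by rw [← e3]; exact mem_node.2 (Or.inr (Or.inr hv))) h
          · have := g4 v hv
            omega

/-- **The invariant of the two phases.** -/
theorem inv_zstep (hb : IsBST t) (hm : x ∈ inorder t) (hx : ¬ P x) (hI : Inv P t) :
    Inv (fun v => P v ∨ v = x) (zstep P x t) :=
  inv_splay (zsp_bst hb hm hx) (zsp_mem hb hm hx) (Or.inr rfl) (inv_zsp hb hm hx hI)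

end Pool.Agent.SplTr.Sp
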