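import Pool.Agent.SplTr.SpInv

set_option autoImplicit false

/-!
# The system of a run of two-phase splays
-/

namespace Pool.Agent.SplTr.Sp

open BinaryTree Pool.Agent.MP_c42954_lc.Scan Pool.Agent.SplPat Pool.Agent.SplLog Pool.Agent.SplLs
open scoped Classical

/-- `v` was requested before the time `t`. -/
def Sn (X : ℕ → ℕ) (t v : ℕ) : Prop := ∃ s, s < t ∧ X s = v

/-- The trees of the run: each request is splayed inside its zone, and then to the root. -/
noncomputable def trz (T : BinaryTree ℕ) (X : ℕ → ℕ) : ℕ → BinaryTree ℕ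
  | 0 => T
  | t + 1 => zstep (Sn X t) (X t) (trz T X t)

theorem sn_succ {X : ℕ → ℕ} {t v : ℕ} : Sn X (t + 1) v ↔ Sn X t v ∨ v = X t := by
  constructor
  · rintro ⟨s, h1, h2⟩
    rcases Nat.lt_or_ge s t with h3 | h3
    · exact Or.inl ⟨s, h3, h2⟩
    · have : s = t := by omega
      subst this
      exact Or.inr h2.symm
  · rintro (⟨s, h1, h2⟩ | h)
    · exact ⟨s, by omega, h2⟩
    · exact ⟨t, by omega, h.symm⟩

theorem not_sn {X : ℕ → ℕ} {m t : ℕ} (hinj : ∀ s t, s < m → t < m → X s = X t → s = t)
    (ht : t < m) : ¬ Sn X t (X t) := by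
  rintro ⟨s, h1, h2⟩
  have := hinj s t (by omega) ht h2
  omega

theorem trz_inv {T : BinaryTree ℕ} {X : ℕ → ℕ} {m : ℕ} (hb : IsBST T)
    (hX : ∀ t, t < m → X t ∈ inorder T) (hinj : ∀ s t, s < m → t < m → X s = X t → s = t) :
    ∀ t, t ≤ m → IsBST (trz T X t) ∧ inorder (trz T X t) = inorder T ∧ Inv (Sn X t) (trz T X t)
  | 0, _ => ⟨hb, rfl, inv_of_notP (by rintro v _ ⟨s, h, _⟩; omega)⟩
  | t + 1, ht => by
      obtain ⟨h1, h2, h0⟩ := trz_inv hb hX hinj t (by omega)
      have h3 : X t ∈ inorder (trz T X t) := by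
        rw [h2]
        exact hX t (by omega)
      have hn := not_sn hinj (show t < m by omega)
      refine ⟨splay_bst (zsp_bst h1 h3 hn) (zsp_mem h1 h3 hn), ?_, ?_⟩
      · show inorder (zstep (Sn X t) (X t) (trz T X t)) = _
        rw [zstep_inorder h1 h3 hn, h2]
      · refine inv_congr ?_ (inv_zstep h1 h3 hn h0)
        intro v _
        exact sn_succ.symm

/-- The system of subtree intervals of a run of two-phase splays. -/
noncomputable def sysZ (T : BinaryTree ℕ) (X : ℕ → ℕ) (m top : ℕ) (hb : IsBST T)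
    (hX : ∀ t, t < m → X t ∈ inorder T) (hinj : ∀ s t, s < m → t < m → X s = X t → s = t)
    (hB : Bd 0 top T) : Sys where
  K := (inorder T).toFinset
  top := top
  m := m
  lam t v := lm v (trz T X t) 0
  rho t v := rh v (trz T X t) top
  X := X
  key := by
    intro v hv
    exact hB v (List.mem_toFinset.1 hv)
  req := by
    intro t ht
    exact List.mem_toFinset.2 (hX t ht)
  lam_lt := by
    intro t ht v hv
    obtain ⟨h1, h2, h0⟩ := trz_inv hb hX hinj t ht
    have h3 : Bd 0 top (trz T X t) := by
      intro w hw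
      rw [h2] at hw
      exact hB w hw
    have h4 : v ∈ inorder (trz T X t) := by
      rw [h2]
      exact List.mem_toFinset.1 hv
    exact (ends h1 h3 h4).2.1
  lt_rho := by
    intro t ht v hv
    obtain ⟨h1, h2, h0⟩ := trz_inv hb hX hinj t ht
    have h3 : Bd 0 top (trz T X t) := by
      intro w hw
      rw [h2] at hw
      exact hB w hw
    have h4 : v ∈ inorder (trz T X t) := by
      rw [h2]
      exact List.mem_toFinset.1 hv
    exact (ends h1 h3 h4).2.2.1
  lam_mem := by
    intro t ht v hv
    obtain ⟨h1, h2, h0⟩ := trz_inv hb hX hinj t ht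
    have h3 : Bd 0 top (trz T X t) := by
      intro w hw
      rw [h2] at hw
      exact hB w hw
    have h4 : v ∈ inorder (trz T X t) := by
      rw [h2]
      exact List.mem_toFinset.1 hv
    rcases (ends h1 h3 h4).2.2.2.2.1 with h | h
    · exact Or.inl h
    · right
      rw [h2] at h
      exact List.mem_toFinset.2 h
  rho_mem := by
    intro t ht v hv
    obtain ⟨h1, h2, h0⟩ := trz_inv hb hX hinj t ht
    have h3 : Bd 0 top (trz T X t) := by
      intro w hw
      rw [h2] at hw
      exact hB w hw
    have h4 : v ∈ inorder (trz T X t) := by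
      rw [h2]
      exact List.mem_toFinset.1 hv
    rcases (ends h1 h3 h4).2.2.2.2.2 with h | h
    · exact Or.inl h
    · right
      rw [h2] at h
      exact List.mem_toFinset.2 h
  lamin := by
    intro t ht u hu v hv huv
    obtain ⟨h1, h2, h0⟩ := trz_inv hb hX hinj t ht
    have h3 : Bd 0 top (trz T X t) := by
      intro w hw
      rw [h2] at hw
      exact hB w hw
    have h4 : v ∈ inorder (trz T X t) := by
      rw [h2]
      exact List.mem_toFinset.1 hv
    have h5 : u ∈ inorder (trz T X t) := by
      rw [h2]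
      exact List.mem_toFinset.1 hu
    exact laminar huv h1 h3 h5 h4
  lam_anc := by
    intro t ht v hv hl
    obtain ⟨h1, h2, h0⟩ := trz_inv hb hX hinj t ht
    have h3 : Bd 0 top (trz T X t) := by
      intro w hw
      rw [h2] at hw
      exact hB w hw
    have h4 : v ∈ inorder (trz T X t) := by
      rw [h2]
      exact List.mem_toFinset.1 hv
    have h5 := hB _ (List.mem_toFinset.1 hl)
    exact lm_anc h1 h3 h4 (by omega)
  rho_anc := by
    intro t ht v hv hl
    obtain ⟨h1, h2, h0⟩ := trz_inv hb hX hinj t ht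
    have h3 : Bd 0 top (trz T X t) := by
      intro w hw
      rw [h2] at hw
      exact hB w hw
    have h4 : v ∈ inorder (trz T X t) := by
      rw [h2]
      exact List.mem_toFinset.1 hv
    have h5 := hB _ (List.mem_toFinset.1 hl)
    exact rh_anc h1 h3 h4 (by omega)
  acc := by
    intro t ht
    obtain ⟨h1, h2, h0⟩ := trz_inv hb hX hinj t ht.le
    have h4 : X t ∈ inorder (trz T X t) := by
      rw [h2]
      exact hX t ht
    have hn := not_sn hinj ht
    exact splay_X (zsp_bst h1 h4 hn) (zsp_mem h1 h4 hn) 0 top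
  right := by
    intro t ht v hv hx
    obtain ⟨h1, h2, h0⟩ := trz_inv hb hX hinj t ht.le
    have h3 : Bd 0 top (trz T X t) := by
      intro w hw
      rw [h2] at hw
      exact hB w hw
    have h4 : X t ∈ inorder (trz T X t) := by
      rw [h2]
      exact hX t ht
    have h5 : v ∈ inorder (trz T X t) := by
      rw [h2]
      exact List.mem_toFinset.1 hv
    refine (zstep_R h1 h4 (not_sn hinj ht) h3 h5 hx).mono ?_ h5 (fun _ _ => rfl) (fun _ _ => rfl)
      (fun _ _ _ => rfl) (fun _ _ _ => rfl) hx (ends h1 h3 h5).2.2.1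
    intro w hw
    rw [h2] at hw
    exact List.mem_toFinset.2 hw
  left := by
    intro t ht v hv hx
    obtain ⟨h1, h2, h0⟩ := trz_inv hb hX hinj t ht.le
    have h3 : Bd 0 top (trz T X t) := by
      intro w hw
      rw [h2] at hw
      exact hB w hw
    have h4 : X t ∈ inorder (trz T X t) := by
      rw [h2]
      exact hX t ht
    have h5 : v ∈ inorder (trz T X t) := by
      rw [h2]
      exact List.mem_toFinset.1 hv
    refine (zstep_L h1 h4 (not_sn hinj ht) h3 h5 hx).mono ?_ h5 (fun _ _ => rfl) (fun _ _ => rfl)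
      (fun _ _ _ => rfl) (fun _ _ _ => rfl) hx (ends h1 h3 h5).2.1
    intro w hw
    rw [h2] at hw
    exact List.mem_toFinset.2 hw

end Pool.Agent.SplTr.Sp
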