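import Pool.Agent.SplLog.Run
import Pool.Agent.SplLs.Thr

set_option autoImplicit false

/-!
# Splaying inside a zone

`P v` means that `v` was requested before.  The zone of `x` in `t` is the largest subtree containing
`x` whose nodes do not have the property `P`.  `zsp P x t` splays `x` inside its zone; `zstep P x t`
then splays `x` to the root.
-/

namespace Pool.Agent.SplTr.Sp

open BinaryTree Pool.Agent.MP_c42954_lc.Scan Pool.Agent.SplPat Pool.Agent.SplLog Pool.Agent.SplLs
open scoped Classical

/-- Splay `x` inside its zone. -/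
noncomputable def zsp (P : ℕ → Prop) (x : ℕ) : BinaryTree ℕ → BinaryTree ℕ
  | .nil => .nil
  | .node a l r =>
    if P a then (if x < a then .node a (zsp P x l) r else .node a l (zsp P x r))
    else splay x (.node a l r)

/-- The zone of `x`. -/
noncomputable def zone (P : ℕ → Prop) (x : ℕ) : BinaryTree ℕ → BinaryTree ℕ
  | .nil => .nil
  | .node a l r =>
    if P a then (if x < a then zone P x l else zone P x r) else .node a l r

/-- The left wall of the zone. -/
noncomputable def zlo (P : ℕ → Prop) (x : ℕ) : BinaryTree ℕ → ℕ → ℕ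
  | .nil, lo => lo
  | .node a l r, lo =>
    if P a then (if x < a then zlo P x l lo else zlo P x r a) else lo

/-- The right wall of the zone. -/
noncomputable def zhi (P : ℕ → Prop) (x : ℕ) : BinaryTree ℕ → ℕ → ℕ
  | .nil, hi => hi
  | .node a l r, hi =>
    if P a then (if x < a then zhi P x l a else zhi P x r hi) else hi

/-- The two phases of one request. -/
noncomputable def zstep (P : ℕ → Prop) (x : ℕ) (t : BinaryTree ℕ) : BinaryTree ℕ :=
  splay x (zsp P x t)

/-- All ancestors of a node with `P` have the property `P`. -/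
def Inv (P : ℕ → Prop) : BinaryTree ℕ → Prop
  | .nil => True
  | .node a l r => Inv P l ∧ Inv P r ∧ (¬ P a → ∀ v, v ∈ inorder l ∨ v ∈ inorder r → ¬ P v)

variable {P : ℕ → Prop} {x v w lo hi : ℕ} {t : BinaryTree ℕ}

theorem zsp_left {a : ℕ} {l r : BinaryTree ℕ} (h : P a) (hx : x < a) :
    zsp P x (.node a l r) = .node a (zsp P x l) r := by
  simp [zsp, h, hx]

theorem zsp_right {a : ℕ} {l r : BinaryTree ℕ} (h : P a) (hx : ¬ x < a) :
    zsp P x (.node a l r) = .node a l (zsp P x r) := by
  simp [zsp, h, hx]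

theorem zsp_here {a : ℕ} {l r : BinaryTree ℕ} (h : ¬ P a) :
    zsp P x (.node a l r) = splay x (.node a l r) := by
  simp [zsp, h]

theorem zone_left {a : ℕ} {l r : BinaryTree ℕ} (h : P a) (hx : x < a) :
    zone P x (.node a l r) = zone P x l := by
  simp [zone, h, hx]

theorem zone_right {a : ℕ} {l r : BinaryTree ℕ} (h : P a) (hx : ¬ x < a) :
    zone P x (.node a l r) = zone P x r := by
  simp [zone, h, hx]

theorem zone_here {a : ℕ} {l r : BinaryTree ℕ} (h : ¬ P a) :
    zone P x (.node a l r) = .node a l r := by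
  simp [zone, h]

theorem zlo_left {a lo : ℕ} {l r : BinaryTree ℕ} (h : P a) (hx : x < a) :
    zlo P x (.node a l r) lo = zlo P x l lo := by
  simp [zlo, h, hx]

theorem zlo_right {a lo : ℕ} {l r : BinaryTree ℕ} (h : P a) (hx : ¬ x < a) :
    zlo P x (.node a l r) lo = zlo P x r a := by
  simp [zlo, h, hx]

theorem zlo_here {a lo : ℕ} {l r : BinaryTree ℕ} (h : ¬ P a) :
    zlo P x (.node a l r) lo = lo := by
  simp [zlo, h]

theorem zhi_left {a hi : ℕ} {l r : BinaryTree ℕ} (h : P a) (hx : x < a) :
    zhi P x (.node a l r) hi = zhi P x l a := by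
  simp [zhi, h, hx]

theorem zhi_right {a hi : ℕ} {l r : BinaryTree ℕ} (h : P a) (hx : ¬ x < a) :
    zhi P x (.node a l r) hi = zhi P x r hi := by
  simp [zhi, h, hx]

theorem zhi_here {a hi : ℕ} {l r : BinaryTree ℕ} (h : ¬ P a) :
    zhi P x (.node a l r) hi = hi := by
  simp [zhi, h]

/-- The side on which `x` lies. -/
theorem side {a : ℕ} {l r : BinaryTree ℕ} (hb : IsBST (.node a l r))
    (hm : x ∈ inorder (.node a l r)) (hP : P a) (hx : ¬ P x) :
    (x < a ∧ x ∈ inorder l) ∨ (¬ x < a ∧ a < x ∧ x ∈ inorder r) := by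
  obtain ⟨h1, h2, h3, h4⟩ := bst_node.1 hb
  rcases mem_node.1 hm with h | h | h
  · exact Or.inl ⟨h3 x h, h⟩
  · rw [h] at hx
    exact absurd hP hx
  · have := h4 x h
    exact Or.inr ⟨by omega, this, h⟩

theorem zsp_inorder : ∀ {t : BinaryTree ℕ}, IsBST t → x ∈ inorder t → ¬ P x →
    inorder (zsp P x t) = inorder t
  | .nil, _, hm, _ => by simp [inorder] at hm
  | .node a l r, hb, hm, hx => by
      obtain ⟨h1, h2, h3, h4⟩ := bst_node.1 hb
      by_cases hP : P a
      · rcases side hb hm hP hx with ⟨c1, c2⟩ | ⟨c1, c2, c3⟩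
        · rw [zsp_left hP c1]
          simp only [inorder]
          rw [zsp_inorder h1 c2 hx]
        · rw [zsp_right hP c1]
          simp only [inorder]
          rw [zsp_inorder h2 c3 hx]
      · rw [zsp_here hP]
        exact splay_inorder hb hm

theorem zone_bst : ∀ {t : BinaryTree ℕ} {lo hi : ℕ}, IsBST t → x ∈ inorder t → ¬ P x →
    Bd lo hi t → IsBST (zone P x t) ∧ x ∈ inorder (zone P x t) ∧
      Bd (zlo P x t lo) (zhi P x t hi) (zone P x t) ∧ lo ≤ zlo P x t lo ∧ zhi P x t hi ≤ hi ∧
      ∀ v ∈ inorder (zone P x t), v ∈ inorder t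
  | .nil, _, _, _, hm, _, _ => by simp [inorder] at hm
  | .node a l r, lo, hi, hb, hm, hx, hB => by
      obtain ⟨h1, h2, h3, h4⟩ := bst_node.1 hb
      obtain ⟨b1, b2, b3, b4⟩ := bd_node hb hB
      by_cases hP : P a
      · rcases side hb hm hP hx with ⟨c1, c2⟩ | ⟨c1, c2, c3⟩
        · rw [zone_left hP c1, zlo_left hP c1, zhi_left hP c1]
          obtain ⟨d1, d2, d3, d4, d5, d6⟩ := zone_bst h1 c2 hx b3
          exact ⟨d1, d2, d3, d4, by omega, fun v hv => mem_node.2 (Or.inl (d6 v hv))⟩
        · rw [zone_right hP c1, zlo_right hP c1, zhi_right hP c1]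
          obtain ⟨d1, d2, d3, d4, d5, d6⟩ := zone_bst h2 c3 hx b4
          exact ⟨d1, d2, d3, by omega, by omega, fun v hv => mem_node.2 (Or.inr (Or.inr (d6 v hv)))⟩
      · rw [zone_here hP, zlo_here hP, zhi_here hP]
        exact ⟨hb, hm, hB, le_rfl, le_rfl, fun v hv => hv⟩

/-- Ends of the keys of the zone. -/
theorem zone_ends : ∀ {t : BinaryTree ℕ} {lo hi : ℕ}, IsBST t → x ∈ inorder t → ¬ P x →
    Bd lo hi t → ∀ v ∈ inorder (zone P x t),
      lm v t lo = lm v (zone P x t) (zlo P x t lo) ∧ rh v t hi = rh v (zone P x t) (zhi P x t hi) ∧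
      lm v (zsp P x t) lo = lm v (splay x (zone P x t)) (zlo P x t lo) ∧
      rh v (zsp P x t) hi = rh v (splay x (zone P x t)) (zhi P x t hi)
  | .nil, _, _, _, hm, _, _ => by simp [inorder] at hm
  | .node a l r, lo, hi, hb, hm, hx, hB => by
      obtain ⟨h1, h2, h3, h4⟩ := bst_node.1 hb
      obtain ⟨b1, b2, b3, b4⟩ := bd_node hb hB
      by_cases hP : P a
      · rcases side hb hm hP hx with ⟨c1, c2⟩ | ⟨c1, c2, c3⟩
        · rw [zone_left hP c1, zlo_left hP c1, zhi_left hP c1, zsp_left hP c1]
          intro v hv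
          have e := h3 v ((zone_bst h1 c2 hx b3).2.2.2.2.2 v hv)
          rw [lm_lt e, rh_lt e, lm_lt e, rh_lt e]
          exact zone_ends h1 c2 hx b3 v hv
        · rw [zone_right hP c1, zlo_right hP c1, zhi_right hP c1, zsp_right hP c1]
          intro v hv
          have e := h4 v ((zone_bst h2 c3 hx b4).2.2.2.2.2 v hv)
          rw [lm_gt e, rh_gt e, lm_gt e, rh_gt e]
          exact zone_ends h2 c3 hx b4 v hv
      · rw [zone_here hP, zlo_here hP, zhi_here hP, zsp_here hP]
        intro v _
        exact ⟨rfl, rfl, rfl, rfl⟩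

/-- The other keys keep their ends. -/
theorem zsp_other : ∀ {t : BinaryTree ℕ} {lo hi : ℕ}, IsBST t → x ∈ inorder t → ¬ P x →
    ∀ v ∈ inorder t, v ∉ inorder (zone P x t) →
      lm v (zsp P x t) lo = lm v t lo ∧ rh v (zsp P x t) hi = rh v t hi
  | .nil, _, _, _, hm, _ => by simp [inorder] at hm
  | .node a l r, lo, hi, hb, hm, hx => by
      obtain ⟨h1, h2, h3, h4⟩ := bst_node.1 hb
      by_cases hP : P a
      · rcases side hb hm hP hx with ⟨c1, c2⟩ | ⟨c1, c2, c3⟩
        · rw [zone_left hP c1, zsp_left hP c1]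
          intro v hv hn
          rcases mem_node.1 hv with h | h | h
          · have e := h3 v h
            rw [lm_lt e, rh_lt e, lm_lt e, rh_lt e]
            exact zsp_other h1 c2 hx v h hn
          · subst h
            rw [lm_self, rh_self, lm_self, rh_self]
            exact ⟨rfl, rfl⟩
          · have e := h4 v h
            rw [lm_gt e, rh_gt e, lm_gt e, rh_gt e]
            exact ⟨rfl, rfl⟩
        · rw [zone_right hP c1, zsp_right hP c1]
          intro v hv hn
          rcases mem_node.1 hv with h | h | h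
          · have e := h3 v h
            rw [lm_lt e, rh_lt e, lm_lt e, rh_lt e]
            exact ⟨rfl, rfl⟩
          · subst h
            rw [lm_self, rh_self, lm_self, rh_self]
            exact ⟨rfl, rfl⟩
          · have e := h4 v h
            rw [lm_gt e, rh_gt e, lm_gt e, rh_gt e]
            exact zsp_other h2 c3 hx v h hn
      · rw [zone_here hP]
        intro v hv hn
        exact absurd hv hn

/-- The ancestors of the zone have the property `P`. -/
theorem anc_P : ∀ {t : BinaryTree ℕ} {lo hi : ℕ}, IsBST t → x ∈ inorder t → ¬ P x →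
    Bd lo hi t → ∀ v ∈ inorder t, v ∉ inorder (zone P x t) → lm v t lo < x → x < rh v t hi → P v
  | .nil, _, _, _, hm, _, _ => by simp [inorder] at hm
  | .node a l r, lo, hi, hb, hm, hx, hB => by
      obtain ⟨h1, h2, h3, h4⟩ := bst_node.1 hb
      obtain ⟨b1, b2, b3, b4⟩ := bd_node hb hB
      by_cases hP : P a
      · rcases side hb hm hP hx with ⟨c1, c2⟩ | ⟨c1, c2, c3⟩
        · rw [zone_left hP c1]
          intro v hv hn k1 k2
          rcases mem_node.1 hv with h | h | h
          · have e := h3 v h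
            rw [lm_lt e] at k1
            rw [rh_lt e] at k2
            exact anc_P h1 c2 hx b3 v h hn k1 k2
          · rw [h]
            exact hP
          · have e := h4 v h
            rw [lm_gt e] at k1
            have := (ends h2 b4 h).1
            omega
        · rw [zone_right hP c1]
          intro v hv hn k1 k2
          rcases mem_node.1 hv with h | h | h
          · have e := h3 v h
            rw [rh_lt e] at k2
            have := (ends h1 b3 h).2.2.2.1
            omega
          · rw [h]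
            exact hP
          · have e := h4 v h
            rw [lm_gt e] at k1
            rw [rh_gt e] at k2
            exact anc_P h2 c3 hx b4 v h hn k1 k2
      · rw [zone_here hP]
        intro v hv hn
        exact absurd hv hn

/-- The keys of the zone do not have the property `P`. -/
theorem zone_notP : ∀ {t : BinaryTree ℕ}, Inv P t → IsBST t → x ∈ inorder t → ¬ P x →
    ∀ v ∈ inorder (zone P x t), ¬ P v
  | .nil, _, _, hm, _ => by simp [inorder] at hm
  | .node a l r, hI, hb, hm, hx => by
      obtain ⟨h1, h2, h3, h4⟩ := bst_node.1 hb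
      obtain ⟨i1, i2, i3⟩ := hI
      by_cases hP : P a
      · rcases side hb hm hP hx with ⟨c1, c2⟩ | ⟨c1, c2, c3⟩
        · rw [zone_left hP c1]
          exact zone_notP i1 h1 c2 hx
        · rw [zone_right hP c1]
          exact zone_notP i2 h2 c3 hx
      · rw [zone_here hP]
        intro v hv
        rcases mem_node.1 hv with h | h | h
        · exact i3 hP v (Or.inl h)
        · rw [h]
          exact hP
        · exact i3 hP v (Or.inr h)

/-! ## The composite of the two phases -/

section

variable (hb : IsBST t) (hm : x ∈ inorder t) (hx : ¬ P x) (hB : Bd lo hi t)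

include hb hm hx

theorem zsp_bst : IsBST (zsp P x t) := by
  unfold IsBST
  rw [zsp_inorder hb hm hx]
  exact hb

theorem zsp_mem : x ∈ inorder (zsp P x t) := by
  rw [zsp_inorder hb hm hx]
  exact hm

theorem zstep_inorder : inorder (zstep P x t) = inorder t := by
  unfold zstep
  rw [splay_inorder (zsp_bst hb hm hx) (zsp_mem hb hm hx), zsp_inorder hb hm hx]

include hB

theorem zsp_bd : Bd lo hi (zsp P x t) := by
  intro w hw
  rw [zsp_inorder hb hm hx] at hw
  exact hB w hw

/-- Keys of the zone above `x` after the first phase. -/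
theorem zone_up (hv : v ∈ inorder (zone P x t)) (hxv : x < v) :
    x ≤ lm v (zsp P x t) lo ∧ lm v (zstep P x t) lo = lm v (zsp P x t) lo ∧
      rh v (zstep P x t) hi = rh v (zsp P x t) hi := by
  obtain ⟨d1, d2, d3, d4, d5, d6⟩ := zone_bst hb hm hx hB
  have h1 := (zone_ends hb hm hx hB v hv).2.2.1
  have h2 : x ≤ lm v (zsp P x t) lo := by
    rw [h1]
    obtain ⟨A, B, e1, e2⟩ := spl_exists d1 d2
    rw [e2, lm_gt hxv]
    have hbs : IsBST (.node x A B) := by
      rw [← e2]
      exact splay_bst d1 d2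
    have hbd : Bd (zlo P x t lo) (zhi P x t hi) (.node x A B) := by
      intro w hw
      rw [← e2, splay_inorder d1 d2] at hw
      exact d3 w hw
    obtain ⟨g1, g2, g3, g4⟩ := bst_node.1 hbs
    obtain ⟨k1, k2, k3, k4⟩ := bd_node hbs hbd
    have hvm : v ∈ inorder (.node x A B) := by
      rw [← e2, splay_inorder d1 d2]
      exact hv
    rcases mem_node.1 hvm with h | h | h
    · have := g3 v h
      omega
    · omega
    · exact (ends g2 k4 h).1
  have hv1 : v ∈ inorder (zsp P x t) := by
    rw [zsp_inorder hb hm hx]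
    exact d6 v hv
  refine ⟨h2, ?_⟩
  rcases splay_R (zsp_bst hb hm hx) (zsp_mem hb hm hx) (zsp_bd hb hm hx hB) hv1 hxv with
    h | ⟨h, _⟩ | ⟨h, _⟩
  · exact ⟨h.2.1, h.2.2⟩
  · simp only at h
    omega
  · simp only at h
    omega

/-- Keys of the zone below `x` after the first phase. -/
theorem zone_low (hv : v ∈ inorder (zone P x t)) (hxv : v < x) :
    rh v (zsp P x t) hi ≤ x ∧ lm v (zstep P x t) lo = lm v (zsp P x t) lo ∧
      rh v (zstep P x t) hi = rh v (zsp P x t) hi := by
  obtain ⟨d1, d2, d3, d4, d5, d6⟩ := zone_bst hb hm hx hB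
  have h1 := (zone_ends hb hm hx hB v hv).2.2.2
  have h2 : rh v (zsp P x t) hi ≤ x := by
    rw [h1]
    obtain ⟨A, B, e1, e2⟩ := spl_exists d1 d2
    rw [e2, rh_lt hxv]
    have hbs : IsBST (.node x A B) := by
      rw [← e2]
      exact splay_bst d1 d2
    have hbd : Bd (zlo P x t lo) (zhi P x t hi) (.node x A B) := by
      intro w hw
      rw [← e2, splay_inorder d1 d2] at hw
      exact d3 w hw
    obtain ⟨g1, g2, g3, g4⟩ := bst_node.1 hbs
    obtain ⟨k1, k2, k3, k4⟩ := bd_node hbs hbd
    have hvm : v ∈ inorder (.node x A B) := by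
      rw [← e2, splay_inorder d1 d2]
      exact hv
    rcases mem_node.1 hvm with h | h | h
    · exact (ends g1 k3 h).2.2.2.1
    · omega
    · have := g4 v h
      omega
  have hv1 : v ∈ inorder (zsp P x t) := by
    rw [zsp_inorder hb hm hx]
    exact d6 v hv
  refine ⟨h2, ?_⟩
  rcases splay_L (zsp_bst hb hm hx) (zsp_mem hb hm hx) (zsp_bd hb hm hx hB) hv1 hxv with
    h | ⟨h, _⟩ | ⟨h, _⟩
  · exact ⟨h.2.1, h.2.2⟩
  · simp only at h
    omega
  · simp only at h
    omega

/-- **The right side of a step.** -/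
theorem zstep_R (hv : v ∈ inorder t) (hxv : x < v) :
    RF (fun w => w ∈ inorder t) x (fun w => lm w t lo) (fun w => rh w t hi)
      (fun w => lm w (zstep P x t) lo) (fun w => rh w (zstep P x t) hi) v := by
  obtain ⟨d1, d2, d3, d4, d5, d6⟩ := zone_bst hb hm hx hB
  have hb1 := zsp_bst hb hm hx
  have hm1 := zsp_mem hb hm hx
  have hB1 := zsp_bd hb hm hx hB
  by_cases hZ : v ∈ inorder (zone P x t)
  · refine (splay_R d1 d2 d3 hZ hxv).mono d6 hZ ?_ ?_ ?_ ?_ hxv (ends d1 d3 hZ).2.2.1
    · intro w hw
      exact (zone_ends hb hm hx hB w hw).1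
    · intro w hw
      exact (zone_ends hb hm hx hB w hw).2.1
    · intro w hw hxw
      rw [(zone_up hb hm hx hB hw hxw).2.1]
      exact (zone_ends hb hm hx hB w hw).2.2.1
    · intro w hw hxw
      rw [(zone_up hb hm hx hB hw hxw).2.2]
      exact (zone_ends hb hm hx hB w hw).2.2.2
  · have hv1 : v ∈ inorder (zsp P x t) := by
      rw [zsp_inorder hb hm hx]
      exact hv
    obtain ⟨e1, e2⟩ := zsp_other (lo := lo) (hi := hi) hb hm hx v hv hZ
    have hnz : ∀ w, x < w → lm w (zsp P x t) lo < x → w ∉ inorder (zone P x t) := by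
      intro w h1 h2 h3
      have := (zone_up hb hm hx hB h3 h1).1
      omega
    have hvr := (ends hb1 hB1 hv1).2.2.1
    have hzs : zstep P x t = splay x (zsp P x t) := rfl
    rcases splay_R hb1 hm1 hB1 hv1 hxv with ⟨h1, h2, h3⟩ | ⟨h1, h2, h3⟩ |
      ⟨h1, p, h2, h3, h4, h5, h6, h7, h8, h9, h10⟩
    · left
      simp only at h1 h2 h3 ⊢
      rw [e1] at h1
      exact ⟨h1, by rw [← e1]; exact h2, by rw [← e2]; exact h3⟩
    · right; left
      simp only at h1 h2 h3 ⊢
      refine ⟨by rw [← e1]; exact h1, h2, ?_⟩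
      rcases h3 with h3 | ⟨k1, k2, k3, k4, k5⟩
      · left
        rw [← e2]
        exact h3
      · right
        obtain ⟨w, hw⟩ : ∃ w, w = rh v (zsp P x t) hi := ⟨_, rfl⟩
        rw [← hw] at k1 k2 k3 k4 k5 hvr
        rw [← e2, ← hw]
        rw [zsp_inorder hb hm hx] at k1
        have hwZ := hnz w (by omega) (by omega)
        obtain ⟨f1, f2⟩ := zsp_other (lo := lo) (hi := hi) hb hm hx w k1 hwZ
        rw [hzs]
        exact ⟨k1, by omega, k3, by omega, by omega⟩
    · right; right
      simp only at h1 h2 h3 h4 h5 h6 h7 h8 h9 h10 ⊢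
      rw [zsp_inorder hb hm hx] at h2
      have hpZ := hnz p h3 (by omega)
      obtain ⟨f1, f2⟩ := zsp_other (lo := lo) (hi := hi) hb hm hx p h2 hpZ
      rw [hzs]
      exact ⟨by omega, p, h2, h3, h4, h5, by omega, by omega, by omega, h9, by omega⟩

/-- **The left side of a step.** -/
theorem zstep_L (hv : v ∈ inorder t) (hxv : v < x) :
    LF (fun w => w ∈ inorder t) x (fun w => lm w t lo) (fun w => rh w t hi)
      (fun w => lm w (zstep P x t) lo) (fun w => rh w (zstep P x t) hi) v := by
  obtain ⟨d1, d2, d3, d4, d5, d6⟩ := zone_bst hb hm hx hB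
  have hb1 := zsp_bst hb hm hx
  have hm1 := zsp_mem hb hm hx
  have hB1 := zsp_bd hb hm hx hB
  by_cases hZ : v ∈ inorder (zone P x t)
  · refine (splay_L d1 d2 d3 hZ hxv).mono d6 hZ ?_ ?_ ?_ ?_ hxv (ends d1 d3 hZ).2.1
    · intro w hw
      exact (zone_ends hb hm hx hB w hw).1
    · intro w hw
      exact (zone_ends hb hm hx hB w hw).2.1
    · intro w hw hxw
      rw [(zone_low hb hm hx hB hw hxw).2.1]
      exact (zone_ends hb hm hx hB w hw).2.2.1
    · intro w hw hxw
      rw [(zone_low hb hm hx hB hw hxw).2.2]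
      exact (zone_ends hb hm hx hB w hw).2.2.2
  · have hv1 : v ∈ inorder (zsp P x t) := by
      rw [zsp_inorder hb hm hx]
      exact hv
    obtain ⟨e1, e2⟩ := zsp_other (lo := lo) (hi := hi) hb hm hx v hv hZ
    have hnz : ∀ w, w < x → x < rh w (zsp P x t) hi → w ∉ inorder (zone P x t) := by
      intro w h1 h2 h3
      have := (zone_low hb hm hx hB h3 h1).1
      omega
    have hvr := (ends hb1 hB1 hv1).2.1
    have hzs : zstep P x t = splay x (zsp P x t) := rfl
    rcases splay_L hb1 hm1 hB1 hv1 hxv with ⟨h1, h2, h3⟩ | ⟨h1, h2, h3⟩ |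
      ⟨h1, p, h2, h3, h4, h5, h6, h7, h8, h9, h10⟩
    · left
      simp only at h1 h2 h3 ⊢
      rw [e2] at h1
      exact ⟨h1, by rw [← e1]; exact h2, by rw [← e2]; exact h3⟩
    · right; left
      simp only at h1 h2 h3 ⊢
      refine ⟨by rw [← e2]; exact h1, h2, ?_⟩
      rcases h3 with h3 | ⟨k1, k2, k3, k4, k5⟩
      · left
        rw [← e1]
        exact h3
      · right
        obtain ⟨w, hw⟩ : ∃ w, w = lm v (zsp P x t) lo := ⟨_, rfl⟩
        rw [← hw] at k1 k2 k3 k4 k5 hvr
        rw [← e1, ← hw]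
        rw [zsp_inorder hb hm hx] at k1
        have hwZ := hnz w (by omega) (by omega)
        obtain ⟨f1, f2⟩ := zsp_other (lo := lo) (hi := hi) hb hm hx w k1 hwZ
        rw [hzs]
        exact ⟨k1, by omega, k3, by omega, by omega⟩
    · right; right
      simp only at h1 h2 h3 h4 h5 h6 h7 h8 h9 h10 ⊢
      rw [zsp_inorder hb hm hx] at h2
      have hpZ := hnz p h3 (by omega)
      obtain ⟨f1, f2⟩ := zsp_other (lo := lo) (hi := hi) hb hm hx p h2 hpZ
      rw [hzs]
      exact ⟨by omega, p, h2, h3, h4, h5, by omega, by omega, by omega, h9, by omega⟩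

end

end Pool.Agent.SplTr.Sp
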