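import Pool.Agent.SplTr.SpSys

set_option autoImplicit false

/-!
# The zones after a two-phase splay
-/

namespace Pool.Agent.SplTr.Sp

open BinaryTree Pool.Agent.MP_c42954_lc.Scan Pool.Agent.SplPat Pool.Agent.SplLog Pool.Agent.SplLs
open scoped Classical

variable {P Q : ℕ → Prop} {x v w lo hi : ℕ} {t A B : BinaryTree ℕ}

/-- The left subtree of the root. -/
def leftOf : BinaryTree ℕ → BinaryTree ℕ
  | .nil => .nil
  | .node _ l _ => l

/-- The right subtree of the root. -/
def rightOf : BinaryTree ℕ → BinaryTree ℕ
  | .nil => .nil
  | .node _ _ r => r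

theorem zone_all : ∀ {t : BinaryTree ℕ}, (∀ w ∈ inorder t, ¬ P w) → zone P v t = t
  | .nil, _ => rfl
  | .node a _ _, h => zone_here (h a (mem_node.2 (Or.inr (Or.inl rfl))))

theorem zone_congr : ∀ {t : BinaryTree ℕ}, (∀ w ∈ inorder t, (P w ↔ Q w)) →
    zone P v t = zone Q v t
  | .nil, _ => rfl
  | .node a l r, h => by
      have ha := h a (mem_node.2 (Or.inr (Or.inl rfl)))
      by_cases hP : P a
      · have hQ := ha.1 hP
        by_cases hv : v < a
        · rw [zone_left hP hv, zone_left hQ hv]
          exact zone_congr (fun w hw => h w (mem_node.2 (Or.inl hw)))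
        · rw [zone_right hP hv, zone_right hQ hv]
          exact zone_congr (fun w hw => h w (mem_node.2 (Or.inr (Or.inr hw))))
      · have hQ : ¬ Q a := fun hq => hP (ha.2 hq)
        rw [zone_here hP, zone_here hQ]

theorem ev_zone (h : Ev x t A B) (hQ : Q x) : IsBST t → Inv Q t →
    (v < x → zone Q v t = zone Q v A) ∧ (x < v → zone Q v t = zone Q v B) := by
  induction h with
  | base A B =>
    intro _ _
    refine ⟨fun h => ?_, fun h => ?_⟩
    · rw [zone_left hQ h]
    · rw [zone_right hQ (by omega)]
  | @ll p g L C D A B h1 h2 h3 ih =>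
    intro hb hI
    have hm := ev_mem h3
    have hg := inv_root hI hQ (Or.inl (mem_node.2 (Or.inl hm)))
    have hp := inv_root hI.1 hQ (Or.inl hm)
    obtain ⟨b1, b2, b3, b4⟩ := bst_node.1 hb
    obtain ⟨c1, c2, c3, c4⟩ := bst_node.1 b1
    have hpg := b3 p (mem_node.2 (Or.inr (Or.inl rfl)))
    obtain ⟨i1, i2⟩ := ih c1 hI.1.1
    refine ⟨fun h => ?_, fun h => ?_⟩
    · rw [zone_left hg (by omega), zone_left hp (by omega), i1 h]
    · by_cases k1 : v < p
      · rw [zone_left hg (by omega), zone_left hp k1, zone_left hp k1, i2 h]
      · by_cases k2 : v < g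
        · rw [zone_left hg k2, zone_right hp k1, zone_right hp k1, zone_left hg k2]
        · rw [zone_right hg k2, zone_right hp k1, zone_right hg k2]
  | @lr p g R C D A B h1 h2 h3 ih =>
    intro hb hI
    have hm := ev_mem h3
    have hg := inv_root hI hQ (Or.inl (mem_node.2 (Or.inr (Or.inr hm))))
    have hp := inv_root hI.1 hQ (Or.inr hm)
    obtain ⟨b1, b2, b3, b4⟩ := bst_node.1 hb
    obtain ⟨c1, c2, c3, c4⟩ := bst_node.1 b1
    obtain ⟨i1, i2⟩ := ih c2 hI.1.2.1
    refine ⟨fun h => ?_, fun h => ?_⟩
    · rw [zone_left hg (by omega)]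
      by_cases k1 : v < p
      · rw [zone_left hp k1, zone_left hp k1]
      · rw [zone_right hp k1, zone_right hp k1, i1 h]
    · by_cases k2 : v < g
      · rw [zone_left hg k2, zone_right hp (by omega), zone_left hg k2, i2 h]
      · rw [zone_right hg k2, zone_right hg k2]
  | @rr p g R C D A B h1 h2 h3 ih =>
    intro hb hI
    have hm := ev_mem h3
    have hg := inv_root hI hQ (Or.inr (mem_node.2 (Or.inr (Or.inr hm))))
    have hp := inv_root hI.2.1 hQ (Or.inr hm)
    obtain ⟨b1, b2, b3, b4⟩ := bst_node.1 hb
    obtain ⟨c1, c2, c3, c4⟩ := bst_node.1 b2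
    have hpg := b4 p (mem_node.2 (Or.inr (Or.inl rfl)))
    obtain ⟨i1, i2⟩ := ih c2 hI.2.1.2.1
    refine ⟨fun h => ?_, fun h => ?_⟩
    · by_cases k1 : v < g
      · rw [zone_left hg k1, zone_left hp (by omega), zone_left hg k1]
      · by_cases k2 : v < p
        · rw [zone_right hg k1, zone_left hp k2, zone_left hp k2, zone_right hg k1]
        · rw [zone_right hg k1, zone_right hp k2, zone_right hp k2, i1 h]
    · rw [zone_right hg (by omega), zone_right hp (by omega), i2 h]
  | @rl p g L C D A B h1 h2 h3 ih =>
    intro hb hI
    have hm := ev_mem h3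
    have hg := inv_root hI hQ (Or.inr (mem_node.2 (Or.inl hm)))
    have hp := inv_root hI.2.1 hQ (Or.inl hm)
    obtain ⟨b1, b2, b3, b4⟩ := bst_node.1 hb
    obtain ⟨c1, c2, c3, c4⟩ := bst_node.1 b2
    obtain ⟨i1, i2⟩ := ih c1 hI.2.1.1
    refine ⟨fun h => ?_, fun h => ?_⟩
    · by_cases k1 : v < g
      · rw [zone_left hg k1, zone_left hg k1]
      · rw [zone_right hg k1, zone_left hp (by omega), zone_right hg k1, i1 h]
    · rw [zone_right hg (by omega)]
      by_cases k2 : v < p
      · rw [zone_left hp k2, zone_left hp k2, i2 h]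
      · rw [zone_right hp k2, zone_right hp k2]

/-- Splaying a key with `Q` does not change the zones. -/
theorem zone_splay (hb : IsBST t) (hm : x ∈ inorder t) (hQ : Q x) (hI : Inv Q t) (hv : v ≠ x) :
    zone Q v (splay x t) = zone Q v t := by
  obtain ⟨A, B, h1, h2⟩ := spl_exists hb hm
  rw [h2]
  cases h1 with
  | ev h3 =>
    obtain ⟨i1, i2⟩ := ev_zone (v := v) h3 hQ hb hI
    rcases Nat.lt_or_gt_of_ne hv with h | h
    · rw [zone_left hQ h, i1 h]
    · rw [zone_right hQ (by omega), i2 h]
  | @zl g L D A B' h4 h3 =>
    obtain ⟨c1, c2, c3, c4⟩ := bst_node.1 hb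
    have hg := inv_root hI hQ (Or.inl (ev_mem h3))
    obtain ⟨i1, i2⟩ := ev_zone (v := v) h3 hQ c1 hI.1
    rcases Nat.lt_or_gt_of_ne hv with h | h
    · rw [zone_left hQ h, zone_left hg (by omega), i1 h]
    · rw [zone_right hQ (by omega)]
      by_cases k : v < g
      · rw [zone_left hg k, zone_left hg k, i2 h]
      · rw [zone_right hg k, zone_right hg k]
  | @zr g R D A' B h4 h3 =>
    obtain ⟨c1, c2, c3, c4⟩ := bst_node.1 hb
    have hg := inv_root hI hQ (Or.inr (ev_mem h3))
    obtain ⟨i1, i2⟩ := ev_zone (v := v) h3 hQ c2 hI.2.1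
    rcases Nat.lt_or_gt_of_ne hv with h | h
    · rw [zone_left hQ h]
      by_cases k : v < g
      · rw [zone_left hg k, zone_left hg k]
      · rw [zone_right hg k, zone_right hg k, i1 h]
    · rw [zone_right hQ (by omega), zone_right hg (by omega), i2 h]

/-- The zones after the first phase. -/
theorem zone_zsp : ∀ {t : BinaryTree ℕ}, IsBST t → x ∈ inorder t → ¬ P x → Inv P t →
    v ∈ inorder t → ¬ P v → v ≠ x →
    zone (fun w => P w ∨ w = x) v (zsp P x t) =
      if v ∈ inorder (zone P x t) ∧ v < x then leftOf (splay x (zone P x t))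
      else if v ∈ inorder (zone P x t) ∧ x < v then rightOf (splay x (zone P x t))
      else zone P v t
  | .nil, _, hm, _, _, _, _, _ => by simp [inorder] at hm
  | .node a l r, hb, hm, hx, hI, hv, hPv, hne => by
      obtain ⟨h1, h2, h3, h4⟩ := bst_node.1 hb
      by_cases hP : P a
      · have hP' : (fun w => P w ∨ w = x) a := Or.inl hP
        have hva : v ≠ a := by
          rintro rfl
          exact hPv hP
        rcases side hb hm hP hx with ⟨c1, c2⟩ | ⟨c1, c2, c3⟩
        · rw [zsp_left hP c1, zone_left hP c1]
          rcases mem_node.1 hv with h | h | h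
          · have e := h3 v h
            rw [zone_left hP' e, zone_left hP e]
            exact zone_zsp h1 c2 hx hI.1 h hPv hne
          · exact absurd h hva
          · have e := h4 v h
            have hn : v ∉ inorder (zone P x l) := by
              intro hh
              have := h3 v (zone_sub l hh)
              omega
            rw [zone_right hP' (by omega), zone_right hP (by omega), if_neg (fun hh => hn hh.1),
              if_neg (fun hh => hn hh.1)]
            apply zone_congr
            intro w hw
            have := h4 w hw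
            constructor
            · rintro (h | h)
              · exact h
              · omega
            · exact Or.inl
        · rw [zsp_right hP c1, zone_right hP c1]
          rcases mem_node.1 hv with h | h | h
          · have e := h3 v h
            have hn : v ∉ inorder (zone P x r) := by
              intro hh
              have := h4 v (zone_sub r hh)
              omega
            rw [zone_left hP' e, zone_left hP e, if_neg (fun hh => hn hh.1),
              if_neg (fun hh => hn hh.1)]
            apply zone_congr
            intro w hw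
            have := h3 w hw
            constructor
            · rintro (h | h)
              · exact h
              · omega
            · exact Or.inl
          · exact absurd h hva
          · have e := h4 v h
            rw [zone_right hP' (by omega), zone_right hP (by omega)]
            exact zone_zsp h2 c3 hx hI.2.1 h hPv hne
      · have hz := zone_notP hI hb hm hx
        rw [zone_here hP] at hz ⊢
        rw [zsp_here hP]
        obtain ⟨A, B, e1, e2⟩ := spl_exists hb hm
        have e3 := splay_inorder hb hm
        have e4 := splay_bst hb hm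
        rw [e2] at e3 e4 ⊢
        obtain ⟨g1, g2, g3, g4⟩ := bst_node.1 e4
        have hA : ∀ w ∈ inorder A, ¬ (P w ∨ w = x) := by
          rintro w hw (h | h)
          · exact hz w (by rw [← e3]; exact mem_node.2 (Or.inl hw)) h
          · have := g3 w hw
            omega
        have hB : ∀ w ∈ inorder B, ¬ (P w ∨ w = x) := by
          rintro w hw (h | h)
          · exact hz w (by rw [← e3]; exact mem_node.2 (Or.inr (Or.inr hw))) h
          · have := g4 w hw
            omega
        have hQ : (fun w => P w ∨ w = x) x := Or.inr rfl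
        rcases Nat.lt_or_gt_of_ne hne with h | h
        · rw [if_pos ⟨hv, h⟩, zone_left hQ h, zone_all hA]
          rfl
        · rw [if_neg (fun hh => by omega), if_pos ⟨hv, h⟩, zone_right hQ (by omega), zone_all hB]
          rfl
where
  zone_sub : ∀ (t : BinaryTree ℕ) {w : ℕ}, w ∈ inorder (zone P x t) → w ∈ inorder t
    | .nil, _, h => h
    | .node a l r, w, h => by
        by_cases hP : P a
        · by_cases hx : x < a
          · rw [zone_left hP hx] at h
            exact mem_node.2 (Or.inl (zone_sub l h))
          · rw [zone_right hP hx] at h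
            exact mem_node.2 (Or.inr (Or.inr (zone_sub r h)))
        · rw [zone_here hP] at h
          exact h

/-- **The zones after a request.** -/
theorem zone_zstep (hb : IsBST t) (hm : x ∈ inorder t) (hx : ¬ P x) (hI : Inv P t)
    (hv : v ∈ inorder t) (hPv : ¬ P v) (hne : v ≠ x) :
    zone (fun w => P w ∨ w = x) v (zstep P x t) =
      if v ∈ inorder (zone P x t) ∧ v < x then leftOf (splay x (zone P x t))
      else if v ∈ inorder (zone P x t) ∧ x < v then rightOf (splay x (zone P x t))
      else zone P v t := by
  rw [zstep, zone_splay (zsp_bst hb hm hx) (zsp_mem hb hm hx) (Or.inr rfl)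
    (inv_zsp hb hm hx hI) hne]
  exact zone_zsp hb hm hx hI hv hPv hne

end Pool.Agent.SplTr.Sp
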