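import Pool.Agent.SplTr.MirG

set_option autoImplicit false

/-!
# Walls of the zones
-/

namespace Pool.Agent.SplTr

open Pool.Agent.SplLog Pool.Agent.SplLs Pool.Agent.SplDq
open scoped Classical

variable {S : Sys} {s t u v w g p a b : ℕ}

theorem zl_spec (S : Sys) (t v : ℕ) :
    zl S t v = 0 ∨ (Seen S t (zl S t v) ∧ zl S t v < v) := by
  have h : zl S t v ∈ {w | w = 0 ∨ (Seen S t w ∧ w < v)} := by
    apply Nat.sSup_mem ⟨0, Or.inl rfl⟩
    refine ⟨v, ?_⟩
    rintro w (h | h)
    · omega
    · exact h.2.le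
  exact h

theorem le_zl (h : Seen S t w) (hw : w < v) : w ≤ zl S t v := by
  apply le_csSup
  · refine ⟨v, ?_⟩
    rintro w (h | h)
    · omega
    · exact h.2.le
  · exact Or.inr ⟨h, hw⟩

theorem zl_lt (hv : 0 < v) : zl S t v < v := by
  rcases zl_spec S t v with h | h
  · omega
  · exact h.2

theorem zl_le (S : Sys) (t v : ℕ) : zl S t v ≤ v := by
  rcases zl_spec S t v with h | h
  · omega
  · exact h.2.le

theorem zr_spec (S : Sys) (t v : ℕ) :
    zr S t v = S.top ∨ (Seen S t (zr S t v) ∧ v < zr S t v) := by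
  have h : zr S t v ∈ {w | w = S.top ∨ (Seen S t w ∧ v < w)} := Nat.sInf_mem ⟨S.top, Or.inl rfl⟩
  exact h

theorem zr_le (h : Seen S t w) (hw : v < w) : zr S t v ≤ w := Nat.sInf_le (Or.inr ⟨h, hw⟩)

theorem zr_le_top (S : Sys) (t v : ℕ) : zr S t v ≤ S.top := Nat.sInf_le (Or.inl rfl)

theorem lt_zr (hv : v < S.top) : v < zr S t v := by
  rcases zr_spec S t v with h | h
  · omega
  · exact h.2

theorem zl_mono (hst : s ≤ t) : zl S s v ≤ zl S t v := by
  rcases zl_spec S s v with h | h
  · omega
  · exact le_zl (seen_mono h.1 hst) h.2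

theorem zr_anti (hst : s ≤ t) : zr S t v ≤ zr S s v := by
  rcases zr_spec S s v with h | h
  · rw [h]
    exact zr_le_top S t v
  · exact zr_le (seen_mono h.1 hst) h.2

theorem zl_mono_key (h : u ≤ v) : zl S t u ≤ zl S t v := by
  rcases zl_spec S t u with h1 | h1
  · omega
  · exact le_zl h1.1 (by omega)

theorem zr_mono_key (h : u ≤ v) : zr S t u ≤ zr S t v := by
  rcases zr_spec S t v with h1 | h1
  · rw [h1]
    exact zr_le_top S t u
  · exact zr_le h1.1 (by omega)

theorem not_seen_left (h1 : zl S t v < w) (h2 : w < v) : ¬ Seen S t w := by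
  intro h
  have := le_zl h h2
  omega

theorem not_seen_right (h1 : v < w) (h2 : w < zr S t v) : ¬ Seen S t w := by
  intro h
  have := zr_le h h1
  omega

/-- The left wall is the same if there is no seen key in `[u, v)`. -/
theorem zl_eq (huv : u ≤ v) (h : ∀ w, u ≤ w → w < v → ¬ Seen S t w) :
    zl S t v = zl S t u := by
  apply le_antisymm _ (zl_mono_key huv)
  rcases zl_spec S t v with h1 | h1
  · omega
  · rcases Nat.lt_or_ge (zl S t v) u with h2 | h2
    · exact le_zl h1.1 h2
    · exact absurd h1.1 (h _ h2 h1.2)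

/-- The right wall is the same if there is no seen key in `(u, v]`. -/
theorem zr_eq (huv : u ≤ v) (h : ∀ w, u < w → w ≤ v → ¬ Seen S t w) :
    zr S t v = zr S t u := by
  apply le_antisymm _ (zr_mono_key huv)
  rcases zr_spec S t u with h1 | h1
  · rw [h1]
    exact zr_le_top S t v
  · rcases Nat.lt_or_ge v (zr S t u) with h2 | h2
    · exact zr_le h1.1 h2
    · exact absurd h1.1 (h _ h1.2 h2)

theorem zl_mir (hv : v ≤ S.top) : zl S.mir t (S.top - v) = S.top - zr S t v := by
  have h0 := zr_le_top S t v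
  apply le_antisymm
  · rcases zl_spec S.mir t (S.top - v) with h | h
    · omega
    · obtain ⟨s, h1, h2, h3⟩ := h.1
      have h4 := h.2
      rw [mir_X] at h3
      have h5 := S.key _ (S.req s h2)
      have h6 : zr S t v ≤ S.X s := zr_le ⟨s, h1, h2, rfl⟩ (by omega)
      omega
  · rcases zr_spec S t v with h | h
    · omega
    · have h1 := S.key _ (seen_mem h.1)
      exact le_zl ((seen_mir h1.2.le h1.1).2 h.1) (by omega)

theorem zr_mir (hv : v ≤ S.top) : zr S.mir t (S.top - v) = S.top - zl S t v := by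
  have h0 := zl_le S t v
  apply le_antisymm
  · rcases zl_spec S t v with h | h
    · rw [h]
      exact zr_le_top S.mir t _
    · have h1 := S.key _ (seen_mem h.1)
      exact zr_le ((seen_mir h1.2.le h1.1).2 h.1) (by omega)
  · rcases zr_spec S.mir t (S.top - v) with h | h
    · rw [h, mir_top]
      omega
    · obtain ⟨s, h1, h2, h3⟩ := h.1
      have h4 := h.2
      rw [mir_X] at h3
      have h5 := S.key _ (S.req s h2)
      have h6 : S.X s ≤ zl S t v := le_zl ⟨s, h1, h2, rfl⟩ (by omega)
      omega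

theorem lw_mir (ht : t < S.m) : lw S.mir t = S.top - rw S t := by
  unfold lw rw
  rw [mir_X]
  exact zl_mir (S.key _ (S.req t ht)).2.le

theorem rw_mir (ht : t < S.m) : rw S.mir t = S.top - lw S t := by
  unfold lw rw
  rw [mir_X]
  exact zr_mir (S.key _ (S.req t ht)).2.le

theorem lv_mir (hv : v ∈ S.K) (ht : t ≤ S.m) : LV S.mir t (S.top - v) ↔ RV S t v := by
  unfold LV RV
  have h1 := S.key v hv
  have h2 := S.rho_le_top ht hv
  have h3 := zr_le_top S t v
  rw [Sys.mir_lam hv, zl_mir h1.2.le]
  omega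

theorem rv_mir (hv : v ∈ S.K) (ht : t ≤ S.m) : RV S.mir t (S.top - v) ↔ LV S t v := by
  unfold LV RV
  have h1 := S.key v hv
  have h2 := S.lam_lt_top ht hv
  have h3 := zl_lt (S := S) (t := t) h1.1
  rw [Sys.mir_rho hv, zr_mir h1.2.le]
  omega

/-- The request is not seen before. -/
theorem not_seen_X (hS : Spl S) (ht : t < S.m) : ¬ Seen S t (S.X t) := by
  rintro ⟨s, h1, h2, h3⟩
  have := hS.inj s t h2 ht h3
  omega

theorem seen_X (ht : t < S.m) (h : t < u) : Seen S u (S.X t) := ⟨t, h, ht, rfl⟩

/-- No seen key lies between the request and a touched unseen key. -/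
theorem loc_R (hS : Spl S) (h : S.R t v) (hv : ¬ Seen S t v) (h1 : S.X t ≤ w) (h2 : w ≤ v) :
    ¬ Seen S t w := by
  rcases Nat.eq_or_lt_of_le h1 with h3 | h3
  · rw [← h3]
    exact not_seen_X hS h.1
  · rcases Nat.eq_or_lt_of_le h2 with h4 | h4
    · rw [h4]
      exact hv
    · rintro ⟨s, h5, _, h6⟩
      rcases hS.loc t v (Sys.R_E h) with h7 | h7
      · exact hv h7
      · exact (h7 s h5).1 ⟨by omega, by omega⟩

theorem loc_L (hS : Spl S) (h : S.L t v) (hv : ¬ Seen S t v) (h1 : v ≤ w) (h2 : w ≤ S.X t) :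
    ¬ Seen S t w := by
  rcases Nat.eq_or_lt_of_le h2 with h3 | h3
  · rw [h3]
    exact not_seen_X hS h.1
  · rcases Nat.eq_or_lt_of_le h1 with h4 | h4
    · rw [← h4]
      exact hv
    · rintro ⟨s, h5, _, h6⟩
      rcases hS.loc t v (Sys.L_E h) with h7 | h7
      · exact hv h7
      · exact (h7 s h5).2 ⟨by omega, by omega⟩

/-- The walls of a touched unseen key are the walls of the request. -/
theorem walls_touch (hS : Spl S) (h : S.E t v) (hv : ¬ Seen S t v) :
    zl S t v = lw S t ∧ zr S t v = rw S t := by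
  rcases h with h | h | h
  · have h1 := h.2.2.1
    exact ⟨zl_eq h1.le (fun w a b => loc_R hS h hv a b.le),
      zr_eq h1.le (fun w a b => loc_R hS h hv a.le b)⟩
  · have h1 := h.2.2.1
    exact ⟨(zl_eq h1.le (fun w a b => loc_L hS h hv a b.le)).symm,
      (zr_eq h1.le (fun w a b => loc_L hS h hv a.le b)).symm⟩
  · rw [h.2.2]
    exact ⟨rfl, rfl⟩

theorem seen_succ (ht : t < S.m) : Seen S (t + 1) v ↔ Seen S t v ∨ v = S.X t := by
  constructor
  · rintro ⟨s, h1, h2, h3⟩
    rcases Nat.lt_or_ge s t with h4 | h4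
    · exact Or.inl ⟨s, h4, h2, h3⟩
    · have : s = t := by omega
      subst this
      exact Or.inr h3.symm
  · rintro (h | h)
    · exact seen_mono h (Nat.le_succ t)
    · rw [h]
      exact seen_X ht (Nat.lt_succ_self t)

theorem zl_succ (ht : t < S.m) :
    zl S (t + 1) v = if S.X t < v then max (zl S t v) (S.X t) else zl S t v := by
  split_ifs with h
  · apply le_antisymm
    · rcases zl_spec S (t + 1) v with h1 | h1
      · omega
      · rcases (seen_succ ht).1 h1.1 with h2 | h2
        · have := le_zl h2 h1.2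
          omega
        · omega
    · apply max_le (zl_mono (Nat.le_succ t))
      exact le_zl (seen_X ht (Nat.lt_succ_self t)) h
  · refine le_antisymm ?_ (zl_mono (Nat.le_succ t))
    rcases zl_spec S (t + 1) v with h1 | h1
    · omega
    · rcases (seen_succ ht).1 h1.1 with h2 | h2
      · exact le_zl h2 h1.2
      · omega

theorem zr_succ (ht : t < S.m) :
    zr S (t + 1) v = if v < S.X t then min (zr S t v) (S.X t) else zr S t v := by
  split_ifs with h
  · apply le_antisymm
    · apply le_min (zr_anti (Nat.le_succ t))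
      exact zr_le (seen_X ht (Nat.lt_succ_self t)) h
    · rcases zr_spec S (t + 1) v with h1 | h1
      · have h2 := (S.key _ (S.req t ht)).2
        omega
      · rcases (seen_succ ht).1 h1.1 with h2 | h2
        · have := zr_le h2 h1.2
          omega
        · omega
  · apply le_antisymm (zr_anti (Nat.le_succ t))
    rcases zr_spec S (t + 1) v with h1 | h1
    · rw [h1]
      exact zr_le_top S t v
    · rcases (seen_succ ht).1 h1.1 with h2 | h2
      · exact zr_le h2 h1.2
      · omega

/-- The walls after a touch from the left. -/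
theorem walls_R (hS : Spl S) (h : S.R t v) (hv : ¬ Seen S t v) :
    zl S (t + 1) v = S.X t ∧ zr S (t + 1) v = rw S t := by
  have h1 := walls_touch hS (Sys.R_E h) hv
  have h2 := h.2.2.1
  have h3 : lw S t ≤ S.X t := zl_le S t _
  rw [zl_succ h.1, zr_succ h.1, if_pos h2, if_neg (by omega), h1.1, h1.2]
  exact ⟨max_eq_right h3, rfl⟩

/-- The walls after a touch from the right. -/
theorem walls_L (hS : Spl S) (h : S.L t v) (hv : ¬ Seen S t v) :
    zl S (t + 1) v = lw S t ∧ zr S (t + 1) v = S.X t := by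
  have h1 := walls_touch hS (Sys.L_E h) hv
  have h2 := h.2.2.1
  have h3 : S.X t < rw S t := lt_zr (S.key _ (S.req t h.1)).2
  rw [zl_succ h.1, zr_succ h.1, if_neg (by omega), if_pos h2, h1.1, h1.2]
  exact ⟨rfl, min_eq_right h3.le⟩

/-- The walls of a key which is not in the zone of the request. -/
theorem walls_other (ht : t < S.m) (h : S.X t < zl S t v ∨ zr S t v < S.X t) :
    zl S (t + 1) v = zl S t v ∧ zr S (t + 1) v = zr S t v := by
  have h1 := zl_le S t v
  rw [zl_succ ht, zr_succ ht]
  rcases h with h | h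
  · rw [if_pos (by omega), if_neg (by omega)]
    exact ⟨max_eq_left h.le, rfl⟩
  · rcases Nat.lt_or_ge v (S.X t) with h2 | h2
    · rw [if_neg (by omega), if_pos h2]
      exact ⟨rfl, min_eq_left h.le⟩
    · rcases zr_spec S t v with h3 | h3
      · have := (S.key _ (S.req t ht)).2
        omega
      · omega

/-- The left end of a key touched from the right. -/
theorem L_lam (h : S.L t v) : S.lam (t + 1) v = S.lam t v ∨
    (S.lam t v ∈ S.K ∧ S.L t (S.lam t v) ∧ S.lam (t + 1) v = S.lam t (S.lam t v)) := by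
  obtain ⟨ht, hv, hx, hl⟩ := h
  rcases S.left t ht v hv hx with h4 | ⟨_, h4, h5⟩ | ⟨_, p, _, h5, _, h6, h7, _⟩
  · omega
  · rcases h5 with h5 | ⟨c1, c2, c3, c4, c5⟩
    · exact Or.inl h5
    · right
      have h6 := S.lam_lt t ht.le v hv
      exact ⟨c1, ⟨ht, c1, by omega, by omega⟩, c5⟩
  · exact Or.inl h7

/-- An ancestor of a touched key is touched. -/
theorem E_lam (h : S.E t v) (hl : S.lam t v ∈ S.K) : S.E t (S.lam t v) := by
  have h1 := Sys.E_lt h
  have h2 := Sys.E_mem h
  refine Sys.E_up h hl ?_ (S.lam_anc t h1.le v h2 hl)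
  have h3 := S.lam_lt t h1.le v h2
  have h4 := S.lam_lt t h1.le _ hl
  omega

/-- **Zone law.**  If `v` and `lam v` are unseen, then no seen key lies between them. -/
theorem zone_lam (hS : Spl S) : ∀ t, t ≤ S.m → ∀ v ∈ S.K, ¬ Seen S t v → S.lam t v ∈ S.K →
    ¬ Seen S t (S.lam t v) → ∀ w, S.lam t v ≤ w → w ≤ v → ¬ Seen S t w := by
  intro t
  induction t with
  | zero =>
    rintro _ v _ _ _ _ w _ _ ⟨s, h, _⟩
    omega
  | succ t ih =>
    intro ht v hv hU hl hlU w h1 h2 hw
    have ht' : t < S.m := ht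
    have hne1 : w ≠ v := fun h => hU (h ▸ hw)
    have hne2 : w ≠ S.lam (t + 1) v := fun h => hlU (h ▸ hw)
    have hlt := S.lam_lt (t + 1) ht v hv
    rw [seen_succ ht'] at hU hlU hw
    push Not at hU hlU
    by_cases hE : S.E t v
    · rcases hE with hR | hL | hA
      · -- touched from the left
        rcases R_cases hR with c | c | ⟨q, c1, c2, c3⟩
        · exact hlU.2 c.1
        · exact hlU.2 c.1
        · have h3 := R_gt (kl_R' c1)
          rcases hw with h4 | h4
          · exact loc_R hS hR hU.1 (by omega) (by omega) h4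
          · omega
      · -- touched from the right
        have h5 : S.L t (S.lam (t + 1) v) := by
          rcases L_lam hL with c | ⟨c1, c2, c3⟩
          · have h6 := E_lam (Sys.L_E hL) (by rw [← c]; exact hl)
            rw [← c] at h6
            have h7 := hL.2.2.1
            have h8 := Sys.E_int h6
            exact ⟨ht', hl, by omega, h8.2⟩
          · have h6 := E_lam (Sys.L_E c2) (by rw [← c3]; exact hl)
            rw [← c3] at h6
            have h7 := hL.2.2.1
            have h8 := Sys.E_int h6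
            exact ⟨ht', hl, by omega, h8.2⟩
        have h6 := hL.2.2.1
        rcases hw with h4 | h4
        · exact loc_L hS h5 hlU.1 (by omega) (by omega) h4
        · omega
      · exact hU.2 hA.2.2
    · have h3 := (Sys.untouched ht' hv hE).1
      rw [h3] at hl hlU h1 hne2 hlt
      rcases hw with h4 | h4
      · exact ih (by omega) v hv hU.1 hl hlU.1 w h1 h2 h4
      · apply hE
        rw [Sys.E_iff ht' hv]
        have h5 := S.lt_rho t ht'.le v hv
        omega

/-- The left end of an unseen key: visible or in the zone. -/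
theorem lv_or (ht : t ≤ S.m) (hv : v ∈ S.K) :
    LV S t v ∨ (zl S t v < S.lam t v ∧ S.lam t v ∈ S.K ∧ ¬ Seen S t (S.lam t v)) := by
  rcases Nat.lt_or_ge (zl S t v) (S.lam t v) with h | h
  · right
    have h1 : S.lam t v ∈ S.K := by
      rcases S.lam_mem t ht v hv with h2 | h2
      · omega
      · exact h2
    refine ⟨h, h1, fun h2 => ?_⟩
    have := le_zl h2 (S.lam_lt t ht v hv)
    omega
  · exact Or.inl h

theorem lv_iff (hS : Spl S) (ht : t ≤ S.m) (hv : v ∈ S.K) (hU : ¬ Seen S t v) :
    LV S t v ↔ S.lam t v = 0 ∨ Seen S t (S.lam t v) := by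
  constructor
  · intro h
    by_contra hc
    push Not at hc
    have h1 : S.lam t v ∈ S.K := by
      rcases S.lam_mem t ht v hv with h2 | h2
      · exact absurd h2 hc.1
      · exact h2
    unfold LV at h
    rcases zl_spec S t v with h2 | h2
    · omega
    · exact zone_lam hS t ht v hv hU h1 hc.2 _ h h2.2.le h2.1
  · rintro (h | h)
    · unfold LV
      omega
    · exact le_zl h (S.lam_lt t ht v hv)

theorem zone_rho (hS : Spl S) (ht : t ≤ S.m) (hv : v ∈ S.K) (hU : ¬ Seen S t v)
    (hl : S.rho t v ∈ S.K) (hlU : ¬ Seen S t (S.rho t v)) (h1 : v ≤ w) (h2 : w ≤ S.rho t v) :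
    ¬ Seen S t w := by
  intro hw
  have hS' := spl_mir' hS
  have k1 := S.key v hv
  have k2 := S.key _ hl
  have k3 := S.key w (seen_mem hw)
  have hv' : S.top - v ∈ S.mir.K := Sys.mir_mem.2 ⟨v, hv, rfl⟩
  have e : S.mir.lam t (S.top - v) = S.top - S.rho t v := Sys.mir_lam hv
  refine zone_lam hS' t ht (S.top - v) hv' ?_ ?_ ?_ (S.top - w) ?_ ?_ ?_
  · rw [seen_mir k1.2.le k1.1]
    exact hU
  · rw [e]
    exact Sys.mir_mem.2 ⟨_, hl, rfl⟩
  · rw [e, seen_mir k2.2.le k2.1]
    exact hlU
  · rw [e]
    omega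
  · omega
  · rw [seen_mir k3.2.le k3.1]
    exact hw

theorem rv_iff (hS : Spl S) (ht : t ≤ S.m) (hv : v ∈ S.K) (hU : ¬ Seen S t v) :
    RV S t v ↔ S.rho t v = S.top ∨ Seen S t (S.rho t v) := by
  constructor
  · intro h
    by_contra hc
    push Not at hc
    have h1 : S.rho t v ∈ S.K := by
      rcases S.rho_mem t ht v hv with h2 | h2
      · exact absurd h2 hc.1
      · exact h2
    have h3 := S.key _ h1
    unfold RV at h
    rcases zr_spec S t v with h2 | h2
    · omega
    · exact zone_rho hS ht hv hU h1 hc.2 h2.2.le h h2.1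
  · rintro (h | h)
    · unfold RV
      rw [h]
      exact zr_le_top S t v
    · exact zr_le h (S.lt_rho t ht v hv)

end Pool.Agent.SplTr
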